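import Pool.Agent.Helper59.RG.St

/-!
# Project RG (MP_4d33fe_pr): on good configurations all notions of paths agree.
-/

set_option autoImplicit false

namespace Pool.Agent.Helper59.RG

open MeasureTheory Set
open scoped ENNReal

/-- existence of a narrow path -/
theorem A0x.narrow (hG1 : G1) (hG4 : G4) (c : Cx) (Λ : ℝ) (C : Multiset E) (s z : E) (k : ℕ)
    (hc : c.Ok Λ) (hT : c.TP C) (hs : s ∈ C) (hA : s ∈ c.A) (hz : z = c.u ∨ z = c.v)
    (hk : k < c.K) (h : Rch c.r z univ C k s) : Rch c.r z (Nar c.r c.th z s) C k s := by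
  obtain ⟨g1, g2, -, -, -, -, -, -, -, -, -, -, -, -, -, -, -, -, -, -, g3, -⟩ := hG4 c Λ hc
  have hCn := g1 hA
  obtain ⟨a1, a2, a3⟩ := g2 s hCn z hz
  by_cases hle : nm (s - z) ≤ ((k : ℝ) + 1) * (c.r - c.h)
  · exact hT s hs hCn z hz k hk hle
  · have hr := hc.hr
    have := hG1 c.r c.h c.K k z s C hc.hr hc.hh g3 hk (by linarith) a2 a3 (by linarith) h
    exact this

theorem pf_A0 (hG1 : G1) (hG4 : G4) (hR1 : R1) : A0 := by
  intro c Λ C s z k j hc hT hs hA hz hk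
  obtain ⟨-, -, g3, g4, -⟩ := hG4 c Λ hc
  have hA' : s ∈ c.A := hA.1
  have key := A0x.narrow hG1 hG4 c Λ C s z k hc hT hs hA' hz hk
  have mono : ∀ W W' : Set E, W ⊆ W' → Rch c.r z W C k s → Rch c.r z W' C k s :=
    fun W W' hW h => hR1.1 c.r z s W W' C C k (fun y hy hyW => ⟨hy, hW hyW⟩) h
  exact ⟨⟨fun h => mono _ _ (g3 j s hA z hz) (key h), mono _ _ (subset_univ _)⟩,
    ⟨fun h => mono _ _ (g4 s hA' z hz).1 (key h), mono _ _ (subset_univ _)⟩⟩

end Pool.Agent.Helper59.RG
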