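import Pool.Agent.Helper59.RG.St

/-!
# Piece A01: separated points are near the boundary of a ball
-/

set_option autoImplicit false

namespace Pool.Agent.Helper59.RG

open MeasureTheory Set
open scoped ENNReal

theorem pf_A01 (hG0 : G0) (hG4 : G4) (hR1 : R1) : A01 := by
  intro c Λ C s k hok hTP hsC hsA hk hu hv
  have hCn : s ∈ c.Cn := (hG4 c Λ hok).1 hsA
  refine ⟨hsA, k, hk, ?_, hR1.2.2.2 _ _ _ _ _ _ hu⟩
  by_contra hcon
  rw [not_lt] at hcon
  have h1 : nm (s - c.v) ≤ nm (s - c.u) + nm (c.u - c.v) := by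
    have h2 := hG0.1 (s - c.u) (c.u - c.v)
    rwa [sub_add_sub_cancel] at h2
  have h3 : nm (s - c.v) ≤ (k + 1) * (c.r - c.h) := by
    have h4 : c.rho = nm (c.u - c.v) := rfl
    rw [h4] at hcon
    linarith
  have h5 := hTP s hsC hCn c.v (Or.inr rfl) k hk h3
  exact hv (hR1.1 _ _ _ _ _ _ _ _ (fun y hy _ => ⟨hy, mem_univ y⟩) h5)

end Pool.Agent.Helper59.RG
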