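import Pool.Agent.Helper59.RG.St

/-! Piece A1: the pointwise inequality. -/

set_option autoImplicit false

namespace Pool.Agent.Helper59.RG

open MeasureTheory Set
open scoped ENNReal

namespace A1x

theorem ind_pos {p : Prop} (h : p) : ind p = 1 := by
  unfold ind
  exact if_pos h

theorem ind_neg {p : Prop} (h : ¬ p) : ind p = 0 := by
  unfold ind
  exact if_neg h

theorem ind_le_one (p : Prop) : ind p ≤ 1 := by
  by_cases h : p
  · rw [ind_pos h]
  · rw [ind_neg h]; exact zero_le_one

theorem ind_mono {p q : Prop} (h : p → q) : ind p ≤ ind q := by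
  by_cases hp : p
  · rw [ind_pos hp, ind_pos (h hp)]
  · rw [ind_neg hp]; exact bot_le

/-- comparison of two sums of indicators -/
theorem sum_ind_le (a b : ℕ → Prop) (K : ℕ) (hb : ∀ k k', k ≤ k' → b k → b k')
    (hab : ∀ k, a k → k + 1 < K → b (k + 1)) :
    ∑ k ∈ Finset.range K, ind (a k) ≤
      ∑ k ∈ Finset.range K, ind (b k) + ind (∃ k < K, a k ∧ ¬ b k) := by
  by_cases h : ∃ k < K, a k ∧ ¬ b k
  · rw [ind_pos h]
    obtain ⟨k0, hk0, ha0, hb0⟩ := h
    calc ∑ k ∈ Finset.range K, ind (a k)
        ≤ ∑ k ∈ Finset.range K, (ind (b k) + if k = k0 then (1 : ℝ≥0∞) else 0) := by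
          refine Finset.sum_le_sum fun k hk => ?_
          rw [Finset.mem_range] at hk
          by_cases hkk : k = k0
          · rw [if_pos hkk]
            exact (ind_le_one _).trans le_add_self
          · rw [if_neg hkk, add_zero]
            refine ind_mono fun hak => ?_
            rcases lt_or_gt_of_ne hkk with h1 | h1
            · by_contra hbk
              exact hb0 (hb (k + 1) k0 h1 (hab k hak (by omega)))
            · exact hb (k0 + 1) k h1 (hab k0 ha0 (by omega))
      _ = ∑ k ∈ Finset.range K, ind (b k) + 1 := by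
          rw [Finset.sum_add_distrib, Finset.sum_ite_eq' (Finset.range K) k0,
            if_pos (Finset.mem_range.2 hk0)]
  · rw [ind_neg h, add_zero]
    refine Finset.sum_le_sum fun k hk => ind_mono fun hak => ?_
    by_contra hbk
    exact h ⟨k, Finset.mem_range.1 hk, hak, hbk⟩

theorem sum_ind_card (D : Multiset E) (p : Set E) :
    (D.map fun s => ind (s ∈ p)).sum = ((flt p D).card : ℝ≥0∞) := by
  induction D using Multiset.induction_on with
  | empty => simp [flt]
  | cons s D ih =>
    rw [Multiset.map_cons, Multiset.sum_cons, ih]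
    by_cases h : s ∈ p
    · have h1 : flt p (s ::ₘ D) = s ::ₘ flt p D := by
        unfold flt
        exact @Multiset.filter_cons_of_pos E (fun x => x ∈ p)
          (fun _ => Classical.propDecidable _) s D h
      rw [ind_pos h, h1, Multiset.card_cons]
      push_cast
      rw [add_comm]
    · have h1 : flt p (s ::ₘ D) = flt p D := by
        unfold flt
        exact @Multiset.filter_cons_of_neg E (fun x => x ∈ p)
          (fun _ => Classical.propDecidable _) s D h
      rw [ind_neg h, h1, zero_add]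

theorem mem_flt {W : Set E} {C : Multiset E} {s : E} : s ∈ flt W C ↔ s ∈ C ∧ s ∈ W := by
  unfold flt
  exact @Multiset.mem_filter E (fun x => x ∈ W) (fun _ => Classical.propDecidable _) s C

theorem flt_le (W : Set E) (C : Multiset E) : flt W C ≤ C := by
  unfold flt
  exact @Multiset.filter_le E (fun x => x ∈ W) (fun _ => Classical.propDecidable _) C

theorem card_flt_flt_le (p W : Set E) (C : Multiset E) :
    (flt p (flt W C)).card ≤ (flt p C).card := by
  refine Multiset.card_le_card ?_
  have h := flt_le W C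
  unfold flt at h ⊢
  exact @Multiset.filter_le_filter E (fun x => x ∈ p) (fun _ => Classical.propDecidable _) _ _ h

theorem sum_map_finset (D : Multiset E) (J : ℕ) (f : ℕ → E → ℝ≥0∞) :
    (D.map fun s => ∑ j ∈ Finset.range J, f j s).sum =
      ∑ j ∈ Finset.range J, (D.map (f j)).sum := by
  induction J with
  | zero => simp
  | succ J ih =>
    rw [Finset.sum_range_succ, ← ih, ← Multiset.sum_map_add]
    congr 1
    refine Multiset.map_congr rfl fun s _ => ?_
    rw [Finset.sum_range_succ]

theorem NN_le (r : ℝ) (z : E) (W : Set E) (K : ℕ) (C : Multiset E) (s : E) :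
    NN r z W K C s ≤ K := by
  unfold NN
  calc ∑ k ∈ Finset.range K, ind (Rch r z W C k s) ≤ ∑ _k ∈ Finset.range K, (1 : ℝ≥0∞) :=
        Finset.sum_le_sum fun k _ => ind_le_one _
    _ = K := by simp

end A1x

open A1x in
theorem pf_A1 (hG0 : G0) (hG4 : G4) (hR1 : R1) (hA0 : A0) : A1 := by
  intro c Λ M C hOk
  obtain ⟨g1, g2, g3, g4, g5, g6, g7, g8, g9, g10, g11, g12, g13, g14, g15, g16, g17, g18, g19,
    g20, g21, g22⟩ := hG4 c Λ hOk
  obtain ⟨n1, n2, n3, n4, n5⟩ := hG0
  obtain ⟨r1, r2, r3, r4⟩ := hR1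
  have hr := hOk.hr
  have hh := hOk.hh
  by_cases hgood : c.Good M C
  · obtain ⟨hTP, hT⟩ := hgood
    have hpt : ∀ s ∈ flt c.A C, NN c.r c.u (tr c.u c.Co) c.K C s ≤
        NN c.r c.v (tr c.v c.Co) c.K C s + ∑ j ∈ Finset.range c.J,
          ind (s ∈ {s | s ∈ c.Aj j ∧ ∃ k < c.K, Rch c.r c.u (c.W j) C k s ∧
            ¬ Rch c.r c.v (c.W j) C k s}) := by
      intro s hs
      obtain ⟨hsC, hsA⟩ := mem_flt.1 hs
      obtain ⟨j, hj, hsj⟩ := g7 s hsA
      have e1 : NN c.r c.u (tr c.u c.Co) c.K C s =
          ∑ k ∈ Finset.range c.K, ind (Rch c.r c.u univ C k s) := by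
        unfold NN
        refine Finset.sum_congr rfl fun k hk => ?_
        have := (hA0 c Λ C s c.u k j hOk hTP hsC hsj (Or.inl rfl) (Finset.mem_range.1 hk)).2
        exact le_antisymm (ind_mono this.2) (ind_mono this.1)
      have e2 : NN c.r c.v (tr c.v c.Co) c.K C s =
          ∑ k ∈ Finset.range c.K, ind (Rch c.r c.v univ C k s) := by
        unfold NN
        refine Finset.sum_congr rfl fun k hk => ?_
        have := (hA0 c Λ C s c.v k j hOk hTP hsC hsj (Or.inr rfl) (Finset.mem_range.1 hk)).2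
        exact le_antisymm (ind_mono this.2) (ind_mono this.1)
      have e3 := sum_ind_le (fun k => Rch c.r c.u univ C k s) (fun k => Rch c.r c.v univ C k s)
        c.K (fun k k' hkk hb => r3 c.r c.v s univ C k k' hr.le hsC (mem_univ s) hkk hb) (by
          intro k hak hk1
          have a1 := r4 c.r c.u s univ C k hak
          have a2 : nm (s - c.v) ≤ nm (s - c.u) + c.rho := by
            have h := n1 (s - c.u) (c.u - c.v)
            have h' : s - c.u + (c.u - c.v) = s - c.v := by abel
            rw [h'] at h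
            exact h
          have a3 : ((k : ℝ) + 2) * c.h ≤ c.K * c.h := by
            refine mul_le_mul_of_nonneg_right ?_ hh.le
            have : k + 2 ≤ c.K := by omega
            exact_mod_cast this
          have a4 : nm (s - c.v) ≤ (((k + 1 : ℕ) : ℝ) + 1) * (c.r - c.h) := by
            push_cast
            nlinarith
          have a5 := hTP s hsC (g1 hsA) c.v (Or.inr rfl) (k + 1) hk1 a4
          exact r1 c.r c.v s _ univ C C (k + 1) (fun y hy _ => ⟨hy, mem_univ y⟩) a5)
      rw [e1, e2]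
      refine e3.trans (add_le_add le_rfl ?_)
      refine le_trans ?_ (Finset.single_le_sum (f := fun j => ind (s ∈ {s | s ∈ c.Aj j ∧
        ∃ k < c.K, Rch c.r c.u (c.W j) C k s ∧ ¬ Rch c.r c.v (c.W j) C k s}))
        (fun i _ => bot_le) (Finset.mem_range.2 hj))
      refine ind_mono ?_
      rintro ⟨k, hk, hu, hv⟩
      refine ⟨hsj, k, hk, ?_, ?_⟩
      · exact (hA0 c Λ C s c.u k j hOk hTP hsC hsj (Or.inl rfl) hk).1.1 hu
      · exact fun h => hv ((hA0 c Λ C s c.v k j hOk hTP hsC hsj (Or.inr rfl) hk).1.2 h)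
    have hmin : ∀ j ∈ Finset.range c.J, ((flt c.A C).map fun s => ind (s ∈ {s | s ∈ c.Aj j ∧
        ∃ k < c.K, Rch c.r c.u (c.W j) C k s ∧ ¬ Rch c.r c.v (c.W j) C k s})).sum ≤
        ((min (c.T j C) M : ℕ) : ℝ≥0∞) := by
      intro j hj
      rw [sum_ind_card, min_eq_left (hT j (Finset.mem_range.1 hj))]
      unfold Cx.T
      exact_mod_cast card_flt_flt_le _ _ _
    calc SN c.r c.u (tr c.u c.Co) c.K c.A C
        = ((flt c.A C).map (NN c.r c.u (tr c.u c.Co) c.K C)).sum := rfl
      _ ≤ ((flt c.A C).map fun s => NN c.r c.v (tr c.v c.Co) c.K C s +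
            ∑ j ∈ Finset.range c.J, ind (s ∈ {s | s ∈ c.Aj j ∧ ∃ k < c.K,
              Rch c.r c.u (c.W j) C k s ∧ ¬ Rch c.r c.v (c.W j) C k s})).sum :=
          Multiset.sum_map_le_sum_map _ _ hpt
      _ = SN c.r c.v (tr c.v c.Co) c.K c.A C + ∑ j ∈ Finset.range c.J,
            ((flt c.A C).map fun s => ind (s ∈ {s | s ∈ c.Aj j ∧ ∃ k < c.K,
              Rch c.r c.u (c.W j) C k s ∧ ¬ Rch c.r c.v (c.W j) C k s})).sum := by
          rw [Multiset.sum_map_add, sum_map_finset]
          rfl
      _ ≤ SN c.r c.v (tr c.v c.Co) c.K c.A C +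
            ∑ j ∈ Finset.range c.J, ((min (c.T j C) M : ℕ) : ℝ≥0∞) :=
          add_le_add le_rfl (Finset.sum_le_sum hmin)
      _ ≤ _ := le_self_add
  · rw [ind_pos hgood, one_mul]
    refine le_trans ?_ le_add_self
    calc SN c.r c.u (tr c.u c.Co) c.K c.A C
        ≤ ((flt c.A C).map fun _ => (c.K : ℝ≥0∞)).sum :=
          Multiset.sum_map_le_sum_map _ _ fun s _ => NN_le _ _ _ _ _ _
      _ = (flt c.A C).card * (c.K : ℝ≥0∞) := by
          rw [Multiset.map_const', Multiset.sum_replicate, nsmul_eq_mul]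
      _ ≤ C.card * (c.K : ℝ≥0∞) := by
          gcongr
          exact flt_le _ _
      _ = c.K * C.card := mul_comm _ _

end Pool.Agent.Helper59.RG
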