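import Pool.Agent.Helper59.RG.St

/-!
# Project RG: translation invariance
-/

set_option autoImplicit false

namespace Pool.Agent.Helper59.RG

open MeasureTheory Set
open scoped ENNReal

noncomputable section

namespace A2x

attribute [local instance] Classical.propDecidable

theorem ind_congr {p q : Prop} (h : p ↔ q) : ind p = ind q := by
  rw [propext h]

theorem mem_flt {W : Set E} {C : Multiset E} {x : E} : x ∈ flt W C ↔ x ∈ C ∧ x ∈ W := by
  unfold flt
  exact Multiset.mem_filter

theorem flt_flt {W B : Set E} (h : B ⊆ W) (C : Multiset E) : flt B (flt W C) = flt B C := by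
  unfold flt
  rw [Multiset.filter_filter]
  apply Multiset.filter_congr
  intro x _
  constructor
  · exact fun hx => hx.1
  · exact fun hx => ⟨hx, h hx⟩

theorem flt_map (g : E → E) (B : Set E) (C : Multiset E) :
    flt B (C.map g) = (flt (g ⁻¹' B) C).map g := by
  unfold flt
  rw [Multiset.filter_map]
  rfl

theorem SN_flt (hR1 : R1) (r : ℝ) (z : E) {W B : Set E} (h : B ⊆ W) (K : ℕ) (C : Multiset E) :
    SN r z W K B (flt W C) = SN r z W K B C := by
  unfold SN
  rw [flt_flt h]
  congr 1
  apply Multiset.map_congr rfl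
  intro s _
  unfold NN
  apply Finset.sum_congr rfl
  intro k _
  exact ind_congr (hR1.2.1 r z s W C k).symm

theorem SN_map (hR1 : R1) (hR3 : R3) (r : ℝ) (u v : E) {Co B : Set E} (h : B ⊆ Co) (K : ℕ)
    (C : Multiset E) :
    SN r u (tr u Co) K (tr u B) ((flt (tr v Co) C).map fun x => x - (v - u)) =
      SN r v (tr v Co) K (tr v B) C := by
  have hgu : ∀ x : E, x - (v - u) - u = x - v := by
    intro x
    abel
  have hgv : v - (v - u) = u := by abel
  have hpre : ∀ A : Set E, (fun x : E => x - (v - u)) ⁻¹' (tr u A) = tr v A := by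
    intro A
    ext x
    simp only [tr, mem_preimage, Set.mem_ofPred_eq]
    rw [hgu]
  have hsub : tr v B ⊆ tr v Co := fun x hx => h hx
  unfold SN
  rw [flt_map, hpre, flt_flt hsub, Multiset.map_map]
  congr 1
  apply Multiset.map_congr rfl
  intro s _
  simp only [Function.comp_apply]
  unfold NN
  apply Finset.sum_congr rfl
  intro k _
  apply ind_congr
  have h1 := hR3 (fun x => x - (v - u)) r v s (tr v Co) (tr u Co) (flt (tr v Co) C) k
    (fun x y => by congr 1; abel)
    (fun y _ => by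
      have := hpre Co
      rw [← this]
      rfl)
  simp only [hgv] at h1
  rw [h1]
  exact (hR1.2.1 r v s (tr v Co) C k).symm

end A2x

theorem pf_A2 (hP13 : P13) (hR1 : R1) (hR3 : R3) (hR4 : R4) (hG4 : G4) : A2 := by
  intro c Λ l B hc hl hB hBC
  obtain ⟨-, -, -, -, -, hsq, -⟩ := hG4 c Λ hc
  obtain ⟨hu1, hu2⟩ := hsq c.u (Or.inl rfl)
  obtain ⟨hv1, hv2⟩ := hsq c.v (Or.inr rfl)
  have hΛ : 0 < Λ := by
    have h1 := hc.u1
    have h2 := hc.u1'
    have h3 := hc.hR
    have h4 := hc.hr
    linarith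
  have htr : tr (c.v - c.u) (tr c.u c.Co) = tr c.v c.Co := by
    ext x
    simp only [tr, Set.mem_ofPred_eq]
    have : x - (c.v - c.u) - c.u = x - c.v := by abel
    rw [this]
  have hBu : MeasurableSet (tr c.u B) := by
    have : tr c.u B = (fun x : E => x - c.u) ⁻¹' B := rfl
    rw [this]
    exact (measurable_id.sub_const c.u) hB
  have hsub : tr c.u B ⊆ tr c.u c.Co := fun x hx => hBC hx
  have h := hP13 l Λ (tr c.u c.Co) (c.v - c.u) (SN c.r c.u (tr c.u c.Co) c.K (tr c.u B)) hl hΛ
    hu2 hu1 (by rw [htr]; exact hv1) (hR4.1 c.r c.u _ _ c.K hu2 hBu)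
  rw [htr] at h
  have e1 : (fun C => SN c.r c.u (tr c.u c.Co) c.K (tr c.u B) (flt (tr c.u c.Co) C)) =
      SN c.r c.u (tr c.u c.Co) c.K (tr c.u B) := by
    funext C
    exact A2x.SN_flt hR1 c.r c.u hsub c.K C
  have e2 : (fun C => SN c.r c.u (tr c.u c.Co) c.K (tr c.u B)
      ((flt (tr c.v c.Co) C).map fun x => x - (c.v - c.u))) =
      SN c.r c.v (tr c.v c.Co) c.K (tr c.v B) := by
    funext C
    exact A2x.SN_map hR1 hR3 c.r c.u c.v hBC c.K C
  rw [e1, e2] at h
  exact h.symm

end

end Pool.Agent.Helper59.RG
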