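import Pool.Agent.Helper59.RG.St

/-!
# Project RG, piece A3: bounds for the number of admissible numbers of steps
-/

set_option autoImplicit false

namespace Pool.Agent.Helper59.RG

open MeasureTheory Set
open scoped ENNReal

namespace A3x

/-- the number of `k < K` which are at least `q` -/
theorem sum_ind (K q : ℕ) :
    (∑ k ∈ Finset.range K, ind (q ≤ k)) = ((K - q : ℕ) : ℝ≥0∞) := by
  classical
  have h1 : ∀ k, ind (q ≤ k) = if q ≤ k then (1 : ℝ≥0∞) else 0 := by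
    intro k
    unfold ind
    congr
  simp only [h1, Finset.sum_boole]
  have h2 : Finset.filter (fun k => q ≤ k) (Finset.range K) = Finset.Ico q K := by
    ext k
    simp [and_comm]
  rw [h2, Nat.card_Ico]

theorem ind_mono {p q : Prop} (h : p → q) : ind p ≤ ind q := by
  unfold ind
  by_cases hp : p
  · simp [hp, h hp]
  · simp [hp]

end A3x

theorem pf_A3 (hG0 : G0) (hG4 : G4) (hR1 : R1) : A3 := by
  constructor
  · intro r z s W K C hr hK
    set m : ℝ := nm (s - z) / r with hm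
    have hm0 : 0 ≤ m := div_nonneg (hG0.2.2.1 _).2.2.1 hr.le
    have hmK : m ≤ K := by rw [hm, div_le_iff₀ hr]; exact hK
    have hcK : ⌈m⌉₊ ≤ K := Nat.ceil_le.mpr hmK
    have h1 : NN r z W K C s ≤ ∑ k ∈ Finset.range K, ind (⌈m⌉₊ - 1 ≤ k) := by
      unfold NN
      refine Finset.sum_le_sum fun k _ => A3x.ind_mono fun h => ?_
      have h2 := hR1.2.2.2 r z s W C k h
      have h3 : m ≤ ((k + 1 : ℕ) : ℝ) := by
        rw [hm, div_le_iff₀ hr]; push_cast; exact h2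
      have h4 : ⌈m⌉₊ ≤ k + 1 := Nat.ceil_le.mpr h3
      omega
    refine h1.trans ?_
    rw [A3x.sum_ind, ← ENNReal.ofReal_natCast]
    refine ENNReal.ofReal_le_ofReal ?_
    have h5 : m ≤ (⌈m⌉₊ : ℝ) := Nat.le_ceil m
    have h6 : ((K - (⌈m⌉₊ - 1) : ℕ) : ℝ) ≤ (K : ℝ) + 1 - ⌈m⌉₊ := by
      have : (K - (⌈m⌉₊ - 1)) + ⌈m⌉₊ ≤ K + 1 := by omega
      have h7 : (((K - (⌈m⌉₊ - 1)) + ⌈m⌉₊ : ℕ) : ℝ) ≤ ((K + 1 : ℕ) : ℝ) := by exact_mod_cast this
      push_cast at h7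
      linarith
    linarith
  · intro c Λ C s hok hTP hsC hsA
    obtain ⟨hACn, -, -, hA, -, -, -, -, -, -, -, -, -, -, -, -, -, -, -, -, hKh, -⟩ := hG4 c Λ hok
    have hr := hok.hr
    have hh := hok.hh
    have hK1 : (1 : ℝ) ≤ c.K := by
      have : 0 < c.K := by
        rw [hok.hK]
        refine Nat.ceil_pos.mpr ?_
        have hR : 0 < c.R := by linarith [hok.hR]
        positivity
      exact_mod_cast this
    have hrh : 0 < c.r - c.h := by nlinarith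
    set m : ℝ := nm (s - c.u) / (c.r - c.h) with hm
    have hm0 : 0 ≤ m := div_nonneg (hG0.2.2.1 _).2.2.1 hrh.le
    have h1 : ∑ k ∈ Finset.range c.K, ind (⌈m⌉₊ - 1 ≤ k) ≤ NN c.r c.u (tr c.u c.Co) c.K C s := by
      unfold NN
      refine Finset.sum_le_sum fun k hk => A3x.ind_mono fun h => ?_
      have hk' : k < c.K := Finset.mem_range.mp hk
      have h4 : ⌈m⌉₊ ≤ k + 1 := by omega
      have h3 : m ≤ ((k + 1 : ℕ) : ℝ) := Nat.ceil_le.mp h4
      have h2 : nm (s - c.u) ≤ (k + 1) * (c.r - c.h) := by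
        rw [hm, div_le_iff₀ hrh] at h3
        push_cast at h3
        exact h3
      have h5 := hTP s hsC (hACn hsA) c.u (Or.inl rfl) k hk' h2
      exact hR1.1 c.r c.u s _ _ C C k
        (fun y hy hy' => ⟨hy, (hA s hsA c.u (Or.inl rfl)).1 hy'⟩) h5
    refine le_trans ?_ h1
    rw [A3x.sum_ind, ← ENNReal.ofReal_natCast]
    refine ENNReal.ofReal_le_ofReal ?_
    have h6 : ((⌈m⌉₊ - 1 : ℕ) : ℝ) ≤ m := by
      rcases Nat.eq_zero_or_pos ⌈m⌉₊ with h0 | h0
      · rw [h0]; simpa using hm0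
      · have h7 : (⌈m⌉₊ : ℝ) < m + 1 := Nat.ceil_lt_add_one hm0
        rw [Nat.cast_sub h0]
        push_cast
        linarith
    have h8 : (c.K : ℝ) - ((⌈m⌉₊ - 1 : ℕ) : ℝ) ≤ ((c.K - (⌈m⌉₊ - 1) : ℕ) : ℝ) := by
      have : c.K ≤ (c.K - (⌈m⌉₊ - 1)) + (⌈m⌉₊ - 1) := by omega
      have h9 : (c.K : ℝ) ≤ (((c.K - (⌈m⌉₊ - 1)) + (⌈m⌉₊ - 1) : ℕ) : ℝ) := by exact_mod_cast this
      push_cast at h9
      linarith
    linarith

end Pool.Agent.Helper59.RG
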