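import Pool.Agent.Helper59.RG.St

/-! Project RG, piece A4: Chernoff bound. -/

set_option autoImplicit false

namespace Pool.Agent.Helper59.RG

open MeasureTheory Set
open scoped ENNReal

noncomputable section

namespace A4x

/-- the uniform distribution is a probability measure -/
lemma prob (Λ : ℝ) (hΛ : 0 < Λ) : IsProbabilityMeasure (mu Λ) := by
  have hSq : (volume : Measure E) (Sq Λ) = ENNReal.ofReal (Λ ^ 2) := by
    unfold Sq
    rw [Measure.volume_eq_prod, Measure.prod_prod, Real.volume_Icc, sub_zero,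
      ← ENNReal.ofReal_mul hΛ.le, pow_two]
  refine ⟨?_⟩
  unfold mu
  rw [Measure.smul_apply, Measure.restrict_apply MeasurableSet.univ, smul_eq_mul, univ_inter, hSq,
    ← ENNReal.ofReal_mul (by positivity), one_div_mul_cancel (by positivity), ENNReal.ofReal_one]

/-- the exponential of the truncated count in a sector -/
def gg (c : Cx) (M j : ℕ) (C : Multiset E) : ℝ≥0∞ :=
  ENNReal.ofReal (Real.exp (-(((min (c.T j C) M : ℕ) : ℝ) / M)))

lemma exp_le (x : ℝ) (h0 : 0 ≤ x) (h1 : x ≤ 1) : Real.exp (-x) + 3 / 5 * x ≤ 1 := by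
  have hc := convexOn_exp.2 (mem_univ (0 : ℝ)) (mem_univ (-1 : ℝ)) (by linarith : (0 : ℝ) ≤ 1 - x)
    h0 (by ring)
  simp only [smul_eq_mul, mul_zero, zero_add, mul_neg, mul_one, Real.exp_zero] at hc
  have he : Real.exp (-1) ≤ 2 / 5 := by
    rw [Real.exp_neg, inv_le_comm₀ (Real.exp_pos 1) (by norm_num)]
    have := Real.exp_one_gt_d9
    norm_num
    linarith
  nlinarith [hc, mul_le_mul_of_nonneg_left he h0]

lemma gg_pt (c : Cx) (M j : ℕ) (hM : 1 ≤ M) (C : Multiset E) :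
    gg c M j C + ENNReal.ofReal (3 / 5 / M) * ((min (c.T j C) M : ℕ) : ℝ≥0∞) ≤ 1 := by
  have hM' : (0 : ℝ) < M := by exact_mod_cast hM
  have h1 : ((min (c.T j C) M : ℕ) : ℝ) / M ≤ 1 := by
    rw [div_le_one hM']
    exact_mod_cast min_le_right _ _
  have h0 : 0 ≤ ((min (c.T j C) M : ℕ) : ℝ) / M := by positivity
  have h2 := exp_le _ h0 h1
  have h3 : ((min (c.T j C) M : ℕ) : ℝ≥0∞) = ENNReal.ofReal ((min (c.T j C) M : ℕ) : ℝ) := by
    rw [ENNReal.ofReal_natCast]
  unfold gg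
  rw [h3, ← ENNReal.ofReal_mul (by positivity), ← ENNReal.ofReal_add (by positivity)
    (by positivity)]
  rw [← ENNReal.ofReal_one]
  apply ENNReal.ofReal_le_ofReal
  have h4 : 3 / 5 / (M : ℝ) * ((min (c.T j C) M : ℕ) : ℝ) =
    3 / 5 * (((min (c.T j C) M : ℕ) : ℝ) / M) := by
    field_simp
  rw [h4]
  exact h2

lemma mf_gg (hR4 : R4) (c : Cx) (M j : ℕ) : Mf (gg c M j) := by
  intro N
  have h := hR4.2.1 c j M N
  have h2 : (fun X : Fin N → E => gg c M j (ms X)) =
      fun X : Fin N → E => (fun x : ℝ≥0∞ => ENNReal.ofReal (Real.exp (-(x.toReal / M))))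
        ((fun C => ((min (c.T j C) M : ℕ) : ℝ≥0∞)) (ms X)) := by
    funext X
    simp only [gg, ENNReal.toReal_natCast]
  rw [h2]
  have h3 : Measurable fun x : ℝ≥0∞ => ENNReal.ofReal (Real.exp (-(x.toReal / M))) := by
    fun_prop
  exact h3.comp h

lemma prod_ofReal_exp (S : Finset ℕ) (a : ℕ → ℝ) :
    ∏ j ∈ S, ENNReal.ofReal (Real.exp (a j)) = ENNReal.ofReal (Real.exp (∑ j ∈ S, a j)) := by
  rw [Real.exp_sum, ENNReal.ofReal_prod_of_nonneg]
  intro i _
  positivity

end A4x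

theorem pf_A4 (hP0 : P0) (hP3 : P3) (hP7 : P7) (hR4 : R4) (hR5 : R5) (hG4 : G4) : A4 := by
  intro c Λ l Θ M Kc hOk hl hM hΘ hE
  have hM' : (0 : ℝ) < M := by exact_mod_cast hM
  have hΛ : 0 < Λ := by
    have h1 := hOk.hR
    have h2 := hOk.hr
    have h3 := hOk.u1
    have h4 := hOk.u1'
    linarith
  have : IsProbabilityMeasure (mu Λ) := A4x.prob Λ hΛ
  obtain ⟨hmono, hadd, hsmul, hsum, hone⟩ := hP3 l (mu Λ)
  have hone' := hone hl (measure_univ)
  obtain ⟨-, -, -, -, -, -, -, -, hWd, hWm, -⟩ := hG4 c Λ hOk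
  set m : ℕ → ℝ≥0∞ := fun j => PE l (mu Λ) (fun C => ((min (c.T j C) M : ℕ) : ℝ≥0∞)) with hm
  have hg : ∀ j, PE l (mu Λ) (A4x.gg c M j) + ENNReal.ofReal (3 / 5 / M) * m j ≤ 1 := by
    intro j
    rw [hm]
    simp only
    rw [← hsmul _ _ ENNReal.ofReal_ne_top, ← hadd _ _ (A4x.mf_gg hR4 c M j), ← hone']
    apply hmono
    intro C
    exact A4x.gg_pt c M j hM C
  have hmfin : ∀ j, m j ≠ ⊤ := by
    intro j hj
    have h := hg j
    rw [hj, ENNReal.mul_top, add_top] at h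
    · exact absurd h (by simp)
    · simp only [ne_eq, ENNReal.ofReal_eq_zero, not_le]
      positivity
  set a : ℕ → ℝ := fun j => (m j).toReal with ha
  have ha0 : ∀ j, 0 ≤ a j := fun j => ENNReal.toReal_nonneg
  have hma : ∀ j, m j = ENNReal.ofReal (a j) := fun j => (ENNReal.ofReal_toReal (hmfin j)).symm
  have hgle : ∀ j, PE l (mu Λ) (A4x.gg c M j) ≤ ENNReal.ofReal (Real.exp (-(3 / 5 / M * a j))) := by
    intro j
    have h := hg j
    rw [hma, ← ENNReal.ofReal_mul (by positivity)] at h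
    have h1 : PE l (mu Λ) (A4x.gg c M j) ≤ 1 - ENNReal.ofReal (3 / 5 / M * a j) :=
      ENNReal.le_sub_of_add_le_right ENNReal.ofReal_ne_top h
    refine h1.trans ?_
    have h2 : (1 : ℝ≥0∞) - ENNReal.ofReal (3 / 5 / M * a j) =
      ENNReal.ofReal (1 - 3 / 5 / M * a j) := by
      rw [← ENNReal.ofReal_one, ← ENNReal.ofReal_sub]
      have := ha0 j
      positivity
    rw [h2]
    apply ENNReal.ofReal_le_ofReal
    have := Real.add_one_le_exp (-(3 / 5 / M * a j))
    linarith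
  -- sum
  have hsum' : Θ ≤ ∑ j ∈ Finset.range c.J, a j := by
    have h1 : PE l (mu Λ) (fun C => ∑ j ∈ Finset.range c.J, ((min (c.T j C) M : ℕ) : ℝ≥0∞)) =
      ENNReal.ofReal (∑ j ∈ Finset.range c.J, a j) := by
      rw [hsum (Finset.range c.J) (fun j C => ((min (c.T j C) M : ℕ) : ℝ≥0∞))
        (fun j _ => hR4.2.1 c j M), ENNReal.ofReal_sum_of_nonneg (fun j _ => ha0 j)]
      exact Finset.sum_congr rfl fun j _ => hma j
    rw [h1] at hE
    exact (ENNReal.ofReal_le_ofReal_iff (Finset.sum_nonneg fun j _ => ha0 j)).1 hE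
  -- a class
  have hclass : ∃ S : Finset ℕ, S ⊆ Finset.range c.J ∧ Θ / 2 ≤ ∑ j ∈ S, a j ∧
      ∀ i ∈ S, ∀ j ∈ S, i ≠ j → i + 2 ≤ j ∨ j + 2 ≤ i := by
    have hsplit := Finset.sum_filter_add_sum_filter_not (Finset.range c.J) (fun j => j % 2 = 0) a
    rcases le_total (Θ / 2) (∑ j ∈ (Finset.range c.J).filter (fun j => j % 2 = 0), a j) with h | h
    · refine ⟨_, Finset.filter_subset _ _, h, ?_⟩
      intro i hi j hj hij
      rw [Finset.mem_filter] at hi hj
      omega
    · refine ⟨(Finset.range c.J).filter (fun j => ¬ j % 2 = 0), Finset.filter_subset _ _,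
        by linarith, ?_⟩
      intro i hi j hj hij
      rw [Finset.mem_filter] at hi hj
      omega
  obtain ⟨S, hSJ, hSΘ, hSd⟩ := hclass
  have hdis : ∀ i ∈ S, ∀ j ∈ S, i ≠ j → Disjoint (c.W i) (c.W j) := by
    intro i hi j hj hij
    rcases hSd i hi j hj hij with h | h
    · exact hWd i j h
    · exact (hWd j i h).symm
  have hfac : PE l (mu Λ) (fun C => ∏ j ∈ S, A4x.gg c M j C) =
      ∏ j ∈ S, PE l (mu Λ) (A4x.gg c M j) := by
    have h := hP7 l (mu Λ) S c.W (A4x.gg c M) hl (fun j _ => (hWm j).2.2) hdis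
      (fun j _ => A4x.mf_gg hR4 c M j)
    have h2 : ∀ (j : ℕ) (C : Multiset E), A4x.gg c M j (flt (c.W j) C) = A4x.gg c M j C := by
      intro j C
      unfold A4x.gg
      rw [← hR5 c Λ j C hOk]
    simp only [h2] at h
    exact h
  -- pointwise bound
  have hpt : ∀ C : Multiset E,
      ind ((∑ j ∈ Finset.range c.J, min (c.T j C) M) < Kc) ≤
        ENNReal.ofReal (Real.exp (Kc / M)) * ∏ j ∈ S, A4x.gg c M j C := by
    intro C
    unfold ind
    split_ifs with h
    · have h1 : ∑ j ∈ S, min (c.T j C) M ≤ ∑ j ∈ Finset.range c.J, min (c.T j C) M :=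
        Finset.sum_le_sum_of_subset hSJ
      have h2 : ((∑ j ∈ S, min (c.T j C) M : ℕ) : ℝ) ≤ Kc := by
        exact_mod_cast (h1.trans h.le)
      have h3 : ∏ j ∈ S, A4x.gg c M j C =
          ENNReal.ofReal (Real.exp (∑ j ∈ S, -(((min (c.T j C) M : ℕ) : ℝ) / M))) := by
        unfold A4x.gg
        exact A4x.prod_ofReal_exp S _
      rw [h3, ← ENNReal.ofReal_mul (by positivity), ← Real.exp_add, ← ENNReal.ofReal_one]
      apply ENNReal.ofReal_le_ofReal
      apply Real.one_le_exp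
      rw [Finset.sum_neg_distrib, ← Finset.sum_div, ← sub_eq_add_neg, ← sub_div]
      apply div_nonneg _ hM'.le
      push_cast at h2 ⊢
      linarith
    · exact bot_le
  calc PE l (mu Λ) (fun C => ind ((∑ j ∈ Finset.range c.J, min (c.T j C) M) < Kc))
      ≤ PE l (mu Λ) (fun C => ENNReal.ofReal (Real.exp (Kc / M)) * ∏ j ∈ S, A4x.gg c M j C) :=
        hmono _ _ hpt
    _ = ENNReal.ofReal (Real.exp (Kc / M)) * ∏ j ∈ S, PE l (mu Λ) (A4x.gg c M j) := by
        rw [hsmul _ _ ENNReal.ofReal_ne_top, hfac]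
    _ ≤ ENNReal.ofReal (Real.exp (Kc / M)) *
          ∏ j ∈ S, ENNReal.ofReal (Real.exp (-(3 / 5 / M * a j))) := by
        gcongr with j hj
        exact hgle j
    _ ≤ ENNReal.ofReal (Real.exp ((Kc - 3 / 10 * Θ) / M)) := by
        rw [A4x.prod_ofReal_exp, ← ENNReal.ofReal_mul (by positivity), ← Real.exp_add]
        apply ENNReal.ofReal_le_ofReal
        apply Real.exp_le_exp.2
        rw [Finset.sum_neg_distrib, ← Finset.mul_sum]
        have h5 : 3 / 5 / (M : ℝ) * (Θ / 2) ≤ 3 / 5 / M * ∑ j ∈ S, a j :=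
          mul_le_mul_of_nonneg_left hSΘ (by positivity)
        have h6 : ((Kc : ℝ) - 3 / 10 * Θ) / M = Kc / M - 3 / 5 / M * (Θ / 2) := by
          field_simp
          ring
        rw [h6]
        linarith

end

end Pool.Agent.Helper59.RG
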