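import Pool.Agent.Helper59.RG.St

/-!
# Project RG: piece A5 (lower bound for the expected number of separated points).
-/

set_option autoImplicit false

namespace Pool.Agent.Helper59.RG

open MeasureTheory Set
open scoped ENNReal

namespace A5x

theorem ind_true {p : Prop} (h : p) : ind p = 1 := by
  unfold ind
  exact if_pos h

theorem ind_false {p : Prop} (h : ¬ p) : ind p = 0 := by
  unfold ind
  exact if_neg h

theorem flt_cons_of_mem {W : Set E} {x : E} (C : Multiset E) (h : x ∈ W) :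
    flt W (x ::ₘ C) = x ::ₘ flt W C := by
  unfold flt
  exact @Multiset.filter_cons_of_pos E (fun x => x ∈ W) (fun _ => Classical.propDecidable _) x C h

theorem flt_cons_of_not_mem {W : Set E} {x : E} (C : Multiset E) (h : x ∉ W) :
    flt W (x ::ₘ C) = flt W C := by
  unfold flt
  exact @Multiset.filter_cons_of_neg E (fun x => x ∈ W) (fun _ => Classical.propDecidable _) x C h

theorem flt_zero (W : Set E) : flt W 0 = 0 := by
  unfold flt
  exact @Multiset.filter_zero E (fun x => x ∈ W) (fun _ => Classical.propDecidable _)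

theorem mem_flt {W : Set E} {C : Multiset E} {s : E} : s ∈ flt W C ↔ s ∈ C ∧ s ∈ W := by
  unfold flt
  exact @Multiset.mem_filter E (fun x => x ∈ W) (fun _ => Classical.propDecidable _) s C

theorem flt_univ (C : Multiset E) : flt univ C = C := by
  unfold flt
  exact (@Multiset.filter_eq_self E (fun x => x ∈ (univ : Set E)) (fun _ => Classical.propDecidable _) C).2 fun a _ => mem_univ a

theorem card_flt_le (W : Set E) (C : Multiset E) : (flt W C).card ≤ C.card := by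
  unfold flt
  exact Multiset.card_le_card (@Multiset.filter_le E (fun x => x ∈ W) (fun _ => Classical.propDecidable _) C)

theorem sum_split (B B' : Set E) (g : E → ℝ≥0∞) (C : Multiset E) :
    ((flt B C).map g).sum = ((flt (B ∩ B') C).map g).sum + ((flt (B \ B') C).map g).sum := by
  induction C using Multiset.induction_on with
  | empty => simp [flt_zero]
  | cons x C ih =>
    by_cases hB : x ∈ B
    · by_cases hB' : x ∈ B'
      · rw [flt_cons_of_mem C hB, flt_cons_of_mem C (show x ∈ B ∩ B' from ⟨hB, hB'⟩),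
          flt_cons_of_not_mem C (show x ∉ B \ B' from fun h => h.2 hB')]
        simp only [Multiset.map_cons, Multiset.sum_cons]
        rw [ih, add_assoc]
      · rw [flt_cons_of_mem C hB, flt_cons_of_not_mem C (show x ∉ B ∩ B' from fun h => hB' h.2),
          flt_cons_of_mem C (show x ∈ B \ B' from ⟨hB, hB'⟩)]
        simp only [Multiset.map_cons, Multiset.sum_cons]
        rw [ih]
        ring
    · rw [flt_cons_of_not_mem C hB, flt_cons_of_not_mem C (show x ∉ B ∩ B' from fun h => hB h.1),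
        flt_cons_of_not_mem C (show x ∉ B \ B' from fun h => hB h.1)]
      exact ih

theorem sum_le_sum_of {B : Set E} {g g' : E → ℝ≥0∞} (C : Multiset E)
    (h : ∀ s ∈ C, s ∈ B → g s ≤ g' s) : ((flt B C).map g).sum ≤ ((flt B C).map g').sum := by
  refine Multiset.sum_map_le_sum_map g g' fun s hs => ?_
  rw [mem_flt] at hs
  exact h s hs.1 hs.2

theorem sum_le_card (S : Multiset E) (g : E → ℝ≥0∞) (K : ℝ≥0∞) (h : ∀ s ∈ S, g s ≤ K) :
    (S.map g).sum ≤ S.card * K := by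
  have h1 := Multiset.sum_map_le_sum_map (s := S) g (fun _ => K) h
  simpa [Multiset.map_const', Multiset.sum_replicate, nsmul_eq_mul] using h1

theorem NN_le (r : ℝ) (z : E) (W : Set E) (K : ℕ) (C : Multiset E) (s : E) :
    NN r z W K C s ≤ K := by
  unfold NN
  calc ∑ k ∈ Finset.range K, ind (Rch r z W C k s) ≤ ∑ k ∈ Finset.range K, (1 : ℝ≥0∞) := by
        refine Finset.sum_le_sum fun k _ => ?_
        by_cases h : Rch r z W C k s
        · rw [ind_true h]
        · rw [ind_false h]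
          exact bot_le
    _ = K := by simp

theorem SN_le (r : ℝ) (z : E) (W : Set E) (K : ℕ) (B : Set E) (C : Multiset E) :
    SN r z W K B C ≤ (K : ℝ≥0∞) * (C.card : ℝ≥0∞) := by
  unfold SN
  refine (sum_le_card _ _ (K : ℝ≥0∞) fun s _ => NN_le r z W K C s).trans ?_
  rw [mul_comm]
  refine mul_le_mul_right ?_ _
  exact_mod_cast card_flt_le B C

/-! ### the error term -/

theorem real_err {K l L : ℝ} (hK0 : 0 ≤ K) (hK : K ≤ L) (hl0 : 0 ≤ l) (hl : l ≤ L)
    (hL : 1000 ≤ L) :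
    K * (1 / L) ^ 5 * (l ^ 2 + l) + K * L ^ 5 * (1 / L) ^ 15 ≤ 3 / 20000 := by
  have hL0 : 0 < L := by linarith
  obtain ⟨i, hi⟩ : ∃ i, i = 1 / L := ⟨_, rfl⟩
  rw [← hi]
  have hiL : i * L = 1 := by rw [hi]; field_simp
  have hi0 : 0 < i := by rw [hi]; positivity
  have hi1 : i ≤ 1 / 1000 := by
    rw [hi]
    exact one_div_le_one_div_of_le (by norm_num) hL
  have h1 : K * i ^ 5 * (l ^ 2 + l) ≤ L * i ^ 5 * (L ^ 2 + L) := by
    have h2 : l ^ 2 + l ≤ L ^ 2 + L := by nlinarith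
    have h3 : K * i ^ 5 ≤ L * i ^ 5 := mul_le_mul_of_nonneg_right hK (by positivity)
    exact mul_le_mul h3 h2 (by positivity) (by positivity)
  have h4 : L * i ^ 5 * (L ^ 2 + L) = i ^ 2 + i ^ 3 := by
    have e1 : L * i ^ 5 * (L ^ 2 + L) = (i * L) ^ 3 * i ^ 2 + (i * L) ^ 2 * i ^ 3 := by ring
    rw [e1, hiL]
    ring
  have h5 : K * L ^ 5 * i ^ 15 ≤ L * L ^ 5 * i ^ 15 := by
    have h6 : K * L ^ 5 ≤ L * L ^ 5 := mul_le_mul_of_nonneg_right hK (by positivity)
    exact mul_le_mul_of_nonneg_right h6 (by positivity)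
  have h7 : L * L ^ 5 * i ^ 15 = i ^ 9 := by
    have e1 : L * L ^ 5 * i ^ 15 = (i * L) ^ 6 * i ^ 9 := by ring
    rw [e1, hiL]
    ring
  have h8 : i ^ 2 ≤ 1 / 1000000 := by
    calc i ^ 2 ≤ (1 / 1000) ^ 2 := pow_le_pow_left₀ hi0.le hi1 2
      _ = 1 / 1000000 := by norm_num
  have h9 : i ^ 3 ≤ 1 / 1000000 := by
    calc i ^ 3 = i ^ 2 * i := by ring
      _ ≤ 1 / 1000000 * 1 := mul_le_mul h8 (by linarith) hi0.le (by norm_num)
      _ = 1 / 1000000 := by norm_num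
  have h10 : i ^ 9 ≤ 1 / 1000000 := by
    calc i ^ 9 = i ^ 2 * i ^ 7 := by ring
      _ ≤ 1 / 1000000 * 1 := mul_le_mul h8 (pow_le_one₀ hi0.le (by linarith)) (by positivity)
        (by norm_num)
      _ = 1 / 1000000 := by norm_num
  linarith

theorem real_pt {δ c : ℝ} (hδ : 0 < δ) : c ≤ δ * c ^ 2 + 1 / δ := by
  have h1 : 0 ≤ δ * c ^ 2 + 1 / δ - c := by
    have e1 : δ * c ^ 2 + 1 / δ - c = ((δ * c) ^ 2 - δ * c + 1) / δ := by
      field_simp
      ring
    rw [e1]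
    have h2 : 0 ≤ (δ * c) ^ 2 - δ * c + 1 := by nlinarith [sq_nonneg (δ * c - 1 / 2)]
    positivity
  linarith

theorem err (hP0 : P0) (hP3 : P3) (hP11 : P11) {l L : ℝ} (μ : Measure E) [IsProbabilityMeasure μ]
    (K : ℕ) (G : Multiset E → Prop) (hK : (K : ℝ) ≤ L) (hl0 : 0 ≤ l) (hl : l ≤ L)
    (hL : 1000 ≤ L)
    (hG : PE l μ (fun C => ind (¬ G C)) ≤ ENNReal.ofReal ((1 / L) ^ 15)) :
    PE l μ (fun C => ind (¬ G C) * ((K : ℝ≥0∞) * (C.card : ℝ≥0∞))) ≤
      ENNReal.ofReal (3 / 20000) := by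
  have hL0 : 0 < L := by linarith
  obtain ⟨q1, q2, q3, -, -⟩ := hP3 l μ
  have hMc : Mf fun C : Multiset E => ((C.card : ℝ≥0∞)) := by
    have h1 := hP0.2.2.2.1 univ MeasurableSet.univ
    intro N
    have h2 := h1 N
    simp only [flt_univ] at h2
    exact h2
  have hMc2 : Mf fun C : Multiset E =>
      ENNReal.ofReal ((K : ℝ) * (1 / L) ^ 5) * ((C.card : ℝ≥0∞) ^ 2) :=
    fun N => ((hMc N).pow_const 2).const_mul _
  have hpt : ∀ C : Multiset E, ind (¬ G C) * ((K : ℝ≥0∞) * (C.card : ℝ≥0∞)) ≤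
      ENNReal.ofReal ((K : ℝ) * (1 / L) ^ 5) * ((C.card : ℝ≥0∞) ^ 2) +
        ENNReal.ofReal ((K : ℝ) * L ^ 5) * ind (¬ G C) := by
    intro C
    by_cases h : G C
    · rw [ind_false (not_not_intro h), zero_mul]
      exact bot_le
    · rw [ind_true h, one_mul, mul_one, ← ENNReal.ofReal_natCast K,
        ← ENNReal.ofReal_natCast C.card, ← ENNReal.ofReal_mul (Nat.cast_nonneg K),
        ← ENNReal.ofReal_pow (Nat.cast_nonneg _), ← ENNReal.ofReal_mul (by positivity),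
        ← ENNReal.ofReal_add (by positivity) (by positivity)]
      refine ENNReal.ofReal_le_ofReal ?_
      have h1 := real_pt (δ := (1 / L) ^ 5) (c := (C.card : ℝ)) (by positivity)
      have h2 : 1 / (1 / L) ^ 5 = L ^ 5 := by
        field_simp
      rw [h2] at h1
      have h3 := mul_le_mul_of_nonneg_left h1 (Nat.cast_nonneg K (α := ℝ))
      calc (K : ℝ) * (C.card : ℝ) ≤ (K : ℝ) * ((1 / L) ^ 5 * (C.card : ℝ) ^ 2 + L ^ 5) := h3
        _ = _ := by ring
  calc PE l μ (fun C => ind (¬ G C) * ((K : ℝ≥0∞) * (C.card : ℝ≥0∞)))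
      ≤ PE l μ (fun C => ENNReal.ofReal ((K : ℝ) * (1 / L) ^ 5) * ((C.card : ℝ≥0∞) ^ 2) +
        ENNReal.ofReal ((K : ℝ) * L ^ 5) * ind (¬ G C)) := q1 _ _ hpt
    _ = ENNReal.ofReal ((K : ℝ) * (1 / L) ^ 5) * PE l μ (fun C => (C.card : ℝ≥0∞) ^ 2) +
        ENNReal.ofReal ((K : ℝ) * L ^ 5) * PE l μ (fun C => ind (¬ G C)) := by
        rw [q2 _ _ hMc2, q3 _ _ ENNReal.ofReal_ne_top, q3 _ _ ENNReal.ofReal_ne_top]
    _ ≤ ENNReal.ofReal ((K : ℝ) * (1 / L) ^ 5) * ENNReal.ofReal (l ^ 2 + l) +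
        ENNReal.ofReal ((K : ℝ) * L ^ 5) * ENNReal.ofReal ((1 / L) ^ 15) := by
        rw [hP11 l μ hl0]
        gcongr
    _ = ENNReal.ofReal ((K : ℝ) * (1 / L) ^ 5 * (l ^ 2 + l) + (K : ℝ) * L ^ 5 * (1 / L) ^ 15) := by
        rw [← ENNReal.ofReal_mul (by positivity), ← ENNReal.ofReal_mul (by positivity),
          ← ENNReal.ofReal_add (by positivity) (by positivity)]
    _ ≤ ENNReal.ofReal (3 / 20000) :=
        ENNReal.ofReal_le_ofReal (real_err (Nat.cast_nonneg K) hK hl0 hl hL)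

/-! ### integrals -/

theorem nm_cont (u : E) : Continuous fun x : E => nm (x - u) := by
  unfold nm
  fun_prop

theorem campbell (hP10 : P10) {l Λ : ℝ} [IsProbabilityMeasure (mu Λ)] (hl0 : 0 ≤ l) {B : Set E}
    (hB : MeasurableSet B) (hBS : B ⊆ Sq Λ) {f : E → ℝ} (hf : Continuous f)
    (hf0 : ∀ x ∈ B, 0 ≤ f x) (hΛ : 0 < Λ) :
    PE l (mu Λ) (fun C => ((flt B C).map fun x => ENNReal.ofReal (f x)).sum) =
      ENNReal.ofReal (l / Λ ^ 2 * ∫ x in B, f x) := by
  rw [hP10 l (mu Λ) B (fun x => ENNReal.ofReal (f x)) hl0 hB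
    (ENNReal.measurable_ofReal.comp hf.measurable)]
  have hc : IsCompact (Sq Λ) := isCompact_Icc.prod isCompact_Icc
  have hi : IntegrableOn f B volume := (hf.continuousOn.integrableOn_compact hc).mono_set hBS
  have h1 : ENNReal.ofReal (∫ x in B, f x) = ∫⁻ x in B, ENNReal.ofReal (f x) :=
    ofReal_integral_eq_lintegral_ofReal hi (ae_restrict_of_forall_mem hB hf0)
  have h2 : ∫⁻ x in B, ENNReal.ofReal (f x) ∂(mu Λ) =
      ENNReal.ofReal (1 / Λ ^ 2) * ∫⁻ x in B, ENNReal.ofReal (f x) := by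
    unfold mu
    rw [Measure.restrict_smul, lintegral_smul_measure, Measure.restrict_restrict hB,
      inter_eq_left.2 hBS]
    rfl
  rw [h2, ← h1, ← ENNReal.ofReal_mul (by positivity), ← ENNReal.ofReal_mul hl0]
  congr 1
  ring

end A5x

open A5x in
theorem pf_A5 (hP0 : P0) (hP3 : P3) (hP10 : P10) (hP11 : P11) (hP15 : P15) (hG0 : G0) (hG4 : G4)
    (hG6 : G6) (hR1 : R1) (hR4 : R4) (hA1 : A1) (hA2 : A2) (hA3 : A3) : A5 := by
  intro c Λ l M hOk hl1 hl2 hKL hL hX hGood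
  have hr := hOk.hr
  have hh := hOk.hh
  have hR := hOk.hR
  have hΛ : 0 < Λ := by
    have h1 := hOk.u1
    have h2 := hOk.u1'
    nlinarith
  have hl0 : 0 ≤ l := le_trans (by positivity) hl1
  have hprob : IsProbabilityMeasure (mu Λ) := (hP15 Λ hΛ).1
  obtain ⟨g1, g2, g3, g4, g5, g6, g7, g8, g9, g10, g11, g12, g13, g14, g15, g16, g17, g18, g19,
    g20, g21, g22⟩ := hG4 c Λ hOk
  obtain ⟨q1, q2, q3, -, -⟩ := hP3 l (mu Λ)
  -- the number of steps
  have hKr : 2 * c.R ≤ c.K * c.r := by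
    have h1 : 2 * c.R / c.r ≤ (c.K : ℝ) := by
      rw [hOk.hK]
      exact Nat.le_ceil _
    rwa [div_le_iff₀ hr] at h1
  have hR0 : 0 < c.R := by linarith
  have hK1 : (1 : ℝ) ≤ c.K := by
    by_contra hcc
    push Not at hcc
    nlinarith
  have hhr : c.h < c.r := by
    have h1 : c.h ≤ c.K * c.h := le_mul_of_one_le_left hh.le hK1
    linarith
  have hrh : 0 < c.r - c.h := by linarith
  -- the sets
  obtain ⟨τ, hτ⟩ : ∃ τ, τ = c.u - c.v := ⟨_, rfl⟩
  obtain ⟨A', hA'⟩ : ∃ A', A' = tr τ c.A := ⟨_, rfl⟩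
  obtain ⟨B2, hB2⟩ : ∃ B2 : Set E, B2 = {x | x - τ ∈ c.A0} := ⟨_, rfl⟩
  have hB2Co : B2 ⊆ c.Co := by rw [hB2, hτ]; exact g18
  have hA0m : MeasurableSet c.A0 := measurableSet_Icc.prod measurableSet_Icc
  have hB2m : MeasurableSet B2 := by
    rw [hB2]
    exact hA0m.preimage (measurable_id.sub_const τ)
  have e1 : tr c.v B2 = c.A := by
    ext x
    rw [hB2, hτ]
    change x - c.v - (c.u - c.v) ∈ c.A0 ↔ x - c.u ∈ c.A0
    rw [show x - c.v - (c.u - c.v) = x - c.u by abel]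
  have e2 : tr c.u B2 = A' := by
    ext x
    rw [hB2, hA']
    change x - c.u - τ ∈ c.A0 ↔ x - τ - c.u ∈ c.A0
    rw [show x - c.u - τ = x - τ - c.u by abel]
  have hA'm : MeasurableSet A' := by
    rw [hA']
    exact g11.preimage (measurable_id.sub_const τ)
  have hA'S : A' ⊆ Sq Λ := by
    rw [← e2]
    exact fun x hx => (g6 c.u (Or.inl rfl)).1 (hB2Co hx)
  have hAS : c.A ⊆ Sq Λ := fun x hx => g16 (g1 hx)
  have hWm := (g6 c.u (Or.inl rfl)).2
  have hWm' := (g6 c.v (Or.inr rfl)).2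
  -- the functions
  obtain ⟨f1, hf1⟩ : ∃ f1 : E → ℝ, f1 = fun x => (c.K : ℝ) - nm (x - c.u) / (c.r - c.h) :=
    ⟨_, rfl⟩
  obtain ⟨f2, hf2⟩ : ∃ f2 : E → ℝ, f2 = fun x => (c.K : ℝ) + 1 - nm (x - c.u) / c.r :=
    ⟨_, rfl⟩
  have hf1c : Continuous f1 := by
    rw [hf1]
    exact continuous_const.sub ((nm_cont c.u).div_const _)
  have hf2c : Continuous f2 := by
    rw [hf2]
    exact continuous_const.sub ((nm_cont c.u).div_const _)
  have hf1n : ∀ x ∈ c.A \ A', 0 ≤ f1 x := by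
    intro x hx
    have h1 := (g4 x hx.1 c.u (Or.inl rfl)).2.2
    rw [hf1]
    simp only
    have h2 : nm (x - c.u) / (c.r - c.h) ≤ c.K := by rwa [div_le_iff₀ hrh]
    linarith
  have hnmA' : ∀ x ∈ A', nm (x - c.u) ≤ c.K * c.r := by
    intro x hx
    have h1 : x - c.u - τ ∈ c.A0 := by
      rw [← e2, hB2] at hx
      exact hx
    have h2 : nm (x - c.u) ≤ nm (x - c.u - τ) + nm τ := by
      have h3 := hG0.1 (x - c.u - τ) τ
      rwa [sub_add_cancel] at h3
    have h3 : nm τ ≤ c.r / 400 := by rw [hτ]; exact g20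
    have h4 : nm (x - c.u - τ) ≤ 12 / 10 * c.R := by
      obtain ⟨⟨a1, a2⟩, a3, a4⟩ := h1
      obtain ⟨-, -, b1, b2⟩ := hG0.2.2.1 (x - c.u - τ)
      refine le_of_sq_le_sq ?_ (by positivity)
      rw [b2]
      nlinarith
    nlinarith
  have hf2n : ∀ x ∈ A' \ c.A, 0 ≤ f2 x := by
    intro x hx
    have h1 := hnmA' x hx.1
    rw [hf2]
    simp only
    have h2 : nm (x - c.u) / c.r ≤ c.K := by rwa [div_le_iff₀ hr]
    linarith
  -- expectations
  obtain ⟨I1, hI1⟩ : ∃ I1, I1 = ∫ x in c.A \ A', f1 x := ⟨_, rfl⟩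
  obtain ⟨I2, hI2⟩ : ∃ I2, I2 = ∫ x in A' \ c.A, f2 x := ⟨_, rfl⟩
  have c1 : PE l (mu Λ) (fun C => ((flt (c.A \ A') C).map fun x => ENNReal.ofReal (f1 x)).sum) =
      ENNReal.ofReal (l / Λ ^ 2 * I1) := by
    rw [hI1]
    exact campbell hP10 hl0 (g11.diff hA'm) (sdiff_subset.trans hAS) hf1c hf1n hΛ
  have c2 : PE l (mu Λ) (fun C => ((flt (A' \ c.A) C).map fun x => ENNReal.ofReal (f2 x)).sum) =
      ENNReal.ofReal (l / Λ ^ 2 * I2) := by
    rw [hI2]
    exact campbell hP10 hl0 (hA'm.diff g11) (sdiff_subset.trans hA'S) hf2c hf2n hΛ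
  have hgain : 17 / 5000 * (c.rho * c.R ^ 2 / c.r) ≤ I1 - I2 := by
    have h1 := hG6 c Λ hOk
    rw [hI1, hI2, hf1, hf2, hA', hτ]
    exact h1
  have hI2n : 0 ≤ I2 := by
    rw [hI2]
    exact setIntegral_nonneg (hA'm.diff g11) hf2n
  -- the error
  have herr := err hP0 hP3 hP11 (mu Λ) c.K (c.Good M) hKL hl0 hl2 hL hGood
  obtain ⟨ee, hee⟩ : ∃ ee, ee = PE l (mu Λ)
    (fun C => ind (¬ c.Good M C) * ((c.K : ℝ≥0∞) * (C.card : ℝ≥0∞))) := ⟨_, rfl⟩
  rw [← hee] at herr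
  obtain ⟨S, hS⟩ : ∃ S, S = PE l (mu Λ)
    (fun C => ∑ j ∈ Finset.range c.J, ((min (c.T j C) M : ℕ) : ℝ≥0∞)) := ⟨_, rfl⟩
  rw [← hS]
  have mSN : ∀ (z : E) (B : Set E), MeasurableSet (tr z c.Co) → MeasurableSet B →
      Mf (SN c.r z (tr z c.Co) c.K B) := fun z B hz hB => hR4.1 c.r z _ B c.K hz hB
  have mS : Mf fun C => ∑ j ∈ Finset.range c.J, ((min (c.T j C) M : ℕ) : ℝ≥0∞) := by
    intro N
    exact Finset.measurable_fun_sum _ fun j _ => hR4.2.1 c j M N
  -- pointwise inequality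
  have s1 : PE l (mu Λ) (SN c.r c.u (tr c.u c.Co) c.K c.A) ≤
      PE l (mu Λ) (SN c.r c.u (tr c.u c.Co) c.K A') + (S + ee) := by
    have h1 : PE l (mu Λ) (SN c.r c.v (tr c.v c.Co) c.K c.A) =
        PE l (mu Λ) (SN c.r c.u (tr c.u c.Co) c.K A') := by
      have h2 := hA2 c Λ l B2 hOk hl0 hB2m hB2Co
      rwa [e1, e2] at h2
    have h2 : PE l (mu Λ) (SN c.r c.u (tr c.u c.Co) c.K c.A) ≤ PE l (mu Λ) (fun C =>
        SN c.r c.v (tr c.v c.Co) c.K c.A C +
        (∑ j ∈ Finset.range c.J, ((min (c.T j C) M : ℕ) : ℝ≥0∞) +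
          ind (¬ c.Good M C) * ((c.K : ℝ≥0∞) * (C.card : ℝ≥0∞)))) := by
      refine q1 _ _ fun C => ?_
      have h3 := hA1 c Λ M C hOk
      rwa [add_assoc] at h3
    rw [q2 _ _ (mSN c.v c.A hWm' g11), q2 _ _ mS, ← hS, ← hee, h1] at h2
    exact h2
  have split : ∀ B B' : Set E, MeasurableSet B → MeasurableSet B' →
      PE l (mu Λ) (SN c.r c.u (tr c.u c.Co) c.K B) =
      PE l (mu Λ) (SN c.r c.u (tr c.u c.Co) c.K (B ∩ B')) +
      PE l (mu Λ) (SN c.r c.u (tr c.u c.Co) c.K (B \ B')) := by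
    intro B B' hB hB'
    rw [← q2 _ _ (mSN c.u (B ∩ B') hWm (hB.inter hB'))]
    congr 1
    funext C
    exact sum_split B B' _ C
  have hfin : PE l (mu Λ) (SN c.r c.u (tr c.u c.Co) c.K (c.A ∩ A')) ≠ ⊤ := by
    have h1 : PE l (mu Λ) (SN c.r c.u (tr c.u c.Co) c.K (c.A ∩ A')) ≤
        (c.K : ℝ≥0∞) * PE l (mu Λ) (fun C => (C.card : ℝ≥0∞) ^ 2) := by
      rw [← q3 _ _ (ENNReal.natCast_ne_top _)]
      refine q1 _ _ fun C => ?_
      refine (SN_le _ _ _ _ _ _).trans ?_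
      refine mul_le_mul_right ?_ _
      have h2 : C.card ≤ C.card ^ 2 := by nlinarith [Nat.zero_le C.card, Nat.lt_or_ge C.card 1]
      exact_mod_cast h2
    refine ne_top_of_le_ne_top ?_ h1
    rw [hP11 l (mu Λ) hl0]
    exact ENNReal.mul_ne_top (ENNReal.natCast_ne_top _) ENNReal.ofReal_ne_top
  have s2 : PE l (mu Λ) (SN c.r c.u (tr c.u c.Co) c.K (c.A \ A')) ≤
      PE l (mu Λ) (SN c.r c.u (tr c.u c.Co) c.K (A' \ c.A)) + (S + ee) := by
    rw [split c.A A' g11 hA'm, split A' c.A hA'm g11, inter_comm A' c.A, add_assoc] at s1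
    exact (ENNReal.add_le_add_iff_left hfin).1 s1
  -- lower bound
  have s3 : ENNReal.ofReal (l / Λ ^ 2 * I1) ≤
      PE l (mu Λ) (SN c.r c.u (tr c.u c.Co) c.K (c.A \ A')) + ee := by
    rw [← c1, hee, ← q2 _ _ (mSN c.u (c.A \ A') hWm (g11.diff hA'm))]
    refine q1 _ _ fun C => ?_
    by_cases hG : c.Good M C
    · rw [ind_false (not_not_intro hG), zero_mul, add_zero]
      refine sum_le_sum_of C fun s hs hsA => ?_
      have h1 := hA3.2 c Λ C s hOk hG.1 hs hsA.1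
      rw [hf1]
      exact h1
    · rw [ind_true hG, one_mul]
      refine le_trans ?_ le_add_self
      refine (sum_le_card _ _ (c.K : ℝ≥0∞) fun s hs => ?_).trans ?_
      · rw [hf1]
        simp only
        rw [← ENNReal.ofReal_natCast c.K]
        refine ENNReal.ofReal_le_ofReal ?_
        have h1 : 0 ≤ nm (s - c.u) / (c.r - c.h) :=
          div_nonneg (hG0.2.2.1 (s - c.u)).2.2.1 hrh.le
        linarith
      · rw [mul_comm]
        refine mul_le_mul_right ?_ _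
        exact_mod_cast card_flt_le _ C
  -- upper bound
  have s4 : PE l (mu Λ) (SN c.r c.u (tr c.u c.Co) c.K (A' \ c.A)) ≤
      ENNReal.ofReal (l / Λ ^ 2 * I2) := by
    rw [← c2]
    refine q1 _ _ fun C => ?_
    refine sum_le_sum_of C fun s _ hsA => ?_
    have h1 := hA3.1 c.r c.u s (tr c.u c.Co) c.K C hr (hnmA' s hsA.1)
    rw [hf2]
    exact h1
  -- conclusion
  have hq : 1 / 2 ≤ l / Λ ^ 2 := by
    rw [le_div_iff₀ (by positivity)]
    linarith
  have s5 : ENNReal.ofReal (l / Λ ^ 2 * I2) +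
      ENNReal.ofReal (17 / 10000 * (c.rho * c.R ^ 2 / c.r)) ≤
      ENNReal.ofReal (l / Λ ^ 2 * I2) + (S + ENNReal.ofReal (3 / 10000)) := by
    have h1 : ENNReal.ofReal (l / Λ ^ 2 * I2) +
        ENNReal.ofReal (17 / 10000 * (c.rho * c.R ^ 2 / c.r)) ≤
        ENNReal.ofReal (l / Λ ^ 2 * I1) := by
      rw [← ENNReal.ofReal_add (by positivity) (by positivity)]
      refine ENNReal.ofReal_le_ofReal ?_
      have h2 : 1 / 2 * (I1 - I2) ≤ l / Λ ^ 2 * (I1 - I2) :=
        mul_le_mul_of_nonneg_right hq (by linarith)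
      nlinarith
    refine h1.trans (s3.trans ?_)
    have h3 : ENNReal.ofReal (3 / 20000) + ENNReal.ofReal (3 / 20000) =
        ENNReal.ofReal (3 / 10000) := by
      rw [← ENNReal.ofReal_add (by norm_num) (by norm_num)]
      norm_num
    calc PE l (mu Λ) (SN c.r c.u (tr c.u c.Co) c.K (c.A \ A')) + ee
        ≤ ENNReal.ofReal (l / Λ ^ 2 * I2) + (S + ENNReal.ofReal (3 / 20000)) +
          ENNReal.ofReal (3 / 20000) := by
          gcongr
          exact s2.trans (by gcongr)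
      _ = ENNReal.ofReal (l / Λ ^ 2 * I2) + (S + ENNReal.ofReal (3 / 10000)) := by
          rw [← h3]
          ring
  have s6 := (ENNReal.add_le_add_iff_left ENNReal.ofReal_ne_top).1 s5
  have s7 : ENNReal.ofReal (7 / 5000 * (c.rho * c.R ^ 2 / c.r)) + ENNReal.ofReal (3 / 10000) ≤
      S + ENNReal.ofReal (3 / 10000) := by
    refine le_trans ?_ s6
    rw [← ENNReal.ofReal_add (by positivity) (by norm_num)]
    refine ENNReal.ofReal_le_ofReal ?_
    linarith
  exact (ENNReal.add_le_add_iff_right ENNReal.ofReal_ne_top).1 s7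

end Pool.Agent.Helper59.RG
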