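import Pool.Agent.Helper59.RG.St

/-!
# Project RG: the counted points are separated (piece A6)
-/

set_option autoImplicit false

namespace Pool.Agent.Helper59.RG

open MeasureTheory Set
open scoped ENNReal

namespace A6x

theorem card_flt_cons (B : Set E) (a : E) (C : Multiset E) [Decidable (a ∈ B)] :
    (flt B (a ::ₘ C)).card = (if a ∈ B then 1 else 0) + (flt B C).card := by
  unfold flt
  letI : DecidablePred (fun x => x ∈ B) := fun _ => Classical.propDecidable _
  by_cases ha : a ∈ B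
  · rw [if_pos ha, add_comm]
    exact (congrArg Multiset.card (Multiset.filter_cons_of_pos (p := fun x => x ∈ B) C ha)).trans
      (Multiset.card_cons _ _)
  · rw [if_neg ha, zero_add]
    exact congrArg Multiset.card (Multiset.filter_cons_of_neg (p := fun x => x ∈ B) C ha)

open Classical in
theorem sum_flt_le (S : Finset ℕ) (B : ℕ → Set E) (D : Set E)
    (hdisj : ∀ i ∈ S, ∀ j ∈ S, i ≠ j → Disjoint (B i) (B j)) (C : Multiset E) :
    (∀ s ∈ C, ∀ j ∈ S, s ∈ B j → s ∈ D) →
    ∑ j ∈ S, (flt (B j) C).card ≤ (flt D C).card := by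
  refine Multiset.induction_on C ?_ ?_
  · intro _
    simp [flt]
  · intro a C ih h
    have h1 : ∑ j ∈ S, (flt (B j) C).card ≤ (flt D C).card :=
      ih fun s hs => h s (Multiset.mem_cons_of_mem hs)
    have h2 : ∑ j ∈ S, (if a ∈ B j then 1 else 0) ≤ if a ∈ D then 1 else 0 := by
      by_cases hex : ∃ j ∈ S, a ∈ B j
      · obtain ⟨j, hj, haj⟩ := hex
        rw [if_pos (h a (Multiset.mem_cons_self a C) j hj haj)]
        rw [Finset.sum_eq_single_of_mem j hj]
        · rw [if_pos haj]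
        · intro i hi hij
          rw [if_neg]
          intro hai
          exact Set.disjoint_left.1 (hdisj i hi j hj hij) hai haj
      · push Not at hex
        rw [Finset.sum_eq_zero fun j hj => if_neg (hex j hj)]
        exact Nat.zero_le _
    have h3 : ∑ j ∈ S, (flt (B j) (a ::ₘ C)).card =
        ∑ j ∈ S, (if a ∈ B j then 1 else 0) + ∑ j ∈ S, (flt (B j) C).card := by
      rw [← Finset.sum_add_distrib]
      exact Finset.sum_congr rfl fun j _ => card_flt_cons (B j) a C
    rw [h3, card_flt_cons D a C]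
    exact Nat.add_le_add h2 h1

end A6x

theorem pf_A6 (hG4 : G4) (hR1 : R1) (hA0 : A0) : A6 := by
  clear hR1
  intro c Λ M C hok hgood
  obtain ⟨hTP, _⟩ := hgood
  have g := hG4 c Λ hok
  have hdisj : ∀ i j : ℕ, i ≠ j → Disjoint (c.Aj i) (c.Aj j) := g.2.2.2.2.2.2.2.1
  have h1 : ∑ j ∈ Finset.range c.J, min (c.T j C) M ≤ ∑ j ∈ Finset.range c.J, c.T j C :=
    Finset.sum_le_sum fun j _ => min_le_left _ _
  refine le_trans h1 ?_
  unfold Cx.T nsep
  apply A6x.sum_flt_le (Finset.range c.J) (fun j => {s | s ∈ c.Aj j ∧ ∃ k < c.K,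
    Rch c.r c.u (c.W j) C k s ∧ ¬ Rch c.r c.v (c.W j) C k s})
  · intro i _ j _ hij
    rw [Set.disjoint_left]
    intro a ha hb
    exact Set.disjoint_left.1 (hdisj i j hij) ha.1 hb.1
  · intro s hs j _ hsj
    obtain ⟨hA, k, hk, hu, hv⟩ := hsj
    refine ⟨k, hk, Or.inl ⟨?_, ?_⟩⟩
    · exact (hA0 c Λ C s c.u k j hok hTP hs hA (Or.inl rfl) hk).1.2 hu
    · intro hv'
      exact hv ((hA0 c Λ C s c.v k j hok hTP hs hA (Or.inr rfl) hk).1.1 hv')

end Pool.Agent.Helper59.RG
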