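import Pool.Agent.Helper59.RG.St

/-!
# Project RG, piece B1: straight paths exist with high probability.
-/

set_option autoImplicit false

namespace Pool.Agent.Helper59.RG

open MeasureTheory Set
open scoped ENNReal

noncomputable section

namespace B1x

theorem ind_true {p : Prop} (h : p) : ind p = 1 := by
  unfold ind; exact if_pos h

theorem ind_false {p : Prop} (h : ¬ p) : ind p = 0 := by
  unfold ind; exact if_neg h

theorem ind_le_one (p : Prop) : ind p ≤ 1 := by
  by_cases h : p
  · rw [ind_true h]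
  · rw [ind_false h]; exact zero_le_one

theorem ind_congr {p q : Prop} (h : p ↔ q) : ind p = ind q := by
  by_cases hp : p
  · rw [ind_true hp, ind_true (h.1 hp)]
  · rw [ind_false hp, ind_false (fun hq => hp (h.2 hq))]

theorem meas_ind {α : Type*} [MeasurableSpace α] {p : α → Prop} (h : MeasurableSet {a | p a}) :
    Measurable fun a => ind (p a) := by
  classical
  have : (fun a => ind (p a)) = Set.indicator {a | p a} (fun _ => (1 : ℝ≥0∞)) := by
    funext a
    by_cases ha : p a
    · rw [ind_true ha, Set.indicator_of_mem (show a ∈ {a | p a} from ha)]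
    · rw [ind_false ha, Set.indicator_of_notMem (show a ∉ {a | p a} from ha)]
  rw [this]
  exact measurable_const.indicator h

theorem mem_flt {W : Set E} {C : Multiset E} {x : E} : x ∈ flt W C ↔ x ∈ C ∧ x ∈ W := by
  unfold flt
  let : DecidablePred fun x => x ∈ W := fun _ => Classical.propDecidable _
  exact Multiset.mem_filter

theorem flt_eq_zero {W : Set E} {C : Multiset E} : flt W C = 0 ↔ ∀ x ∈ C, x ∉ W := by
  constructor
  · intro h x hx hxW
    have : x ∈ flt W C := mem_flt.2 ⟨hx, hxW⟩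
    rw [h] at this
    exact Multiset.notMem_zero _ this
  · intro h
    apply Multiset.eq_zero_of_forall_notMem
    intro x hx
    exact h x (mem_flt.1 hx).1 (mem_flt.1 hx).2

theorem mem_ers {C : Multiset E} {s x : E} (h : x ∈ ers C s) : x ∈ C := by
  unfold ers at h
  exact @Multiset.mem_of_mem_erase E (Classical.decEq E) _ _ _ h

theorem mem_ms {N : ℕ} {X : Fin N → E} {x : E} : x ∈ ms X ↔ ∃ i, X i = x := by
  unfold ms
  simp

/-- number of steps -/
def q (r h : ℝ) (z s : E) : ℕ := ⌈nm (s - z) / (r - h)⌉₊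

/-- the bad event -/
def bad (c : Cx) (z : E) (m : ℕ) (s : E) (C : Multiset E) : Prop :=
  s ∈ c.Cn ∧ 1 ≤ m ∧ m < q c.r c.h z s ∧ flt (Pm c.r c.h z s (q c.r c.h z s) m) C = 0

/-- the functional -/
def ph (c : Cx) (s : E) (C : Multiset E) : ℝ≥0∞ :=
  (∑ m ∈ Finset.range c.K, ind (bad c c.u m s C)) + ∑ m ∈ Finset.range c.K, ind (bad c c.v m s C)

theorem meas_nm : Measurable nm := by
  unfold nm
  fun_prop

theorem meas_q (r h : ℝ) (z : E) : Measurable (q r h z) := by
  unfold q
  apply Nat.measurable_ceil.comp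
  have := meas_nm
  fun_prop

theorem Mj_bad (c : Cx) (z : E) (m : ℕ) (hG3 : G3) (hr : 0 < c.r) (hh : 0 < c.h)
    (hCn : MeasurableSet c.Cn) : Mj fun (s : E) (C : Multiset E) => ind (bad c z m s C) := by
  intro N
  apply meas_ind
  have hset : {p : E × (Fin N → E) | bad c z m p.1 (ms p.2)} =
      ⋃ k : ℕ, ({p : E × (Fin N → E) | p.1 ∈ c.Cn} ∩ {p : E × (Fin N → E) | 1 ≤ m ∧ m < k} ∩
        {p : E × (Fin N → E) | q c.r c.h z p.1 = k} ∩
        ⋂ i : Fin N, {p : E × (Fin N → E) | p.2 i ∉ Pm c.r c.h z p.1 k m}) := by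
    ext p
    simp only [bad, mem_ofPred_eq, mem_iUnion, mem_inter_iff, mem_iInter]
    constructor
    · rintro ⟨h1, h2, h3, h4⟩
      refine ⟨q c.r c.h z p.1, ⟨⟨h1, h2, h3⟩, rfl⟩, fun i => ?_⟩
      exact flt_eq_zero.1 h4 _ (mem_ms.2 ⟨i, rfl⟩)
    · rintro ⟨k, ⟨⟨h1, h2, h3⟩, h4⟩, h5⟩
      subst h4
      refine ⟨h1, h2, h3, flt_eq_zero.2 ?_⟩
      intro x hx
      obtain ⟨i, rfl⟩ := mem_ms.1 hx
      exact h5 i
  rw [hset]
  refine MeasurableSet.iUnion fun k => ?_
  refine MeasurableSet.inter (MeasurableSet.inter (MeasurableSet.inter ?_ ?_) ?_) ?_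
  · exact measurable_fst hCn
  · exact MeasurableSet.const _
  · exact ((meas_q c.r c.h z).comp measurable_fst) (measurableSet_singleton k)
  · refine MeasurableSet.iInter fun i => ?_
    have h := hG3.1 c.r c.h k m hr hh
    have hf : Measurable fun p : E × (Fin N → E) => (((z, p.1), p.2 i) : (E × E) × E) := by
      fun_prop
    exact (hf h).compl

theorem Mj_sum {β : Type} [MeasurableSpace β] (S : Finset ℕ) (F : ℕ → β → Multiset E → ℝ≥0∞)
    (h : ∀ j ∈ S, Mj (F j)) : Mj fun b C => ∑ j ∈ S, F j b C := by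
  intro N
  exact Finset.measurable_fun_sum S fun j hj => h j hj N

theorem Mj_ph (c : Cx) (hG3 : G3) (hr : 0 < c.r) (hh : 0 < c.h)
    (hCn : MeasurableSet c.Cn) : Mj (ph c) := by
  intro N
  have h1 := Mj_sum (Finset.range c.K) (fun m (s : E) C => ind (bad c c.u m s C))
    (fun m _ => Mj_bad c c.u m hG3 hr hh hCn) N
  have h2 := Mj_sum (Finset.range c.K) (fun m (s : E) C => ind (bad c c.v m s C))
    (fun m _ => Mj_bad c c.v m hG3 hr hh hCn) N
  exact h1.add h2

end B1x

open B1x

theorem pf_B1 (hP0 : P0) (hP3 : P3) (hP8 : P8) (hP9 : P9) (hP15 : P15) (hG0 : G0) (hG2 : G2)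
    (hG3 : G3) (hG4 : G4) : B1 := by
  intro c Λ l e hok hl1 hl2 he hbig
  obtain ⟨g1, g2, g3, g4, g5, g6, g7, g8, g9, g10, g11, g12, g13, g14, g15, g16, g17, g18, g19, g20,
    g21, g22⟩ := hG4 c Λ hok
  have hr := hok.hr
  have hh := hok.hh
  have hR : 0 < c.R := by have := hok.hR; linarith
  have hΛ : 0 < Λ := by have := hok.u1; have := hok.u1'; nlinarith
  have hl : 0 ≤ l := le_trans (by positivity) hl1
  obtain ⟨hpm, hmu⟩ := hP15 Λ hΛ
  have hMj := Mj_ph c hG3 hr hh g12
  obtain ⟨p1, p2, p3, p4, p5⟩ := hP3 l (mu Λ)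
  -- pointwise inequality
  have hpt : ∀ C : Multiset E, ind (¬ c.TP C) ≤ (C.map fun s => ph c s (ers C s)).sum := by
    intro C
    by_cases hTP : c.TP C
    · rw [ind_false (not_not.2 hTP)]; exact bot_le
    · rw [ind_true hTP]
      unfold Cx.TP at hTP
      push Not at hTP
      obtain ⟨s, hsC, hsCn, z, hz, k, hk, hle, hno⟩ := hTP
      obtain ⟨a1, a2, a3⟩ := g2 s hsCn z hz
      have hKpos : (1 : ℝ) ≤ c.K := by
        have : 1 ≤ c.K := by omega
        exact_mod_cast this
      have hhr : c.h ≤ c.r / 10000 := le_trans (by nlinarith) g21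
      have hrh : 0 < c.r - c.h := by linarith
      have key : ∃ m : ℕ, 1 ≤ m ∧ m < q c.r c.h z s ∧
          flt (Pm c.r c.h z s (q c.r c.h z s) m) (ers C s) = 0 := by
        by_contra hcon
        apply hno
        apply hG2 c.r c.h c.K k z s C hr hh g21 hk a1 a2 a3 hsC hle
        intro m hm1 hm2
        by_contra hy
        push Not at hy
        apply hcon
        refine ⟨m, hm1, hm2, flt_eq_zero.2 fun x hx => ?_⟩
        exact hy x (mem_ers hx)
      obtain ⟨m, hm1, hm2, hm3⟩ := key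
      have hq : q c.r c.h z s ≤ k + 1 := by
        unfold q
        apply Nat.ceil_le.2
        rw [div_le_iff₀ hrh]
        push_cast
        exact hle
      have hmK : m ∈ Finset.range c.K := Finset.mem_range.2 (by omega)
      have hbad : bad c z m s (ers C s) := ⟨hsCn, hm1, hm2, hm3⟩
      have h1 : (1 : ℝ≥0∞) ≤ ph c s (ers C s) := by
        have h2 : (1 : ℝ≥0∞) ≤ ∑ m ∈ Finset.range c.K, ind (bad c z m s (ers C s)) := by
          calc (1 : ℝ≥0∞) = ind (bad c z m s (ers C s)) := (ind_true hbad).symm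
            _ ≤ _ := Finset.single_le_sum (f := fun m => ind (bad c z m s (ers C s)))
              (fun _ _ => bot_le) hmK
        unfold ph
        rcases hz with rfl | rfl
        · exact le_trans h2 le_self_add
        · exact le_trans h2 le_add_self
      calc (1 : ℝ≥0∞) ≤ ph c s (ers C s) := h1
        _ ≤ _ := Multiset.single_le_sum (fun _ _ => bot_le) _ 
          (Multiset.mem_map_of_mem (fun s => ph c s (ers C s)) hsC)
  -- the bound for a single event
  have hone : ∀ z, (z = c.u ∨ z = c.v) → ∀ (m : ℕ) (s : E),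
      PE l (mu Λ) (fun C => ind (bad c z m s C)) ≤ ENNReal.ofReal (Real.exp (-(23 * e))) := by
    intro z hz m s
    by_cases hc : s ∈ c.Cn ∧ 1 ≤ m ∧ m < q c.r c.h z s
    · obtain ⟨hs, hm1, hm2⟩ := hc
      obtain ⟨a1, a2, a3⟩ := g2 s hs z hz
      set W : Set E := Pm c.r c.h z s (q c.r c.h z s) m with hW
      have hq1 : 0 < q c.r c.h z s := by omega
      -- K ≥ 1
      have hK1 : (1 : ℝ) ≤ c.K := by
        rw [hok.hK]
        have : 0 < ⌈2 * c.R / c.r⌉₊ := Nat.ceil_pos.2 (by positivity)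
        exact_mod_cast this
      have hhr : c.h ≤ c.r / 10000 := le_trans (by nlinarith) g21
      obtain ⟨b1, b2⟩ := hG3.2.2 c.r c.h z s m hr hh hhr a1 a2 a3 hm1 hm2
      have hWm : MeasurableSet W := by
        have h := hG3.1 c.r c.h (q c.r c.h z s) m hr hh
        have hf : Measurable fun x : E => (((z, s), x) : (E × E) × E) := by fun_prop
        exact hf h
      have hsSq := g16 hs
      have hz0 : 0 ≤ z.1 ∧ 0 ≤ z.2 := by
        rcases hz with rfl | rfl
        · exact ⟨hok.u1, hok.u2⟩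
        · exact ⟨hok.v1, hok.v2⟩
      have hWS : W ⊆ Sq Λ := by
        refine subset_trans b1 ?_
        unfold Sq at hsSq ⊢
        obtain ⟨⟨_, c1⟩, ⟨_, c2⟩⟩ := hsSq
        exact Set.prod_mono (Icc_subset_Icc hz0.1 c1) (Icc_subset_Icc hz0.2 c2)
      have hfun : (fun C => ind (bad c z m s C)) =
          fun C => ENNReal.ofReal 0 ^ (flt W C).card := by
        funext C
        by_cases h0 : flt W C = 0
        · rw [ind_true ⟨hs, hm1, hm2, h0⟩, h0]; simp
        · rw [ind_false (fun h => h0 h.2.2.2)]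
          have : (flt W C).card ≠ 0 := fun h => h0 (Multiset.card_eq_zero.1 h)
          simp [this]
      rw [hfun, hP8 l (mu Λ) W 0 hl le_rfl hWm, hmu W hWm, Set.inter_eq_left.2 hWS, hW,
        hG3.2.1 c.r c.h z s (q c.r c.h z s) m hr hh]
      apply ENNReal.ofReal_le_ofReal
      apply Real.exp_le_exp.2
      rw [ENNReal.toReal_mul, ENNReal.toReal_ofReal (by positivity),
        ENNReal.toReal_ofReal (by positivity)]
      have hsq : 46 * e * 3 ≤ c.h * √(c.r * c.h / 2) := by
        apply le_of_sq_le_sq _ (by positivity)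
        rw [mul_pow c.h, Real.sq_sqrt (by positivity)]
        nlinarith [hbig, sq_nonneg e]
      have h1 : 1 / 2 ≤ l * (1 / Λ ^ 2) := by
        rw [mul_one_div, le_div_iff₀ (by positivity)]
        linarith
      have h2 : 46 * e ≤ c.h * √(c.r * c.h / 2) / 3 := by
        rw [le_div_iff₀ (by norm_num)]; exact hsq
      have h3 : (1 / 2) * (46 * e) ≤ (l * (1 / Λ ^ 2)) * (c.h * √(c.r * c.h / 2) / 3) :=
        mul_le_mul h1 h2 (by positivity) (by positivity)
      nlinarith [h3]
    · have hfun : (fun C => ind (bad c z m s C)) = fun C => (0 : ℝ≥0∞) * ind True := by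
        funext C
        rw [ind_false (fun h => hc ⟨h.1, h.2.1, h.2.2.1⟩), zero_mul]
      rw [hfun, p3 0 (fun _ => ind True) (by simp), zero_mul]
      exact bot_le
  have hKe : ∀ z, (z = c.u ∨ z = c.v) → ∀ s : E,
      PE l (mu Λ) (fun C => ∑ m ∈ Finset.range c.K, ind (bad c z m s C)) ≤
        c.K * ENNReal.ofReal (Real.exp (-(23 * e))) := by
    intro z hz s
    have hmf : ∀ m ∈ Finset.range c.K, Mf fun C => ind (bad c z m s C) := fun m _ =>
      (hP0.2.2.1 E (fun (s : E) (C : Multiset E) => ind (bad c z m s C))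
        (Mj_bad c z m hG3 hr hh g12)).1 s
    rw [p4 (Finset.range c.K) (fun m C => ind (bad c z m s C)) hmf]
    calc ∑ m ∈ Finset.range c.K, PE l (mu Λ) (fun C => ind (bad c z m s C))
        ≤ ∑ m ∈ Finset.range c.K, ENNReal.ofReal (Real.exp (-(23 * e))) :=
          Finset.sum_le_sum fun m _ => hone z hz m s
      _ = c.K * ENNReal.ofReal (Real.exp (-(23 * e))) := by
          rw [Finset.sum_const, Finset.card_range, nsmul_eq_mul]
  have hph : ∀ s : E, PE l (mu Λ) (ph c s) ≤ 2 * (c.K * ENNReal.ofReal (Real.exp (-(23 * e)))) := by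
    intro s
    have hmf : Mf fun C => ∑ m ∈ Finset.range c.K, ind (bad c c.u m s C) :=
      (hP0.2.2.1 E (fun (s : E) (C : Multiset E) =>
          ∑ m ∈ Finset.range c.K, ind (bad c c.u m s C))
        (Mj_sum (Finset.range c.K) (fun m (s : E) C => ind (bad c c.u m s C))
          (fun m _ => Mj_bad c c.u m hG3 hr hh g12))).1 s
    have hadd := p2 (fun C => ∑ m ∈ Finset.range c.K, ind (bad c c.u m s C))
      (fun C => ∑ m ∈ Finset.range c.K, ind (bad c c.v m s C)) hmf
    have hphe : ph c s = fun C => (∑ m ∈ Finset.range c.K, ind (bad c c.u m s C)) +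
        ∑ m ∈ Finset.range c.K, ind (bad c c.v m s C) := rfl
    rw [hphe, hadd, two_mul]
    exact add_le_add (hKe c.u (Or.inl rfl) s) (hKe c.v (Or.inr rfl) s)
  calc PE l (mu Λ) (fun C => ind (¬ c.TP C))
      ≤ PE l (mu Λ) (fun C => (C.map fun s => ph c s (ers C s)).sum) := p1 _ _ hpt
    _ = ENNReal.ofReal l * ∫⁻ s, PE l (mu Λ) (ph c s) ∂(mu Λ) := hP9 l (mu Λ) (ph c) hl hMj
    _ ≤ ENNReal.ofReal l * ∫⁻ _s, 2 * (c.K * ENNReal.ofReal (Real.exp (-(23 * e)))) ∂(mu Λ) := by
        gcongr with s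
        exact hph s
    _ = ENNReal.ofReal l * (2 * (c.K * ENNReal.ofReal (Real.exp (-(23 * e))))) := by
        rw [lintegral_const, measure_univ, mul_one]
    _ ≤ ENNReal.ofReal (Λ ^ 2) * (2 * (c.K * ENNReal.ofReal (Real.exp (-(23 * e))))) := by
        gcongr
    _ = ENNReal.ofReal (2 * Λ ^ 2 * c.K * Real.exp (-(23 * e))) := by
        have e2 : (2 : ℝ≥0∞) = ENNReal.ofReal 2 := by simp
        have eK : (c.K : ℝ≥0∞) = ENNReal.ofReal c.K := by simp
        rw [e2, eK, ← ENNReal.ofReal_mul (by positivity), ← ENNReal.ofReal_mul (by positivity),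
          ← ENNReal.ofReal_mul (by positivity)]
        congr 1
        ring

end

end Pool.Agent.Helper59.RG
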