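import Pool.Agent.Helper59.RG.St

set_option autoImplicit false

namespace Pool.Agent.Helper59.RG

open MeasureTheory Set
open scoped ENNReal

noncomputable section

namespace B2x

theorem ind_true {p : Prop} (h : p) : ind p = 1 := by
  unfold ind; rw [if_pos h]

theorem ind_false {p : Prop} (h : ¬ p) : ind p = 0 := by
  unfold ind; rw [if_neg h]

theorem ind_le_one (p : Prop) : ind p ≤ 1 := by
  by_cases h : p
  · rw [ind_true h]
  · rw [ind_false h]; exact zero_le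

theorem card_le {C : Multiset E} {P Q : Set E} (h : ∀ s ∈ C, s ∈ P → s ∈ Q) :
    (flt P C).card ≤ (flt Q C).card := by
  classical
  unfold flt
  have h1 : @Multiset.filter E (fun x => x ∈ P) (fun _ => Classical.propDecidable _) C =
      @Multiset.filter E (fun x => x ∈ P) (fun _ => Classical.propDecidable _)
        (@Multiset.filter E (fun x => x ∈ Q) (fun _ => Classical.propDecidable _) C) := by
    rw [Multiset.filter_filter]
    refine Multiset.filter_congr ?_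
    intro x hx
    exact ⟨fun hp => ⟨hp, h x hx hp⟩, fun hp => hp.1⟩
  rw [h1]
  exact Multiset.card_le_card (Multiset.filter_le _ _)

/-- the shell pieces -/
def Sh (a b d1 d2 : ℝ) : Set E := {x : E | 0 < x.1 ∧ a ≤ sl x ∧ sl x ≤ b ∧ d1 < nm x ∧ nm x ≤ d2}

theorem nm_pos {x : E} (h : 0 < x.1) : 0 < nm x := by
  unfold nm
  apply Real.sqrt_pos.mpr
  have := pow_pos h 2
  have := sq_nonneg x.2
  linarith

theorem sq_diff {D d : ℝ} (hD : 0 ≤ D) (hd : 0 ≤ d) :
    D ^ 2 - (max 0 (D - d)) ^ 2 ≤ 2 * (D * d) := by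
  rcases le_total d D with h | h
  · rw [max_eq_right (by linarith)]
    nlinarith [sq_nonneg d]
  · rw [max_eq_left (by linarith)]
    nlinarith [mul_nonneg hD hd, mul_le_mul_of_nonneg_left h hD]

theorem shell_vol (hG5 : G5) {a De r h ρ Kh : ℝ} {k : ℕ} (ha : 0 ≤ a) (hDe : 0 ≤ De) (hr : 0 ≤ r)
    (hh : 0 ≤ h) (hρ : 0 ≤ ρ) (hKh : ((k : ℝ) + 1) * h ≤ Kh) :
    volume (Sh a (a + De) (max 0 (((k : ℝ) + 1) * (r - h) - ρ)) (((k : ℝ) + 1) * r)) ≤
      ENNReal.ofReal (De * r * (Kh + ρ) * ((k : ℝ) + 1)) := by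
  have hk : (0 : ℝ) ≤ (k : ℝ) + 1 := by positivity
  have hD : 0 ≤ ((k : ℝ) + 1) * r := mul_nonneg hk hr
  have hd : 0 ≤ ((k : ℝ) + 1) * h + ρ := by positivity
  have e1 : ((k : ℝ) + 1) * (r - h) - ρ = ((k : ℝ) + 1) * r - (((k : ℝ) + 1) * h + ρ) := by ring
  have h12 : max 0 (((k : ℝ) + 1) * (r - h) - ρ) ≤ ((k : ℝ) + 1) * r := by
    apply max_le hD
    rw [e1]; linarith
  have := (hG5 a (a + De) (max 0 (((k : ℝ) + 1) * (r - h) - ρ)) (((k : ℝ) + 1) * r) ha
    (by linarith) (le_max_left _ _) h12).1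
  refine this.trans (ENNReal.ofReal_le_ofReal ?_)
  have h3 := sq_diff hD hd
  rw [← e1] at h3
  have h4 : (((k : ℝ) + 1) * r) * (((k : ℝ) + 1) * h + ρ) ≤ (((k : ℝ) + 1) * r) * (Kh + ρ) :=
    mul_le_mul_of_nonneg_left (by linarith) hD
  have h5 : (a + De - a) * ((((k : ℝ) + 1) * r) ^ 2 -
      (max 0 (((k : ℝ) + 1) * (r - h) - ρ)) ^ 2) / 2 ≤
      De * ((((k : ℝ) + 1) * r) * (Kh + ρ)) := by
    have : De * ((((k : ℝ) + 1) * r) ^ 2 - (max 0 (((k : ℝ) + 1) * (r - h) - ρ)) ^ 2) ≤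
        De * (2 * ((((k : ℝ) + 1) * r) * (Kh + ρ))) :=
      mul_le_mul_of_nonneg_left (by linarith) hDe
    have e2 : a + De - a = De := by ring
    rw [e2]; linarith
  refine h5.trans (le_of_eq (by ring))

theorem sum_succ_le (K : ℕ) : ∑ k ∈ Finset.range K, ((k : ℝ) + 1) ≤ (K : ℝ) ^ 2 := by
  induction K with
  | zero => simp
  | succ n ih =>
    rw [Finset.sum_range_succ]
    push_cast
    nlinarith [ih, (Nat.cast_nonneg n : (0 : ℝ) ≤ n)]

theorem De_nonneg (c : Cx) (hr : 0 < c.r) (hρ : 0 ≤ c.rho) : 0 ≤ c.De := by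
  unfold Cx.De Cx.mg Cx.th
  have h1 : 0 ≤ √(c.K * c.h / c.r) := Real.sqrt_nonneg _
  have h2 : 0 ≤ 8 * c.rho / c.r := by positivity
  linarith

theorem vol_le (hG4 : G4) (hG5 : G5) (c : Cx) (Λ : ℝ) (hc : c.Ok Λ) (j : ℕ) :
    volume (c.Fr ∩ c.Aj j) ≤
      ENNReal.ofReal (c.K ^ 2 * c.r * (c.K * c.h + c.rho) * c.De) := by
  obtain ⟨gA, gC, -, -, -, -, -, -, -, -, -, -, -, -, -, -, -, -, hρ, hρ', -, -⟩ := hG4 c Λ hc
  have hr := hc.hr
  have hh := hc.hh
  have hDe := De_nonneg c hr hρ.le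
  set a : ℝ := 1 / 4 + j * c.De with ha
  have ha0 : 0 ≤ a := by positivity
  have hsub : c.Fr ∩ c.Aj j ⊆ ⋃ k ∈ Finset.range c.K,
      (fun x : E => x + (-c.u)) ⁻¹'
        (Sh a (a + c.De) (max 0 (((k : ℝ) + 1) * (c.r - c.h) - c.rho)) (((k : ℝ) + 1) * c.r)) := by
    rintro s ⟨⟨hsA, k, hk, hk1, hk2⟩, ⟨_, hs1, hs2⟩⟩
    simp only [mem_iUnion, Finset.mem_range]
    refine ⟨k, hk, ?_⟩
    have h1 : c.r / 3 ≤ (s - c.u).1 := (gA hsA).1
    have h0 : 0 < (s - c.u).1 := by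
      have : 0 < c.r / 3 := by positivity
      linarith
    rw [mem_preimage, ← sub_eq_add_neg]
    refine ⟨h0, hs1, ?_, ?_, hk2⟩
    · have e : a + c.De = 1 / 4 + (j + 1) * c.De := by rw [ha]; ring
      rw [e]; exact hs2.le
    · exact max_lt (nm_pos h0) hk1
  refine (measure_mono hsub).trans ?_
  refine (measure_biUnion_finset_le _ _).trans ?_
  have hstep : ∀ k ∈ Finset.range c.K, volume ((fun x : E => x + (-c.u)) ⁻¹'
      (Sh a (a + c.De) (max 0 (((k : ℝ) + 1) * (c.r - c.h) - c.rho)) (((k : ℝ) + 1) * c.r))) ≤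
      ENNReal.ofReal (c.De * c.r * (c.K * c.h + c.rho) * ((k : ℝ) + 1)) := by
    intro k hk
    rw [measure_preimage_add_right]
    apply shell_vol hG5 ha0 hDe hr.le hh.le hρ.le
    have : (k : ℝ) + 1 ≤ c.K := by exact_mod_cast Finset.mem_range.mp hk
    exact mul_le_mul_of_nonneg_right this hh.le
  refine (Finset.sum_le_sum hstep).trans ?_
  have hc0 : 0 ≤ c.De * c.r * (c.K * c.h + c.rho) := by positivity
  rw [← ENNReal.ofReal_sum_of_nonneg (fun k _ => by positivity)]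
  apply ENNReal.ofReal_le_ofReal
  rw [← Finset.mul_sum]
  refine (mul_le_mul_of_nonneg_left (sum_succ_le c.K) hc0).trans (le_of_eq (by ring))

end B2x

open B2x in
theorem pf_B2 (hP0 : P0) (hP3 : P3) (hP8 : P8) (hP15 : P15) (hG0 : G0) (hG4 : G4) (hG5 : G5)
    (hR1 : R1) (hA0 : A0) (hA01 : A01) : B2 := by
  intro c Λ l e M hc hl hlΛ he hM
  have _ := hG0
  have _ := hR1
  obtain ⟨gA, gC, g3, g4, g5, g6, g7, g8, g9, g10, g11, g12, g13, gFr, g15, g16, g17, g18, hρ,
    hρ', g21, g22⟩ := hG4 c Λ hc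
  have hr := hc.hr
  have hR : 0 < c.R := by
    have := hc.hR
    have : 0 < 500 * c.r := by positivity
    linarith
  have hΛ : 0 < Λ := by
    have h1 := hc.u1'
    have h2 := hc.u1
    have : 0 < 13 / 10 * c.R := by positivity
    linarith
  obtain ⟨hprob, hmu⟩ := hP15 Λ hΛ
  have := hprob
  obtain ⟨p1, p2, p3, p4, -⟩ := hP3 l (mu Λ)
  set m : ℝ := c.K ^ 2 * c.r * (c.K * c.h + c.rho) * c.De with hm
  have hDe := De_nonneg c hr hρ.le
  have hh := hc.hh
  have hm0 : 0 ≤ m := by positivity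
  -- the comparison functionals
  let H : ℕ → Multiset E → ℝ≥0∞ := fun j C =>
    ENNReal.ofReal (Real.exp 1) ^ (flt (c.Fr ∩ c.Aj j) C).card
  let F : ℕ → Multiset E → ℝ≥0∞ := fun j C => ENNReal.ofReal (Real.exp (-(M : ℝ))) * H j C
  have hmeasS : ∀ j, MeasurableSet (c.Fr ∩ c.Aj j) := fun j => gFr.inter (g10 j).2.1
  have hMH : ∀ j, Mf (H j) := by
    intro j N
    have h1 := hP0.2.2.2.1 (c.Fr ∩ c.Aj j) (hmeasS j) N
    have h2 : Measurable fun x : ℝ≥0∞ => ENNReal.ofReal (Real.exp x.toReal) :=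
      ENNReal.measurable_ofReal.comp (Real.measurable_exp.comp ENNReal.measurable_toReal)
    have h3 := h2.comp h1
    have h4 : (fun X : Fin N → E => H j (ms X)) =
        ((fun x : ℝ≥0∞ => ENNReal.ofReal (Real.exp x.toReal)) ∘
          fun X : Fin N → E => (fun C => ((flt (c.Fr ∩ c.Aj j) C).card : ℝ≥0∞)) (ms X)) := by
      funext X
      show ENNReal.ofReal (Real.exp 1) ^ (flt (c.Fr ∩ c.Aj j) (ms X)).card = _
      simp only [Function.comp]
      rw [ENNReal.toReal_natCast, ← ENNReal.ofReal_pow (Real.exp_nonneg _), ← Real.exp_nat_mul,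
        mul_one]
    rw [h4]; exact h3
  have hMF : ∀ j, Mf (F j) := fun j N => (hMH j N).const_mul _
  have hPF : ∀ j, PE l (mu Λ) (F j) ≤ ENNReal.ofReal (Real.exp (-(20 * e))) := by
    intro j
    have h1 : PE l (mu Λ) (F j) = ENNReal.ofReal (Real.exp (-(M : ℝ))) * PE l (mu Λ) (H j) :=
      p3 _ _ ENNReal.ofReal_ne_top
    have h2 := hP8 l (mu Λ) (c.Fr ∩ c.Aj j) (Real.exp 1) hl (Real.exp_nonneg _) (hmeasS j)
    rw [h1]
    show _ * PE l (mu Λ) (fun C => ENNReal.ofReal (Real.exp 1) ^ (flt (c.Fr ∩ c.Aj j) C).card) ≤ _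
    rw [h2, ← ENNReal.ofReal_mul (Real.exp_nonneg _), ← Real.exp_add]
    apply ENNReal.ofReal_le_ofReal
    apply Real.exp_le_exp.mpr
    have h3 : l * ((mu Λ) (c.Fr ∩ c.Aj j)).toReal ≤ m := by
      have h4 : (mu Λ) (c.Fr ∩ c.Aj j) ≤ ENNReal.ofReal (1 / Λ ^ 2 * m) := by
        rw [hmu _ (hmeasS j), ENNReal.ofReal_mul (by positivity)]
        gcongr
        exact (measure_mono inter_subset_left).trans (vol_le hG4 hG5 c Λ hc j)
      have h5 : ((mu Λ) (c.Fr ∩ c.Aj j)).toReal ≤ 1 / Λ ^ 2 * m :=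
        ENNReal.toReal_le_of_le_ofReal (by positivity) h4
      calc l * ((mu Λ) (c.Fr ∩ c.Aj j)).toReal ≤ Λ ^ 2 * (1 / Λ ^ 2 * m) :=
            mul_le_mul hlΛ h5 ENNReal.toReal_nonneg (by positivity)
        _ = m := by field_simp
    have he1 : Real.exp 1 - 1 ≤ 2 := by
      have := Real.exp_one_lt_d9
      linarith
    have he0 : 0 ≤ Real.exp 1 - 1 := by
      have := Real.add_one_le_exp (1 : ℝ)
      linarith
    have h6 : (Real.exp 1 - 1) * (l * ((mu Λ) (c.Fr ∩ c.Aj j)).toReal) ≤ 2 * m :=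
      mul_le_mul he1 h3 (mul_nonneg hl ENNReal.toReal_nonneg) (by norm_num)
    linarith
  have hpt : ∀ C, ind (¬ c.Good M C) ≤ (∑ j ∈ Finset.range c.J, F j C) + ind (¬ c.TP C) := by
    intro C
    by_cases hTP : c.TP C
    · by_cases hG : c.Good M C
      · rw [ind_false (not_not.mpr hG)]; exact zero_le
      · have : ∃ j < c.J, M < c.T j C := by
          by_contra hcon
          push Not at hcon
          exact hG ⟨hTP, hcon⟩
        obtain ⟨j, hj, hjM⟩ := this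
        have hTle : c.T j C ≤ (flt (c.Fr ∩ c.Aj j) C).card := by
          unfold Cx.T
          apply card_le
          rintro s hs ⟨hsA, k, hk, h1, h2⟩
          refine ⟨?_, hsA⟩
          have e1 := (hA0 c Λ C s c.u k j hc hTP hs hsA (Or.inl rfl) hk).1
          have e2 := (hA0 c Λ C s c.v k j hc hTP hs hsA (Or.inr rfl) hk).1
          exact hA01 c Λ C s k hc hTP hs hsA.1 hk (e1.mpr h1) (fun h => h2 (e2.mp h))
        have h1 : (1 : ℝ≥0∞) ≤ F j C := by
          show _ ≤ ENNReal.ofReal (Real.exp (-(M : ℝ))) *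
            ENNReal.ofReal (Real.exp 1) ^ (flt (c.Fr ∩ c.Aj j) C).card
          rw [← ENNReal.ofReal_pow (Real.exp_nonneg _), ← Real.exp_nat_mul, mul_one,
            ← ENNReal.ofReal_mul (Real.exp_nonneg _), ← Real.exp_add, ← ENNReal.ofReal_one]
          apply ENNReal.ofReal_le_ofReal
          apply Real.one_le_exp
          have : (M : ℝ) ≤ ((flt (c.Fr ∩ c.Aj j) C).card : ℝ) := by
            exact_mod_cast hjM.le.trans hTle
          linarith
        calc ind (¬ c.Good M C) ≤ 1 := ind_le_one _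
          _ ≤ F j C := h1
          _ ≤ ∑ j ∈ Finset.range c.J, F j C :=
            Finset.single_le_sum (f := fun j => F j C) (fun _ _ => zero_le)
              (Finset.mem_range.mpr hj)
          _ ≤ _ := le_self_add
    · rw [ind_true hTP]
      exact (ind_le_one _).trans le_add_self
  refine (p1 _ _ hpt).trans ?_
  have hMsum : Mf fun C => ∑ j ∈ Finset.range c.J, F j C := by
    intro N
    exact Finset.measurable_fun_sum _ (fun j _ => hMF j N)
  rw [p2 _ _ hMsum, p4 _ _ (fun j _ => hMF j), add_comm]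
  gcongr
  refine (Finset.sum_le_sum (fun j _ => hPF j)).trans ?_
  rw [Finset.sum_const, Finset.card_range, nsmul_eq_mul,
    ENNReal.ofReal_mul (Nat.cast_nonneg _), ENNReal.ofReal_natCast]

end

end Pool.Agent.Helper59.RG
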