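import Pool.Agent.Helper59.RG.St2

/-!
# Project RG, piece F1: greedy hitting set
-/

set_option autoImplicit false

namespace Pool.Agent.Helper59.RG

open scoped Classical in
theorem F1x.greedy {n : ℕ} (hn : 1 ≤ n) (σ : Fin n × Fin n → Finset (Fin n)) (Kc : ℕ)
    (hKn : Kc ≤ n) (P : Finset (Fin n × Fin n)) (hP : ∀ p ∈ P, Kc ≤ (σ p).card) (t : ℕ) :
    ∃ S : Finset (Fin n), S.card ≤ t ∧
      ((P.filter (fun p => Disjoint (σ p) S)).card : ℝ) ≤ P.card * (1 - (Kc : ℝ) / n) ^ t := by
  have hn0 : (0 : ℝ) < n := by exact_mod_cast hn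
  have hx : 0 ≤ 1 - (Kc : ℝ) / n := by
    rw [sub_nonneg, div_le_one hn0]
    exact_mod_cast hKn
  induction t with
  | zero =>
    refine ⟨∅, by simp, ?_⟩
    simp
  | succ t ih =>
    obtain ⟨S, hS, hb⟩ := ih
    set Q := P.filter (fun p => Disjoint (σ p) S) with hQ
    -- averaging
    have hsum : ∑ v : Fin n, (Q.filter (fun p => v ∈ σ p)).card = ∑ p ∈ Q, (σ p).card := by
      have h1 : ∀ v : Fin n, (Q.filter (fun p => v ∈ σ p)).card =
          ∑ p ∈ Q, if v ∈ σ p then 1 else 0 := by
        intro v
        rw [Finset.card_filter]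
      have h2 : ∀ p : Fin n × Fin n, (σ p).card = ∑ v : Fin n, if v ∈ σ p then 1 else 0 := by
        intro p
        rw [← Finset.card_filter]
        congr 1
        ext v
        simp
      simp_rw [h1, h2]
      exact Finset.sum_comm
    have hge : Kc * Q.card ≤ ∑ p ∈ Q, (σ p).card := by
      have := Finset.card_nsmul_le_sum Q (fun p => (σ p).card) Kc
        (fun p hp => hP p (Finset.mem_filter.1 hp).1)
      rw [smul_eq_mul, mul_comm] at this
      exact this
    have hex : ∃ v : Fin n, Kc * Q.card ≤ n * (Q.filter (fun p => v ∈ σ p)).card := by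
      by_contra hcon
      push Not at hcon
      have h3 : ∑ v : Fin n, n * (Q.filter (fun p => v ∈ σ p)).card <
          ∑ _v : Fin n, Kc * Q.card := by
        apply Finset.sum_lt_sum_of_nonempty
        · exact ⟨⟨0, hn⟩, Finset.mem_univ _⟩
        · intro v _
          exact hcon v
      rw [← Finset.mul_sum, hsum, Finset.sum_const, Finset.card_univ, Fintype.card_fin,
        smul_eq_mul] at h3
      have h4 := lt_of_mul_lt_mul_left h3 (Nat.zero_le n)
      omega
    obtain ⟨v, hv⟩ := hex
    refine ⟨insert v S, (Finset.card_insert_le _ _).trans (by omega), ?_⟩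
    have hsplit : (P.filter (fun p => Disjoint (σ p) (insert v S))).card +
        (Q.filter (fun p => v ∈ σ p)).card = Q.card := by
      have h5 : P.filter (fun p => Disjoint (σ p) (insert v S)) =
          Q.filter (fun p => ¬ v ∈ σ p) := by
        ext p
        simp only [hQ, Finset.mem_filter, Finset.disjoint_insert_right]
        tauto
      rw [h5, add_comm]
      exact Finset.card_filter_add_card_filter_not (s := Q) (fun p => v ∈ σ p)
    have hsplit' : ((P.filter (fun p => Disjoint (σ p) (insert v S))).card : ℝ) =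
        Q.card - (Q.filter (fun p => v ∈ σ p)).card := by
      have : (((P.filter (fun p => Disjoint (σ p) (insert v S))).card +
        (Q.filter (fun p => v ∈ σ p)).card : ℕ) : ℝ) = Q.card := by rw [hsplit]
      push_cast at this
      linarith
    have hv' : (Kc : ℝ) * Q.card ≤ n * (Q.filter (fun p => v ∈ σ p)).card := by
      exact_mod_cast hv
    have h6 : (Kc : ℝ) / n * Q.card ≤ (Q.filter (fun p => v ∈ σ p)).card := by
      rw [div_mul_eq_mul_div, div_le_iff₀ hn0]
      linarith
    rw [hsplit', pow_succ, ← mul_assoc]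
    calc (Q.card : ℝ) - (Q.filter (fun p => v ∈ σ p)).card
        ≤ Q.card * (1 - (Kc : ℝ) / n) := by linarith
      _ ≤ _ := mul_le_mul_of_nonneg_right hb hx

open scoped Classical in
theorem F1x.hit {n : ℕ} (hn : 2 ≤ n) (σ : Fin n × Fin n → Finset (Fin n)) (Kc : ℕ)
    (hKc : 1 ≤ Kc) :
    ∃ S : Finset (Fin n), (S.card : ℝ) ≤ 2 * n * Real.log n / Kc + 1 ∧
      ∀ p : Fin n × Fin n, p.1 < p.2 → Kc ≤ (σ p).card → ¬ Disjoint (σ p) S := by
  have hn0 : (0 : ℝ) < n := by
    have : 0 < n := by omega
    exact_mod_cast this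
  have hK0 : (0 : ℝ) < Kc := by exact_mod_cast hKc
  have hlog : 0 ≤ Real.log n := Real.log_nonneg (by
    have : 1 ≤ n := by omega
    exact_mod_cast this)
  rcases Nat.lt_or_ge n Kc with hlt | hge
  · refine ⟨∅, ?_, ?_⟩
    · simp only [Finset.card_empty, Nat.cast_zero]
      positivity
    · intro p _ h
      have := Finset.card_le_univ (σ p)
      rw [Fintype.card_fin] at this
      omega
  · set P : Finset (Fin n × Fin n) :=
      Finset.univ.filter (fun p => p.1 < p.2 ∧ Kc ≤ (σ p).card) with hP
    set t := ⌈2 * n * Real.log n / Kc⌉₊ with ht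
    obtain ⟨S, hS, hb⟩ := F1x.greedy (by omega) σ Kc hge P
      (fun p hp => (Finset.mem_filter.1 hp).2.2) t
    have hcard : (P.card : ℝ) < (n : ℝ) ^ 2 := by
      have h1 : P.card < n * n := by
        have h2 : P ⊂ Finset.univ := by
          rw [Finset.ssubset_univ_iff]
          intro h3
          have h4 : ((⟨0, by omega⟩, ⟨0, by omega⟩) : Fin n × Fin n) ∈ P := by
            rw [h3]
            exact Finset.mem_univ _
          rw [hP, Finset.mem_filter] at h4
          exact absurd h4.2.1 (lt_irrefl _)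
        have h5 := Finset.card_lt_card h2
        rw [Finset.card_univ, Fintype.card_prod, Fintype.card_fin] at h5
        exact h5
      rw [sq]
      exact_mod_cast h1
    have hpow : (1 - (Kc : ℝ) / n) ^ t ≤ 1 / (n : ℝ) ^ 2 := by
      have h1 : (1 - (Kc : ℝ) / n) ≤ Real.exp (-((Kc : ℝ) / n)) := by
        have := Real.add_one_le_exp (-((Kc : ℝ) / n))
        linarith
      have h0 : 0 ≤ 1 - (Kc : ℝ) / n := by
        rw [sub_nonneg, div_le_one hn0]
        exact_mod_cast hge
      calc (1 - (Kc : ℝ) / n) ^ t ≤ (Real.exp (-((Kc : ℝ) / n))) ^ t :=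
            pow_le_pow_left₀ h0 h1 t
        _ = Real.exp (t * (-((Kc : ℝ) / n))) := by rw [← Real.exp_nat_mul]
        _ ≤ Real.exp (-(2 * Real.log n)) := by
            apply Real.exp_le_exp.2
            have h2 : 2 * n * Real.log n / Kc ≤ t := Nat.le_ceil _
            have h3 : 2 * Real.log n = (2 * n * Real.log n / Kc) * ((Kc : ℝ) / n) := by
              field_simp
            have h4 : (2 * n * Real.log n / Kc) * ((Kc : ℝ) / n) ≤ t * ((Kc : ℝ) / n) :=
              mul_le_mul_of_nonneg_right h2 (by positivity)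
            linarith
        _ = 1 / (n : ℝ) ^ 2 := by
            rw [Real.exp_neg, one_div, show 2 * Real.log n = Real.log n + Real.log n by ring,
              Real.exp_add, Real.exp_log hn0, sq]
    have hlt1 : ((P.filter (fun p => Disjoint (σ p) S)).card : ℝ) < 1 := by
      have hn2 : (0 : ℝ) < (n : ℝ) ^ 2 := by positivity
      calc ((P.filter (fun p => Disjoint (σ p) S)).card : ℝ)
          ≤ P.card * (1 - (Kc : ℝ) / n) ^ t := hb
        _ ≤ P.card * (1 / (n : ℝ) ^ 2) := mul_le_mul_of_nonneg_left hpow (by positivity)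
        _ < (n : ℝ) ^ 2 * (1 / (n : ℝ) ^ 2) :=
            mul_lt_mul_of_pos_right hcard (by positivity)
        _ = 1 := by field_simp
    have hzero : (P.filter (fun p => Disjoint (σ p) S)).card = 0 := by
      have : (P.filter (fun p => Disjoint (σ p) S)).card < 1 := by exact_mod_cast hlt1
      omega
    rw [Finset.card_eq_zero, Finset.filter_eq_empty_iff] at hzero
    refine ⟨S, ?_, ?_⟩
    · have h1 : (S.card : ℝ) ≤ t := by exact_mod_cast hS
      have h2 : (t : ℝ) < 2 * n * Real.log n / Kc + 1 := Nat.ceil_lt_add_one (by positivity)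
      linarith
    · intro p h1 h2
      exact hzero (Finset.mem_filter.2 ⟨Finset.mem_univ _, h1, h2⟩)

open scoped Classical in
theorem pf_F1 : F1 := by
  intro n G Kc hn hKc
  set σ : Fin n × Fin n → Finset (Fin n) := fun p => (sepl G p.1 p.2).toFinset with hσ
  have hσc : ∀ p, (σ p).card = (sepl G p.1 p.2).ncard := by
    intro p
    rw [Set.ncard_eq_toFinset_card']
  obtain ⟨S, hS, hhit⟩ := F1x.hit hn σ Kc hKc
  set B : Finset (Fin n × Fin n) :=
    Finset.univ.filter (fun p => p.1 < p.2 ∧ (sepl G p.1 p.2).ncard < Kc) with hB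
  have hBc : {p : Fin n × Fin n | p.1 < p.2 ∧ (sepl G p.1 p.2).ncard < Kc}.ncard = B.card := by
    rw [← Set.ncard_coe_finset]
    congr 1
    ext p
    simp [hB]
  rw [hBc]
  set R : Finset (Fin n) := S ∪ B.image Prod.fst with hR
  have hres : Pool.Agent.Helper42.MD.Resolving G R := by
    have key : ∀ u v : Fin n, u < v → ∃ s ∈ R, G.edist s u ≠ G.edist s v := by
      intro u v huv
      by_cases hb : (sepl G u v).ncard < Kc
      · refine ⟨u, ?_, ?_⟩
        · rw [hR, Finset.mem_union]
          right
          exact Finset.mem_image.2 ⟨(u, v), Finset.mem_filter.2 ⟨Finset.mem_univ _, huv, hb⟩, rfl⟩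
        · rw [SimpleGraph.edist_self]
          intro h
          exact huv.ne (SimpleGraph.edist_eq_zero_iff.1 h.symm)
      · have h1 := hhit (u, v) huv (by rw [hσc]; exact not_lt.1 hb)
        rw [Finset.not_disjoint_iff] at h1
        obtain ⟨s, hs1, hs2⟩ := h1
        refine ⟨s, Finset.mem_union_left _ hs2, ?_⟩
        have : s ∈ sepl G u v := by
          simpa [hσ] using hs1
        exact this.2.2
    intro u v h
    by_contra hne
    rcases lt_or_gt_of_ne hne with hlt | hlt
    · obtain ⟨s, hs, hd⟩ := key u v hlt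
      exact hd (h s hs)
    · obtain ⟨s, hs, hd⟩ := key v u hlt
      exact hd (h s hs).symm
  have hle : Pool.Agent.Helper42.MD.metricDim G ≤ R.card := by
    unfold Pool.Agent.Helper42.MD.metricDim
    exact Nat.sInf_le ⟨R, rfl, hres⟩
  have hRc : R.card ≤ S.card + B.card :=
    (Finset.card_union_le _ _).trans (Nat.add_le_add_left Finset.card_image_le _)
  have h1 : (Pool.Agent.Helper42.MD.metricDim G : ℝ) ≤ S.card + B.card := by
    exact_mod_cast hle.trans hRc
  linarith

end Pool.Agent.Helper59.RG
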