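import Pool.Agent.Helper59.RG.St2

/-!
# Project RG (MP_4d33fe_pr): piece F2.
-/

set_option autoImplicit false

namespace Pool.Agent.Helper59.RG

open MeasureTheory Set Filter Topology
open scoped ENNReal

noncomputable section

namespace F2x

variable {n : ℕ} {r : ℝ} {X : Fin n → E} {G : SimpleGraph (Fin n)} {i j : Fin n}

lemma mem_oth {y : E} : y ∈ oth X i j ↔ ∃ b : Fin n, b ≠ i ∧ b ≠ j ∧ X b = y := by
  unfold oth
  simp only [Multiset.mem_map, Finset.mem_val, Finset.mem_erase, Finset.mem_univ, and_true]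
  constructor
  · rintro ⟨b, ⟨h1, h2⟩, h3⟩
    exact ⟨b, h2, h1, h3⟩
  · rintro ⟨b, h1, h2, h3⟩
    exact ⟨b, ⟨h2, h1⟩, h3⟩

lemma edist_le_one (hG : ∀ a b, G.Adj a b ↔ a ≠ b ∧ nm (X a - X b) ≤ r) {a b : Fin n}
    (h : nm (X a - X b) ≤ r) : G.edist a b ≤ 1 := by
  by_cases hab : a = b
  · subst hab
    simp
  · have : G.Adj a b := (hG a b).2 ⟨hab, h⟩
    rw [SimpleGraph.edist_eq_one_iff_adj.2 this]

lemma fwd (hG : ∀ a b, G.Adj a b ↔ a ≠ b ∧ nm (X a - X b) ≤ r) {z : Fin n} :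
    ∀ (k : ℕ) (a : Fin n), Rch r (X z) univ (oth X i j) k (X a) →
      G.edist a z ≤ (k : ℕ∞) + 1 := by
  intro k
  induction k with
  | zero =>
    intro a h
    simpa using edist_le_one hG h
  | succ k ih =>
    rintro a ⟨y, hy, -, h1, h2⟩
    obtain ⟨b, -, -, rfl⟩ := mem_oth.1 hy
    calc G.edist a z ≤ G.edist a b + G.edist b z := G.edist_triangle
      _ ≤ 1 + ((k : ℕ∞) + 1) := add_le_add (edist_le_one hG h2) (ih b h1)
      _ = ((k + 1 : ℕ) : ℕ∞) + 1 := by push_cast; ring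

lemma bwd (hG : ∀ a b, G.Adj a b ↔ a ≠ b ∧ nm (X a - X b) ≤ r) {p q : Fin n}
    (hpq : ∀ b, b ≠ p → b ≠ q → X b ∈ oth X i j) :
    ∀ (m : ℕ) (a : Fin n), G.edist a q = ((m + 1 : ℕ) : ℕ∞) →
      ((m + 1 : ℕ) : ℕ∞) ≤ G.edist a p →
      Rch r (X q) univ (oth X i j) m (X a) := by
  intro m
  induction m with
  | zero =>
    intro a h _
    have h1 : G.edist a q = 1 := by simpa using h
    exact ((hG a q).1 (SimpleGraph.edist_eq_one_iff_adj.1 h1)).2
  | succ m ih =>
    intro a h hp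
    have hne : G.edist a q ≠ ⊤ := by rw [h]; exact ENat.natCast_ne_top _
    obtain ⟨w, hw⟩ := SimpleGraph.exists_walk_of_edist_ne_top hne
    have hw2 : (w.length : ℕ∞) = ((m + 1 + 1 : ℕ) : ℕ∞) := by rw [hw, h]
    have hw3 : w.length = m + 1 + 1 := by exact_mod_cast hw2
    cases w with
    | nil => simp at hw3
    | @cons _ b _ hab w =>
      have hl : w.length = m + 1 := by simpa using hw3
      have h1 : G.edist b q ≤ ((m + 1 : ℕ) : ℕ∞) := by
        rw [← hl]; exact w.edist_le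
      have e1 : G.edist a b = 1 := SimpleGraph.edist_eq_one_iff_adj.2 hab
      have h2 : ((m + 1 : ℕ) : ℕ∞) ≤ G.edist b q := by
        have h3 : G.edist a q ≤ G.edist a b + G.edist b q := G.edist_triangle
        rw [h, e1] at h3
        have h4 : (1 : ℕ∞) + ((m + 1 : ℕ) : ℕ∞) ≤ 1 + G.edist b q := by
          refine le_trans (le_of_eq ?_) h3
          push_cast; ring
        exact (ENat.add_le_add_iff_left (by simp)).1 h4
      have h5 : ((m + 1 : ℕ) : ℕ∞) ≤ G.edist b p := by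
        have h3 : G.edist a p ≤ G.edist a b + G.edist b p := G.edist_triangle
        rw [e1] at h3
        have h4 : (1 : ℕ∞) + ((m + 1 : ℕ) : ℕ∞) ≤ 1 + G.edist b p := by
          refine le_trans (le_of_eq ?_) (le_trans hp h3)
          push_cast; ring
        exact (ENat.add_le_add_iff_left (by simp)).1 h4
      have hbp : b ≠ p := by
        rintro rfl
        simp at h5
      have hbq : b ≠ q := by
        rintro rfl
        simp at h2
      exact ⟨X b, hpq b hbp hbq, mem_univ _, ih b (le_antisymm h1 h2) h5, ((hG a b).1 hab).2⟩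

lemma key (hR1 : R1) (h0 : 0 ≤ r) (hG : ∀ a b, G.Adj a b ↔ a ≠ b ∧ nm (X a - X b) ≤ r)
    {p q a : Fin n} (hpq : ∀ b, b ≠ p → b ≠ q → X b ∈ oth X i j) {k : ℕ} (hp : a ≠ p)
    (hq : a ≠ q) (he : G.edist a p = G.edist a q)
    (h : Rch r (X p) univ (oth X i j) k (X a)) : Rch r (X q) univ (oth X i j) k (X a) := by
  have h1 := fwd hG k a h
  have h2 : G.edist a q ≤ ((k + 1 : ℕ) : ℕ∞) := by
    rw [← he]; push_cast; exact h1
  obtain ⟨d, hd⟩ := ENat.ne_top_iff_exists.1 (ne_top_of_le_ne_top (ENat.natCast_ne_top _) h2)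
  rw [← hd] at h2
  have h3 : d ≤ k + 1 := by exact_mod_cast h2
  cases d with
  | zero =>
    exfalso
    have : G.edist a q = 0 := by rw [← hd]; rfl
    exact hq (SimpleGraph.edist_eq_zero_iff.1 this)
  | succ m =>
    have h4 : Rch r (X q) univ (oth X i j) m (X a) := by
      refine bwd hG hpq m a hd.symm ?_
      rw [he, ← hd]
    exact hR1.2.2.1 r (X q) (X a) univ (oth X i j) m k h0 (hpq a hp hq) (mem_univ _) (by omega) h4

end F2x

theorem pf_F2 (_hG0 : G0) (hR1 : R1) : F2 := by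
  intro n K r X G i j h0 hij hG
  classical
  unfold nsep flt
  have h1 : @Multiset.filter E (fun x => x ∈ {s | SepC r K (X i) (X j) (oth X i j) s})
      (fun _ => Classical.propDecidable _) (oth X i j) =
      Multiset.map X (Finset.filter (fun a => SepC r K (X i) (X j) (oth X i j) (X a))
        ((Finset.univ.erase i).erase j)).val := by
    conv_lhs => rw [show oth X i j = ((Finset.univ.erase i).erase j).val.map X from rfl]
    rw [Multiset.filter_map]
    rfl
  rw [h1, Multiset.card_map]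
  change (Finset.filter (fun a => SepC r K (X i) (X j) (oth X i j) (X a))
        ((Finset.univ.erase i).erase j)).card ≤ _
  rw [← Set.ncard_coe_finset]
  refine Set.ncard_le_ncard ?_ (Set.toFinite _)
  intro a ha
  simp only [Finset.coe_filter, Finset.mem_erase, Finset.mem_univ, and_true, mem_ofPred_eq] at ha
  obtain ⟨⟨haj, hai⟩, k, -, hs⟩ := ha
  refine ⟨hai, haj, fun he => ?_⟩
  have hm1 : ∀ b, b ≠ i → b ≠ j → X b ∈ oth X i j :=
    fun b h1 h2 => F2x.mem_oth.2 ⟨b, h1, h2, rfl⟩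
  have hm2 : ∀ b, b ≠ j → b ≠ i → X b ∈ oth X i j :=
    fun b h1 h2 => F2x.mem_oth.2 ⟨b, h2, h1, rfl⟩
  rcases hs with ⟨h1, h2⟩ | ⟨h1, h2⟩
  · exact h2 (F2x.key hR1 h0 hG hm1 hai haj he h1)
  · exact h2 (F2x.key hR1 h0 hG hm2 haj hai he.symm h1)

end

end Pool.Agent.Helper59.RG
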