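import Pool.Agent.Helper59.RG.St2

/-!
# Project RG: the law of two points and the others.
-/

set_option autoImplicit false

namespace Pool.Agent.Helper59.RG

open MeasureTheory Set
open scoped ENNReal

noncomputable section

namespace F3x

/-- the other labels -/
def rest {N : ℕ} (i : Fin (N + 2)) (j' : Fin (N + 1)) (X : Fin (N + 2) → E) : Fin N → E :=
  fun k => X (i.succAbove (j'.succAbove k))

theorem oth_eq {N : ℕ} (i : Fin (N + 2)) (j' : Fin (N + 1)) (X : Fin (N + 2) → E) :
    oth X i (i.succAbove j') = ms (rest i j' X) := by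
  unfold oth ms rest
  have h : ((Finset.univ.erase i).erase (i.succAbove j')) =
      Finset.univ.map (j'.succAboveEmb.trans i.succAboveEmb) := by
    ext a
    simp only [Finset.mem_erase, Finset.mem_univ, and_true, Finset.mem_map, true_and,
      Function.Embedding.trans_apply, Fin.coe_succAboveEmb]
    constructor
    · rintro ⟨h1, h2⟩
      obtain ⟨b, rfl⟩ := Fin.exists_succAbove_eq h2
      have h3 : b ≠ j' := fun h => h1 (by rw [h])
      obtain ⟨k, rfl⟩ := Fin.exists_succAbove_eq h3
      exact ⟨k, rfl⟩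
    · rintro ⟨k, rfl⟩
      refine ⟨?_, Fin.succAbove_ne _ _⟩
      intro h
      exact Fin.succAbove_ne j' k (Fin.succAbove_right_injective h)
  rw [h, Finset.map_val, Multiset.map_map]
  rfl

theorem meas {N : ℕ} (i : Fin (N + 2)) (j' : Fin (N + 1)) (F : E → E → Multiset E → ℝ≥0∞)
    (hF : Mj fun (p : E × E) (C : Multiset E) => F p.1 p.2 C) :
    Measurable fun X : Fin (N + 2) → E =>
      F (X i) (X (i.succAbove j')) (oth X i (i.succAbove j')) := by
  have h1 : (fun X : Fin (N + 2) → E => F (X i) (X (i.succAbove j')) (oth X i (i.succAbove j'))) =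
      (fun p : (E × E) × (Fin N → E) => F p.1.1 p.1.2 (ms p.2)) ∘
        fun X : Fin (N + 2) → E => ((X i, X (i.succAbove j')), rest i j' X) := by
    funext X
    rw [oth_eq]
    rfl
  rw [h1]
  refine (hF N).comp ?_
  refine Measurable.prodMk ((measurable_pi_apply _).prodMk (measurable_pi_apply _)) ?_
  exact measurable_pi_lambda _ fun k => measurable_pi_apply _

theorem int1 (μ : Measure E) [IsProbabilityMeasure μ] {n : ℕ} (i : Fin (n + 1))
    (G : E × (Fin n → E) → ℝ≥0∞) (hG : Measurable G) :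
    ∫⁻ X : Fin (n + 1) → E, G (X i, fun k => X (i.succAbove k)) ∂(Measure.pi fun _ => μ) =
      ∫⁻ x, ∫⁻ Y, G (x, Y) ∂(Measure.pi fun _ : Fin n => μ) ∂μ := by
  have h1 := measurePreserving_piFinSuccAbove (fun _ : Fin (n + 1) => μ) i
  have h2 := h1.lintegral_comp (f := G) hG
  rw [lintegral_prod _ hG.aemeasurable] at h2
  exact h2

theorem int2 (μ : Measure E) [IsProbabilityMeasure μ] (hP0 : P0) (hP1 : P1) {N : ℕ}
    (i : Fin (N + 2)) (j' : Fin (N + 1)) (F : E → E → Multiset E → ℝ≥0∞)
    (hF : Mj fun (p : E × E) (C : Multiset E) => F p.1 p.2 C) :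
    ∫⁻ X, F (X i) (X (i.succAbove j')) (oth X i (i.succAbove j'))
      ∂(Measure.pi fun _ : Fin (N + 2) => μ) = ∫⁻ x, ∫⁻ y, II μ N (F x y) ∂μ ∂μ := by
  have hM := hF N
  have h1 : ∀ X : Fin (N + 2) → E, F (X i) (X (i.succAbove j')) (oth X i (i.succAbove j')) =
      (fun p : E × (Fin (N + 1) → E) => F p.1 (p.2 j') (ms fun k => p.2 (j'.succAbove k)))
        (X i, fun k => X (i.succAbove k)) := by
    intro X
    rw [oth_eq]
    rfl
  have hG : Measurable fun p : E × (Fin (N + 1) → E) =>
      F p.1 (p.2 j') (ms fun k => p.2 (j'.succAbove k)) := by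
    have : (fun p : E × (Fin (N + 1) → E) => F p.1 (p.2 j') (ms fun k => p.2 (j'.succAbove k))) =
        (fun p : (E × E) × (Fin N → E) => F p.1.1 p.1.2 (ms p.2)) ∘
        fun p : E × (Fin (N + 1) → E) => ((p.1, p.2 j'), fun k => p.2 (j'.succAbove k)) := rfl
    rw [this]
    refine hM.comp ?_
    refine Measurable.prodMk (measurable_fst.prodMk ((measurable_pi_apply _).comp
      measurable_snd)) ?_
    exact measurable_pi_lambda _ fun k => (measurable_pi_apply _).comp measurable_snd
  simp only [h1]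
  rw [int1 μ i _ hG]
  refine lintegral_congr fun x => ?_
  have hG2 : Measurable fun p : E × (Fin N → E) => F x p.1 (ms p.2) := by
    have : (fun p : E × (Fin N → E) => F x p.1 (ms p.2)) =
        (fun p : (E × E) × (Fin N → E) => F p.1.1 p.1.2 (ms p.2)) ∘
        fun p : E × (Fin N → E) => ((x, p.1), p.2) := rfl
    rw [this]
    refine hM.comp ?_
    exact (measurable_const.prodMk measurable_fst).prodMk measurable_snd
  have h2 := int1 μ j' (fun p : E × (Fin N → E) => F x p.1 (ms p.2)) hG2
  rw [h2]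
  refine lintegral_congr fun y => ?_
  have h3 : Mf (F x y) := (hP0.2.2.1 (E × E) (fun p C => F p.1 p.2 C) hF).1 (x, y)
  rw [hP1 μ N (F x y) h3]

end F3x

theorem pf_F3 (hP0 : P0) (hP1 : P1) (hP2 : P2) : F3 := by
  have _ := hP2
  intro μ _ n i j F hij hF
  match n, i, j, hij with
  | 0, i, _, _ => exact i.elim0
  | 1, i, j, hij => exact absurd (Subsingleton.elim i j) hij
  | N + 2, i, j, hij =>
    obtain ⟨j', rfl⟩ := Fin.exists_succAbove_eq (Ne.symm hij)
    exact ⟨F3x.meas i j' F hF, F3x.int2 μ hP0 hP1 i j' F hF⟩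

end

end Pool.Agent.Helper59.RG
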