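import Pool.Agent.Helper59.RG.St2

/-!
# Project RG, piece F4: the expected number of bad pairs
-/

set_option autoImplicit false
set_option linter.unusedVariables false

namespace Pool.Agent.Helper59.RG

open MeasureTheory Set
open scoped ENNReal

namespace F4x

theorem II_le_one (μ : Measure E) [IsProbabilityMeasure μ] (N : ℕ) (F : Multiset E → ℝ≥0∞)
    (hF : ∀ C, F C ≤ 1) : II μ N F ≤ 1 := by
  induction N generalizing F with
  | zero => exact hF 0
  | succ N ih =>
    calc II μ (N + 1) F = ∫⁻ x, II μ N (fun C => F (x ::ₘ C)) ∂μ := rfl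
      _ ≤ ∫⁻ _, 1 ∂μ := lintegral_mono fun x => ih _ fun C => hF _
      _ = 1 := by rw [lintegral_one, measure_univ]

theorem ind_le_one (p : Prop) : ind p ≤ 1 := by
  unfold ind
  split_ifs <;> simp

theorem ind_true {p : Prop} (h : p) : ind p = 1 := by
  unfold ind
  simp [h]

theorem ind_false {p : Prop} (h : ¬ p) : ind p = 0 := by
  unfold ind
  simp [h]

/-- the number of pairs -/
theorem card_pairs (n : ℕ) :
    (∑ i : Fin n, ∑ j : Fin n, if i < j then (1 : ℝ) else 0) ≤ (n : ℝ) ^ 2 / 2 := by
  have h1 : (∑ i : Fin n, ∑ j : Fin n, if i < j then (1 : ℝ) else 0) =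
      ∑ i : Fin n, ∑ j : Fin n, if j < i then (1 : ℝ) else 0 := Finset.sum_comm
  have h2 : (∑ i : Fin n, ∑ j : Fin n, if i < j then (1 : ℝ) else 0) +
      (∑ i : Fin n, ∑ j : Fin n, if j < i then (1 : ℝ) else 0) ≤ (n : ℝ) ^ 2 := by
    rw [← Finset.sum_add_distrib]
    simp only [← Finset.sum_add_distrib]
    calc _ ≤ ∑ i : Fin n, ∑ j : Fin n, (1 : ℝ) := by
          refine Finset.sum_le_sum fun i _ => Finset.sum_le_sum fun j _ => ?_
          rcases lt_trichotomy i j with h | h | h
          · simp [h, h.not_gt]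
          · simp [h]
          · simp [h, h.not_gt]
      _ = (n : ℝ) ^ 2 := by simp [sq]
  rw [← h1] at h2
  linarith

end F4x

open F4x in
theorem pf_F4 (hP0 : P0) (hP2 : P2) (hP15 : P15) (hG0 : G0) (hR4 : R4) (hF3 : F3) : F4 := by
  intro n r ε K Kc hn hε hb
  have hn0 : (0 : ℝ) < n := by
    have : 0 < n := by omega
    exact_mod_cast this
  have hs : 0 < √(n : ℝ) := Real.sqrt_pos.mpr hn0
  obtain ⟨hprob, hmu⟩ := hP15 (√n) hs
  have hsq : (√(n : ℝ)) ^ 2 = n := Real.sq_sqrt hn0.le
  rw [hsq] at hmu
  set μ := mu (√n) with hμ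
  have hSq : MeasurableSet (Sq (√n)) := measurableSet_Icc.prod measurableSet_Icc
  have hae : ∀ᵐ x ∂μ, x ∈ Sq (√n) := by
    rw [ae_iff]
    have : {a | ¬ a ∈ Sq (√n)} = (Sq (√n))ᶜ := rfl
    rw [this, hmu _ hSq.compl, Set.compl_inter_self, measure_empty, mul_zero]
  set F : E → E → Multiset E → ℝ≥0∞ := fun x y C => ind (nsep r K x y C < Kc) with hF
  have hMj : Mj fun (p : E × E) (C : Multiset E) => F p.1 p.2 C := hR4.2.2 r K Kc
  -- the terms
  have hterm : ∀ (i j : Fin n) (X : Fin n → E), i < j →
      ind (i < j ∧ nsep r K (X i) (X j) (oth X i j) < Kc) = F (X i) (X j) (oth X i j) := by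
    intro i j X hij
    simp only [hF, hij, true_and]
  have hterm0 : ∀ (i j : Fin n) (X : Fin n → E), ¬ i < j →
      ind (i < j ∧ nsep r K (X i) (X j) (oth X i j) < Kc) = 0 := by
    intro i j X hij
    exact ind_false fun h => hij h.1
  have hmeas : ∀ i j : Fin n, Measurable fun X : Fin n → E =>
      ind (i < j ∧ nsep r K (X i) (X j) (oth X i j) < Kc) := by
    intro i j
    by_cases hij : i < j
    · simp only [fun X => hterm i j X hij]
      exact (hF3 μ n i j F hij.ne hMj).1
    · simp only [fun X => hterm0 i j X hij]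
      exact measurable_const
  -- the bound of one term
  set A : ℝ := 4 * ε ^ 2 / n + 1 / (n : ℝ) ^ 3 with hA
  have hA0 : 0 ≤ A := by positivity
  have hinner : ∀ x ∈ Sq (√n), ∫⁻ y, II μ (n - 2) (F x y) ∂μ ≤ ENNReal.ofReal A := by
    intro x hx
    set B : Set E := Icc (x.1 - ε) (x.1 + ε) ×ˢ Icc (x.2 - ε) (x.2 + ε) with hB
    have hBm : MeasurableSet B := measurableSet_Icc.prod measurableSet_Icc
    have h1 : ∫⁻ y, II μ (n - 2) (F x y) ∂μ ≤
        ∫⁻ y, (B.indicator 1 y + ENNReal.ofReal (1 / (n : ℝ) ^ 3)) ∂μ := by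
      refine lintegral_mono_ae ?_
      filter_upwards [hae] with y hy
      by_cases hxy : ε ≤ nm (x - y)
      · exact (hb x y hx hy hxy).trans le_add_self
      · have h2 : y ∈ B := by
          obtain ⟨h3, h4, -, -⟩ := hG0.2.2.1 (x - y)
          simp only [Prod.fst_sub, Prod.snd_sub] at h3 h4
          push Not at hxy
          have h5 := abs_le.mp (h3.trans hxy.le)
          have h6 := abs_le.mp (h4.trans hxy.le)
          refine ⟨⟨by linarith [h5.2], by linarith [h5.1]⟩, ⟨by linarith [h6.2], by linarith [h6.1]⟩⟩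
        rw [indicator_of_mem h2]
        exact (II_le_one μ _ _ fun C => ind_le_one _).trans (by simp)
    refine h1.trans ?_
    rw [lintegral_add_right _ measurable_const, lintegral_indicator_one hBm, lintegral_const,
      measure_univ, mul_one, hmu B hBm, hA, ENNReal.ofReal_add (by positivity) (by positivity)]
    gcongr
    have h7 : volume (B ∩ Sq (√n)) ≤ ENNReal.ofReal (4 * ε ^ 2) := by
      refine (measure_mono inter_subset_left).trans ?_
      rw [hB, Measure.volume_eq_prod, Measure.prod_prod, Real.volume_Icc, Real.volume_Icc,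
        ← ENNReal.ofReal_mul (by linarith)]
      refine ENNReal.ofReal_le_ofReal ?_
      ring_nf
      rfl
    calc ENNReal.ofReal (1 / n) * volume (B ∩ Sq (√n)) ≤
          ENNReal.ofReal (1 / n) * ENNReal.ofReal (4 * ε ^ 2) := by gcongr
      _ = ENNReal.ofReal (4 * ε ^ 2 / n) := by
          rw [← ENNReal.ofReal_mul (by positivity)]
          congr 1
          ring
  have hone : ∀ i j : Fin n, ∫⁻ X, ind (i < j ∧ nsep r K (X i) (X j) (oth X i j) < Kc)
      ∂(Measure.pi fun _ : Fin n => μ) ≤ ENNReal.ofReal ((if i < j then (1 : ℝ) else 0) * A) := by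
    intro i j
    by_cases hij : i < j
    · simp only [fun X => hterm i j X hij]
      rw [(hF3 μ n i j F hij.ne hMj).2, if_pos hij, one_mul]
      calc _ ≤ ∫⁻ _, ENNReal.ofReal A ∂μ := by
            refine lintegral_mono_ae ?_
            filter_upwards [hae] with x hx
            exact hinner x hx
        _ = _ := by rw [lintegral_const, measure_univ, mul_one]
    · simp only [fun X => hterm0 i j X hij]
      simp
  refine ⟨?_, ?_⟩
  · unfold bad
    exact Finset.measurable_sum _ fun i _ => Finset.measurable_sum _ fun j _ => hmeas i j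
  · unfold bad
    rw [lintegral_finsetSum _ fun i _ => Finset.measurable_sum _ fun j _ => hmeas i j]
    have h2 : ∀ i : Fin n, ∫⁻ X, ∑ j : Fin n,
        ind (i < j ∧ nsep r K (X i) (X j) (oth X i j) < Kc) ∂(Measure.pi fun _ : Fin n => μ) ≤
        ENNReal.ofReal (∑ j : Fin n, (if i < j then (1 : ℝ) else 0) * A) := by
      intro i
      rw [lintegral_finsetSum _ fun j _ => hmeas i j,
        ENNReal.ofReal_sum_of_nonneg fun j _ => by split_ifs <;> simp [hA0]]
      exact Finset.sum_le_sum fun j _ => hone i j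
    refine (Finset.sum_le_sum fun i _ => h2 i).trans ?_
    rw [← ENNReal.ofReal_sum_of_nonneg fun i _ => Finset.sum_nonneg fun j _ => by
      split_ifs <;> simp [hA0]]
    refine ENNReal.ofReal_le_ofReal ?_
    have h3 := card_pairs n
    simp only [← Finset.sum_mul]
    have hn1 : (1 : ℝ) ≤ n := by
      have : 1 ≤ n := by omega
      exact_mod_cast this
    calc _ ≤ (n : ℝ) ^ 2 / 2 * A := mul_le_mul_of_nonneg_right h3 hA0
      _ = 2 * n * ε ^ 2 + 1 / (2 * n) := by
          rw [hA]
          field_simp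
          ring
      _ ≤ 2 * n * ε ^ 2 + 1 := by
          have : 1 / (2 * (n : ℝ)) ≤ 1 := by
            rw [div_le_one (by positivity)]
            linarith
          linarith

end Pool.Agent.Helper59.RG
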