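import Pool.Agent.Helper59.RG.St2

/-! Piece F5: the two models of the plane. -/

set_option autoImplicit false

namespace Pool.Agent.Helper59.RG

open MeasureTheory Set Filter Topology
open scoped ENNReal

namespace F5x

/-- the coordinate map -/
def co (x : Pool.Agent.Helper42.MD.Pl) : E := (x 0, x 1)

theorem mp_co : MeasurePreserving co volume volume :=
  (volume_preserving_finTwoArrow ℝ).comp (PiLp.volume_preserving_ofLp (Fin 2))

theorem measurableSet_Sq (L : ℝ) : MeasurableSet (Sq L) :=
  measurableSet_Icc.prod measurableSet_Icc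

theorem preimage_Sq (L : ℝ) : co ⁻¹' (Sq L) = Pool.Agent.Helper42.MD.Sq L := by
  ext x
  simp only [co, Sq, mem_preimage, mem_prod, mem_Icc, Pool.Agent.Helper42.MD.Sq, mem_ofPred_eq,
    Fin.forall_fin_two]

theorem volume_Sq {L : ℝ} : volume (Sq L) = ENNReal.ofReal L * ENNReal.ofReal L := by
  unfold Sq
  rw [Measure.volume_eq_prod, Measure.prod_prod, Real.volume_Icc, sub_zero]

theorem map_unif (n : ℕ) (hn : 1 ≤ n) :
    (Pool.Agent.Helper42.MD.unif n).map co = mu (√n) := by
  have hL : 0 < √(n : ℝ) := Real.sqrt_pos.2 (by exact_mod_cast hn)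
  have hvol : volume (Pool.Agent.Helper42.MD.Sq √(n : ℝ)) = ENNReal.ofReal (√(n : ℝ) ^ 2) := by
    rw [← preimage_Sq, mp_co.measure_preimage (measurableSet_Sq _).nullMeasurableSet, volume_Sq,
      ← ENNReal.ofReal_mul hL.le, sq]
  unfold Pool.Agent.Helper42.MD.unif ProbabilityTheory.cond mu
  rw [Measure.map_smul, hvol, ← preimage_Sq,
    (mp_co.restrict_preimage (measurableSet_Sq √(n : ℝ))).map_eq]
  congr 1
  rw [one_div, ENNReal.ofReal_inv_of_pos (by positivity)]

theorem sigmaFinite_mu (L : ℝ) : SigmaFinite (mu L) := by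
  have h : IsFiniteMeasure (mu L) := by
    refine ⟨?_⟩
    unfold mu
    rw [Measure.smul_apply, Measure.restrict_apply_univ, volume_Sq, smul_eq_mul]
    exact ENNReal.mul_lt_top ENNReal.ofReal_lt_top
      (ENNReal.mul_lt_top ENNReal.ofReal_lt_top ENNReal.ofReal_lt_top)
  infer_instance

end F5x

open F5x in
theorem pf_F5 : F5 := by
  refine ⟨?_, ?_, ?_⟩
  · intro n hn
    have hmap := map_unif n hn
    have hs : SigmaFinite ((Pool.Agent.Helper42.MD.unif n).map co) := by
      rw [hmap]
      exact sigmaFinite_mu _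
    have h := Measure.pi_map_pi (ι := Fin n) (μ := fun _ => Pool.Agent.Helper42.MD.unif n)
      (f := fun _ => co) (fun _ => mp_co.measurable.aemeasurable)
    rw [hmap] at h
    exact h
  · intro x y
    rw [EuclideanSpace.dist_eq, Fin.sum_univ_two]
    unfold nm
    simp [Real.dist_eq, sq_abs]
  · intro n G
    refine Nat.sInf_le ⟨Finset.univ, by simp, ?_⟩
    intro u v h
    have h1 := h u (Finset.mem_univ u)
    rw [SimpleGraph.edist_self] at h1
    exact SimpleGraph.edist_eq_zero_iff.1 h1.symm

end Pool.Agent.Helper59.RG
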