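import Pool.Agent.Helper59.RG.St

/-! Piece G0: elementary properties of the norm. -/

set_option autoImplicit false

namespace Pool.Agent.Helper59.RG

namespace G0x

theorem nonneg (x : E) : 0 ≤ nm x := Real.sqrt_nonneg _

theorem sq (x : E) : nm x ^ 2 = x.1 ^ 2 + x.2 ^ 2 := Real.sq_sqrt (by positivity)

theorem cs (x y : E) : x.1 * y.1 + x.2 * y.2 ≤ nm x * nm y := by
  have h1 := sq x
  have h2 := sq y
  have h3 : 0 ≤ nm x * nm y := mul_nonneg (nonneg x) (nonneg y)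
  refine (abs_le_of_sq_le_sq' ?_ h3).2
  rw [mul_pow, h1, h2]
  nlinarith [sq_nonneg (x.1 * y.2 - x.2 * y.1)]

end G0x

theorem pf_G0 : G0 := by
  refine ⟨fun x y => ?_, fun x y => ?_, fun x => ⟨?_, ?_, G0x.nonneg x, G0x.sq x⟩, fun a x => ?_,
    G0x.cs⟩
  · apply abs_le_of_sq_le_sq' _ (add_nonneg (G0x.nonneg x) (G0x.nonneg y)) |>.2
    rw [G0x.sq, add_sq, G0x.sq, G0x.sq]
    have := G0x.cs x y
    simp only [Prod.fst_add, Prod.snd_add]
    nlinarith
  · unfold nm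
    congr 1
    simp only [Prod.fst_sub, Prod.snd_sub]
    ring
  · apply abs_le_of_sq_le_sq _ (G0x.nonneg x)
    rw [G0x.sq]
    nlinarith [sq_nonneg x.2]
  · apply abs_le_of_sq_le_sq _ (G0x.nonneg x)
    rw [G0x.sq]
    nlinarith [sq_nonneg x.1]
  · unfold nm
    rw [← Real.sqrt_sq_eq_abs, ← Real.sqrt_mul (sq_nonneg a)]
    congr 1
    simp only [Prod.smul_fst, Prod.smul_snd, smul_eq_mul]
    ring

end Pool.Agent.Helper59.RG
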