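import Pool.Agent.Helper59.RG.St

/-!
# Project RG: long paths are narrow (`G1`).
-/

set_option autoImplicit false

namespace Pool.Agent.Helper59.RG

open MeasureTheory Set

noncomputable section

namespace G1x

/-- the core estimate in coordinates -/
theorem core (u1 u2 w1 w2 D a b r H : ℝ) (hr : 0 < r) (hH : 0 < H) (hHr : H ≤ r / 10000)
    (hu1 : 0 < u1) (hu2 : u1 / 5 ≤ u2) (hu2' : u2 ≤ 3 / 5 * u1)
    (hD : D ^ 2 = u1 ^ 2 + u2 ^ 2) (ha : a ^ 2 = w1 ^ 2 + w2 ^ 2)
    (hb : b ^ 2 = (u1 - w1) ^ 2 + (u2 - w2) ^ 2) (hD0 : 0 ≤ D) (ha0 : 0 ≤ a) (hb0 : 0 ≤ b)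
    (htri : D ≤ a + b) (hab : a + b ≤ D + H) (haD : a ≤ D) (hbD : b ≤ D) (har : r - H ≤ a) :
    r / 3 ≤ w1 ∧ |w2 / w1 - u2 / u1| ≤ 2 * √(H / r) := by
  have hu20 : 0 < u2 := by linarith
  have hDpos : 0 < D := by
    rcases hD0.lt_or_eq with h | h
    · exact h
    · exfalso
      rw [← h] at hD
      nlinarith [sq_nonneg u2]
  have hapos : 0 < a := by linarith
  have haH : 9999 * H ≤ a := by linarith
  have har' : 9999 / 10000 * r ≤ a := by linarith
  -- the scalar product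
  obtain ⟨dot, hdot⟩ : ∃ dot, dot = u1 * w1 + u2 * w2 := ⟨_, rfl⟩
  obtain ⟨X, hX⟩ : ∃ X, X = u1 * w2 - u2 * w1 := ⟨_, rfl⟩
  have hcos : 2 * (a * D - dot) = (b - D + a) * (b + D - a) := by
    have : b ^ 2 = D ^ 2 + a ^ 2 - 2 * dot := by
      rw [hb, hD, ha, hdot]; ring
    nlinarith
  have h1 : a * D - dot ≤ H * D := by
    have h2 : (b - D + a) * (b + D - a) ≤ H * (2 * D) := by
      apply mul_le_mul <;> linarith
    linarith
  have h0 : 0 ≤ a * D - dot := by
    have : 0 ≤ (b - D + a) * (b + D - a) := by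
      apply mul_nonneg <;> linarith
    linarith
  have hX2 : X ^ 2 = (a * D - dot) * (a * D + dot) := by
    have : (a * D - dot) * (a * D + dot) = a ^ 2 * D ^ 2 - dot ^ 2 := by ring
    rw [this, hD, ha, hdot, hX]; ring
  have haDpos : 0 < a * D := mul_pos hapos hDpos
  have hX3 : X ^ 2 ≤ 2 * a * H * D ^ 2 := by
    rw [hX2]
    have h3 : (a * D - dot) * (a * D + dot) ≤ (H * D) * (2 * (a * D)) := by
      apply mul_le_mul h1 (by linarith) _ (by positivity)
      have : 0 ≤ dot := by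
        have : H * D ≤ a * D := by
          apply mul_le_mul_of_nonneg_right _ hD0
          linarith
        linarith
      linarith
    calc (a * D - dot) * (a * D + dot) ≤ (H * D) * (2 * (a * D)) := h3
      _ = 2 * a * H * D ^ 2 := by ring
  have hX4 : |X| ≤ 1415 / 100000 * (a * D) := by
    apply abs_le_of_sq_le_sq _ (by positivity)
    have h4 : (1415 / 100000 * (a * D)) ^ 2 = (1415 / 100000) ^ 2 * a * (a * D ^ 2) := by ring
    rw [h4]
    have h5 : 2 * a * H * D ^ 2 = (2 * H) * (a * D ^ 2) := by ring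
    rw [h5] at hX3
    refine hX3.trans ?_
    apply mul_le_mul_of_nonneg_right _ (by positivity)
    linarith
  have hw1 : w1 * D ^ 2 = u1 * dot - u2 * X := by
    rw [hD, hdot, hX]; ring
  have hw2 : 99 / 100 * u1 * a ≤ w1 * D := by
    have h6 : u2 * X ≤ 3 / 5 * u1 * (1415 / 100000 * (a * D)) := by
      calc u2 * X ≤ u2 * |X| := mul_le_mul_of_nonneg_left (le_abs_self _) hu20.le
        _ ≤ 3 / 5 * u1 * (1415 / 100000 * (a * D)) := by
          apply mul_le_mul hu2' hX4 (abs_nonneg _) (by positivity)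
    have h7 : u1 * (a * D - H * D) ≤ u1 * dot := by
      apply mul_le_mul_of_nonneg_left _ hu1.le
      linarith
    have h8 : u1 * (H * D) ≤ u1 * (a / 9999 * D) := by
      apply mul_le_mul_of_nonneg_left _ hu1.le
      apply mul_le_mul_of_nonneg_right _ hD0
      linarith
    have h9 : 99 / 100 * u1 * a * D ≤ w1 * D * D := by
      have : w1 * D * D = w1 * D ^ 2 := by ring
      rw [this, hw1]
      have h10 : 0 < u1 * (a * D) := by positivity
      nlinarith
    exact le_of_mul_le_mul_right h9 hDpos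
  have hDu : D ^ 2 ≤ 136 / 100 * u1 ^ 2 := by
    rw [hD]
    nlinarith
  have hDu' : 85 / 100 * D ≤ u1 := by
    apply le_of_sq_le_sq _ hu1.le
    nlinarith
  have hw1' : 84 / 100 * a ≤ w1 := by
    have h11 : 84 / 100 * a * D ≤ w1 * D := by
      have : 99 / 100 * (85 / 100 * D) * a ≤ 99 / 100 * u1 * a := by
        apply mul_le_mul_of_nonneg_right _ ha0
        linarith
      nlinarith
    exact le_of_mul_le_mul_right h11 hDpos
  have hw1pos : 0 < w1 := by linarith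
  refine ⟨by linarith, ?_⟩
  have hsl : w2 / w1 - u2 / u1 = X / (u1 * w1) := by
    rw [hX]; field_simp
  have huw : 0 < u1 * w1 := mul_pos hu1 hw1pos
  rw [hsl, abs_div, abs_of_pos huw, div_le_iff₀ huw]
  have hs0 : 0 ≤ 2 * √(H / r) * (u1 * w1) := by positivity
  apply abs_le_of_sq_le_sq _ hs0
  have hsq : (2 * √(H / r) * (u1 * w1)) ^ 2 = 4 * (H / r) * (u1 * w1) ^ 2 := by
    rw [mul_pow, mul_pow, Real.sq_sqrt (by positivity)]
    ring
  rw [hsq]
  have huw2 : 5298 / 10000 * a ^ 2 * D ^ 2 ≤ (u1 * w1) ^ 2 := by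
    have h12 : (99 / 100 * u1 * a) ^ 2 ≤ (w1 * D) ^ 2 := by
      apply pow_le_pow_left₀ (by positivity) hw2
    have h13 : 5298 / 10000 * a ^ 2 * D ^ 2 * D ^ 2 ≤ (u1 * w1) ^ 2 * D ^ 2 := by
      have h14 : (u1 * w1) ^ 2 * D ^ 2 = u1 ^ 2 * (w1 * D) ^ 2 := by ring
      rw [h14]
      have h15 : u1 ^ 2 * (99 / 100 * u1 * a) ^ 2 ≤ u1 ^ 2 * (w1 * D) ^ 2 :=
        mul_le_mul_of_nonneg_left h12 (by positivity)
      refine le_trans ?_ h15
      have h16 : u1 ^ 2 * (99 / 100 * u1 * a) ^ 2 = 9801 / 10000 * a ^ 2 * (u1 ^ 2 * u1 ^ 2) := by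
        ring
      rw [h16]
      have h17 : D ^ 2 * D ^ 2 ≤ (136 / 100 * u1 ^ 2) * (136 / 100 * u1 ^ 2) := by
        apply mul_le_mul hDu hDu (by positivity) (by positivity)
      have h18 : 5298 / 10000 * a ^ 2 * D ^ 2 * D ^ 2 = 5298 / 10000 * a ^ 2 * (D ^ 2 * D ^ 2) := by
        ring
      rw [h18]
      calc 5298 / 10000 * a ^ 2 * (D ^ 2 * D ^ 2)
          ≤ 5298 / 10000 * a ^ 2 * ((136 / 100 * u1 ^ 2) * (136 / 100 * u1 ^ 2)) :=
            mul_le_mul_of_nonneg_left h17 (by positivity)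
        _ = 5298 / 10000 * (136 / 100) ^ 2 * (a ^ 2 * (u1 ^ 2 * u1 ^ 2)) := by ring
        _ ≤ 9801 / 10000 * (a ^ 2 * (u1 ^ 2 * u1 ^ 2)) := by
            apply mul_le_mul_of_nonneg_right _ (by positivity)
            norm_num
        _ = 9801 / 10000 * a ^ 2 * (u1 ^ 2 * u1 ^ 2) := by ring
    exact le_of_mul_le_mul_right h13 (by positivity)
  refine hX3.trans ?_
  calc 2 * a * H * D ^ 2 = (H / r) * (2 * a * D ^ 2) * r := by field_simp
    _ ≤ (H / r) * (2 * a * D ^ 2) * (10001 / 9999 * a) := by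
        apply mul_le_mul_of_nonneg_left _ (by positivity)
        linarith
    _ = (H / r) * (2 * 10001 / 9999 * (a ^ 2 * D ^ 2)) := by ring
    _ ≤ (H / r) * (4 * (5298 / 10000 * a ^ 2 * D ^ 2)) := by
        apply mul_le_mul_of_nonneg_left _ (by positivity)
        have : 0 ≤ a ^ 2 * D ^ 2 := by positivity
        nlinarith
    _ ≤ (H / r) * (4 * (u1 * w1) ^ 2) := by
        apply mul_le_mul_of_nonneg_left _ (by positivity)
        linarith
    _ = 4 * (H / r) * (u1 * w1) ^ 2 := by ring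

/-- an intermediate vertex lies in the narrow region -/
theorem nar (hG0 : G0) (r h : ℝ) (K k i : ℕ) (z s y : E) (hr : 0 < r) (hh : 0 < h)
    (hK : (K : ℝ) * h ≤ r / 10000) (hkK : k < K) (hs1 : 0 < (s - z).1)
    (hs2 : 1 / 5 ≤ sl (s - z)) (hs3 : sl (s - z) ≤ 3 / 5)
    (hD : ((k : ℝ) + 1) * (r - h) ≤ nm (s - z)) (hik : i < k)
    (hy1 : nm (y - z) ≤ ((i : ℝ) + 1) * r) (hy2 : nm (s - y) ≤ ((k : ℝ) - i) * r) :
    y ∈ Nar r (2 * √(K * h / r)) z s := by
  obtain ⟨gtri, gsymm, gco, -, -⟩ := hG0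
  have hkK' : (k : ℝ) + 1 ≤ K := by exact_mod_cast hkK
  have hik' : (i : ℝ) + 1 ≤ k := by exact_mod_cast hik
  have hi0 : (0 : ℝ) ≤ i := Nat.cast_nonneg i
  have hk0 : (0 : ℝ) ≤ k := Nat.cast_nonneg k
  have hKh : ((k : ℝ) + 1) * h ≤ K * h := mul_le_mul_of_nonneg_right hkK' hh.le
  have hHpos : 0 < (K : ℝ) * h := by
    have : (0 : ℝ) < K := by linarith
    positivity
  obtain ⟨-, -, ha0, haa⟩ := gco (y - z)
  obtain ⟨-, -, hD0, hDD⟩ := gco (s - z)
  obtain ⟨-, -, hb0, hbb⟩ := gco (s - y)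
  have htri : nm (s - z) ≤ nm (y - z) + nm (s - y) := by
    have h1 := gtri (y - z) (s - y)
    have h2 : (y - z) + (s - y) = s - z := by abel
    rwa [h2] at h1
  have hir : ((i : ℝ) + 1) * r ≤ k * r := mul_le_mul_of_nonneg_right hik' hr.le
  have hir0 : 0 ≤ (i : ℝ) * r := by positivity
  have hkD : (k : ℝ) * r ≤ nm (s - z) := by nlinarith
  have haD : nm (y - z) ≤ nm (s - z) := by linarith
  have hbD : nm (s - y) ≤ nm (s - z) := by nlinarith
  have hab : nm (y - z) + nm (s - y) ≤ nm (s - z) + K * h := by nlinarith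
  have har : r - K * h ≤ nm (y - z) := by nlinarith
  have hu2 : (s - z).1 / 5 ≤ (s - z).2 := by
    rw [sl, le_div_iff₀ hs1] at hs2
    linarith
  have hu2' : (s - z).2 ≤ 3 / 5 * (s - z).1 := by
    rw [sl, div_le_iff₀ hs1] at hs3
    linarith
  have hbb' : nm (s - y) ^ 2 = ((s - z).1 - (y - z).1) ^ 2 + ((s - z).2 - (y - z).2) ^ 2 := by
    rw [hbb]
    simp only [Prod.fst_sub, Prod.snd_sub]
    ring
  have hc := core (s - z).1 (s - z).2 (y - z).1 (y - z).2 (nm (s - z)) (nm (y - z)) (nm (s - y))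
    r (K * h) hr hHpos hK hs1 hu2 hu2' hDD haa hbb' hD0 ha0 hb0 htri hab haD hbD har
  exact ⟨hc.1, haD, hc.2⟩

end G1x

theorem pf_G1 (hG0 : G0) (hR1 : R1) : G1 := by
  intro r h K k z s C hr hh hK hkK hs1 hs2 hs3 hD hR
  have key : ∀ i : ℕ, i ≤ k → ∀ t : E, Rch r z univ C i t → nm (s - t) ≤ ((k : ℝ) - i) * r →
      Rch r z (Nar r (2 * √(K * h / r)) z s) C i t := by
    intro i
    induction i with
    | zero =>
      intro _ t ht _
      exact ht
    | succ i ih =>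
      intro hik t ht hst
      obtain ⟨y, hyC, -, hy, hty⟩ := ht
      have hsy : nm (s - y) ≤ ((k : ℝ) - i) * r := by
        have h1 := hG0.1 (s - t) (t - y)
        have h2 : (s - t) + (t - y) = s - y := by abel
        rw [h2] at h1
        push_cast at hst
        nlinarith
      refine ⟨y, hyC, ?_, ih (by omega) y hy hsy, hty⟩
      exact G1x.nar hG0 r h K k i z s y hr hh hK hkK hs1 hs2 hs3 hD (by omega)
        (hR1.2.2.2 r z y univ C i hy) hsy
  have hss : nm (s - s) ≤ ((k : ℝ) - k) * r := by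
    have : nm (s - s) = 0 := by simp [nm]
    rw [this]
    simp
  exact key k le_rfl s hR hss

end

end Pool.Agent.Helper59.RG
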