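import Pool.Agent.Helper59.RG.St

/-!
# Project RG (MP_4d33fe_pr): piece G2.
-/

set_option autoImplicit false

namespace Pool.Agent.Helper59.RG

open MeasureTheory Set
open scoped ENNReal

noncomputable section

namespace G2x

/-- the transversal size -/
lemma tau_facts {r h : ℝ} (hr : 0 < r) (hh : 0 < h) (hrh : h ≤ r / 10000) :
    0 < √(r * h / 2) / 3 ∧ (√(r * h / 2) / 3) ^ 2 = r * h / 18 ∧ √(r * h / 2) / 3 ≤ r / 400 := by
  have h0 : 0 < r * h / 2 := by positivity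
  have h1 : 0 < √(r * h / 2) := Real.sqrt_pos.2 h0
  have h2 : √(r * h / 2) ^ 2 = r * h / 2 := Real.sq_sqrt h0.le
  refine ⟨by positivity, ?_, ?_⟩
  · rw [div_pow, h2]; ring
  · have h3 : √(r * h / 2) ≤ 3 * (r / 400) := by
      apply Real.sqrt_le_iff.2
      refine ⟨by positivity, ?_⟩
      nlinarith
    linarith

lemma step_num {r h σ p1 p2 a b τ : ℝ} (hr : 0 < r) (hh : 0 < h) (hrh : h ≤ r / 10000)
    (hσ0 : 1 / 5 ≤ σ) (hσ1 : σ ≤ 3 / 5) (hτ0 : 0 < τ) (hτ : τ ^ 2 = r * h / 18)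
    (hτ1 : τ ≤ r / 400) (hp0 : 0 ≤ p1) (hp2 : p2 = σ * p1) (hp : p1 ^ 2 + p2 ^ 2 ≤ (r - h) ^ 2)
    (hb : |b| ≤ 2 * τ) (ha : |a + σ * b| ≤ h / 2) :
    (p1 + a) ^ 2 + (p2 + b) ^ 2 ≤ r ^ 2 := by
  have hp1 : p1 ≤ r - h := by
    have h1 : p1 ^ 2 ≤ (r - h) ^ 2 := by nlinarith [sq_nonneg p2]
    have h2 : 0 ≤ r - h := by linarith
    exact (abs_le_of_sq_le_sq' h1 h2).2
  obtain ⟨e, he⟩ : ∃ e, e = a + σ * b := ⟨_, rfl⟩
  rw [← he] at ha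
  have ha' : a = e - σ * b := by rw [he]; ring
  have hb2 : b ^ 2 ≤ 4 * τ ^ 2 := by
    have := sq_le_sq' (by linarith [(abs_le.1 hb).1] : -(2 * τ) ≤ b) (abs_le.1 hb).2
    nlinarith
  have he2 : e ^ 2 ≤ h ^ 2 / 4 := by
    have := sq_le_sq' (by linarith [(abs_le.1 ha).1] : -(h / 2) ≤ e) (abs_le.1 ha).2
    nlinarith
  have h1 : 2 * p1 * e ≤ (r - h) * h := by
    have h2 : p1 * e ≤ p1 * (h / 2) := mul_le_mul_of_nonneg_left (abs_le.1 ha).2 hp0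
    have h3 : p1 * (h / 2) ≤ (r - h) * (h / 2) := mul_le_mul_of_nonneg_right hp1 (by positivity)
    linarith
  have h2 : -(e * b) ≤ h * τ := by
    have h3 : |e * b| ≤ h / 2 * (2 * τ) := by
      rw [abs_mul]; exact mul_le_mul ha hb (abs_nonneg _) (by positivity)
    have := (abs_le.1 h3).1
    linarith
  have h3 : -(2 * σ * (e * b)) ≤ 6 / 5 * (h * τ) := by
    have h4 : σ * -(e * b) ≤ σ * (h * τ) := mul_le_mul_of_nonneg_left h2 (by linarith)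
    have h5 : σ * (h * τ) ≤ 3 / 5 * (h * τ) := mul_le_mul_of_nonneg_right hσ1 (by positivity)
    linarith
  have h4 : σ ^ 2 * b ^ 2 ≤ 9 / 25 * (4 * τ ^ 2) := by
    have h5 : σ ^ 2 ≤ 9 / 25 := by nlinarith
    exact mul_le_mul h5 hb2 (sq_nonneg _) (by norm_num)
  have h5 : h * τ ≤ h * (r / 400) := mul_le_mul_of_nonneg_left hτ1 hh.le
  have h6 : h ^ 2 ≤ h * (r / 10000) := by rw [sq]; exact mul_le_mul_of_nonneg_left hrh hh.le
  have h7 : 0 < r * h := by positivity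
  calc (p1 + a) ^ 2 + (p2 + b) ^ 2
      = (p1 ^ 2 + p2 ^ 2) + 2 * p1 * e + (e ^ 2 - 2 * σ * (e * b) + σ ^ 2 * b ^ 2) + b ^ 2 := by
        rw [ha', hp2]; ring
    _ ≤ (r - h) ^ 2 + (r - h) * h + (h ^ 2 / 4 + 6 / 5 * (h * τ) + 9 / 25 * (4 * τ ^ 2)) +
          4 * τ ^ 2 := by linarith
    _ ≤ r ^ 2 := by rw [hτ]; nlinarith

lemma dv {σ v1 v2 D : ℝ} (hσ0 : 1 / 5 ≤ σ) (hσ1 : σ ≤ 3 / 5) (hv1 : 0 < v1) (hv2 : v2 = σ * v1)
    (hD0 : 0 ≤ D) (hD : D ^ 2 = v1 ^ 2 + v2 ^ 2) : 17 / 20 * D ≤ v1 ∧ v1 ≤ D := by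
  constructor
  · have h1 : σ ^ 2 ≤ 9 / 25 := by nlinarith
    have h2 : (17 / 20 * D) ^ 2 ≤ v1 ^ 2 := by
      rw [mul_pow, hD, hv2, mul_pow]
      have := mul_le_mul_of_nonneg_right h1 (sq_nonneg v1)
      nlinarith [sq_nonneg v1]
    exact (abs_le_of_sq_le_sq' h2 hv1.le).2
  · have : v1 ^ 2 ≤ D ^ 2 := by rw [hD]; nlinarith [sq_nonneg v2]
    exact (abs_le_of_sq_le_sq' this hD0).2

lemma ab {r h σ a b τ : ℝ} (hr : 0 < r) (hh : 0 < h) (hrh : h ≤ r / 10000)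
    (hσ0 : 1 / 5 ≤ σ) (hσ1 : σ ≤ 3 / 5) (hτ1 : τ ≤ r / 400)
    (hb : |b| ≤ τ) (ha : |a + σ * b| ≤ h / 4) : |a| ≤ r / 200 ∧ |b| ≤ r / 200 := by
  have hσb : |σ * b| ≤ 3 / 5 * τ := by
    rw [abs_mul, abs_of_pos (by linarith : 0 < σ)]
    exact mul_le_mul hσ1 hb (abs_nonneg _) (by norm_num)
  have hea := abs_le.1 ha
  have hba := abs_le.1 hb
  have hsb := abs_le.1 hσb
  constructor
  · rw [abs_le]; constructor <;> linarith
  · rw [abs_le]; constructor <;> linarith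

lemma nar1 {r v1 t D a : ℝ} (hr : 0 < r) (hdv : 17 / 20 * D ≤ v1)
    (ht0 : 0 ≤ t) (htg : 49 / 100 * r ≤ t * D) (ha : |a| ≤ r / 200) : r / 3 ≤ t * v1 + a := by
  have h2 : 17 / 20 * (t * D) ≤ t * v1 := by
    have := mul_le_mul_of_nonneg_left hdv ht0
    linarith
  have := abs_le.1 ha
  linarith

lemma nar2 {r h σ v1 v2 t D a b : ℝ} (hr : 0 < r) (hh : 0 < h) (hrh : h ≤ r / 10000)
    (hv1 : 0 < v1) (hv2 : v2 = σ * v1) (hD0 : 0 ≤ D) (hv1D : v1 ≤ D)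
    (hD : D ^ 2 = v1 ^ 2 + v2 ^ 2) (ht0 : 0 ≤ t)
    (htg' : 49 / 100 * r ≤ (1 - t) * D)
    (ha : |a + σ * b| ≤ h / 4) (ha1 : |a| ≤ r / 200) (hb1 : |b| ≤ r / 200) :
    √((t * v1 + a) ^ 2 + (t * v2 + b) ^ 2) ≤ D := by
  obtain ⟨e, he⟩ : ∃ e, e = a + σ * b := ⟨_, rfl⟩
  rw [← he] at ha
  have ha' : a = e - σ * b := by rw [he]; ring
  apply Real.sqrt_le_iff.2
  refine ⟨hD0, ?_⟩
  have h3 : t * D + r / 100 ≤ D := by linarith
  have h4 : v1 * e ≤ D * (h / 4) := by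
    calc v1 * e ≤ v1 * (h / 4) := mul_le_mul_of_nonneg_left (abs_le.1 ha).2 hv1.le
      _ ≤ D * (h / 4) := mul_le_mul_of_nonneg_right hv1D (by positivity)
  have h5 : a ^ 2 + b ^ 2 ≤ (r / 100) ^ 2 := by
    have ha2 : a ^ 2 ≤ (r / 200) ^ 2 :=
      sq_le_sq' (by linarith [(abs_le.1 ha1).1]) (abs_le.1 ha1).2
    have hb2 : b ^ 2 ≤ (r / 200) ^ 2 :=
      sq_le_sq' (by linarith [(abs_le.1 hb1).1]) (abs_le.1 hb1).2
    have h6 : 0 < r ^ 2 := by positivity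
    calc a ^ 2 + b ^ 2 ≤ (r / 200) ^ 2 + (r / 200) ^ 2 := add_le_add ha2 hb2
      _ = r ^ 2 / 20000 := by ring
      _ ≤ r ^ 2 / 10000 := by linarith
      _ = (r / 100) ^ 2 := by ring
  have h6 : 2 * t * (v1 * e) ≤ 2 * (t * D) * (r / 100) := by
    have h8 := mul_le_mul_of_nonneg_left h4 ht0
    have h7 : t * (D * (h / 4)) ≤ t * D * (r / 100) := by
      rw [← mul_assoc]
      exact mul_le_mul_of_nonneg_left (by linarith) (by positivity)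
    linarith
  have h8 : 0 ≤ t * D := by positivity
  calc (t * v1 + a) ^ 2 + (t * v2 + b) ^ 2
      = t ^ 2 * (v1 ^ 2 + v2 ^ 2) + 2 * t * (v1 * e) + (a ^ 2 + b ^ 2) := by
        rw [hv2, he]; ring
    _ ≤ t ^ 2 * D ^ 2 + 2 * (t * D) * (r / 100) + (r / 100) ^ 2 := by rw [← hD]; linarith
    _ = (t * D + r / 100) ^ 2 := by ring
    _ ≤ D ^ 2 := pow_le_pow_left₀ (by positivity) h3 2

lemma nar3 {r h σ v1 v2 t a b τ : ℝ} (hr : 0 < r) (hh : 0 < h) (hrh : h ≤ r / 10000)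
    (hσ0 : 1 / 5 ≤ σ) (hσ1 : σ ≤ 3 / 5) (hτ : τ ^ 2 = r * h / 18)
    (hv2 : v2 = σ * v1) (h1 : r / 3 ≤ t * v1 + a) (hb : |b| ≤ τ) (ha : |a + σ * b| ≤ h / 4) :
    |(t * v2 + b) / (t * v1 + a) - σ| ≤ 2 * √(h / r) := by
  obtain ⟨e, he⟩ : ∃ e, e = a + σ * b := ⟨_, rfl⟩
  rw [← he] at ha
  have hpos : 0 < t * v1 + a := by linarith
  have h2 : (t * v2 + b) / (t * v1 + a) - σ = ((1 + σ ^ 2) * b - σ * e) / (t * v1 + a) := by
    rw [hv2, he, div_sub' hpos.ne']; congr 1; ring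
  rw [h2, abs_div, abs_of_pos hpos, div_le_iff₀ hpos]
  have h3 : 2 * √(h / r) * (r / 3) ≤ 2 * √(h / r) * (t * v1 + a) :=
    mul_le_mul_of_nonneg_left h1 (by positivity)
  refine le_trans ?_ h3
  have hsq : r ^ 2 * (h / r) = r * h := by field_simp
  have hrh2 : 0 < r * h := mul_pos hr hh
  have hs : τ ≤ 6 / 25 * (r * √(h / r)) := by
    have h4 : τ ^ 2 ≤ (6 / 25 * (r * √(h / r))) ^ 2 := by
      rw [mul_pow, mul_pow, Real.sq_sqrt (by positivity), hτ, hsq]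
      linarith
    exact (abs_le_of_sq_le_sq' h4 (by positivity)).2
  have hs2 : h ≤ 1 / 100 * (r * √(h / r)) := by
    have h4 : h ^ 2 ≤ (1 / 100 * (r * √(h / r))) ^ 2 := by
      rw [mul_pow, mul_pow, Real.sq_sqrt (by positivity), hsq]
      have := mul_le_mul_of_nonneg_right hrh hh.le
      linarith
    exact (abs_le_of_sq_le_sq' h4 (by positivity)).2
  have h6 : |(1 + σ ^ 2) * b| ≤ 34 / 25 * τ := by
    rw [abs_mul, abs_of_pos (by positivity : 0 < 1 + σ ^ 2)]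
    refine mul_le_mul ?_ hb (abs_nonneg _) (by norm_num)
    nlinarith
  have h7 : |σ * e| ≤ 3 / 5 * (h / 4) := by
    rw [abs_mul, abs_of_pos (by linarith : 0 < σ)]
    exact mul_le_mul hσ1 ha (abs_nonneg _) (by norm_num)
  have h8 : |(1 + σ ^ 2) * b - σ * e| ≤ 34 / 25 * τ + 3 / 5 * (h / 4) :=
    (abs_sub _ _).trans (add_le_add h6 h7)
  have h9 : 0 ≤ r * √(h / r) := by positivity
  linarith

/-- the data of the construction -/
structure Dat (r h : ℝ) (z s : E) (C : Multiset E) (q : ℕ) (σ v1 v2 D τ : ℝ)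
    (Y : ℕ → E) (a b : ℕ → ℝ) : Prop where
  hr : 0 < r
  hh : 0 < h
  hrh : h ≤ r / 10000
  hσ0 : 1 / 5 ≤ σ
  hσ1 : σ ≤ 3 / 5
  hτ0 : 0 < τ
  hτ : τ ^ 2 = r * h / 18
  hτ1 : τ ≤ r / 400
  hv1 : 0 < v1
  hv2 : v2 = σ * v1
  hD0 : 0 ≤ D
  hD : D ^ 2 = v1 ^ 2 + v2 ^ 2
  hq1 : 1 ≤ q
  hqle : D ≤ q * (r - h)
  hqlt : ((q : ℝ) - 1) * (r - h) < D
  hY : ∀ m : ℕ, Y m = (z.1 + m / q * v1 + a m, z.2 + m / q * v2 + b m)
  hb : ∀ m, |b m| ≤ τ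
  ha : ∀ m, |a m + σ * b m| ≤ h / 4
  hY0 : Y 0 = z
  hYq : Y q = s
  hYC : ∀ m, 1 ≤ m → m < q → Y m ∈ C

section

variable {r h : ℝ} {z s : E} {C : Multiset E} {q : ℕ} {σ v1 v2 D τ : ℝ}
    {Y : ℕ → E} {a b : ℕ → ℝ}

lemma Dat.nar (d : Dat r h z s C q σ v1 v2 D τ Y a b) (hDd : D = nm (s - z))
    (hσd : σ = sl (s - z)) {θ : ℝ} (hth : 2 * √(h / r) ≤ θ) :
    ∀ m : ℕ, 1 ≤ m → m < q → Y m ∈ Nar r θ z s := by
  intro m hm1 hm2
  have hrh0 : 0 < r - h := by linarith [d.hrh, d.hr]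
  have hq0 : (0 : ℝ) < q := by exact_mod_cast d.hq1
  have hm1' : (1 : ℝ) ≤ m := by exact_mod_cast hm1
  have hm2' : (m : ℝ) + 1 ≤ q := by exact_mod_cast hm2
  have hq2 : (2 : ℝ) ≤ q := by linarith
  have e1 : (Y m - z).1 = m / q * v1 + a m := by
    rw [d.hY m, Prod.fst_sub]; ring
  have e2 : (Y m - z).2 = m / q * v2 + b m := by
    rw [d.hY m, Prod.snd_sub]; ring
  have hg : 49 / 100 * r ≤ D / q := by
    rw [le_div_iff₀ hq0]
    have h1 : (q : ℝ) / 2 * (r - h) ≤ (q - 1) * (r - h) :=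
      mul_le_mul_of_nonneg_right (by linarith) hrh0.le
    have h2 : 49 / 100 * r ≤ (r - h) / 2 := by linarith [d.hrh, d.hr]
    have h3 := mul_le_mul_of_nonneg_right h2 hq0.le
    linarith [d.hqlt]
  have htg : D / q ≤ m / q * D := by
    rw [div_mul_eq_mul_div]
    have := mul_le_mul_of_nonneg_right hm1' d.hD0
    exact div_le_div_of_nonneg_right (by linarith) hq0.le
  have htg' : D / q ≤ (1 - m / q) * D := by
    have h1 : (1 - m / q) * D = (q - m) * D / q := by field_simp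
    rw [h1]
    have := mul_le_mul_of_nonneg_right (by linarith : (1 : ℝ) ≤ q - m) d.hD0
    exact div_le_div_of_nonneg_right (by linarith) hq0.le
  obtain ⟨hdv, hvD⟩ := dv d.hσ0 d.hσ1 d.hv1 d.hv2 d.hD0 d.hD
  obtain ⟨ha1, hb1⟩ := ab d.hr d.hh d.hrh d.hσ0 d.hσ1 d.hτ1 (d.hb m) (d.ha m)
  have ht0 : (0 : ℝ) ≤ m / q := by positivity
  have c1 := nar1 d.hr hdv ht0 (hg.trans htg) ha1
  refine ⟨by rw [e1]; exact c1, ?_, ?_⟩
  · rw [← hDd]; unfold nm; rw [e1, e2]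
    exact nar2 d.hr d.hh d.hrh d.hv1 d.hv2 d.hD0 hvD d.hD ht0 (hg.trans htg') (d.ha m) ha1 hb1
  · rw [← hσd]; unfold sl; rw [e1, e2]
    exact (nar3 d.hr d.hh d.hrh d.hσ0 d.hσ1 d.hτ d.hv2 c1 (d.hb m) (d.ha m)).trans hth

lemma Dat.step (d : Dat r h z s C q σ v1 v2 D τ Y a b) :
    ∀ m : ℕ, nm (Y (m + 1) - Y m) ≤ r := by
  intro m
  have hrh0 : 0 < r - h := by linarith [d.hrh, d.hr]
  have hq0 : (0 : ℝ) < q := by exact_mod_cast d.hq1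
  have e1 : (Y (m + 1) - Y m).1 = v1 / q + (a (m + 1) - a m) := by
    rw [d.hY (m + 1), d.hY m, Prod.fst_sub]; push_cast; ring
  have e2 : (Y (m + 1) - Y m).2 = v2 / q + (b (m + 1) - b m) := by
    rw [d.hY (m + 1), d.hY m, Prod.snd_sub]; push_cast; ring
  unfold nm
  rw [e1, e2]
  apply Real.sqrt_le_iff.2
  refine ⟨d.hr.le, ?_⟩
  have hv := d.hv1
  have hD0 := d.hD0
  refine step_num (σ := σ) (τ := τ) d.hr d.hh d.hrh d.hσ0 d.hσ1 d.hτ0 d.hτ d.hτ1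
    (by positivity) ?_ ?_ ?_ ?_
  · rw [d.hv2]; ring
  · have h1 : (v1 / q) ^ 2 + (v2 / q) ^ 2 = (D / q) ^ 2 := by
      rw [div_pow, div_pow, div_pow, d.hD]; ring
    rw [h1]
    apply pow_le_pow_left₀ (by positivity)
    rw [div_le_iff₀ hq0]; linarith [d.hqle]
  · have := abs_sub (b (m + 1)) (b m)
    linarith [d.hb m, d.hb (m + 1)]
  · have h1 : a (m + 1) - a m + σ * (b (m + 1) - b m) =
        (a (m + 1) + σ * b (m + 1)) - (a m + σ * b m) := by ring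
    rw [h1]
    have := abs_sub (a (m + 1) + σ * b (m + 1)) (a m + σ * b m)
    linarith [d.ha m, d.ha (m + 1)]

lemma Dat.rch (d : Dat r h z s C q σ v1 v2 D τ Y a b) (hDd : D = nm (s - z))
    (hσd : σ = sl (s - z)) {θ : ℝ} (hth : 2 * √(h / r) ≤ θ) :
    Rch r z (Nar r θ z s) C (q - 1) s := by
  have hR : ∀ m : ℕ, m < q → Rch r z (Nar r θ z s) C m (Y (m + 1)) := by
    intro m
    induction m with
    | zero =>
      intro hm
      have h1 := d.step 0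
      rw [d.hY0] at h1
      exact h1
    | succ m ih =>
      intro hm
      exact ⟨Y (m + 1), d.hYC (m + 1) (by omega) hm, d.nar hDd hσd hth (m + 1) (by omega) hm,
        ih (by omega), d.step (m + 1)⟩
  have hq1 := d.hq1
  have hfin := hR (q - 1) (by omega)
  rw [show q - 1 + 1 = q by omega, d.hYq] at hfin
  exact hfin

end

lemma choosePts {r h : ℝ} {z s : E} {C : Multiset E} {q : ℕ} {σ v1 v2 τ : ℝ} (hh : 0 < h)
    (hq0 : (0 : ℝ) < q)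
    (hv1 : v1 = (s - z).1) (hv2 : v2 = (s - z).2) (hσ : σ = sl (s - z))
    (hτd : τ = √(r * h / 2) / 3) (hτ0 : 0 < τ)
    (hy : ∀ m : ℕ, 1 ≤ m → m < q → ∃ y ∈ C, y ∈ Pm r h z s q m) (m : ℕ) :
    ∃ y : E, ∃ a b : ℝ, y = (z.1 + m / q * v1 + a, z.2 + m / q * v2 + b) ∧
      |b| ≤ τ ∧ |a + σ * b| ≤ h / 4 ∧ (m = 0 → y = z) ∧
      (m = q → y = s) ∧ (1 ≤ m → m < q → y ∈ C) := by
  have hz0 : |(0 : ℝ)| ≤ τ := by rw [abs_zero]; exact hτ0.le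
  have hz1 : |(0 : ℝ) + σ * 0| ≤ h / 4 := by rw [mul_zero, add_zero, abs_zero]; positivity
  by_cases h1 : 1 ≤ m ∧ m < q
  · obtain ⟨y, hyC, hyP⟩ := hy m h1.1 h1.2
    obtain ⟨hy2, hy1⟩ := hyP
    rw [← hv2, ← hτd] at hy2
    rw [← hv1, ← hv2, ← hσ] at hy1
    refine ⟨y, y.1 - (z.1 + m / q * v1), y.2 - (z.2 + m / q * v2), ?_, hy2, hy1, by omega,
      by omega, fun _ _ => hyC⟩
    ext
    · exact (add_sub_cancel _ _).symm
    · exact (add_sub_cancel _ _).symm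
  · by_cases h2 : m = q
    · refine ⟨s, 0, 0, ?_, hz0, hz1, ?_, fun _ => rfl, fun _ h => absurd h (by omega)⟩
      · have h3 : (m : ℝ) / q = 1 := by rw [h2]; exact div_self hq0.ne'
        rw [h3, hv1, hv2, Prod.fst_sub, Prod.snd_sub]
        ext
        · change s.1 = z.1 + 1 * (s.1 - z.1) + 0; ring
        · change s.2 = z.2 + 1 * (s.2 - z.2) + 0; ring
      · intro h3
        rw [← h2, h3] at hq0
        simp at hq0
    · refine ⟨(z.1 + m / q * v1 + 0, z.2 + m / q * v2 + 0), 0, 0, rfl, hz0, hz1, ?_,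
        fun h => absurd h h2, fun h3 h4 => absurd ⟨h3, h4⟩ h1⟩
      rintro rfl
      ext
      · change z.1 + ((0 : ℕ) : ℝ) / q * v1 + 0 = z.1
        rw [Nat.cast_zero]; ring
      · change z.2 + ((0 : ℕ) : ℝ) / q * v2 + 0 = z.2
        rw [Nat.cast_zero]; ring

lemma ceil_facts {r h D : ℝ} {k q : ℕ} (hrh0 : 0 < r - h) (hDp : 0 < D)
    (hq : q = ⌈D / (r - h)⌉₊) (hD : D ≤ ((k : ℝ) + 1) * (r - h)) :
    1 ≤ q ∧ q ≤ k + 1 ∧ D ≤ q * (r - h) ∧ ((q : ℝ) - 1) * (r - h) < D := by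
  refine ⟨?_, ?_, ?_, ?_⟩
  · rw [hq]; exact Nat.one_le_iff_ne_zero.2 (Nat.pos_iff_ne_zero.1 (Nat.ceil_pos.2 (by positivity)))
  · rw [hq]; apply Nat.ceil_le.2
    rw [div_le_iff₀ hrh0]; push_cast; exact hD
  · have := Nat.le_ceil (D / (r - h))
    rw [← hq, div_le_iff₀ hrh0] at this
    exact this
  · have := Nat.ceil_lt_add_one (by positivity : 0 ≤ D / (r - h))
    rw [← hq] at this
    have h2 : (q : ℝ) - 1 < D / (r - h) := by linarith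
    rwa [lt_div_iff₀ hrh0] at h2

end G2x

theorem pf_G2 (_hG0 : G0) (hR1 : R1) : G2 := by
  intro r h K k z s C hr hh hK hk hs1 hσ0 hσ1 hsC hD hy
  have hK1 : (1 : ℝ) ≤ K := by exact_mod_cast (by omega : 1 ≤ K)
  have hrh : h ≤ r / 10000 := by
    have := mul_le_mul_of_nonneg_right hK1 hh.le
    linarith
  have hrh0 : 0 < r - h := by linarith
  obtain ⟨D, hDdef⟩ : ∃ D, D = nm (s - z) := ⟨_, rfl⟩
  obtain ⟨q, hq⟩ : ∃ q, q = ⌈nm (s - z) / (r - h)⌉₊ := ⟨_, rfl⟩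
  obtain ⟨σ, hσ⟩ : ∃ σ, σ = sl (s - z) := ⟨_, rfl⟩
  obtain ⟨v1, hv1⟩ : ∃ v1, v1 = (s - z).1 := ⟨_, rfl⟩
  obtain ⟨v2, hv2⟩ : ∃ v2, v2 = (s - z).2 := ⟨_, rfl⟩
  rw [← hq] at hy
  rw [← hDdef] at hD hq
  rw [← hv1] at hs1
  rw [← hσ] at hσ0 hσ1
  have hv1p : 0 < v1 := by linarith
  have hσv : v2 = σ * v1 := by
    rw [hσ, hv1, hv2]; unfold sl
    rw [← hv1]; exact (div_mul_cancel₀ _ hv1p.ne').symm
  have hD2 : D ^ 2 = v1 ^ 2 + v2 ^ 2 := by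
    rw [hDdef, hv1, hv2]; unfold nm; exact Real.sq_sqrt (by positivity)
  have hD0 : 0 ≤ D := by rw [hDdef]; exact Real.sqrt_nonneg _
  have hDp : 0 < D := by
    rcases hD0.lt_or_eq with h1 | h1
    · exact h1
    · rw [← h1] at hD2; nlinarith [sq_nonneg v2, mul_pos hv1p hv1p]
  obtain ⟨hq1, hqk, hqle, hqlt⟩ := G2x.ceil_facts hrh0 hDp hq hD
  have hq0 : (0 : ℝ) < q := by exact_mod_cast hq1
  obtain ⟨hτ0, hτ, hτ1⟩ := G2x.tau_facts hr hh hrh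
  obtain ⟨τ, hτd⟩ : ∃ τ, τ = √(r * h / 2) / 3 := ⟨_, rfl⟩
  rw [← hτd] at hτ0 hτ hτ1
  have hth : 2 * √(h / r) ≤ 2 * √(K * h / r) := by
    have h1 : √(h / r) ≤ √(K * h / r) := by
      apply Real.sqrt_le_sqrt
      apply div_le_div_of_nonneg_right _ hr.le
      have := mul_le_mul_of_nonneg_right hK1 hh.le
      linarith
    linarith
  have hsN : s ∈ Nar r (2 * √(K * h / r)) z s := by
    refine ⟨by rw [← hv1]; exact hs1, le_refl _, ?_⟩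
    rw [sub_self, abs_zero]; positivity
  choose Y a b hY hb ha hY0 hYq hYC using
    G2x.choosePts hh hq0 hv1 hv2 hσ hτd hτ0 hy
  have d : G2x.Dat r h z s C q σ v1 v2 D τ Y a b :=
    ⟨hr, hh, hrh, hσ0, hσ1, hτ0, hτ, hτ1, hv1p, hσv, hD0, hD2, hq1, hqle, hqlt, hY, hb, ha,
      hY0 0 rfl, hYq q rfl, hYC⟩
  exact hR1.2.2.1 r z s _ C (q - 1) k hr.le hsC hsN (by omega) (d.rch hDdef hσ hth)

end

end Pool.Agent.Helper59.RG
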