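import Pool.Agent.Helper59.RG.St

set_option autoImplicit false

namespace Pool.Agent.Helper59.RG

open MeasureTheory Set
open scoped ENNReal

noncomputable section

namespace G3x

theorem meas (r h : ℝ) (q m : ℕ) :
    MeasurableSet {p : (E × E) × E | p.2 ∈ Pm r h p.1.1 p.1.2 q m} := by
  have hsl : Measurable fun p : (E × E) × E => sl (p.1.2 - p.1.1) := by
    unfold sl
    fun_prop
  have e : {p : (E × E) × E | p.2 ∈ Pm r h p.1.1 p.1.2 q m} =
      {p : (E × E) × E | |p.2.2 - (p.1.1.2 + m / q * (p.1.2 - p.1.1).2)| ≤ √(r * h / 2) / 3} ∩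
      {p : (E × E) × E | |(p.2.1 - (p.1.1.1 + m / q * (p.1.2 - p.1.1).1)) +
        sl (p.1.2 - p.1.1) * (p.2.2 - (p.1.1.2 + m / q * (p.1.2 - p.1.1).2))| ≤ h / 4} := by
    ext p
    simp [Pm]
  rw [e]
  refine MeasurableSet.inter ?_ ?_
  · refine measurableSet_le ?_ measurable_const
    exact (by fun_prop : Measurable fun p : (E × E) × E =>
      (p.2.2 - (p.1.1.2 + m / q * (p.1.2 - p.1.1).2))).abs
  · refine measurableSet_le ?_ measurable_const
    refine Measurable.abs ?_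
    refine Measurable.add (by fun_prop) (hsl.mul (by fun_prop))

theorem vol (c1 c2 σ a H : ℝ) (hH : 0 ≤ H) :
    volume {x : E | |x.2 - c2| ≤ H ∧ |(x.1 - c1) + σ * (x.2 - c2)| ≤ a} =
      ENNReal.ofReal (2 * a * (2 * H)) := by
  have hm : MeasurableSet {x : E | |x.2 - c2| ≤ H ∧ |(x.1 - c1) + σ * (x.2 - c2)| ≤ a} := by
    refine MeasurableSet.inter (s₁ := {x : E | |x.2 - c2| ≤ H})
      (s₂ := {x : E | |(x.1 - c1) + σ * (x.2 - c2)| ≤ a}) ?_ ?_
    · refine measurableSet_le ?_ measurable_const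
      exact (by fun_prop : Measurable fun x : E => x.2 - c2).abs
    · refine measurableSet_le ?_ measurable_const
      exact (by fun_prop : Measurable fun x : E => (x.1 - c1) + σ * (x.2 - c2)).abs
  rw [Measure.volume_eq_prod, Measure.prod_apply_symm hm]
  have hs : ∀ y : ℝ, volume ((fun x : ℝ => (x, y)) ⁻¹'
      {x : E | |x.2 - c2| ≤ H ∧ |(x.1 - c1) + σ * (x.2 - c2)| ≤ a}) =
      (Icc (c2 - H) (c2 + H)).indicator (fun _ => ENNReal.ofReal (2 * a)) y := by
    intro y
    by_cases hy : y ∈ Icc (c2 - H) (c2 + H)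
    · rw [indicator_of_mem hy]
      have : ((fun x : ℝ => (x, y)) ⁻¹'
          {x : E | |x.2 - c2| ≤ H ∧ |(x.1 - c1) + σ * (x.2 - c2)| ≤ a}) =
          Icc (c1 - σ * (y - c2) - a) (c1 - σ * (y - c2) + a) := by
        ext x
        simp only [mem_preimage, mem_ofPred_eq, mem_Icc]
        have h1 : |y - c2| ≤ H := by
          rw [abs_le]
          constructor <;> linarith [hy.1, hy.2]
        rw [abs_le (a := x - c1 + σ * (y - c2))]
        constructor
        · rintro ⟨_, h2, h3⟩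
          constructor <;> linarith
        · rintro ⟨h2, h3⟩
          exact ⟨h1, by linarith, by linarith⟩
      rw [this, Real.volume_Icc]
      congr 1
      ring
    · rw [indicator_of_notMem hy]
      have : ((fun x : ℝ => (x, y)) ⁻¹'
          {x : E | |x.2 - c2| ≤ H ∧ |(x.1 - c1) + σ * (x.2 - c2)| ≤ a}) = ∅ := by
        ext x
        simp only [mem_preimage, mem_ofPred_eq, mem_empty_iff_false, iff_false]
        rintro ⟨h1, _⟩
        rw [abs_le] at h1
        exact hy ⟨by linarith [h1.1], by linarith [h1.2]⟩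
      rw [this, measure_empty]
  simp_rw [hs]
  rw [lintegral_indicator measurableSet_Icc, setLIntegral_const, Real.volume_Icc,
    ← ENNReal.ofReal_mul' (by linarith)]
  congr 1
  ring

theorem geo (r h : ℝ) (z s : E) (m : ℕ) (hr : 0 < r) (hh : 0 < h) (hhr : h ≤ r / 10000)
    (hX : r / 3 ≤ (s - z).1) (h1 : 1 / 5 ≤ sl (s - z)) (h2 : sl (s - z) ≤ 3 / 5) (hm1 : 1 ≤ m)
    (hm : m < ⌈nm (s - z) / (r - h)⌉₊) :
    (0.08 * r ≤ m / (⌈nm (s - z) / (r - h)⌉₊ : ℝ) * (s - z).1 ∧
      0.08 * r ≤ (1 - m / (⌈nm (s - z) / (r - h)⌉₊ : ℝ)) * (s - z).1) ∧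
    (0.08 * r ≤ m / (⌈nm (s - z) / (r - h)⌉₊ : ℝ) * (s - z).2 ∧
      0.08 * r ≤ (1 - m / (⌈nm (s - z) / (r - h)⌉₊ : ℝ)) * (s - z).2) := by
  set q := ⌈nm (s - z) / (r - h)⌉₊ with hq
  set X := (s - z).1 with hXd
  set Y := (s - z).2 with hYd
  have hXp : 0 < X := by linarith
  have hsl : sl (s - z) = Y / X := rfl
  rw [hsl] at h1 h2
  have hY1 : X / 5 ≤ Y := by
    rw [le_div_iff₀ hXp] at h1
    linarith
  have hY2 : Y ≤ 3 / 5 * X := by
    rw [div_le_iff₀ hXp] at h2
    linarith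
  have hrh : 0 < r - h := by linarith
  have hD : nm (s - z) ≤ 1.17 * X := by
    unfold nm
    rw [← hXd, ← hYd]
    rw [Real.sqrt_le_left (by positivity)]
    nlinarith
  have hq2 : 2 ≤ q := by omega
  have hq0 : (0 : ℝ) < q := by positivity
  have hDr : 1 < nm (s - z) / (r - h) := by
    have : 1 < ⌈nm (s - z) / (r - h)⌉₊ := by omega
    rw [Nat.lt_ceil] at this
    exact_mod_cast this
  have hqD : (q : ℝ) < 2 * (nm (s - z) / (r - h)) := by
    have := Nat.ceil_lt_add_one (a := nm (s - z) / (r - h)) (by linarith)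
    linarith
  -- X / q ≥ 0.42 r
  have hXq : 0.42 * r ≤ X / q := by
    rw [le_div_iff₀ hq0]
    have h3 : (q : ℝ) * (r - h) < 2 * nm (s - z) := by
      have := mul_lt_mul_of_pos_right hqD hrh
      rwa [mul_assoc, div_mul_cancel₀ _ hrh.ne'] at this
    have h4 : (q : ℝ) * (r - h) < 2.34 * X := by linarith
    have h5 : 0.9999 * r ≤ r - h := by linarith
    have h6 : (q : ℝ) * (0.9999 * r) ≤ q * (r - h) := by gcongr
    nlinarith
  have hYq : 0.084 * r ≤ Y / q := by
    have : X / 5 / q ≤ Y / q := by gcongr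
    have h3 : X / 5 / q = X / q / 5 := by ring
    rw [h3] at this
    linarith
  have hYp : 0 < Y := by linarith
  have ha : 1 / (q : ℝ) ≤ m / q := by
    gcongr
    exact_mod_cast hm1
  have hb : 1 / (q : ℝ) ≤ 1 - m / q := by
    have h3 : (m : ℝ) + 1 ≤ q := by exact_mod_cast hm
    rw [← sub_nonneg]
    have : 1 - (m : ℝ) / q - 1 / q = (q - (m + 1)) / q := by
      field_simp
      ring
    rw [this]
    apply div_nonneg <;> linarith
  have e1 : X / q = 1 / (q : ℝ) * X := by ring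
  have e2 : Y / q = 1 / (q : ℝ) * Y := by ring
  rw [e1] at hXq
  rw [e2] at hYq
  have g1 := mul_le_mul_of_nonneg_right ha hXp.le
  have g2 := mul_le_mul_of_nonneg_right hb hXp.le
  have g3 := mul_le_mul_of_nonneg_right ha hYp.le
  have g4 := mul_le_mul_of_nonneg_right hb hYp.le
  refine ⟨⟨?_, ?_⟩, ?_, ?_⟩ <;> linarith

theorem Hle (r h : ℝ) (hr : 0 < r) (hhr : h ≤ r / 10000) : √(r * h / 2) / 3 ≤ 0.0024 * r := by
  have : √(r * h / 2) ≤ 0.0072 * r := by
    rw [Real.sqrt_le_left (by positivity)]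
    nlinarith
  linarith

end G3x

theorem pf_G3 (_hG0 : G0) : G3 := by
  refine ⟨fun r h q m _ _ => G3x.meas r h q m, ?_, ?_⟩
  · intro r h z s q m hr hh
    have := G3x.vol (z.1 + m / q * (s - z).1) (z.2 + m / q * (s - z).2) (sl (s - z)) (h / 4)
      (√(r * h / 2) / 3) (by positivity)
    unfold Pm
    rw [this]
    congr 1
    ring
  · intro r h z s m hr hh hhr hX h1 h2 hm1 hm
    obtain ⟨⟨a1, a2⟩, a3, a4⟩ := G3x.geo r h z s m hr hh hhr hX h1 h2 hm1 hm
    have hH := G3x.Hle r h hr hhr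
    have hH0 : 0 ≤ √(r * h / 2) / 3 := by positivity
    set q := ⌈nm (s - z) / (r - h)⌉₊ with hq
    have b1 : (1 - m / (q : ℝ)) * (s - z).1 = s.1 - (z.1 + m / q * (s - z).1) := by
      simp only [Prod.fst_sub]
      ring
    have b2 : (1 - m / (q : ℝ)) * (s - z).2 = s.2 - (z.2 + m / q * (s - z).2) := by
      simp only [Prod.snd_sub]
      ring
    rw [b1] at a2
    rw [b2] at a4
    refine ⟨?_, ?_⟩
    · rintro x ⟨hx1, hx2⟩
      have hx3 : |sl (s - z) * (x.2 - (z.2 + m / q * (s - z).2))| ≤ 0.01 * r := by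
        rw [abs_mul]
        have : |sl (s - z)| ≤ 3 / 5 := by
          rw [abs_le]
          constructor <;> linarith
        have h3 : |sl (s - z)| * |x.2 - (z.2 + m / q * (s - z).2)| ≤
            3 / 5 * (√(r * h / 2) / 3) := mul_le_mul this hx1 (abs_nonneg _) (by norm_num)
        linarith
      rw [abs_le] at hx1 hx2 hx3
      simp only [mem_prod, mem_Icc]
      refine ⟨⟨?_, ?_⟩, ?_, ?_⟩ <;> linarith [hx1.1, hx1.2, hx2.1, hx2.2, hx3.1, hx3.2]
    · rintro ⟨hx1, _⟩
      rw [abs_le] at hx1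
      linarith [hx1.2]

end

end Pool.Agent.Helper59.RG
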