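import Pool.Agent.Helper59.RG.St

/-!
# Project RG (MP_4d33fe_pr), piece G4: the regions of a context.
-/

set_option autoImplicit false

namespace Pool.Agent.Helper59.RG

open MeasureTheory Set
open scoped ENNReal

noncomputable section

namespace G4x

theorem nm_nonneg (x : E) : 0 ≤ nm x := Real.sqrt_nonneg _

theorem nm_le {x : E} {a : ℝ} (ha : 0 ≤ a) (h : x.1 ^ 2 + x.2 ^ 2 ≤ a ^ 2) : nm x ≤ a :=
  Real.sqrt_le_iff.mpr ⟨ha, h⟩

theorem abs_fst_le (x : E) : |x.1| ≤ nm x := by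
  rw [nm, ← Real.sqrt_sq_eq_abs]
  exact Real.sqrt_le_sqrt (by nlinarith [sq_nonneg x.2])

theorem fst_le (x : E) : x.1 ≤ nm x := le_trans (le_abs_self _) (abs_fst_le x)

/-- the numerical facts -/
theorem base (hG0 : G0) {c : Cx} {Λ : ℝ} (H : c.Ok Λ) :
    0 < c.rho ∧ c.rho ≤ c.r / 400 ∧ 0 ≤ c.th ∧ c.th ≤ 1 / 50 ∧ (c.K : ℝ) * c.h ≤ c.r / 10000 ∧
    2 * c.R ≤ c.K * c.r ∧ (c.K : ℝ) ≤ 21 / 10 * (c.R / c.r) ∧ c.u.1 - c.v.1 ≤ c.rho ∧
    c.mg = c.th + 8 * c.rho / c.r := by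
  have hr := H.hr
  have hh := H.hh
  have hR := H.hR
  have h1 : c.u.1 - c.v.1 ≤ c.rho := by
    have := fst_le (c.u - c.v)
    simpa [Cx.rho] using this
  have h0 : 0 < c.rho := lt_of_lt_of_le H.tau0 h1
  have hth : 0 ≤ c.th := by
    unfold Cx.th
    positivity
  have hq : 0 ≤ 8 * c.rho / c.r := by positivity
  have hmg := H.hmg
  have hmg' : c.mg = c.th + 8 * c.rho / c.r := rfl
  have h2 : 8 * c.rho / c.r ≤ 1 / 50 := by linarith
  have h3 : c.rho ≤ c.r / 400 := by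
    rw [div_le_iff₀ hr] at h2
    linarith
  have h4 : c.th ≤ 1 / 50 := by linarith
  have hKr : 2 * c.R / c.r ≤ c.K := by
    rw [H.hK]
    exact Nat.le_ceil _
  have h5 : (c.K : ℝ) * c.h ≤ c.r / 10000 := by
    have h6 : √(c.K * c.h / c.r) ≤ 1 / 100 := by
      unfold Cx.th at h4
      linarith
    have h7 := (Real.sqrt_le_iff.mp h6).2
    rw [div_le_iff₀ hr] at h7
    linarith
  have h8 : 2 * c.R ≤ c.K * c.r := by
    rw [div_le_iff₀ hr] at hKr
    exact hKr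
  have h9 : (c.K : ℝ) ≤ 21 / 10 * (c.R / c.r) := by
    have h10 : (c.K : ℝ) < 2 * c.R / c.r + 1 := by
      rw [H.hK]
      exact Nat.ceil_lt_add_one (div_nonneg (by linarith) hr.le)
    have h11 : 500 ≤ c.R / c.r := by
      rw [le_div_iff₀ hr]
      exact hR
    have h12 : 2 * c.R / c.r = 2 * (c.R / c.r) := by ring
    linarith
  exact ⟨h0, h3, hth, h4, h5, h8, h9, h1, hmg'⟩

theorem mg_pos (hG0 : G0) {c : Cx} {Λ : ℝ} (H : c.Ok Λ) : 0 < c.mg := by
  obtain ⟨h0, -, hth, -, -, -, -, -, hm⟩ := base hG0 H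
  have hr := H.hr
  have : 0 < 8 * c.rho / c.r := by positivity
  linarith

theorem De_pos (hG0 : G0) {c : Cx} {Λ : ℝ} (H : c.Ok Λ) : 0 < c.De := by
  have := mg_pos hG0 H
  unfold Cx.De
  linarith

/-- slopes after a small translation -/
theorem sl_sub {a : E} {p q d : ℝ} (hd : 0 < d) (ha : d ≤ a.1 - p) (hp : 0 < p) (hq : |q| ≤ p)
    (hs : |sl a| ≤ 1) : |sl (a - (p, q)) - sl a| ≤ 2 * p / d := by
  have ha1 : 0 < a.1 := by linarith
  have hb1 : 0 < a.1 - p := by linarith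
  have e1 : sl (a - (p, q)) - sl a = (sl a * p - q) / (a.1 - p) := by
    unfold sl
    simp only [Prod.fst_sub, Prod.snd_sub]
    field_simp
    ring
  rw [e1, abs_div, abs_of_pos hb1]
  have h1 : |sl a * p - q| ≤ 2 * p := by
    have h2 : |sl a * p| ≤ p := by
      rw [abs_mul, abs_of_pos hp]
      nlinarith
    have h3 := abs_sub (sl a * p) q
    linarith
  calc |sl a * p - q| / (a.1 - p) ≤ 2 * p / (a.1 - p) :=
        div_le_div_of_nonneg_right h1 hb1.le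
    _ ≤ 2 * p / d := div_le_div_of_nonneg_left (by linarith) hd ha

theorem sub_v (c : Cx) (y : E) : y - c.u = (y - c.v) - (c.u.1 - c.v.1, c.u.2 - c.v.2) := by
  ext <;> simp

/-- the target square -/
theorem mem_A {c : Cx} {s : E} (h : s ∈ c.A) : c.R ≤ (s - c.u).1 ∧ (s - c.u).1 ≤ 11 / 10 * c.R ∧
    3 / 10 * c.R ≤ (s - c.u).2 ∧ (s - c.u).2 ≤ 4 / 10 * c.R := by
  have h1 : s - c.u ∈ c.A0 := h
  exact ⟨h1.1.1, h1.1.2, h1.2.1, h1.2.2⟩

theorem sl_A {c : Cx} {Λ : ℝ} (H : c.Ok Λ) {s : E} (h : s ∈ c.A) :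
    3 / 11 ≤ sl (s - c.u) ∧ sl (s - c.u) ≤ 2 / 5 := by
  obtain ⟨h1, h2, h3, h4⟩ := mem_A h
  have hr := H.hr
  have hR := H.hR
  have hx : 0 < (s - c.u).1 := by linarith
  unfold sl
  constructor
  · rw [le_div_iff₀ hx]
    linarith
  · rw [div_le_iff₀ hx]
    linarith

theorem nm_A {c : Cx} {Λ : ℝ} (H : c.Ok Λ) {s : E} (h : s ∈ c.A) :
    nm (s - c.u) ≤ 1171 / 1000 * c.R := by
  obtain ⟨h1, h2, h3, h4⟩ := mem_A h
  have hr := H.hr
  have hR := H.hR
  have hR0 : 0 < c.R := by linarith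
  refine nm_le (by linarith) ?_
  have h5 : (s - c.u).1 ^ 2 ≤ (11 / 10 * c.R) ^ 2 := pow_le_pow_left₀ (by linarith) h2 2
  have h6 : (s - c.u).2 ^ 2 ≤ (4 / 10 * c.R) ^ 2 := pow_le_pow_left₀ (by linarith) h4 2
  nlinarith [sq_nonneg c.R]

/-- slopes of the target square seen from both points -/
theorem sl_A' (hG0 : G0) {c : Cx} {Λ : ℝ} (H : c.Ok Λ) {s : E} (h : s ∈ c.A) {z : E}
    (hz : z = c.u ∨ z = c.v) :
    |sl (s - c.u) - sl (s - z)| ≤ 2 * c.rho / c.R ∧ 27 / 100 ≤ sl (s - z) ∧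
      sl (s - z) ≤ 41 / 100 ∧ c.R ≤ (s - z).1 ∧ nm (s - z) ≤ 118 / 100 * c.R := by
  obtain ⟨h0, h3, hth, h4, h5, h8, h9, h1, hm⟩ := base hG0 H
  obtain ⟨a1, a2, a3, a4⟩ := mem_A h
  obtain ⟨b1, b2⟩ := sl_A H h
  have hn := nm_A H h
  have hr := H.hr
  have hR := H.hR
  have hR0 : 0 < c.R := by linarith
  rcases hz with rfl | rfl
  · refine ⟨?_, by linarith, by linarith, a1, by linarith⟩
    simp only [sub_self, abs_zero]
    positivity
  · have ht := H.tau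
    have ht0 := H.tau0
    have e1 : (s - c.v).1 = (s - c.u).1 + (c.u.1 - c.v.1) := by
      simp
    have e2 : (s - c.v).2 = (s - c.u).2 + (c.u.2 - c.v.2) := by
      simp
    obtain ⟨t1, t2⟩ := abs_le.mp ht
    have hx : 0 < (s - c.v).1 := by linarith
    have c1 : 27 / 100 ≤ sl (s - c.v) := by
      unfold sl
      rw [le_div_iff₀ hx]
      unfold sl at b1
      rw [le_div_iff₀ (by linarith)] at b1
      linarith
    have c2 : sl (s - c.v) ≤ 41 / 100 := by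
      unfold sl
      rw [div_le_iff₀ hx]
      unfold sl at b2
      rw [div_le_iff₀ (by linarith)] at b2
      linarith
    refine ⟨?_, c1, c2, by linarith, ?_⟩
    · have := sl_sub (a := s - c.v) (p := c.u.1 - c.v.1) (q := c.u.2 - c.v.2) (d := c.R) hR0
        (by linarith) ht0 ht (abs_le.mpr ⟨by linarith, by linarith⟩)
      rw [← sub_v] at this
      refine le_trans this ?_
      exact div_le_div_of_nonneg_right (by linarith) hR0.le
    · have e3 : s - c.v = (s - c.u) + (c.u - c.v) := by abel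
      have h6 := hG0.1 (s - c.u) (c.u - c.v)
      rw [← e3] at h6
      have h7 : nm (c.u - c.v) = c.rho := rfl
      linarith

/-- slopes of the cone seen from both points -/
theorem cn_sl (hG0 : G0) {c : Cx} {Λ : ℝ} (H : c.Ok Λ) {s : E} (h : s ∈ c.Cn) {z : E}
    (hz : z = c.u ∨ z = c.v) : c.r / 3 ≤ (s - z).1 ∧ 1 / 5 ≤ sl (s - z) ∧ sl (s - z) ≤ 3 / 5 := by
  obtain ⟨h0, h3, hth, h4, h5, h8, h9, h1, hm⟩ := base hG0 H
  obtain ⟨a1, a2, a3, a4⟩ := h
  have hr := H.hr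
  have hR := H.hR
  rcases hz with rfl | rfl
  · exact ⟨a1, by linarith, by linarith⟩
  · have ht := H.tau
    have ht0 := H.tau0
    have e1 : (s - c.v).1 = (s - c.u).1 + (c.u.1 - c.v.1) := by
      simp
    have e2 : (s - c.v).2 = (s - c.u).2 + (c.u.2 - c.v.2) := by
      simp
    obtain ⟨t1, t2⟩ := abs_le.mp ht
    have hx : 0 < (s - c.v).1 := by linarith
    refine ⟨by linarith, ?_, ?_⟩
    · unfold sl
      rw [le_div_iff₀ hx]
      unfold sl at a2
      rw [le_div_iff₀ (by linarith)] at a2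
      linarith
    · unfold sl
      rw [div_le_iff₀ hx]
      unfold sl at a3
      rw [div_le_iff₀ (by linarith)] at a3
      linarith

theorem A_sub_Cn {c : Cx} {Λ : ℝ} (H : c.Ok Λ) : c.A ⊆ c.Cn := by
  intro s h
  obtain ⟨h1, h2, h3, h4⟩ := mem_A h
  obtain ⟨b1, b2⟩ := sl_A H h
  have hn := nm_A H h
  have hr := H.hr
  have hR := H.hR
  exact ⟨by linarith, by linarith, by linarith, by linarith⟩

/-- slope of a narrow point -/
theorem nar_sl (hG0 : G0) {c : Cx} {Λ : ℝ} (H : c.Ok Λ) {s : E} (h : s ∈ c.A) {z : E}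
    (hz : z = c.u ∨ z = c.v) {y : E} (hy : y ∈ Nar c.r c.th z s) :
    1 / 4 ≤ sl (y - z) ∧ sl (y - z) ≤ 43 / 100 ∧ (y - z).1 ≤ 118 / 100 * c.R := by
  obtain ⟨h0, h3, hth, h4, h5, h8, h9, h1, hm⟩ := base hG0 H
  obtain ⟨c0, c1, c2, c3, c4⟩ := sl_A' hG0 H h hz
  obtain ⟨y1, y2, y3⟩ := hy
  obtain ⟨y4, y5⟩ := abs_le.mp y3
  have := fst_le (y - z)
  exact ⟨by linarith, by linarith, by linarith⟩

theorem nar_W (hG0 : G0) {c : Cx} {Λ : ℝ} (H : c.Ok Λ) (j : ℕ) {s : E} (h : s ∈ c.Aj j) {z : E}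
    (hz : z = c.u ∨ z = c.v) : Nar c.r c.th z s ⊆ c.W j := by
  intro y hy
  obtain ⟨h0, h3, hth, h4, h5, h8, h9, h1, hm⟩ := base hG0 H
  obtain ⟨hA, s1, s2⟩ := h
  obtain ⟨c0, c1, c2, c3, c4⟩ := sl_A' hG0 H hA hz
  obtain ⟨d1, d2, d3⟩ := nar_sl hG0 H hA hz hy
  obtain ⟨y1, y2, y3⟩ := hy
  obtain ⟨y4, y5⟩ := abs_le.mp y3
  obtain ⟨c5, c6⟩ := abs_le.mp c0
  have hr := H.hr
  have hR := H.hR
  have hq : 0 ≤ 8 * c.rho / c.r := by positivity
  rcases hz with rfl | rfl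
  · refine ⟨by linarith, ?_, ?_⟩
    · linarith
    · linarith
  · have ht := H.tau
    have ht0 := H.tau0
    have e1 : (y - c.u).1 = (y - c.v).1 - (c.u.1 - c.v.1) := by
      simp
    have k1 := sl_sub (a := y - c.v) (p := c.u.1 - c.v.1) (q := c.u.2 - c.v.2) (d := c.r / 33 * 10)
      (by positivity) (by linarith) ht0 ht (abs_le.mpr ⟨by linarith, by linarith⟩)
    rw [← sub_v] at k1
    obtain ⟨k2, k3⟩ := abs_le.mp k1
    have k4 : 2 * (c.u.1 - c.v.1) / (c.r / 33 * 10) ≤ 7 * c.rho / c.r := by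
      rw [div_le_div_iff₀ (by positivity) hr]
      nlinarith
    have k5 : 2 * c.rho / c.R ≤ c.rho / c.r := by
      rw [div_le_div_iff₀ (by linarith) hr]
      nlinarith
    have k6 : 8 * c.rho / c.r = 7 * c.rho / c.r + c.rho / c.r := by ring
    refine ⟨by linarith, ?_, ?_⟩
    · linarith
    · linarith

theorem nar_A (hG0 : G0) {c : Cx} {Λ : ℝ} (H : c.Ok Λ) {s : E} (h : s ∈ c.A) {z : E}
    (hz : z = c.u ∨ z = c.v) : Nar c.r c.th z s ⊆ tr z c.Co ∧
    s ∈ Nar c.r c.th z s ∧ nm (s - z) ≤ c.K * (c.r - c.h) := by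
  obtain ⟨h0, h3, hth, h4, h5, h8, h9, h1, hm⟩ := base hG0 H
  obtain ⟨c0, c1, c2, c3, c4⟩ := sl_A' hG0 H h hz
  have hr := H.hr
  have hR := H.hR
  refine ⟨?_, ⟨by linarith, le_refl _, by simpa using hth⟩, by nlinarith⟩
  intro y hy
  obtain ⟨d1, d2, d3⟩ := nar_sl hG0 H h hz hy
  obtain ⟨y1, y2, y3⟩ := hy
  have hx : 0 < (y - z).1 := by linarith
  unfold sl at d1 d2
  rw [le_div_iff₀ hx] at d1
  rw [div_le_iff₀ hx] at d2
  exact ⟨hx, by linarith, by linarith, by linarith⟩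

theorem nar_Cn (hG0 : G0) {c : Cx} {Λ : ℝ} (H : c.Ok Λ) {s : E} (h : s ∈ c.A) :
    Nar c.r c.th c.u s ⊆ c.Cn := by
  intro y hy
  obtain ⟨d1, d2, d3⟩ := nar_sl hG0 H h (Or.inl rfl) hy
  have hn := nm_A H h
  have hr := H.hr
  have hR := H.hR
  obtain ⟨y1, y2, y3⟩ := hy
  exact ⟨y1, d1, by linarith, by linarith⟩

theorem co_sq (hG0 : G0) {c : Cx} {Λ : ℝ} (H : c.Ok Λ) {z : E} (hz : z = c.u ∨ z = c.v) :
    tr z c.Co ⊆ Sq Λ := by
  intro x hx
  obtain ⟨x1, x2, x3, x4⟩ := hx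
  have e1 : (x - z).1 = x.1 - z.1 := rfl
  have e2 : (x - z).2 = x.2 - z.2 := rfl
  have hr := H.hr
  have hR := H.hR
  have := H.u1
  have := H.u2
  have := H.v1
  have := H.v2
  have := H.u1'
  have := H.u2'
  have := H.v2'
  have := H.tau0
  rcases hz with rfl | rfl
  · exact ⟨⟨by linarith, by linarith⟩, ⟨by linarith, by linarith⟩⟩
  · exact ⟨⟨by linarith, by linarith⟩, ⟨by linarith, by linarith⟩⟩

theorem cn_sq {c : Cx} {Λ : ℝ} (H : c.Ok Λ) : c.Cn ⊆ Sq Λ := by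
  intro x hx
  obtain ⟨x1, x2, x3, x4⟩ := hx
  have e1 : (x - c.u).1 = x.1 - c.u.1 := rfl
  have e2 : (x - c.u).2 = x.2 - c.u.2 := rfl
  have hr := H.hr
  have hR := H.hR
  have := H.u1
  have := H.u2
  have := H.u1'
  have := H.u2'
  have hf := fst_le (x - c.u)
  have hx : 0 < (x - c.u).1 := by linarith
  unfold sl at x2 x3
  rw [le_div_iff₀ hx] at x2
  rw [div_le_iff₀ hx] at x3
  exact ⟨⟨by linarith, by linarith⟩, ⟨by linarith, by linarith⟩⟩

theorem A0_sub {c : Cx} {Λ : ℝ} (H : c.Ok Λ) : c.A0 ⊆ c.Co := by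
  rintro x ⟨⟨x1, x2⟩, ⟨x3, x4⟩⟩
  have hr := H.hr
  have hR := H.hR
  exact ⟨by linarith, by linarith, by linarith, by linarith⟩

theorem A0_sub' (hG0 : G0) {c : Cx} {Λ : ℝ} (H : c.Ok Λ) :
    {x | x - (c.u - c.v) ∈ c.A0} ⊆ c.Co := by
  rintro x ⟨⟨x1, x2⟩, ⟨x3, x4⟩⟩
  obtain ⟨h0, h3, hth, h4, h5, h8, h9, h1, hm⟩ := base hG0 H
  have e1 : (x - (c.u - c.v)).1 = x.1 - (c.u.1 - c.v.1) := rfl
  have e2 : (x - (c.u - c.v)).2 = x.2 - (c.u.2 - c.v.2) := rfl
  rw [e1] at x1 x2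
  rw [e2] at x3 x4
  have hr := H.hr
  have hR := H.hR
  have ht0 := H.tau0
  obtain ⟨t1, t2⟩ := abs_le.mp H.tau
  exact ⟨by linarith, by linarith, by linarith, by linarith⟩

theorem exists_j (hG0 : G0) {c : Cx} {Λ : ℝ} (H : c.Ok Λ) {s : E} (h : s ∈ c.A) :
    ∃ j < c.J, s ∈ c.Aj j := by
  obtain ⟨b1, b2⟩ := sl_A H h
  have hD := De_pos hG0 H
  set t := (sl (s - c.u) - 1 / 4) / c.De with ht
  have ht0 : 0 ≤ t := div_nonneg (by linarith) hD.le
  have hts : t * c.De = sl (s - c.u) - 1 / 4 := by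
    rw [ht]
    field_simp
  refine ⟨⌊t⌋₊, ?_, h, ?_, ?_⟩
  · have h1 : ((⌊t⌋₊ : ℕ) : ℝ) ≤ t := Nat.floor_le ht0
    have h2 : t < 1 / c.De := by
      rw [ht]
      exact div_lt_div_of_pos_right (by linarith) hD
    have h3 : 1 / c.De ≤ (c.J : ℝ) := Nat.le_ceil _
    exact_mod_cast lt_of_le_of_lt h1 (lt_of_lt_of_le h2 h3)
  · have h1 : ((⌊t⌋₊ : ℕ) : ℝ) ≤ t := Nat.floor_le ht0
    nlinarith
  · have h1 : t < ((⌊t⌋₊ : ℕ) : ℝ) + 1 := Nat.lt_floor_add_one t
    nlinarith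

theorem aj_disj (hG0 : G0) {c : Cx} {Λ : ℝ} (H : c.Ok Λ) {i j : ℕ} (hij : i < j) :
    Disjoint (c.Aj i) (c.Aj j) := by
  rw [Set.disjoint_left]
  rintro s ⟨-, -, h1⟩ ⟨-, h2, -⟩
  have hD := De_pos hG0 H
  have h3 : (i : ℝ) + 1 ≤ j := by exact_mod_cast hij
  nlinarith

theorem w_disj (hG0 : G0) {c : Cx} {Λ : ℝ} (H : c.Ok Λ) {i j : ℕ} (hij : i + 2 ≤ j) :
    Disjoint (c.W i) (c.W j) := by
  rw [Set.disjoint_left]
  rintro s ⟨-, -, h1⟩ ⟨-, h2, -⟩
  have hD := De_pos hG0 H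
  have hm := mg_pos hG0 H
  have h3 : (i : ℝ) + 2 ≤ j := by exact_mod_cast hij
  have h4 : c.De = 3 * c.mg := rfl
  nlinarith

theorem aj_w (hG0 : G0) {c : Cx} {Λ : ℝ} (H : c.Ok Λ) (j : ℕ) : c.Aj j ⊆ c.W j := by
  rintro s ⟨h, h1, h2⟩
  obtain ⟨a1, a2, a3, a4⟩ := mem_A h
  have hm := mg_pos hG0 H
  have hr := H.hr
  have hR := H.hR
  exact ⟨by linarith, by linarith, by linarith⟩

theorem meas_nm : Measurable nm := by
  unfold nm
  fun_prop

theorem meas_sl : Measurable sl := by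
  unfold sl
  fun_prop

theorem meas_tr (z : E) {B : Set E} (hB : MeasurableSet B) : MeasurableSet (tr z B) := by
  have : Measurable fun x : E => x - z := measurable_id.sub_const z
  exact this hB

theorem meas_A0 (c : Cx) : MeasurableSet c.A0 := measurableSet_Icc.prod measurableSet_Icc

theorem meas_A (c : Cx) : MeasurableSet c.A := meas_tr _ (meas_A0 c)

theorem meas_sub (z : E) : Measurable fun x : E => x - z := measurable_id.sub_const z

theorem meas_fst (z : E) : Measurable fun x : E => (x - z).1 := measurable_fst.comp (meas_sub z)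

theorem meas_sl' (z : E) : Measurable fun x : E => sl (x - z) := meas_sl.comp (meas_sub z)

theorem meas_nm' (z : E) : Measurable fun x : E => nm (x - z) := meas_nm.comp (meas_sub z)

theorem meas_Cn (c : Cx) : MeasurableSet c.Cn := by
  unfold Cx.Cn
  exact ((measurableSet_le measurable_const (meas_fst c.u)).inter
    ((measurableSet_le measurable_const (meas_sl' c.u)).inter
      ((measurableSet_le (meas_sl' c.u) measurable_const).inter
        (measurableSet_le (meas_nm' c.u) measurable_const))))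

theorem meas_Co (c : Cx) : MeasurableSet c.Co := by
  unfold Cx.Co
  exact ((measurableSet_lt measurable_const measurable_fst).inter
    ((measurableSet_le measurable_fst measurable_const).inter
      ((measurableSet_le (measurable_fst.div_const 4) measurable_snd).inter
        (measurableSet_le measurable_snd (measurable_fst.div_const 2)))))

theorem meas_W (c : Cx) (j : ℕ) : MeasurableSet (c.W j) := by
  unfold Cx.W
  exact ((measurableSet_lt measurable_const (meas_fst c.u)).inter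
    ((measurableSet_le measurable_const (meas_sl' c.u)).inter
      (measurableSet_lt (meas_sl' c.u) measurable_const)))

theorem meas_Aj (c : Cx) (j : ℕ) : MeasurableSet (c.Aj j) := by
  unfold Cx.Aj
  exact (meas_A c).inter ((measurableSet_le measurable_const (meas_sl' c.u)).inter
      (measurableSet_lt (meas_sl' c.u) measurable_const))

theorem meas_Fr (c : Cx) : MeasurableSet c.Fr := by
  have e : c.Fr = c.A ∩ ⋃ k : ℕ, ⋃ _ : k < c.K,
      ({s | (k + 1) * (c.r - c.h) - c.rho < nm (s - c.u)} ∩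
        {s | nm (s - c.u) ≤ (k + 1) * c.r}) := by
    ext s
    simp only [Cx.Fr, Set.mem_ofPred_eq, Set.mem_inter_iff, Set.mem_iUnion, exists_prop]
  rw [e]
  refine (meas_A c).inter (MeasurableSet.iUnion fun k => MeasurableSet.iUnion fun _ => ?_)
  exact (measurableSet_lt measurable_const (meas_nm' c.u)).inter
    (measurableSet_le (meas_nm' c.u) measurable_const)

theorem meas_Lu (c : Cx) : MeasurableSet c.Lu := by
  unfold Cx.Lu
  exact (measurableSet_le (meas_nm' c.u) measurable_const).inter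
    (measurableSet_lt measurable_const (meas_nm' c.v))

end G4x

open G4x in
theorem pf_G4 (hG0 : G0) : G4 := by
  intro c Λ H
  obtain ⟨h0, h3, hth, h4, h5, h8, h9, h1, hm⟩ := base hG0 H
  refine ⟨A_sub_Cn H, fun s hs z hz => cn_sl hG0 H hs hz, fun j s hs z hz => nar_W hG0 H j hs hz,
    fun s hs z hz => nar_A hG0 H hs hz, fun s hs => nar_Cn hG0 H hs,
    fun z hz => ⟨co_sq hG0 H hz, meas_tr z (meas_Co c)⟩, fun s hs => exists_j hG0 H hs, ?_,
    fun i j hij => w_disj hG0 H hij, fun j => ⟨aj_w hG0 H j, meas_Aj c j, meas_W c j⟩,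
    meas_A c, meas_Cn c, meas_Co c, meas_Fr c, meas_Lu c, cn_sq H, A0_sub H, A0_sub' hG0 H,
    h0, h3, h5, h9⟩
  intro i j hij
  rcases Nat.lt_or_gt_of_ne hij with h | h
  · exact aj_disj hG0 H h
  · exact (aj_disj hG0 H h).symm

end

end Pool.Agent.Helper59.RG
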