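import Pool.Agent.Helper59.RG.St

/-!
# Project RG, piece G6: gain by a translation of the target square
-/

set_option autoImplicit false

namespace Pool.Agent.Helper59.RG

open MeasureTheory Set
open scoped ENNReal

noncomputable section

namespace G6x

theorem nm_cont (u : E) : Continuous fun x : E => nm (x - u) := by
  unfold nm
  fun_prop

/-- the key pointwise inequality -/
theorem point (hG0 : G0) {R : ℝ} (hR : 0 < R) {y t : E} (h1 : R ≤ y.1) (h2 : 3 / 10 * R ≤ y.2)
    (h3 : y.2 ≤ 4 / 10 * R) (ht : |t.2| ≤ t.1) :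
    nm y + 39 / 100 * nm t ≤ nm (y + t) := by
  obtain ⟨-, -, hsq, -, hcs⟩ := hG0
  obtain ⟨-, -, hy0, hy2⟩ := hsq y
  obtain ⟨-, -, ht0, ht2⟩ := hsq t
  obtain ⟨ha1, ha2⟩ := abs_le.1 ht
  have hypos : 0 < nm y := by
    rcases hy0.lt_or_eq with h | h
    · exact h
    · rw [← h] at hy2
      nlinarith
  have ht1 : 0 ≤ t.1 := by linarith [abs_nonneg t.2]
  have e1 : nm t ^ 2 ≤ 2 * t.1 ^ 2 := by
    rw [ht2]
    nlinarith
  have e2 : 3042 / 10000 * nm y ^ 2 ≤ (y.1 - y.2) ^ 2 := by
    rw [hy2]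
    nlinarith [mul_nonneg (show 0 ≤ y.1 - R by linarith) (show 0 ≤ y.1 - R by linarith),
      mul_nonneg (show 0 ≤ 4 / 10 * R - y.2 by linarith) (show 0 ≤ y.1 - R by linarith),
      mul_nonneg (show 0 ≤ 4 / 10 * R - y.2 by linarith) hR.le,
      mul_nonneg (show 0 ≤ y.1 - R by linarith) hR.le,
      mul_nonneg (show 0 ≤ 4 / 10 * R - y.2 by linarith) (show 0 ≤ 4 / 10 * R - y.2 by linarith)]
  have e3 : (39 / 100 * nm t * nm y) ^ 2 ≤ (t.1 * (y.1 - y.2)) ^ 2 := by
    have h4 : nm t ^ 2 * nm y ^ 2 ≤ 2 * t.1 ^ 2 * nm y ^ 2 :=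
      mul_le_mul_of_nonneg_right e1 (sq_nonneg _)
    have h5 : t.1 ^ 2 * (3042 / 10000 * nm y ^ 2) ≤ t.1 ^ 2 * (y.1 - y.2) ^ 2 :=
      mul_le_mul_of_nonneg_left e2 (sq_nonneg _)
    nlinarith
  have e4 : 39 / 100 * nm t * nm y ≤ t.1 * (y.1 - y.2) :=
    le_of_sq_le_sq e3 (mul_nonneg ht1 (by linarith))
  have e5 : t.1 * (y.1 - y.2) ≤ t.1 * y.1 + t.2 * y.2 := by nlinarith
  have e6 := hcs (y + t) y
  have e7 : (y + t).1 * y.1 + (y + t).2 * y.2 = nm y ^ 2 + (t.1 * y.1 + t.2 * y.2) := by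
    rw [hy2]
    simp only [Prod.fst_add, Prod.snd_add]
    ring
  rw [e7] at e6
  have e8 : (nm y + 39 / 100 * nm t) * nm y ≤ nm (y + t) * nm y := by nlinarith
  exact le_of_mul_le_mul_right e8 hypos

/-- area of a rectangle -/
theorem area {a b a' b' : ℝ} (h : a ≤ b) (h' : a' ≤ b') :
    volume.real (Icc a b ×ˢ Icc a' b' : Set E) = (b - a) * (b' - a') := by
  rw [Measure.volume_eq_prod, measureReal_prod_prod, Real.volume_real_Icc_of_le h,
    Real.volume_real_Icc_of_le h']

end G6x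

theorem pf_G6 (hG0 : G0) : G6 := by
  intro c Λ hc
  have hr := hc.hr
  have hh := hc.hh
  have hR := hc.hR
  have ht0 := hc.tau0
  have hta := hc.tau
  have hRpos : 0 < c.R := by linarith
  obtain ⟨-, -, hsq, -, -⟩ := id hG0
  set t : E := c.u - c.v with ht
  have htt1 : t.1 = c.u.1 - c.v.1 := rfl
  have htt2 : t.2 = c.u.2 - c.v.2 := rfl
  have hrho : c.rho = nm t := rfl
  obtain ⟨ht1, ht2, htn, -⟩ := hsq t
  have htabs : |t.2| ≤ t.1 := by rw [htt1, htt2]; exact hta
  have ht1pos : 0 < t.1 := by rw [htt1]; exact ht0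
  rw [abs_of_pos ht1pos] at ht1
  -- the number of steps
  have hK : 2 * c.R / c.r ≤ c.K := by
    rw [hc.hK]
    exact Nat.le_ceil _
  have hK' : (1000 : ℝ) ≤ c.K := by
    refine le_trans ?_ hK
    rw [le_div_iff₀ hr]
    linarith
  have hrho0 : 0 ≤ c.rho := by rw [hrho]; exact htn
  have hmg : c.th + 8 * c.rho / c.r ≤ 1 / 50 := hc.hmg
  have h8 : 0 ≤ 8 * c.rho / c.r := by positivity
  have hs : √(c.K * c.h / c.r) ≤ 1 / 100 := by
    have : c.th = 2 * √(c.K * c.h / c.r) := rfl
    linarith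
  have hth : c.th = 2 * √(c.K * c.h / c.r) := rfl
  have hs0 : 0 ≤ √(c.K * c.h / c.r) := Real.sqrt_nonneg _
  have hKh : c.K * c.h / c.r ≤ 1 / 10000 := by
    have h1 : 0 ≤ c.K * c.h / c.r := by positivity
    have h2 := Real.sq_sqrt h1
    nlinarith
  have hhr : c.h ≤ c.r / 10000000 := by
    rw [div_le_iff₀ hr] at hKh
    nlinarith
  have hrho' : c.rho ≤ c.r / 400 := by
    have h1 : 8 * c.rho / c.r ≤ 1 / 50 := by
      have : 0 ≤ c.th := by rw [hth]; positivity
      linarith
    rw [div_le_iff₀ hr] at h1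
    linarith
  -- the sets
  set A : Set E := c.A with hA
  set B : Set E := tr t c.A with hB
  have hAe : A = Icc (c.u.1 + c.R) (c.u.1 + 11 / 10 * c.R) ×ˢ
      Icc (c.u.2 + 3 / 10 * c.R) (c.u.2 + 4 / 10 * c.R) := by
    ext x
    simp only [hA, Cx.A, tr, Cx.A0, mem_ofPred_eq, mem_prod, mem_Icc, Prod.fst_sub, Prod.snd_sub]
    constructor
    · rintro ⟨⟨h1, h2⟩, h3, h4⟩
      exact ⟨⟨by linarith, by linarith⟩, by linarith, by linarith⟩
    · rintro ⟨⟨h1, h2⟩, h3, h4⟩
      exact ⟨⟨by linarith, by linarith⟩, by linarith, by linarith⟩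
  have hBe : B = Icc (c.u.1 + c.R + t.1) (c.u.1 + 11 / 10 * c.R + t.1) ×ˢ
      Icc (c.u.2 + 3 / 10 * c.R + t.2) (c.u.2 + 4 / 10 * c.R + t.2) := by
    ext x
    have : x ∈ B ↔ x - t ∈ A := Iff.rfl
    rw [this, hAe]
    simp only [mem_prod, mem_Icc, Prod.fst_sub, Prod.snd_sub]
    constructor
    · rintro ⟨⟨h1, h2⟩, h3, h4⟩
      exact ⟨⟨by linarith, by linarith⟩, by linarith, by linarith⟩
    · rintro ⟨⟨h1, h2⟩, h3, h4⟩
      exact ⟨⟨by linarith, by linarith⟩, by linarith, by linarith⟩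
  have hAc : IsCompact A := by rw [hAe]; exact isCompact_Icc.prod isCompact_Icc
  have hBc : IsCompact B := by rw [hBe]; exact isCompact_Icc.prod isCompact_Icc
  have hAm : MeasurableSet A := hAc.measurableSet
  have hBm : MeasurableSet B := hBc.measurableSet
  have hAt : volume A ≠ ⊤ := hAc.measure_lt_top.ne
  have hBt : volume B ≠ ⊤ := hBc.measure_lt_top.ne
  have hvA : volume.real A = 1 / 100 * c.R ^ 2 := by
    rw [hAe, G6x.area (by linarith) (by linarith)]
    ring
  have hvB : volume.real B = 1 / 100 * c.R ^ 2 := by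
    rw [hBe, G6x.area (by linarith) (by linarith)]
    ring
  have hcap : (1 / 10 * c.R - t.1) * (1 / 10 * c.R - |t.2|) ≤ volume.real (A ∩ B) := by
    have h1 : Icc (c.u.1 + c.R + t.1) (c.u.1 + 11 / 10 * c.R) ×ˢ
        Icc (c.u.2 + 3 / 10 * c.R + max t.2 0) (c.u.2 + 4 / 10 * c.R + min t.2 0) ⊆ A ∩ B := by
      rw [hAe, hBe]
      rintro x ⟨⟨h1, h2⟩, h3, h4⟩
      have h5 := le_max_left t.2 0
      have h6 := le_max_right t.2 0
      have h7 := min_le_left t.2 0
      have h8 := min_le_right t.2 0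
      exact ⟨⟨⟨by linarith, by linarith⟩, by linarith, by linarith⟩,
        ⟨by linarith, by linarith⟩, by linarith, by linarith⟩
    have h2 := measureReal_mono h1 (ne_top_of_le_ne_top hAt (measure_mono inter_subset_left))
    have h3 : max t.2 0 - min t.2 0 = |t.2| := by
      rw [max_sub_min_eq_abs, zero_sub, abs_neg]
    have h4 : |t.2| ≤ 1 / 10 * c.R := by linarith
    have h5 : t.1 ≤ 1 / 10 * c.R := by rw [hrho] at hrho'; linarith
    rw [G6x.area (by linarith) (by linarith)] at h2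
    refine le_trans (le_of_eq ?_) h2
    rw [← h3]
    ring
  have hdA := measureReal_inter_add_sdiff (μ := volume) (s := A) hBm hAt
  have hdB := measureReal_inter_add_sdiff (μ := volume) (s := B) hAm hBt
  rw [inter_comm B A] at hdB
  set a := volume.real (A \ B) with ha
  have hab : volume.real (B \ A) = a := by linarith
  have ha0 : 0 ≤ a := measureReal_nonneg
  have haU : a ≤ 1 / 5 * c.R * c.rho := by
    have h1 : a ≤ 1 / 10 * c.R * (t.1 + |t.2|) := by
      have h2 : 0 ≤ t.1 * |t.2| := by positivity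
      nlinarith
    have h2 : t.1 + |t.2| ≤ 2 * c.rho := by rw [hrho]; linarith
    nlinarith
  -- the function
  set g : E → ℝ := fun x => nm (x - c.u) with hg
  have hgc : Continuous g := G6x.nm_cont c.u
  have hgA : IntegrableOn g A := hgc.continuousOn.integrableOn_compact hAc
  have hgB : IntegrableOn g B := hgc.continuousOn.integrableOn_compact hBc
  have hIA := integral_inter_add_sdiff hBm hgA
  have hIB := integral_inter_add_sdiff hAm hgB
  rw [inter_comm B A] at hIB
  have hmp : MeasurePreserving (fun x : E => x - t) volume volume :=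
    measurePreserving_sub_right volume t
  have hshift : ∫ x in B, g x = ∫ x in A, g (x + t) := by
    have h1 := hmp.setIntegral_preimage_emb (MeasurableEquiv.subRight t).measurableEmbedding
      (fun y => g (y + t)) A
    have h2 : (fun x : E => x - t) ⁻¹' A = B := rfl
    rw [h2] at h1
    rw [← h1]
    simp
  have hgA' : IntegrableOn (fun x => g (x + t)) A :=
    (hgc.comp (continuous_id.add continuous_const)).continuousOn.integrableOn_compact hAc
  have hgain : 39 / 100 * c.rho * (1 / 100 * c.R ^ 2) ≤ (∫ x in B, g x) - ∫ x in A, g x := by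
    rw [hshift, ← integral_sub hgA' hgA]
    have h1 : ∫ x in A, (39 / 100 * c.rho) = 39 / 100 * c.rho * (1 / 100 * c.R ^ 2) := by
      rw [setIntegral_const, hvA, smul_eq_mul, mul_comm]
    rw [← h1]
    refine setIntegral_mono_on (integrableOn_const hAt) (hgA'.sub hgA) hAm ?_
    intro x hx
    rw [hAe] at hx
    obtain ⟨⟨h2, h3⟩, h4, h5⟩ := hx
    have h6 := G6x.point hG0 hRpos (y := x - c.u) (t := t)
      (by simp only [Prod.fst_sub]; linarith) (by simp only [Prod.snd_sub]; linarith)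
      (by simp only [Prod.snd_sub]; linarith) htabs
    have h7 : g (x + t) = nm (x - c.u + t) := by
      rw [hg]
      change nm (x + t - c.u) = _
      congr 1
      abel
    rw [hrho]
    change _ ≤ g (x + t) - nm (x - c.u)
    rw [h7]
    linarith
  -- upper bound for the integral over the difference
  have hS0 : ∫ x in A \ B, g x ≤ 3 / 2 * c.R * a := by
    have h1 : ∫ x in A \ B, (3 / 2 * c.R) = 3 / 2 * c.R * a := by
      rw [setIntegral_const, smul_eq_mul, mul_comm]
    rw [← h1]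
    have hAB : volume (A \ B) ≠ ⊤ := ne_top_of_le_ne_top hAt (measure_mono sdiff_subset)
    refine setIntegral_mono_on (hgA.mono_set sdiff_subset) (integrableOn_const hAB)
      (hAm.diff hBm) ?_
    rintro x ⟨hx, -⟩
    rw [hAe] at hx
    obtain ⟨⟨h2, h3⟩, h4, h5⟩ := hx
    obtain ⟨-, -, h6, h7⟩ := hsq (x - c.u)
    change nm (x - c.u) ≤ _
    simp only [Prod.fst_sub, Prod.snd_sub] at h7
    have h8 : (x.1 - c.u.1) ^ 2 ≤ (11 / 10 * c.R) ^ 2 :=
      pow_le_pow_left₀ (by linarith) (by linarith) 2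
    have h9 : (x.2 - c.u.2) ^ 2 ≤ (4 / 10 * c.R) ^ 2 :=
      pow_le_pow_left₀ (by linarith) (by linarith) 2
    nlinarith
  have hrh : 0 < c.r - c.h := by linarith
  have e1 : ∫ x in A \ B, ((c.K : ℝ) - nm (x - c.u) / (c.r - c.h)) =
      c.K * a - (∫ x in A \ B, g x) / (c.r - c.h) := by
    have hAB : volume (A \ B) ≠ ⊤ := ne_top_of_le_ne_top hAt (measure_mono sdiff_subset)
    have h1 : IntegrableOn (fun x => g x / (c.r - c.h)) (A \ B) :=
      (hgA.mono_set sdiff_subset).div_const _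
    have h2 : IntegrableOn (fun _ : E => (c.K : ℝ)) (A \ B) := integrableOn_const hAB
    have h3 := integral_sub h2 h1
    rw [setIntegral_const, smul_eq_mul, integral_div] at h3
    rw [mul_comm (c.K : ℝ) a]
    exact h3
  have e2 : ∫ x in B \ A, ((c.K : ℝ) + 1 - nm (x - c.u) / c.r) =
      (c.K + 1) * a - (∫ x in B \ A, g x) / c.r := by
    have hAB : volume (B \ A) ≠ ⊤ := ne_top_of_le_ne_top hBt (measure_mono sdiff_subset)
    have h1 : IntegrableOn (fun x => g x / c.r) (B \ A) :=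
      (hgB.mono_set sdiff_subset).div_const _
    have h2 : IntegrableOn (fun _ : E => (c.K : ℝ) + 1) (B \ A) := integrableOn_const hAB
    have h3 := integral_sub h2 h1
    rw [setIntegral_const, smul_eq_mul, integral_div, hab] at h3
    rw [mul_comm ((c.K : ℝ) + 1) a]
    exact h3
  rw [e1, e2]
  set SA := ∫ x in A \ B, g x
  set SB := ∫ x in B \ A, g x
  have hgain' : 39 / 10000 * c.rho * c.R ^ 2 ≤ SB - SA := by
    have h1 : SB - SA = (∫ x in B, g x) - ∫ x in A, g x := by
      rw [← hIA, ← hIB]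
      ring
    rw [h1]
    refine le_trans (le_of_eq ?_) hgain
    ring
  have hlast : SA / (c.r - c.h) ≤ SA / c.r + 1 / 100000 * (c.rho * c.R ^ 2 / c.r) := by
    have h0 : SA / (c.r - c.h) - SA / c.r = SA * (c.h / (c.r * (c.r - c.h))) := by
      field_simp
      ring
    have h1 : SA ≤ 3 / 10 * c.R ^ 2 * c.rho := by
      refine le_trans hS0 (le_trans (mul_le_mul_of_nonneg_left haU (by positivity)) (le_of_eq ?_))
      ring
    have h2 : 0 ≤ c.h / (c.r * (c.r - c.h)) := by positivity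
    have h3 : c.h / (c.r * (c.r - c.h)) ≤ 1 / 1000000 / c.r := by
      rw [div_le_div_iff₀ (by positivity) hr]
      nlinarith [mul_pos hr hrh]
    have h4 : SA * (c.h / (c.r * (c.r - c.h))) ≤ 3 / 10 * c.R ^ 2 * c.rho * (1 / 1000000 / c.r) := by
      refine le_trans (mul_le_mul_of_nonneg_right h1 h2) ?_
      exact mul_le_mul_of_nonneg_left h3 (by positivity)
    have h5 : 3 / 10 * c.R ^ 2 * c.rho * (1 / 1000000 / c.r) =
        3 / 10000000 * (c.rho * c.R ^ 2 / c.r) := by ring
    have h6 : 0 ≤ c.rho * c.R ^ 2 / c.r := by positivity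
    linarith
  have hfin : 39 / 10000 * (c.rho * c.R ^ 2 / c.r) ≤ SB / c.r - SA / c.r := by
    rw [← sub_div]
    have h1 := div_le_div_of_nonneg_right hgain' hr.le
    refine le_trans (le_of_eq ?_) h1
    ring
  have harea : a ≤ 4 / 10000 * (c.rho * c.R ^ 2 / c.r) := by
    refine le_trans haU ?_
    rw [← mul_div_assoc, le_div_iff₀ hr]
    nlinarith [mul_nonneg (mul_nonneg hRpos.le hrho0) (show 0 ≤ c.R - 500 * c.r by linarith)]
  have hX : 0 ≤ c.rho * c.R ^ 2 / c.r := by positivity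
  linarith

end

end Pool.Agent.Helper59.RG
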