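import Pool.Agent.Helper59.RG.St

/-!
# Project RG, piece G7: chaining.
-/

set_option autoImplicit false

namespace Pool.Agent.Helper59.RG

open MeasureTheory Set

noncomputable section

namespace G7x

/-- the vertices of a path -/
theorem path (r : ℝ) (z : E) (W : Set E) (C : Multiset E) : ∀ (k : ℕ) (s : E), Rch r z W C k s →
    ∃ y : ℕ → E, y 0 = z ∧ y (k + 1) = s ∧ (∀ i, i ≤ k → nm (y (i + 1) - y i) ≤ r) ∧
      ∀ i, 1 ≤ i → i ≤ k → y i ∈ C ∧ y i ∈ W := by
  intro k
  induction k with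
  | zero =>
    intro s hs
    refine ⟨fun i => if i = 0 then z else s, by simp, by simp, ?_, ?_⟩
    · intro i hi
      obtain rfl : i = 0 := by omega
      simpa [Rch] using hs
    · intro i h1 h2; omega
  | succ k ih =>
    intro s hs
    obtain ⟨w, hwC, hwW, hw, hsw⟩ := hs
    obtain ⟨y, y0, yk, hst, hin⟩ := ih w hw
    refine ⟨fun i => if i ≤ k + 1 then y i else s, by simp [y0], by simp, ?_, ?_⟩
    · intro i hi
      by_cases h : i ≤ k
      · have h1 : i + 1 ≤ k + 1 := by omega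
        have h2 : i ≤ k + 1 := by omega
        simp only [h1, h2, if_true]
        exact hst i h
      · obtain rfl : i = k + 1 := by omega
        have h1 : ¬ (k + 1 + 1 ≤ k + 1) := by omega
        simp only [h1, if_false, le_refl, if_true, yk]
        exact hsw
    · intro i h1 h2
      have h3 : i ≤ k + 1 := h2
      simp only [h3, if_true]
      by_cases h : i ≤ k
      · exact hin i h1 h
      · obtain rfl : i = k + 1 := by omega
        rw [yk]; exact ⟨hwC, hwW⟩

/-- the angle between two vectors -/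
theorem angle (hG0 : G0) (p q : E) (ε : ℝ) (hε : 0 ≤ ε) (p1 : 0 < p.1) (q1 : 0 < q.1)
    (p2 : |sl p| ≤ 1 / 2) (q2 : |sl q| ≤ 1 / 2) (h : nm p + nm (q - p) ≤ nm q + ε)
    (h2 : ε ≤ 2 * nm p) : (sl p - sl q) ^ 2 * nm p ≤ 25 / 8 * ε := by
  obtain ⟨-, -, hn, -, hcs⟩ := hG0
  obtain ⟨ha1, -, ha0, ha⟩ := hn p
  obtain ⟨hD1, -, hD0, hD⟩ := hn q
  obtain ⟨-, -, hb0, hb⟩ := hn (q - p)
  have hS := hcs p q
  have hapos : 0 < nm p := lt_of_lt_of_le p1 (le_trans (le_abs_self _) ha1)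
  have hDpos : 0 < nm q := lt_of_lt_of_le q1 (le_trans (le_abs_self _) hD1)
  have ep : p.2 = sl p * p.1 := by unfold sl; field_simp
  have eq' : q.2 = sl q * q.1 := by unfold sl; field_simp
  have hb' : nm (q - p) ^ 2 = (q.1 - p.1) ^ 2 + (q.2 - p.2) ^ 2 := by
    rw [hb]; simp
  set a := nm p with hadef
  set D := nm q with hDdef
  set b := nm (q - p) with hbdef
  set x := sl p with hx
  set y := sl q with hy
  have hbb : b ^ 2 ≤ (D - a + ε) ^ 2 := by
    apply pow_le_pow_left₀ hb0; linarith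
  have k1 : a * D - (p.1 * q.1 + p.2 * q.2) ≤ ε * D := by
    have : a ^ 2 + D ^ 2 - 2 * (p.1 * q.1 + p.2 * q.2) = b ^ 2 := by
      rw [ha, hD, hb']; ring
    nlinarith
  have k2 : (x - y) ^ 2 * (p.1 ^ 2 * q.1 ^ 2) ≤ 2 * ε * a * D ^ 2 := by
    have e1 : (x - y) ^ 2 * (p.1 ^ 2 * q.1 ^ 2)
        = (a * D - (p.1 * q.1 + p.2 * q.2)) * (a * D + (p.1 * q.1 + p.2 * q.2)) := by
      have : (a * D - (p.1 * q.1 + p.2 * q.2)) * (a * D + (p.1 * q.1 + p.2 * q.2))
          = a ^ 2 * D ^ 2 - (p.1 * q.1 + p.2 * q.2) ^ 2 := by ring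
      rw [this, ha, hD, ep, eq']; ring
    rw [e1]
    calc (a * D - (p.1 * q.1 + p.2 * q.2)) * (a * D + (p.1 * q.1 + p.2 * q.2))
        ≤ (a * D - (p.1 * q.1 + p.2 * q.2)) * (2 * (a * D)) := by
          apply mul_le_mul_of_nonneg_left <;> linarith
      _ ≤ (ε * D) * (2 * (a * D)) := by
          apply mul_le_mul_of_nonneg_right k1; positivity
      _ = 2 * ε * a * D ^ 2 := by ring
  have k3 : 4 / 5 * a ^ 2 ≤ p.1 ^ 2 := by
    have : x ^ 2 ≤ 1 / 4 := by
      have := abs_le.mp p2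
      nlinarith
    rw [ha, ep]
    nlinarith [sq_nonneg p.1]
  have k4 : 4 / 5 * D ^ 2 ≤ q.1 ^ 2 := by
    have : y ^ 2 ≤ 1 / 4 := by
      have := abs_le.mp q2
      nlinarith
    rw [hD, eq']
    nlinarith [sq_nonneg q.1]
  have k5 : (4 / 5 * a ^ 2) * (4 / 5 * D ^ 2) ≤ p.1 ^ 2 * q.1 ^ 2 :=
    mul_le_mul k3 k4 (by positivity) (by positivity)
  have k6 : (x - y) ^ 2 * ((4 / 5 * a ^ 2) * (4 / 5 * D ^ 2)) ≤ 2 * ε * a * D ^ 2 :=
    le_trans (mul_le_mul_of_nonneg_left k5 (sq_nonneg _)) k2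
  have k7 : 0 < a * D ^ 2 := by positivity
  have k8 : (a * D ^ 2) * ((x - y) ^ 2 * a) ≤ (a * D ^ 2) * (25 / 8 * ε) := by
    nlinarith
  exact le_of_mul_le_mul_left k8 k7

end G7x

open G7x in
/-- G7 -/
theorem pf_G7 (hG0 : G0) (hG1 : G1) (hG4 : G4) (hR1 : R1) : G7 := by
  intro c Λ C k s hOk hTP hsC hsA hk hu hv
  obtain ⟨g1, g2, g3, g4, g5, -, -, -, -, -, -, -, -, -, -, -, -, -, grho0, grho, gKh, -⟩ :=
    hG4 c Λ hOk
  obtain ⟨r1, -, -, r4⟩ := hR1
  have hr := hOk.hr
  have hh := hOk.hh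
  have hsCn : s ∈ c.Cn := g1 hsA
  obtain ⟨s1, s2, s3⟩ := g2 s hsCn c.u (Or.inl rfl)
  have hK1 : (1 : ℝ) ≤ c.K := by
    have : 1 ≤ c.K := by omega
    exact_mod_cast this
  have hhr : c.h ≤ c.r / 10000 := by nlinarith
  -- the path stays in the narrow set
  have hN : Rch c.r c.u (Nar c.r c.th c.u s) C k s := by
    by_cases hc : nm (s - c.u) ≤ ((k : ℝ) + 1) * (c.r - c.h)
    · exact hTP s hsC hsCn c.u (Or.inl rfl) k hk hc
    · push Not at hc
      exact hG1 c.r c.h c.K k c.u s C hr hh gKh hk (by linarith) s2 s3 hc.le hu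
  obtain ⟨y, y0, yk, hst, hin⟩ := path _ _ _ _ _ _ hN
  have yC : ∀ i, 1 ≤ i → i ≤ k + 1 → y i ∈ C := by
    intro i h1 h2
    by_cases h : i ≤ k
    · exact (hin i h1 h).1
    · obtain rfl : i = k + 1 := by omega
      rw [yk]; exact hsC
  have yCn : ∀ i, 1 ≤ i → i ≤ k + 1 → y i ∈ c.Cn := by
    intro i h1 h2
    by_cases h : i ≤ k
    · exact g5 s hsA (hin i h1 h).2
    · obtain rfl : i = k + 1 := by omega
      rw [yk]; exact hsCn
  -- no prefix can be reached from v
  have nov : ∀ i, i ≤ k → ¬ Rch c.r c.v univ C i (y (i + 1)) := by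
    intro i hi hR
    have key : ∀ m, i + m ≤ k → Rch c.r c.v univ C (i + m) (y (i + m + 1)) := by
      intro m
      induction m with
      | zero => intro _; exact hR
      | succ m ihm =>
        intro hm
        have h1 := ihm (by omega)
        exact ⟨y (i + m + 1), yC _ (by omega) (by omega), mem_univ _, h1,
          hst (i + m + 1) (by omega)⟩
    have h2 := key (k - i) (by omega)
    have h3 : i + (k - i) = k := by omega
    rw [h3, yk] at h2
    exact hv h2
  have far : ∀ i, 1 ≤ i → i ≤ k + 1 → (i : ℝ) * (c.r - c.h) < nm (y i - c.v) := by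
    intro i h1 h2
    by_contra hcon
    push Not at hcon
    obtain ⟨i', rfl⟩ : ∃ i', i = i' + 1 := ⟨i - 1, by omega⟩
    have h3 := hTP (y (i' + 1)) (yC _ h1 h2) (yCn _ h1 h2) c.v (Or.inr rfl) i' (by omega)
      (by push_cast at hcon; exact hcon)
    exact nov i' (by omega) (r1 _ _ _ _ _ _ _ _ (fun y hy _ => ⟨hy, mem_univ _⟩) h3)
  have tri : ∀ x y : E, nm (x + y) ≤ nm x + nm y := hG0.1
  have nn : ∀ x : E, 0 ≤ nm x := fun x => (hG0.2.2.1 x).2.2.1
  have faru : ∀ i, 1 ≤ i → i ≤ k + 1 → (i : ℝ) * (c.r - c.h) - c.rho < nm (y i - c.u) := by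
    intro i h1 h2
    have h3 := far i h1 h2
    have h4 := tri (y i - c.u) (c.u - c.v)
    have h5 : y i - c.u + (c.u - c.v) = y i - c.v := by abel
    rw [h5] at h4
    have h6 : c.rho = nm (c.u - c.v) := rfl
    linarith
  -- upper bounds
  have up : ∀ j m, j + m ≤ k + 1 → nm (y (j + m) - y j) ≤ m * c.r := by
    intro j m
    induction m with
    | zero =>
      intro _
      have : nm (y (j + 0) - y j) = 0 := by simp [nm]
      rw [this]; simp
    | succ m ihm =>
      intro hm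
      have h1 := ihm (by omega)
      have h2 := hst (j + m) (by omega)
      have h3 := tri (y (j + m + 1) - y (j + m)) (y (j + m) - y j)
      have h4 : y (j + m + 1) - y (j + m) + (y (j + m) - y j) = y (j + (m + 1)) - y j := by
        rw [← add_assoc]; abel
      rw [h4] at h3
      push_cast
      linarith
  -- k is positive
  have hk0 : 1 ≤ k := by
    by_contra hcon
    obtain rfl : k = 0 := by omega
    have h1 := up 0 1 (by omega)
    rw [y0] at h1
    have h2 : y (0 + 1) = s := yk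
    rw [h2] at h1
    have h3 : c.R ≤ (s - c.u).1 := hsA.1.1
    have h4 := (hG0.2.2.1 (s - c.u)).1
    have h5 := le_abs_self (s - c.u).1
    have h6 := hOk.hR
    push_cast at h1
    linarith
  -- slopes
  have slp : ∀ i, 1 ≤ i → i ≤ k + 1 → 0 < (y i - c.u).1 ∧ |sl (y i - c.u)| ≤ 1 / 2 := by
    intro i h1 h2
    obtain ⟨a1, a2, a3, -⟩ := yCn i h1 h2
    refine ⟨by linarith, ?_⟩
    rw [abs_le]; constructor <;> linarith
  have hstep : ∀ i j, 1 ≤ j → j < i → i ≤ 2 * j → i ≤ k + 1 →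
      |sl (y i - c.u) - sl (y j - c.u)| ≤ 2 * √((2 * c.h + c.rho) / c.r) := by
    intro i j hj hji hij hik
    obtain ⟨m, rfl⟩ : ∃ m, i = j + m := ⟨i - j, by omega⟩
    have hjR : (1 : ℝ) ≤ j := by exact_mod_cast hj
    have hmj : (m : ℝ) ≤ j := by
      have : m ≤ j := by omega
      exact_mod_cast this
    have a1 := up 0 j (by omega)
    rw [zero_add, y0] at a1
    have b1 := up j m hik
    have A1 := faru j hj (by omega)
    have D1 := faru (j + m) (by omega) hik
    push_cast at D1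
    obtain ⟨p1, p2⟩ := slp j hj (by omega)
    obtain ⟨q1, q2⟩ := slp (j + m) (by omega) hik
    have e1 : y (j + m) - c.u - (y j - c.u) = y (j + m) - y j := by abel
    have hmh : (0 : ℝ) ≤ m := Nat.cast_nonneg m
    have hεn : 0 ≤ ((j : ℝ) + m) * c.h + c.rho := by positivity
    have hang := angle hG0 (y j - c.u) (y (j + m) - c.u) (((j : ℝ) + m) * c.h + c.rho)
      hεn p1 q1 p2 q2 (by rw [e1]; nlinarith) (by nlinarith)
    set X := (sl (y j - c.u) - sl (y (j + m) - c.u)) ^ 2 with hX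
    have hX0 : 0 ≤ X := sq_nonneg _
    -- X * r ≤ 4 * (2h + rho)
    have hmain : X * c.r ≤ 4 * (2 * c.h + c.rho) := by
      have h1 : (j : ℝ) * (25 / 32 * c.r) ≤ nm (y j - c.u) := by nlinarith
      have h2 : X * ((j : ℝ) * (25 / 32 * c.r)) ≤ 25 / 8 * (((j : ℝ) + m) * c.h + c.rho) :=
        le_trans (mul_le_mul_of_nonneg_left h1 hX0) hang
      have h3 : ((j : ℝ) + m) * c.h + c.rho ≤ j * (2 * c.h + c.rho) := by nlinarith
      have h4 : (j : ℝ) * (X * c.r) ≤ j * (4 * (2 * c.h + c.rho)) := by nlinarith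
      exact le_of_mul_le_mul_left h4 (by linarith)
    have h5 : X ≤ 4 * ((2 * c.h + c.rho) / c.r) := by
      rw [← mul_div_assoc, le_div_iff₀ hr]; exact hmain
    have h6 : (sl (y (j + m) - c.u) - sl (y j - c.u)) ^ 2 = X := by rw [hX]; ring
    calc |sl (y (j + m) - c.u) - sl (y j - c.u)|
        = √((sl (y (j + m) - c.u) - sl (y j - c.u)) ^ 2) := (Real.sqrt_sq_eq_abs _).symm
      _ ≤ √(4 * ((2 * c.h + c.rho) / c.r)) := by rw [h6]; exact Real.sqrt_le_sqrt h5
      _ = 2 * √((2 * c.h + c.rho) / c.r) := by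
          rw [Real.sqrt_mul (by norm_num)]
          congr 1
          rw [show (4 : ℝ) = 2 ^ 2 by norm_num, Real.sqrt_sq (by norm_num)]
  set δ := 2 * √((2 * c.h + c.rho) / c.r) with hδ
  have hδ0 : 0 ≤ δ := by positivity
  have hchain : ∀ i, 1 ≤ i → i ≤ k + 1 →
      |sl (y i - c.u) - sl (y 1 - c.u)| ≤ (Nat.clog 2 i : ℝ) * δ := by
    intro i
    induction i using Nat.strong_induction_on with
    | _ i ih =>
      intro h1 h2
      by_cases h : i = 1
      · subst h; simp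
      · have h3 : Nat.clog 2 i = Nat.clog 2 ((i + 1) / 2) + 1 := by
          rw [Nat.clog_of_two_le (by norm_num) (by omega)]; rfl
        have h4 := ih ((i + 1) / 2) (by omega) (by omega) (by omega)
        have h5 := hstep i ((i + 1) / 2) (by omega) (by omega) (by omega) h2
        rw [h3]
        push_cast
        have h6 := abs_sub_le (sl (y i - c.u)) (sl (y ((i + 1) / 2) - c.u)) (sl (y 1 - c.u))
        linarith
  refine ⟨y 1, yC 1 le_rfl (by omega), ⟨?_, ?_⟩, (hin 1 le_rfl hk0).2, ?_⟩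
  · have := up 0 1 (by omega)
    rw [y0] at this
    simpa using this
  · by_contra hcon
    push Not at hcon
    exact nov 0 (by omega) hcon
  · have h1 := hchain (k + 1) (by omega) le_rfl
    rw [yk] at h1
    have h2 : (Nat.clog 2 (k + 1) : ℝ) ≤ Nat.clog 2 (c.K + 1) := by
      exact_mod_cast Nat.clog_mono_right 2 (by omega)
    exact le_trans h1 (mul_le_mul_of_nonneg_right h2 hδ0)

end

end Pool.Agent.Helper59.RG
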