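import Pool.Agent.Helper59.RG.St2

/-!
# Project RG: the area of a lune
-/

set_option autoImplicit false

namespace Pool.Agent.Helper59.RG

open MeasureTheory Set
open scoped ENNReal

namespace L1x

lemma poly {a b c d : ℝ} (ha : 0 < a) (h1 : |b| ≤ a) (hc : 0 < c) (h2 : c / 4 ≤ d)
    (h3 : d ≤ c / 2) : 0 ≤ a * c + b * d ∧
      (a ^ 2 + b ^ 2) * (c ^ 2 + d ^ 2) ≤ 10 * (a * c + b * d) ^ 2 := by
  obtain ⟨hb1, hb2⟩ := abs_le.1 h1
  have hd : 0 < d := by linarith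
  have hcd : c ^ 2 + d ^ 2 ≤ 5 / 4 * c ^ 2 := by nlinarith
  rcases le_or_gt 0 b with hb | hb
  · have h4 : a * c ≤ a * c + b * d := by
      have := mul_nonneg hb hd.le
      linarith
    have h5 : 0 < a * c := mul_pos ha hc
    refine ⟨by linarith, ?_⟩
    have h6 : a ^ 2 + b ^ 2 ≤ 2 * a ^ 2 := by nlinarith
    have h7 : (a ^ 2 + b ^ 2) * (c ^ 2 + d ^ 2) ≤ 2 * a ^ 2 * (5 / 4 * c ^ 2) :=
      mul_le_mul h6 hcd (by positivity) (by positivity)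
    have h8 : (a * c) ^ 2 ≤ (a * c + b * d) ^ 2 := by
      apply pow_le_pow_left₀ h5.le h4
    nlinarith
  · obtain ⟨p, rfl⟩ : ∃ p, b = -p := ⟨-b, by ring⟩
    have hp : 0 < p := by linarith
    have hpa : p ≤ a := by linarith
    have h4 : c * (a - p / 2) ≤ a * c + -p * d := by nlinarith
    have h5 : 0 ≤ c * (a - p / 2) := mul_nonneg hc.le (by linarith)
    refine ⟨by linarith, ?_⟩
    have h7 : (a ^ 2 + (-p) ^ 2) * (c ^ 2 + d ^ 2) ≤ (a ^ 2 + (-p) ^ 2) * (5 / 4 * c ^ 2) :=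
      mul_le_mul_of_nonneg_left hcd (by positivity)
    have h8 : (c * (a - p / 2)) ^ 2 ≤ (a * c + -p * d) ^ 2 := pow_le_pow_left₀ h5 h4 2
    have h9 : 0 ≤ c ^ 2 * ((a - p) * (7 * a - p)) :=
      mul_nonneg (by positivity) (mul_nonneg (by linarith) (by linarith))
    have h10 : 10 * (c * (a - p / 2)) ^ 2 - (a ^ 2 + (-p) ^ 2) * (5 / 4 * c ^ 2) =
        5 / 4 * (c ^ 2 * ((a - p) * (7 * a - p))) := by ring
    linarith

lemma dot (hG0 : G0) {τ w : E} (h1 : |τ.2| ≤ τ.1) (h0 : 0 < τ.1) (hw : 0 < w.1)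
    (h2 : 1 / 4 ≤ sl w) (h3 : sl w ≤ 1 / 2) :
    nm w + 79 / 250 * nm τ ≤ nm (w + τ) := by
  obtain ⟨-, -, g3, -, g5⟩ := hG0
  unfold sl at h2 h3
  rw [le_div_iff₀ hw] at h2
  rw [div_le_iff₀ hw] at h3
  obtain ⟨p1, p2⟩ := poly (a := τ.1) (b := τ.2) (c := w.1) (d := w.2) h0 h1 hw (by linarith)
    (by linarith)
  obtain ⟨-, -, τ0, τ2⟩ := g3 τ
  obtain ⟨wn, -, w0, w2⟩ := g3 w
  have wpos : 0 < nm w := lt_of_lt_of_le hw ((le_abs_self _).trans wn)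
  have k1 : (79 / 250 * (nm τ * nm w)) ^ 2 ≤ (τ.1 * w.1 + τ.2 * w.2) ^ 2 := by
    have e : (79 / 250 * (nm τ * nm w)) ^ 2 = 6241 / 62500 * (nm τ ^ 2 * nm w ^ 2) := by ring
    rw [e, τ2, w2]
    have : 0 ≤ (τ.1 ^ 2 + τ.2 ^ 2) * (w.1 ^ 2 + w.2 ^ 2) := by positivity
    linarith
  have k2 : 79 / 250 * (nm τ * nm w) ≤ τ.1 * w.1 + τ.2 * w.2 :=
    le_of_sq_le_sq k1 p1
  have k3 := g5 (w + τ) w
  have e1 : (w + τ).1 * w.1 + (w + τ).2 * w.2 = nm w ^ 2 + (τ.1 * w.1 + τ.2 * w.2) := by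
    rw [w2]
    show (w.1 + τ.1) * w.1 + (w.2 + τ.2) * w.2 = _
    ring
  rw [e1] at k3
  have k4 : (nm w + 79 / 250 * nm τ) * nm w ≤ nm (w + τ) * nm w := by nlinarith
  exact le_of_mul_le_mul_right k4 wpos

end L1x

/-- **L1** -/
theorem pf_L1 (hG0 : G0) (hG5 : G5) : L1 := by
  intro Λ r x y hr hx hy h1 h0 hxr hxr2
  set τ : E := x - y with hτ
  have e1 : τ.1 = x.1 - y.1 := rfl
  have e2 : τ.2 = x.2 - y.2 := rfl
  set m : ℝ := min (nm τ) r with hm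
  have hτ0 : 0 < nm τ := by
    obtain ⟨-, -, g3, -, -⟩ := hG0
    have := (g3 τ).1
    exact lt_of_lt_of_le (by rw [e1]; exact h0) ((le_abs_self _).trans this)
  have hm0 : 0 < m := lt_min hτ0 hr
  have hmr : m ≤ r := min_le_right _ _
  have hmτ : m ≤ nm τ := min_le_left _ _
  have hvol := (hG5 0 0 (r - 79 / 250 * m) r le_rfl le_rfl (by linarith) (by linarith)).2
  refine le_trans ?_ (hvol.trans ?_)
  · apply ENNReal.ofReal_le_ofReal
    have e : r ^ 2 - (r - 79 / 250 * m) ^ 2 = 79 / 250 * m * (2 * r - 79 / 250 * m) := by ring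
    rw [e]
    have : m * (2 * r - 79 / 250 * m) ≥ m * (421 / 250 * r) := by
      apply mul_le_mul_of_nonneg_left _ hm0.le
      linarith
    nlinarith
  · rw [← measure_preimage_add (volume : Measure E) x (lun r x y ∩ Sq Λ)]
    apply measure_mono
    intro w hw
    obtain ⟨w1, w2, w3, w4, w5⟩ := hw
    have key := L1x.dot hG0 (τ := τ) (w := w) (by rw [e1, e2]; exact h1) (by rw [e1]; exact h0)
      w1 w2 w3
    obtain ⟨-, -, g3, -, -⟩ := hG0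
    obtain ⟨n1, n2, -, -⟩ := g3 w
    have s2 : 0 ≤ w.2 := by
      unfold sl at w2
      rw [le_div_iff₀ w1] at w2
      linarith
    have a1 := (le_abs_self _).trans n1
    have a2 := (le_abs_self _).trans n2
    have hx1 : 0 ≤ x.1 := hx.1.1
    have hx2 : 0 ≤ x.2 := hx.2.1
    refine ⟨⟨?_, ?_⟩, ⟨⟨?_, ?_⟩, ⟨?_, ?_⟩⟩⟩
    · rw [add_sub_cancel_left]
      exact w5
    · have e3 : x + w - y = w + τ := by rw [hτ]; abel
      rw [e3]
      linarith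
    · show 0 ≤ x.1 + w.1
      linarith
    · show x.1 + w.1 ≤ Λ
      linarith
    · show 0 ≤ x.2 + w.2
      linarith
    · show x.2 + w.2 ≤ Λ
      linarith

end Pool.Agent.Helper59.RG
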