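import Pool.Agent.Helper59.RG.St2

/-!
# Project RG: piece L2 (far points).
-/

set_option autoImplicit false

namespace Pool.Agent.Helper59.RG

open MeasureTheory Set
open scoped ENNReal

noncomputable section

/-- an interval next to `t` inside `[0, Λ]` -/
theorem L2x.intv {Λ r t : ℝ} (hr : 0 < r) (hΛ : 2 * r ≤ Λ) (ht : t ∈ Icc 0 Λ) :
    ∃ a : ℝ, ∀ s ∈ Icc a (a + 7 / 10 * r), s ∈ Icc 0 Λ ∧ |s - t| ≤ 7 / 10 * r := by
  obtain ⟨h0, h1⟩ := ht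
  by_cases h : t ≤ Λ / 2
  · refine ⟨t, fun s hs => ?_⟩
    obtain ⟨h2, h3⟩ := hs
    refine ⟨⟨by linarith, by linarith⟩, ?_⟩
    rw [abs_le]
    constructor <;> linarith
  · refine ⟨t - 7 / 10 * r, fun s hs => ?_⟩
    obtain ⟨h2, h3⟩ := hs
    push Not at h
    refine ⟨⟨by linarith, by linarith⟩, ?_⟩
    rw [abs_le]
    constructor <;> linarith

theorem L2x.nm_lt {r : ℝ} (hr : 0 < r) {x : E} (h1 : |x.1| ≤ 7 / 10 * r)
    (h2 : |x.2| ≤ 7 / 10 * r) : nm x < r := by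
  have h3 : x.1 ^ 2 ≤ (7 / 10 * r) ^ 2 := by
    rw [← sq_abs]
    exact pow_le_pow_left₀ (abs_nonneg _) h1 2
  have h4 : x.2 ^ 2 ≤ (7 / 10 * r) ^ 2 := by
    rw [← sq_abs]
    exact pow_le_pow_left₀ (abs_nonneg _) h2 2
  unfold nm
  rw [Real.sqrt_lt' hr]
  nlinarith [pow_pos hr 2]

/-- far points -/
theorem pf_L2 (hG0 : G0) : L2 := by
  intro Λ r x y hr hΛ hx hxy
  obtain ⟨hx1, hx2⟩ := hx
  obtain ⟨a, ha⟩ := L2x.intv hr hΛ hx1
  obtain ⟨b, hb⟩ := L2x.intv hr hΛ hx2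
  obtain ⟨htri, hsymm, -, -, -⟩ := hG0
  have hsub : Icc a (a + 7 / 10 * r) ×ˢ Icc b (b + 7 / 10 * r) ⊆ lun r x y ∩ Sq Λ := by
    rintro s ⟨hs1, hs2⟩
    obtain ⟨h1, h2⟩ := ha s.1 hs1
    obtain ⟨h3, h4⟩ := hb s.2 hs2
    have h5 : nm (s - x) < r := L2x.nm_lt hr h2 h4
    have h6 : nm (x - y) ≤ nm (x - s) + nm (s - y) := by
      have := htri (x - s) (s - y)
      rwa [sub_add_sub_cancel] at this
    rw [hsymm x s] at h6
    exact ⟨⟨h5.le, by linarith⟩, ⟨h1, h3⟩⟩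
  refine le_trans ?_ (measure_mono hsub)
  have h7 : (volume : Measure E) = (volume : Measure ℝ).prod volume := rfl
  rw [h7, Measure.prod_prod, Real.volume_Icc, Real.volume_Icc,
    ← ENNReal.ofReal_mul (by linarith)]
  refine ENNReal.ofReal_le_ofReal (le_of_eq ?_)
  ring

end

end Pool.Agent.Helper59.RG
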