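import Pool.Agent.Helper59.RG.St2

/-!
# Piece L3: the number of points in a lune
-/

set_option autoImplicit false

namespace Pool.Agent.Helper59.RG

open MeasureTheory Set
open scoped ENNReal

namespace L3x

theorem cont_nm (x : E) : Continuous fun s : E => nm (s - x) := by
  unfold nm
  fun_prop

theorem meas_lun (r : ℝ) (x y : E) : MeasurableSet (lun r x y) := by
  have h1 : MeasurableSet {s : E | nm (s - x) ≤ r} :=
    measurableSet_le (cont_nm x).measurable measurable_const
  have h2 : MeasurableSet {s : E | r < nm (s - y)} :=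
    measurableSet_lt measurable_const (cont_nm y).measurable
  exact h1.inter h2

theorem card_le (r : ℝ) (x y : E) (K : ℕ) (hK : 1 ≤ K) (C : Multiset E) :
    (flt (lun r x y) C).card ≤ nsep r K x y C := by
  unfold nsep flt
  refine Multiset.card_le_card ?_
  refine @Multiset.monotone_filter_right E C _ _ (fun _ => Classical.propDecidable _)
    (fun _ => Classical.propDecidable _) (fun s hs => ?_)
  refine ⟨0, hK, Or.inl ⟨hs.1, ?_⟩⟩
  intro h
  have h1 : nm (s - y) ≤ r := h
  exact absurd h1 (not_le.2 hs.2)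

theorem pointwise (r : ℝ) (x y : E) (K Kc : ℕ) (hK : 1 ≤ K) (C : Multiset E) :
    ind (nsep r K x y C < Kc) ≤
      ENNReal.ofReal (Real.exp Kc) * ENNReal.ofReal (Real.exp (-1)) ^ (flt (lun r x y) C).card := by
  have h1 := card_le r x y K hK C
  unfold ind
  split_ifs with h
  · rw [← ENNReal.ofReal_pow (Real.exp_pos _).le, ← ENNReal.ofReal_mul (Real.exp_pos _).le,
      ← Real.exp_nat_mul, ← Real.exp_add]
    rw [← ENNReal.ofReal_one]
    refine ENNReal.ofReal_le_ofReal ?_
    refine Real.one_le_exp ?_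
    have h2 : ((flt (lun r x y) C).card : ℝ) ≤ Kc := by exact_mod_cast (h1.trans h.le)
    linarith
  · exact bot_le

end L3x

theorem pf_L3 (hP0 : P0) (hP3 : P3) (hP8 : P8) (hP15 : P15) : L3 := by
  intro Λ r l a x y K Kc hΛ hl hK ha
  obtain ⟨hprob, hmu⟩ := hP15 Λ hΛ
  have hl0 : 0 ≤ l := le_trans (by positivity) hl
  have hW := L3x.meas_lun r x y
  have h1 := (hP3 l (mu Λ)).1 _ _ (L3x.pointwise r x y K Kc hK)
  refine h1.trans ?_
  rw [(hP3 l (mu Λ)).2.2.1 _ _ ENNReal.ofReal_ne_top,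
    hP8 l (mu Λ) (lun r x y) (Real.exp (-1)) hl0 (Real.exp_pos _).le hW,
    ← ENNReal.ofReal_mul (Real.exp_pos _).le, ← Real.exp_add]
  refine ENNReal.ofReal_le_ofReal (Real.exp_le_exp.2 ?_)
  have hfin : volume (lun r x y ∩ Sq Λ) ≠ ⊤ := by
    refine ne_top_of_le_ne_top ?_ (measure_mono inter_subset_right)
    exact (isCompact_Icc.prod isCompact_Icc).measure_lt_top.ne
  have hm : ((mu Λ) (lun r x y)).toReal = 1 / Λ ^ 2 * (volume (lun r x y ∩ Sq Λ)).toReal := by
    rw [hmu _ hW, ENNReal.toReal_mul, ENNReal.toReal_ofReal (by positivity)]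
  have ha' : a ≤ (volume (lun r x y ∩ Sq Λ)).toReal :=
    (ENNReal.ofReal_le_iff_le_toReal hfin).1 ha
  set v := (volume (lun r x y ∩ Sq Λ)).toReal with hv
  have hv0 : 0 ≤ v := ENNReal.toReal_nonneg
  have h2 : v / 2 ≤ l * (1 / Λ ^ 2 * v) := by
    have h3 : 1 / 2 ≤ l * (1 / Λ ^ 2) := by
      rw [mul_one_div, le_div_iff₀ (by positivity)]
      linarith
    nlinarith
  have h3 : Real.exp (-1) ≤ 2 / 5 := by
    rw [Real.exp_neg, inv_le_comm₀ (Real.exp_pos _) (by norm_num)]
    have := Real.exp_one_gt_d9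
    norm_num at this ⊢
    linarith
  rw [hm]
  have h4 : 0 ≤ l * (1 / Λ ^ 2 * v) := by positivity
  nlinarith

end Pool.Agent.Helper59.RG
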