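import Pool.Agent.Helper59.RG.St2

set_option autoImplicit false

namespace Pool.Agent.Helper59.RG

open MeasureTheory Set Filter Topology
open scoped ENNReal

noncomputable section

namespace M1x

theorem exp_log {n : ℕ} (h0 : (0 : ℝ) < n) (k : ℕ) :
    Real.exp (-((k : ℝ) * Real.log n)) = 1 / (n : ℝ) ^ k := by
  rw [Real.exp_neg, Real.exp_nat_mul, Real.exp_log h0, one_div]

theorem ind_le {p q s : Prop} (h : p → q ∨ s) : ind p ≤ ind q + ind s := by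
  unfold ind
  by_cases hp : p
  · rcases h hp with hq | hs
    · rw [if_pos hp, if_pos hq]; exact le_self_add
    · rw [if_pos hp, if_pos hs]; exact le_add_self
  · rw [if_neg hp]; exact zero_le

theorem mf (hR4 : R4) (c : Cx) (M Kc J : ℕ) :
    Mf fun C => ind ((∑ j ∈ Finset.range J, min (c.T j C) M) < Kc) := by
  intro N
  have h1 : Measurable fun X : Fin N → E =>
      ∑ j ∈ Finset.range J, ((min (c.T j (ms X)) M : ℕ) : ℝ≥0∞) :=
    Finset.measurable_sum _ (fun j _ => hR4.2.1 c j M N)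
  have h2 : MeasurableSet {X : Fin N → E |
      (∑ j ∈ Finset.range J, min (c.T j (ms X)) M) < Kc} := by
    have h3 : {X : Fin N → E | (∑ j ∈ Finset.range J, min (c.T j (ms X)) M) < Kc} =
        {X : Fin N → E | ∑ j ∈ Finset.range J, ((min (c.T j (ms X)) M : ℕ) : ℝ≥0∞) <
          (Kc : ℝ≥0∞)} := by
      ext X
      simp only [Set.mem_setOf_eq]
      rw [← Nat.cast_sum, Nat.cast_lt]
    rw [h3]
    exact measurableSet_lt h1 measurable_const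
  unfold ind
  exact Measurable.ite h2 measurable_const measurable_const

/-- the numerical part of the bound for the bad event -/
theorem num1 {x K J : ℝ} (hx : 1000 ≤ x) (hK : K ≤ x) (hJ : J ≤ x) :
    2 * x * K * (1 / x ^ 23) + (J + x) * (1 / x ^ 20) ≤ (1 / x) ^ 15 := by
  have h0 : 0 < x := by linarith
  have e23 : 0 < 1 / x ^ 23 := by positivity
  have e20 : 0 < 1 / x ^ 20 := by positivity
  have a1 : 2 * x * K * (1 / x ^ 23) ≤ 2 * x * x * (1 / x ^ 23) := by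
    apply mul_le_mul_of_nonneg_right _ e23.le
    apply mul_le_mul_of_nonneg_left hK (by positivity)
  have a2 : (J + x) * (1 / x ^ 20) ≤ (x + x) * (1 / x ^ 20) :=
    mul_le_mul_of_nonneg_right (by linarith) e20.le
  have a3 : 2 * x * x * (1 / x ^ 23) + (x + x) * (1 / x ^ 20) =
      (1 / x) ^ 15 * (2 * (1 / x) ^ 6 + 2 * (1 / x) ^ 4) := by
    field_simp
    ring
  have b0 : 0 ≤ 1 / x := by positivity
  have b1 : 1 / x ≤ 1 / 1000 := one_div_le_one_div_of_le (by norm_num) hx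
  have b4 : (1 / x) ^ 4 ≤ (1 / 1000) ^ 4 := pow_le_pow_left₀ b0 b1 4
  have b6 : (1 / x) ^ 6 ≤ (1 / 1000) ^ 6 := pow_le_pow_left₀ b0 b1 6
  have b7 : 2 * (1 / x) ^ 6 + 2 * (1 / x) ^ 4 ≤ 1 := by
    have c4 : ((1 : ℝ) / 1000) ^ 4 ≤ 1 / 4 := by norm_num
    have c6 : ((1 : ℝ) / 1000) ^ 6 ≤ 1 / 4 := by norm_num
    linarith
  calc 2 * x * K * (1 / x ^ 23) + (J + x) * (1 / x ^ 20)
      ≤ 2 * x * x * (1 / x ^ 23) + (x + x) * (1 / x ^ 20) := add_le_add a1 a2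
    _ = (1 / x) ^ 15 * (2 * (1 / x) ^ 6 + 2 * (1 / x) ^ 4) := a3
    _ ≤ (1 / x) ^ 15 * 1 := mul_le_mul_of_nonneg_left b7 (by positivity)
    _ = (1 / x) ^ 15 := mul_one _

theorem num2 {x : ℝ} (hx : 1000 ≤ x) :
    3 * x * (1 / x ^ 10 + (1 / x) ^ 15) ≤ 1 / x ^ 3 := by
  have h0 : 0 < x := by linarith
  have a3 : 3 * x * (1 / x ^ 10 + (1 / x) ^ 15) =
      (1 / x ^ 3) * (3 * (1 / x) ^ 6 + 3 * (1 / x) ^ 11) := by
    field_simp
  have b0 : 0 ≤ 1 / x := by positivity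
  have b1 : 1 / x ≤ 1 / 1000 := one_div_le_one_div_of_le (by norm_num) hx
  have b4 : (1 / x) ^ 11 ≤ (1 / 1000) ^ 11 := pow_le_pow_left₀ b0 b1 11
  have b6 : (1 / x) ^ 6 ≤ (1 / 1000) ^ 6 := pow_le_pow_left₀ b0 b1 6
  have b7 : 3 * (1 / x) ^ 6 + 3 * (1 / x) ^ 11 ≤ 1 := by
    have c4 : ((1 : ℝ) / 1000) ^ 11 ≤ 1 / 6 := by norm_num
    have c6 : ((1 : ℝ) / 1000) ^ 6 ≤ 1 / 6 := by norm_num
    linarith
  rw [a3]
  calc (1 / x ^ 3) * (3 * (1 / x) ^ 6 + 3 * (1 / x) ^ 11)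
      ≤ (1 / x ^ 3) * 1 := mul_le_mul_of_nonneg_left b7 (by positivity)
    _ = 1 / x ^ 3 := mul_one _

/-- the bad event -/
theorem badP (hB1 : B1) (hB2 : B2) (hB3 : B3) (c : Cx) (n M : ℕ) (hn : 1000 ≤ n)
    (hok : c.Ok (√n)) (hK : (c.K : ℝ) ≤ n) (hJ : (c.J : ℝ) ≤ n)
    (hh : 40000 * Real.log n ^ 2 ≤ c.h ^ 3 * c.r)
    (hor : 2 * (c.K ^ 2 * c.r * (c.K * c.h + c.rho) * c.De) + 20 * Real.log n ≤ M ∨
      ∃ M1 M2 : ℕ, M = M1 * M2 ∧ 4 * (c.De * c.rho * c.r) + 20 * Real.log n ≤ M1 ∧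
        4 * (Nat.clog 2 (c.K + 1) * (2 * √((2 * c.h + c.rho) / c.r)) *
          (c.K ^ 2 * c.r * (c.K * c.h + c.rho))) + 20 * Real.log n ≤ M2)
    (l : ℝ) (hl1 : √(n : ℝ) ^ 2 / 2 ≤ l) (hl2 : l ≤ √(n : ℝ) ^ 2) :
    PE l (mu (√n)) (fun C => ind (¬ c.Good M C)) ≤
      ENNReal.ofReal ((1 / √(n : ℝ) ^ 2) ^ 15) := by
  have hnr : (1000 : ℝ) ≤ n := by exact_mod_cast hn
  have h0 : (0 : ℝ) < n := by linarith
  have hlog : 0 ≤ Real.log n := Real.log_nonneg (by linarith)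
  have hsq : √(n : ℝ) ^ 2 = n := Real.sq_sqrt h0.le
  have hl0 : 0 ≤ l := by rw [hsq] at hl1; linarith
  have t1 := hB1 c (√n) l (Real.log n) hok hl1 hl2 hlog hh
  have e23 : Real.exp (-(23 * Real.log n)) = 1 / (n : ℝ) ^ 23 := by
    have := exp_log h0 23
    push_cast at this
    exact this
  have e20 : Real.exp (-(20 * Real.log n)) = 1 / (n : ℝ) ^ 20 := by
    have := exp_log h0 20
    push_cast at this
    exact this
  have t2 : PE l (mu (√n)) (fun C => ind (¬ c.Good M C)) ≤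
      PE l (mu (√n)) (fun C => ind (¬ c.TP C)) +
        ENNReal.ofReal ((c.J + √(n : ℝ) ^ 2) * Real.exp (-(20 * Real.log n))) := by
    rcases hor with h | ⟨M1, M2, hM, h1, h2⟩
    · refine le_trans (hB2 c (√n) l (Real.log n) M hok hl0 hl2 hlog h) ?_
      refine add_le_add le_rfl (ENNReal.ofReal_le_ofReal ?_)
      apply mul_le_mul_of_nonneg_right _ (Real.exp_pos _).le
      have := sq_nonneg (√(n : ℝ))
      linarith
    · subst hM
      exact hB3 c (√n) l (Real.log n) M1 M2 hok hl0 hl2 hlog h1 h2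
  rw [hsq, e20] at t2
  rw [hsq, e23] at t1
  rw [hsq]
  refine le_trans t2 (le_trans (add_le_add t1 le_rfl) ?_)
  rw [← ENNReal.ofReal_add (by positivity) (by positivity)]
  exact ENNReal.ofReal_le_ofReal (num1 hnr hK hJ)

end M1x

theorem pf_M1 (hP0 : P0) (hP3 : P3) (hP12 : P12) (hP15 : P15) (hR4 : R4) (hA4 : A4) (hA5 : A5)
    (hA6 : A6) (hB1 : B1) (hB2 : B2) (hB3 : B3) : M1 := by
  intro c n M Kc hn hok hK hJ hM hh hrho hor hMl hKc
  have hnr : (1000 : ℝ) ≤ n := by exact_mod_cast hn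
  have h0 : (0 : ℝ) < n := by linarith
  have hlog : 0 ≤ Real.log n := Real.log_nonneg (by linarith)
  have hs0 : 0 < √(n : ℝ) := Real.sqrt_pos.mpr h0
  have hsq : √(n : ℝ) ^ 2 = n := Real.sq_sqrt h0.le
  have hl : (((n - 2 : ℕ) : ℕ) : ℝ) = n - 2 := by
    rw [Nat.cast_sub (by omega)]; norm_num
  have := (hP15 (√n) hs0).1
  have hl1 : √(n : ℝ) ^ 2 / 2 ≤ (((n - 2 : ℕ) : ℕ) : ℝ) := by rw [hsq, hl]; linarith
  have hl2 : (((n - 2 : ℕ) : ℕ) : ℝ) ≤ √(n : ℝ) ^ 2 := by rw [hsq, hl]; linarith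
  have hbad := M1x.badP hB1 hB2 hB3 c n M hn hok hK hJ hh hor _ hl1 hl2
  set Θ : ℝ := 7 / 5000 * (c.rho * c.R ^ 2 / c.r) with hΘ
  have hΘ0 : 0 ≤ Θ := by rw [hΘ]; linarith
  have t5 := hA5 c (√n) (((n - 2 : ℕ) : ℕ) : ℝ) M hok hl1 hl2 (by rw [hsq]; exact hK)
    (by rw [hsq]; exact hnr) hrho hbad
  have t4 := hA4 c (√n) (((n - 2 : ℕ) : ℕ) : ℝ) Θ M Kc hok (Nat.cast_nonneg _) hM hΘ0 t5
  have hMr : (1 : ℝ) ≤ M := by exact_mod_cast hM
  have hexp : Real.exp ((Kc - 3 / 10 * Θ) / M) ≤ 1 / (n : ℝ) ^ 10 := by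
    have e10 := M1x.exp_log h0 10
    rw [← e10]
    apply Real.exp_le_exp.mpr
    rw [div_le_iff₀ (by linarith)]
    push_cast
    nlinarith [hMl, hKc]
  have t4' : PE (((n - 2 : ℕ) : ℕ) : ℝ) (mu (√n))
      (fun C => ind ((∑ j ∈ Finset.range c.J, min (c.T j C) M) < Kc)) ≤
        ENNReal.ofReal (1 / (n : ℝ) ^ 10) := le_trans t4 (ENNReal.ofReal_le_ofReal hexp)
  have t3 : PE (((n - 2 : ℕ) : ℕ) : ℝ) (mu (√n))
      (fun C => ind (nsep c.r c.K c.u c.v C < Kc)) ≤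
        ENNReal.ofReal (1 / (n : ℝ) ^ 10) + ENNReal.ofReal ((1 / √(n : ℝ) ^ 2) ^ 15) := by
    obtain ⟨p1, p2, -, -, -⟩ := hP3 (((n - 2 : ℕ) : ℕ) : ℝ) (mu (√n))
    refine le_trans (p1 _ (fun C => ind ((∑ j ∈ Finset.range c.J, min (c.T j C) M) < Kc) +
      ind (¬ c.Good M C)) ?_) ?_
    · intro C
      apply M1x.ind_le
      intro h
      by_cases hg : c.Good M C
      · left
        exact lt_of_le_of_lt (hA6 c (√n) M C hok hg) h
      · right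
        exact hg
    · rw [p2 _ _ (M1x.mf hR4 c M Kc c.J)]
      exact add_le_add t4' hbad
  have t12 := hP12 (n - 2) (mu (√n)) (fun C => ind (nsep c.r c.K c.u c.v C < Kc)) (by omega)
  refine le_trans t12 (le_trans (mul_le_mul_of_nonneg_left t3 (by positivity)) ?_)
  rw [← ENNReal.ofReal_add (by positivity) (by positivity),
    ← ENNReal.ofReal_mul (by positivity)]
  apply ENNReal.ofReal_le_ofReal
  rw [hsq]
  refine le_trans ?_ (M1x.num2 hnr)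
  apply mul_le_mul_of_nonneg_right _ (by positivity)
  rw [hl]
  linarith

end

end Pool.Agent.Helper59.RG
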