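import Pool.Agent.Helper59.RG.St2

/-!
# Project RG: piece M2 (pairs in canonical position).
-/

set_option autoImplicit false

namespace Pool.Agent.Helper59.RG

open MeasureTheory Set
open scoped ENNReal

/-- the elementary estimate for pairs at large distance -/
theorem M2x.est (n Kc : ℕ) (r rho : ℝ) (hn : 1000 ≤ n) (hr : Real.log n ^ 60 ≤ r)
    (hK : (Kc : ℝ) ≤ 1 / 10000 * r ^ 2)
    (hrho : 100 * (Kc + 10 * Real.log n) / r < rho) :
    3 * ((n - 2 : ℕ) : ℝ) * Real.exp (Kc - 3 / 10 * (1 / 20 * (min rho r * r))) ≤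
      1 / (n : ℝ) ^ 3 := by
  have hn0 : (1000 : ℝ) ≤ n := by exact_mod_cast hn
  have hnpos : (0 : ℝ) < n := by linarith
  have hl2 : 2 ≤ Real.log n := by
    rw [Real.le_log_iff_exp_le hnpos]
    have h1 : Real.exp 2 = Real.exp 1 * Real.exp 1 := by
      rw [← Real.exp_add]; norm_num
    have h2 := Real.exp_one_lt_d9
    have h3 := Real.exp_pos 1
    rw [h1]
    nlinarith
  set l : ℝ := Real.log n with hl
  have hl60 : 1000 * l ≤ l ^ 60 := by
    have h1 : (2 : ℝ) ^ 59 ≤ l ^ 59 := pow_le_pow_left₀ (by norm_num) hl2 59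
    have h2 : l ^ 60 = l ^ 59 * l := by ring
    rw [h2]
    have h3 : (1000 : ℝ) ≤ l ^ 59 := le_trans (by norm_num) h1
    nlinarith
  have hr1 : 1000 * l ≤ r := le_trans hl60 hr
  have hrpos : 0 < r := by linarith
  have hKc0 : (0 : ℝ) ≤ Kc := Nat.cast_nonneg _
  have key : Kc - 3 / 10 * (1 / 20 * (min rho r * r)) ≤ -(10 * l) := by
    rcases le_total rho r with h | h
    · rw [min_eq_left h]
      rw [div_lt_iff₀ hrpos] at hrho
      nlinarith
    · rw [min_eq_right h]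
      have h1 : r * 1 ≤ r * r := by
        apply mul_le_mul_of_nonneg_left _ hrpos.le
        linarith
      nlinarith
  have hexp : Real.exp (Kc - 3 / 10 * (1 / 20 * (min rho r * r))) ≤ 1 / (n : ℝ) ^ 10 := by
    calc Real.exp (Kc - 3 / 10 * (1 / 20 * (min rho r * r))) ≤ Real.exp (-(10 * l)) :=
          Real.exp_le_exp.mpr key
      _ = 1 / (n : ℝ) ^ 10 := by
          rw [Real.exp_neg, show (10 : ℝ) * l = ((10 : ℕ) : ℝ) * l by norm_num, Real.exp_nat_mul,
            hl, Real.exp_log hnpos, one_div]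
  have hn2 : ((n - 2 : ℕ) : ℝ) ≤ n := by
    exact_mod_cast Nat.sub_le n 2
  calc 3 * ((n - 2 : ℕ) : ℝ) * Real.exp (Kc - 3 / 10 * (1 / 20 * (min rho r * r)))
      ≤ 3 * (n : ℝ) * (1 / (n : ℝ) ^ 10) := by
        apply mul_le_mul _ hexp (Real.exp_pos _).le (by positivity)
        linarith
    _ ≤ 1 / (n : ℝ) ^ 3 := by
        rw [mul_one_div, div_le_div_iff₀ (by positivity) (by positivity)]
        have h6 : (3 : ℝ) ≤ (n : ℝ) ^ 6 := by
          have : (1000 : ℝ) ^ 6 ≤ (n : ℝ) ^ 6 := pow_le_pow_left₀ (by norm_num) hn0 6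
          exact le_trans (by norm_num) this
        have h4 : (0 : ℝ) ≤ (n : ℝ) ^ 4 := by positivity
        calc 3 * (n : ℝ) * (n : ℝ) ^ 3 = 3 * (n : ℝ) ^ 4 := by ring
          _ ≤ (n : ℝ) ^ 6 * (n : ℝ) ^ 4 := mul_le_mul_of_nonneg_right h6 h4
          _ = 1 * (n : ℝ) ^ 10 := by ring

/-- pairs in canonical position -/
theorem pf_M2 (hP12 : P12) (hL1 : L1) (hL3 : L3) (hN1 : N1) (hN2 : N2) (hN3 : N3) (hN4 : N4)
    (hM1 : M1) : M2 := by
  obtain ⟨n1, h1a, h1⟩ := hN1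
  obtain ⟨n2, h2⟩ := hN2
  obtain ⟨n3, h3⟩ := hN3
  obtain ⟨n4, h4⟩ := hN4
  refine ⟨max (max n1 n2) (max n3 n4), fun n hn r hr hr' x y hC he => ?_⟩
  have hn1 : n1 ≤ n := le_trans (le_trans (le_max_left _ _) (le_max_left _ _)) hn
  have hn2 : n2 ≤ n := le_trans (le_trans (le_max_right _ _) (le_max_left _ _)) hn
  have hn3 : n3 ≤ n := le_trans (le_trans (le_max_left _ _) (le_max_right _ _)) hn
  have hn4 : n4 ≤ n := le_trans (le_trans (le_max_right _ _) (le_max_right _ _)) hn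
  have hn0 : 1000 ≤ n := le_trans h1a hn1
  obtain ⟨a1, a2, a3, a4, a5, a6, a7, a8, a9, a10, a11, a12, a13, a14⟩ := h1 n hn1 r hr hr'
  rcases le_or_gt (nm (x - y)) (100 * (Kcn n r + 10 * Real.log n) / r) with hd | hd
  · obtain ⟨hOk, hKle, hJle, hrest⟩ := h4 n hn4 r hr hr' x y hC hd
    obtain ⟨e1, e2, e3⟩ := hrest he
    rcases le_or_gt (Pool.Agent.Helper59.RG.hn n r) (nm (x - y)) with hh | hh
    · obtain ⟨M, m1, m2, m3⟩ := h2 n hn2 r hr hr' x y (cxn n r x y) rfl he hh hd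
      exact hM1 (cxn n r x y) n M (Kcn n r) hn0 hOk hKle hJle m1 e1 e2 (Or.inl m2) m3 e3
    · obtain ⟨M1, M2, m1, m2, m3, m4⟩ := h3 n hn3 r hr hr' x y (cxn n r x y) rfl he hh
      exact hM1 (cxn n r x y) n (M1 * M2) (Kcn n r) hn0 hOk hKle hJle m1 e1 e2
        (Or.inr ⟨M1, M2, rfl, m2, m3⟩) m4 e3
  · obtain ⟨c1, c2, c3, c4, c5, c6⟩ := hC
    have hnR : (1000 : ℝ) ≤ n := by exact_mod_cast hn0
    have hnpos : (0 : ℝ) < n := by linarith
    have hsq : 0 < √(n : ℝ) := Real.sqrt_pos.mpr hnpos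
    have hl2 : 1 ≤ Real.log n := by
      rw [Real.le_log_iff_exp_le hnpos]
      have h2 := Real.exp_one_lt_d9
      linarith
    have hrpos : 0 < r := lt_of_lt_of_le (by positivity) hr
    have hlun := hL1 (√n) r x y hrpos c1 c2 c3 c4 (by linarith) (by linarith)
    have hcast : ((n - 2 : ℕ) : ℝ) = n - 2 := by
      rw [Nat.cast_sub (by omega)]; norm_num
    have hK1 : 1 ≤ Kn n r := by
      have : (1 : ℝ) ≤ Kn n r := by linarith
      exact_mod_cast this
    have hPE := hL3 (√n) r ((n - 2 : ℕ) : ℝ) (1 / 20 * (min (nm (x - y)) r * r)) x y (Kn n r)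
      (Kcn n r) hsq (by rw [hcast, Real.sq_sqrt hnpos.le]; linarith) hK1 hlun
    have hKc : (Kcn n r : ℝ) ≤ 1 / 10000 * r ^ 2 := by
      have h1 : (Kcn n r : ℝ) ≤ 1 / 10000 * (ep n r * Ln n r ^ 2 * r) := by
        apply Nat.floor_le
        positivity
      have h2 : ep n r * Ln n r ^ 2 ≤ r := by
        refine le_trans a10 ?_
        apply div_le_self hrpos.le
        exact one_le_pow₀ hl2
      have h3 : ep n r * Ln n r ^ 2 * r ≤ r * r := mul_le_mul_of_nonneg_right h2 hrpos.le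
      nlinarith
    have hest := M2x.est n (Kcn n r) r (nm (x - y)) hn0 hr hKc hd
    have hP := hP12 (n - 2) (mu (√n)) (fun C => ind (nsep r (Kn n r) x y C < Kcn n r)) (by omega)
    calc II (mu (√n)) (n - 2) (fun C => ind (nsep r (Kn n r) x y C < Kcn n r))
        ≤ ENNReal.ofReal (3 * ((n - 2 : ℕ) : ℝ)) *
          PE ((n - 2 : ℕ) : ℝ) (mu (√n)) (fun C => ind (nsep r (Kn n r) x y C < Kcn n r)) := hP
      _ ≤ ENNReal.ofReal (3 * ((n - 2 : ℕ) : ℝ)) * ENNReal.ofReal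
          (Real.exp (Kcn n r - 3 / 10 * (1 / 20 * (min (nm (x - y)) r * r)))) := by
          gcongr
      _ = ENNReal.ofReal (3 * ((n - 2 : ℕ) : ℝ) *
          Real.exp (Kcn n r - 3 / 10 * (1 / 20 * (min (nm (x - y)) r * r)))) := by
          exact (ENNReal.ofReal_mul (by positivity)).symm
      _ ≤ ENNReal.ofReal (1 / (n : ℝ) ^ 3) := ENNReal.ofReal_le_ofReal hest

end Pool.Agent.Helper59.RG
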