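import Pool.Agent.Helper59.RG.St2

/-!
# Project RG: M4, pairs in canonical position for a large radius
-/

set_option autoImplicit false

namespace Pool.Agent.Helper59.RG

open MeasureTheory Set Filter Topology
open scoped ENNReal

namespace M4x

theorem ev0 : ∀ᶠ y : ℝ in atTop, Real.log 3 + 8 * Real.log 4000 + 20 * Real.log y ≤
    14 / 1000 * y := by
  have h1 := (Real.isLittleO_log_id_atTop.bound (show (0 : ℝ) < 1 / 10000 by norm_num))
  filter_upwards [h1, eventually_ge_atTop (1000 * (|Real.log 3 + 8 * Real.log 4000|) + 1)]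
    with y hy1 hy2
  have h0 : 0 ≤ |Real.log 3 + 8 * Real.log 4000| := abs_nonneg _
  have h2 : Real.log y ≤ 1 / 10000 * y := by
    have h3 : ‖Real.log y‖ ≤ 1 / 10000 * ‖y‖ := hy1
    rw [Real.norm_eq_abs, Real.norm_eq_abs, abs_of_nonneg (by linarith : (0 : ℝ) ≤ y)] at h3
    exact (le_abs_self _).trans h3
  have h4 := le_abs_self (Real.log 3 + 8 * Real.log 4000)
  linarith

theorem ev : ∃ n2 : ℕ, ∀ n : ℕ, n2 ≤ n →
    Real.log 3 + 4 * Real.log n ≤ 14 / 1000 * (√n / 4000) ^ (2 / 5 : ℝ) := by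
  have h1 : Tendsto (fun n : ℕ => (√(n : ℝ) / 4000) ^ (2 / 5 : ℝ)) atTop atTop := by
    apply (tendsto_rpow_atTop (by norm_num : (0 : ℝ) < 2 / 5)).comp
    apply Tendsto.atTop_div_const (by norm_num)
    exact Real.tendsto_sqrt_atTop.comp tendsto_natCast_atTop_atTop
  have h2 := (h1.eventually ev0).and (eventually_ge_atTop 1)
  obtain ⟨n2, hn2⟩ := eventually_atTop.1 h2
  refine ⟨n2, fun n hn => ?_⟩
  obtain ⟨h3, h4⟩ := hn2 n hn
  have hn0 : (0 : ℝ) < n := by exact_mod_cast h4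
  have h5 : Real.log n = 2 * Real.log 4000 +
      5 * Real.log ((√(n : ℝ) / 4000) ^ (2 / 5 : ℝ)) := by
    have h6 : 0 < √(n : ℝ) := Real.sqrt_pos.2 hn0
    rw [Real.log_rpow (by positivity), Real.log_div h6.ne' (by norm_num), Real.log_sqrt hn0.le]
    ring
  rw [h5]
  linarith

end M4x

theorem pf_M4 (hP12 : P12) (hL1 : L1) (hL3 : L3) (hN5 : N5) : M4 := by
  obtain ⟨n1, h5⟩ := hN5
  obtain ⟨n2, hlog⟩ := M4x.ev
  refine ⟨max n1 (max n2 16000000), fun n hn r hr1 hr2 x y hC hxy => ?_⟩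
  have hn1 : n1 ≤ n := (le_max_left _ _).trans hn
  have hn2 : n2 ≤ n := ((le_max_left _ _).trans (le_max_right _ _)).trans hn
  have hn3 : 16000000 ≤ n := ((le_max_right _ _).trans (le_max_right _ _)).trans hn
  have hnR : (16000000 : ℝ) ≤ n := by exact_mod_cast hn3
  have hn0 : (0 : ℝ) < n := by linarith
  have hs0 : 0 < √(n : ℝ) := Real.sqrt_pos.2 hn0
  have hs1 : 4000 ≤ √(n : ℝ) := Real.le_sqrt_of_sq_le (by norm_num; linarith)
  have hsq : √(n : ℝ) ^ 2 = n := Real.sq_sqrt hn0.le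
  have hr : 1 ≤ r := by linarith
  obtain ⟨-, -, he0, he1, -, hre, -⟩ := h5 n hn1 r hr hr2
  obtain ⟨hx, hy, hxy1, hxy2, hx1, hx2⟩ := hC
  -- the area
  have ha := hL1 (√n) r x y (by linarith) hx hy hxy1 hxy2 (by linarith) (by linarith)
  set a : ℝ := 1 / 20 * (min (nm (x - y)) r * r) with ha'
  have ha1 : 1 / 20 * (ep n r * r) ≤ a := by
    rw [ha']
    have h1 : ep n r ≤ min (nm (x - y)) r := le_min hxy (he1.trans hr)
    have h2 : ep n r * r ≤ min (nm (x - y)) r * r :=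
      mul_le_mul_of_nonneg_right h1 (by linarith)
    linarith
  -- the count
  have hcast : ((n - 2 : ℕ) : ℝ) = n - 2 := by
    rw [Nat.cast_sub (by omega)]
    norm_num
  have h3 := hL3 (√n) r ((n - 2 : ℕ) : ℝ) a x y 1 ⌊ep n r * r / 1000⌋₊ hs0
    (by rw [hsq, hcast]; linarith) le_rfl ha
  have h12 := hP12 (n - 2) (mu (√n))
    (fun C => ind (nsep r 1 x y C < ⌊ep n r * r / 1000⌋₊)) (by omega)
  refine h12.trans ?_
  refine (mul_le_mul_right h3 _).trans ?_
  rw [← ENNReal.ofReal_mul (by positivity)]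
  apply ENNReal.ofReal_le_ofReal
  have hfl : ((⌊ep n r * r / 1000⌋₊ : ℕ) : ℝ) ≤ ep n r * r / 1000 :=
    Nat.floor_le (by positivity)
  have hexp : ((⌊ep n r * r / 1000⌋₊ : ℕ) : ℝ) - 3 / 10 * a ≤
      -(Real.log 3 + 4 * Real.log n) := by
    have h6 := hlog n hn2
    have h7 : (√n / 4000) ^ (2 / 5 : ℝ) ≤ r ^ (2 / 5 : ℝ) :=
      Real.rpow_le_rpow (by positivity) hr1 (by norm_num)
    linarith
  have h8 : Real.exp (((⌊ep n r * r / 1000⌋₊ : ℕ) : ℝ) - 3 / 10 * a) ≤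
      1 / (3 * (n : ℝ) ^ 4) := by
    refine (Real.exp_le_exp.2 hexp).trans (le_of_eq ?_)
    rw [Real.exp_neg, Real.exp_add, Real.exp_log (by norm_num),
      show 4 * Real.log n = Real.log ((n : ℝ) ^ 4) by rw [Real.log_pow]; norm_num,
      Real.exp_log (by positivity), one_div]
  calc 3 * ((n - 2 : ℕ) : ℝ) * Real.exp (((⌊ep n r * r / 1000⌋₊ : ℕ) : ℝ) - 3 / 10 * a)
      ≤ 3 * n * (1 / (3 * (n : ℝ) ^ 4)) := by
        apply mul_le_mul _ h8 (Real.exp_pos _).le (by positivity)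
        rw [hcast]
        linarith
    _ = 1 / (n : ℝ) ^ 3 := by
        field_simp

end Pool.Agent.Helper59.RG
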