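import Pool.Agent.Helper59.RG.St2

/-!
# Project RG (MP_4d33fe_pr): piece M5.
-/

set_option autoImplicit false

namespace Pool.Agent.Helper59.RG

open MeasureTheory Set Filter Topology
open scoped ENNReal

noncomputable section

namespace M5x

theorem log_large (c : ℝ) : ∃ n0 : ℕ, ∀ n : ℕ, n0 ≤ n → c ≤ Real.log n := by
  have h : Tendsto (fun n : ℕ => Real.log (n : ℝ)) atTop atTop :=
    Real.tendsto_log_atTop.comp tendsto_natCast_atTop_atTop
  exact eventually_atTop.1 (h.eventually_ge_atTop c)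

theorem glue (hG0 : G0) (hS1 : S1) (hS2 : S2) (n : ℕ) (hn : 1 ≤ n) (r e : ℝ) (he : 0 < e)
    (K Kc : ℕ) (B : ℝ≥0∞)
    (hC : ∀ x y, Can (√n) x y → e ≤ nm (x - y) →
      II (mu (√n)) (n - 2) (fun C => ind (nsep r K x y C < Kc)) ≤ B)
    (hF : ∀ x y, x ∈ Sq (√n) → y ∈ Sq (√n) → √n / 2 ≤ nm (x - y) →
      II (mu (√n)) (n - 2) (fun C => ind (nsep r K x y C < Kc)) ≤ B) :
    ∀ x y, x ∈ Sq (√n) → y ∈ Sq (√n) → e ≤ nm (x - y) →
      II (mu (√n)) (n - 2) (fun C => ind (nsep r K x y C < Kc)) ≤ B := by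
  have hΛ : 0 < √(n : ℝ) := Real.sqrt_pos.2 (by exact_mod_cast hn)
  intro x y hx hy hxy
  have hne : x ≠ y := by
    rintro rfl
    have h0 : nm (x - x) = 0 := by
      rw [sub_self]
      simp [nm]
    rw [h0] at hxy
    linarith
  refine hS2 (√n) (fun x y => e ≤ nm (x - y) →
    II (mu (√n)) (n - 2) (fun C => ind (nsep r K x y C < Kc)) ≤ B) hΛ ?_ ?_ ?_ ?_ hC
    (fun x y hx hy h _ => hF x y hx hy h) x y hx hy hne hxy
  · intro x y h h1
    rw [(hS1 (√n) r K Kc (n - 2) x y hΛ).1]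
    exact h (by rw [hG0.2.1]; exact h1)
  · intro x y h h1
    rw [← (hS1 (√n) r K Kc (n - 2) x y hΛ).2.1]
    refine h ?_
    have h2 : nm (((√n - x.1, x.2) : E) - (√n - y.1, y.2)) = nm (x - y) := by
      unfold nm
      congr 1
      change (√n - x.1 - (√n - y.1)) ^ 2 + (x.2 - y.2) ^ 2 = (x.1 - y.1) ^ 2 + (x.2 - y.2) ^ 2
      ring
    rw [h2]
    exact h1
  · intro x y h h1
    rw [← (hS1 (√n) r K Kc (n - 2) x y hΛ).2.2.1]
    refine h ?_
    have h2 : nm (((x.1, √n - x.2) : E) - (y.1, √n - y.2)) = nm (x - y) := by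
      unfold nm
      congr 1
      change (x.1 - y.1) ^ 2 + (√n - x.2 - (√n - y.2)) ^ 2 = (x.1 - y.1) ^ 2 + (x.2 - y.2) ^ 2
      ring
    rw [h2]
    exact h1
  · intro x y h h1
    rw [← (hS1 (√n) r K Kc (n - 2) x y hΛ).2.2.2]
    refine h ?_
    have h2 : nm (((x.2, x.1) : E) - (y.2, y.1)) = nm (x - y) := by
      unfold nm
      congr 1
      change (x.2 - y.2) ^ 2 + (x.1 - y.1) ^ 2 = (x.1 - y.1) ^ 2 + (x.2 - y.2) ^ 2
      ring
    rw [h2]
    exact h1

theorem floor_ge {a : ℝ} (ha : 2 ≤ a) : a / 2 ≤ (⌊a⌋₊ : ℝ) := by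
  have h := Nat.lt_floor_add_one a
  linarith

end M5x

theorem pf_M5 (hG0 : G0) (hS1 : S1) (hS2 : S2) (hN1 : N1) (hN5 : N5) (hM2 : M2) (hM3 : M3)
    (hM4 : M4) : M5 := by
  obtain ⟨a1, ha1, hN1⟩ := hN1
  obtain ⟨a2, hN5⟩ := hN5
  obtain ⟨a3, hM2⟩ := hM2
  obtain ⟨a4, hM3⟩ := hM3
  obtain ⟨a5, hM4⟩ := hM4
  obtain ⟨a6, hL⟩ := M5x.log_large (10 ^ 11)
  refine ⟨a1 + a2 + a3 + a4 + a5 + a6 + 1, fun n hn r hr1 hr2 => ?_⟩
  have hL := hL n (by omega)
  generalize hLe : Real.log (n : ℝ) = L at hL hr1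
  have hL1 : (1 : ℝ) ≤ L := by linarith [show (1 : ℝ) ≤ 10 ^ 11 by norm_num]
  have hn1 : 1 ≤ n := by omega
  have hn0 : (0 : ℝ) < n := by exact_mod_cast hn1
  have hr0 : 1 ≤ r := le_trans (one_le_pow₀ hL1) hr1
  obtain ⟨h5a, h5b, h5c, h5d, h5e, h5f, -⟩ := hN5 n (by omega) r hr0 hr2
  rcases le_total r (√n / 4000) with hr | hr
  · -- small radius
    obtain ⟨n1, n2, n3, n4, n5, n6, n7, n8, n9, n10, n11, n12, n13, n14⟩ :=
      hN1 n (by omega) r (by rw [hLe]; exact hr1) hr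
    rw [hLe] at n8 n9 n10
    have hpow50 : (10 : ℝ) ^ 11 ≤ L ^ 50 := le_trans hL (le_self_pow₀ hL1 (by norm_num))
    have hbig : 2 ≤ 1 / 10000 * (ep n r * Ln n r ^ 2 * r) := by
      have : (10 : ℝ) ^ 11 ≤ ep n r * Ln n r ^ 2 * r := hpow50.trans n8
      norm_num at this ⊢
      linarith
    have hfl := M5x.floor_ge hbig
    have hKc : (Kcn n r : ℝ) = (⌊1 / 10000 * (ep n r * Ln n r ^ 2 * r)⌋₊ : ℝ) := rfl
    have hKc1 : (1 : ℝ) ≤ Kcn n r := by
      rw [hKc]
      linarith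
    have hKcle : (Kcn n r : ℝ) ≤ 1 / 10000 * (ep n r * Ln n r ^ 2 * r) := by
      rw [hKc]
      exact Nat.floor_le (by linarith)
    refine ⟨Kn n r, Kcn n r, by exact_mod_cast hKc1, ?_, ?_⟩
    · rw [← h5a, div_le_iff₀ (by linarith)]
      have h1 : ep n r * Ln n r ^ 2 * r / 20000 ≤ Kcn n r := by
        rw [hKc]
        linarith
      have h2 : 0 ≤ L ^ 13 * (n * ep n r ^ 2) := by positivity
      refine le_trans ?_ (mul_le_mul_of_nonneg_left h1 h2)
      have h3 : L ^ 13 * (n * ep n r ^ 2) * (ep n r * Ln n r ^ 2 * r / 20000) =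
          n * (L / 1280000 * (64 * L ^ 12 * (ep n r ^ 3 * Ln n r ^ 2 * r))) := by ring
      rw [h3]
      have h4 : 1 ≤ L / 1280000 := by
        rw [le_div_iff₀ (by norm_num)]
        linarith [show (1 : ℝ) * 1280000 ≤ 10 ^ 11 by norm_num]
      have h5 : 1 ≤ L / 1280000 * (64 * L ^ 12 * (ep n r ^ 3 * Ln n r ^ 2 * r)) :=
        one_le_mul_of_one_le_of_one_le h4 n9
      nlinarith
    · refine M5x.glue hG0 hS1 hS2 n hn1 r (ep n r) h5c (Kn n r) (Kcn n r) _ ?_ ?_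
      · intro x y hxy h
        exact hM2 n (by omega) r (by rw [hLe]; exact hr1) hr x y hxy h
      · intro x y hx hy h
        refine hM3 n (by omega) r (by rw [hLe]; exact hr1) hr2 (Kn n r) (Kcn n r) x y ?_ ?_ hx hy h
        · have : (1 : ℝ) ≤ Kn n r := by linarith
          exact_mod_cast this
        · have h6 : ep n r * Ln n r ^ 2 ≤ r := by
            refine n10.trans (div_le_self (by linarith) (one_le_pow₀ hL1))
          have h7 : ep n r * Ln n r ^ 2 * r ≤ r * r := mul_le_mul_of_nonneg_right h6 (by linarith)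
          have h8 : 0 ≤ r * r := by positivity
          nlinarith
  · -- large radius
    have h24 : (10 : ℝ) ^ 11 ≤ ep n r * r := by
      refine le_trans ?_ h5f
      have h1 : (L ^ 60 : ℝ) ^ (2 / 5 : ℝ) ≤ r ^ (2 / 5 : ℝ) :=
        Real.rpow_le_rpow (by positivity) hr1 (by norm_num)
      refine le_trans ?_ h1
      have h2 : (L ^ 60 : ℝ) ^ (2 / 5 : ℝ) = L ^ 24 := by
        rw [← Real.rpow_natCast, ← Real.rpow_natCast, ← Real.rpow_mul (by linarith)]
        norm_num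
      rw [h2]
      exact le_trans hL (le_self_pow₀ hL1 (by norm_num))
    have hbig : 2 ≤ ep n r * r / 1000 := by
      norm_num at h24
      linarith
    have hfl := M5x.floor_ge hbig
    have hKc1 : (1 : ℝ) ≤ (⌊ep n r * r / 1000⌋₊ : ℝ) := by linarith
    have hKcle : (⌊ep n r * r / 1000⌋₊ : ℝ) ≤ ep n r * r / 1000 := Nat.floor_le (by linarith)
    refine ⟨1, ⌊ep n r * r / 1000⌋₊, by exact_mod_cast hKc1, ?_, ?_⟩
    · rw [← h5a, div_le_iff₀ (by linarith)]
      have h2 : 0 ≤ L ^ 13 * (n * ep n r ^ 2) := by positivity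
      refine le_trans ?_ (mul_le_mul_of_nonneg_left hfl h2)
      have h3 : L ^ 13 * (n * ep n r ^ 2) * (ep n r * r / 1000 / 2) =
          n * (L ^ 13 / 2000 * (ep n r ^ 3 * r)) := by ring
      rw [h3]
      have h4 : (√n / 4000) ^ 2 ≤ r ^ 2 := by
        apply pow_le_pow_left₀ (by positivity) hr
      have h5 : (n : ℝ) / 16000000 ≤ r ^ 2 := by
        have : (√(n : ℝ)) ^ 2 = n := Real.sq_sqrt hn0.le
        rw [div_pow, this] at h4
        norm_num at h4
        linarith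
      have h6 : 1 / 16000000 ≤ ep n r ^ 3 * r := by
        have h7 : r / n * r ≤ ep n r ^ 3 * r := mul_le_mul_of_nonneg_right h5e (by linarith)
        have h8 : 1 / 16000000 ≤ r / n * r := by
          rw [div_mul_eq_mul_div, le_div_iff₀ hn0]
          nlinarith
        linarith
      have h9 : 32000000000 ≤ L ^ 13 := by
        have h10 : (10 : ℝ) ^ 11 ≤ L ^ 13 := le_trans hL (le_self_pow₀ hL1 (by norm_num))
        norm_num at h10
        linarith
      have h11 : 1 ≤ L ^ 13 / 2000 * (ep n r ^ 3 * r) := by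
        have h12 : 16000000 ≤ L ^ 13 / 2000 := by linarith
        nlinarith
      nlinarith
    · refine M5x.glue hG0 hS1 hS2 n hn1 r (ep n r) h5c 1 ⌊ep n r * r / 1000⌋₊ _ ?_ ?_
      · intro x y hxy h
        exact hM4 n (by omega) r hr hr2 x y hxy h
      · intro x y hx hy h
        refine hM3 n (by omega) r (by rw [hLe]; exact hr1) hr2 1 _ x y le_rfl ?_ hx hy h
        have h6 : ep n r * r ≤ r := by nlinarith
        nlinarith

end

end Pool.Agent.Helper59.RG
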