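import Pool.Agent.Helper59.RG.St2

/-!
# Project RG (MP_4d33fe_pr): assembly of the upper bound.
-/

set_option autoImplicit false

namespace Pool.Agent.Helper59.RG

open MeasureTheory Set Filter Topology
open scoped ENNReal

namespace Mainx

/-- from the space of the final statement to the product space -/
def g (n : ℕ) (X : Fin n → Pool.Agent.Helper42.MD.Pl) : Fin n → E := fun i => (X i 0, X i 1)

theorem measurable_g (n : ℕ) : Measurable (g n) := by
  unfold g
  refine measurable_pi_iff.2 fun i => ?_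
  fun_prop

theorem ind_le {p q : Prop} (h : p → q) : ind p ≤ ind q := by
  unfold ind
  by_cases hp : p
  · simp [hp, h hp]
  · simp [hp]

theorem ncard_le {n : ℕ} (S : Set (Fin n × Fin n)) :
    (S.ncard : ℝ≥0∞) ≤ ∑ i : Fin n, ∑ j : Fin n, ind ((i, j) ∈ S) := by
  classical
  rw [← Fintype.sum_prod_type (f := fun p : Fin n × Fin n => ind (p ∈ S))]
  rw [Set.ncard_eq_toFinset_card']
  have h : ∀ p : Fin n × Fin n, ind (p ∈ S) = if p ∈ S.toFinset then (1 : ℝ≥0∞) else 0 := by
    intro p
    unfold ind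
    by_cases hp : p ∈ S
    · simp [hp]
    · simp [hp]
  simp_rw [h]
  rw [Finset.sum_ite_mem, Finset.univ_inter]
  simp

theorem bad_le (hF2 : F2) (n : ℕ) (r : ℝ) (K Kc : ℕ) (X : Fin n → E) (G : SimpleGraph (Fin n))
    (hr : 0 ≤ r) (hG : ∀ a b, G.Adj a b ↔ a ≠ b ∧ nm (X a - X b) ≤ r) :
    (({p : Fin n × Fin n | p.1 < p.2 ∧ (sepl G p.1 p.2).ncard < Kc}.ncard : ℕ) : ℝ≥0∞) ≤
      bad n r K Kc X := by
  refine (ncard_le _).trans ?_
  unfold bad
  refine Finset.sum_le_sum fun i _ => Finset.sum_le_sum fun j _ => ind_le ?_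
  rintro ⟨h1, h2⟩
  exact ⟨h1, lt_of_le_of_lt (hF2 n K r X G i j hr h1.ne hG) h2⟩

theorem law_univ (hF5 : F5) (hP15 : P15) (n : ℕ) (hn : 1 ≤ n) :
    Pool.Agent.Helper42.MD.law n univ = 1 := by
  have h := congrArg (fun μ => μ univ) (hF5.1 n hn)
  have hp : 0 < √(n : ℝ) := Real.sqrt_pos.2 (by exact_mod_cast hn)
  have := (hP15 (√n) hp).1
  have h2 := Measure.map_apply (μ := Pool.Agent.Helper42.MD.law n) (measurable_g n)
    MeasurableSet.univ
  rw [preimage_univ] at h2
  rw [← h2]
  change Measure.map (fun X i => ((X i 0, X i 1) : E)) (Pool.Agent.Helper42.MD.law n) univ = 1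
  rw [hF5.1 n hn]
  exact measure_univ

/-- the main estimate for one `n` -/
theorem one (hM5 : M5) (hF1 : F1) (hF2 : F2) (hF4 : F4) (hF5 : F5) (hN5 : N5) (hP15 : P15) :
    ∃ n0 : ℕ, ∀ n : ℕ, n0 ≤ n → ∀ r : ℝ, 1 ≤ r → r ≤ √n / 4 →
      Pool.Agent.Helper42.MD.law n {X |
        (Pool.Agent.Helper42.MD.metricDim (Pool.Agent.Helper42.MD.geo r X) : ℝ) ≤
          Real.log n ^ 72 * XX n r}ᶜ ≤ ENNReal.ofReal (1 / Real.log n) := by
  obtain ⟨n1, h5⟩ := hM5
  obtain ⟨n2, hN⟩ := hN5
  have hlog : ∀ᶠ n : ℕ in atTop, 4 ≤ Real.log n :=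
    (Real.tendsto_log_atTop.comp tendsto_natCast_atTop_atTop).eventually_ge_atTop 4
  obtain ⟨n3, hl⟩ := eventually_atTop.1 hlog
  refine ⟨max (max n1 n2) (max n3 2), fun n hn r hr1 hr2 => ?_⟩
  have hn1 : n1 ≤ n := le_trans (le_trans (le_max_left _ _) (le_max_left _ _)) hn
  have hn2 : n2 ≤ n := le_trans (le_trans (le_max_right _ _) (le_max_left _ _)) hn
  have hn3 : n3 ≤ n := le_trans (le_trans (le_max_left _ _) (le_max_right _ _)) hn
  have hn4 : 2 ≤ n := le_trans (le_trans (le_max_right _ _) (le_max_right _ _)) hn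
  have hl4 : 4 ≤ Real.log n := hl n hn3
  have hl2 : 2 ≤ Real.log n := by linarith
  set l := Real.log n with hldef
  obtain ⟨e1, e2, e3, e4, e5, e6, e7⟩ := hN n hn2 r hr1 hr2
  by_cases hr : r < l ^ 60
  · have hall : {X | (Pool.Agent.Helper42.MD.metricDim (Pool.Agent.Helper42.MD.geo r X) : ℝ) ≤
          l ^ 72 * XX n r}ᶜ = (∅ : Set (Fin n → Pool.Agent.Helper42.MD.Pl)) := by
      rw [compl_empty_iff]
      ext X
      simp only [mem_univ, iff_true]
      have := hF5.2.2 n (Pool.Agent.Helper42.MD.geo r X)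
      have h' : (Pool.Agent.Helper42.MD.metricDim (Pool.Agent.Helper42.MD.geo r X) : ℝ) ≤ n := by
        exact_mod_cast this
      exact h'.trans (e7 hr)
    rw [hall, measure_empty]
    exact zero_le
  · push Not at hr
    obtain ⟨K, Kc, hKc, hK2, hK3⟩ := h5 n hn1 r hr hr2
    obtain ⟨hm, hi⟩ := hF4 n r (ep n r) K Kc hn4 e3 hK3
    have hp : 0 < √(n : ℝ) := Real.sqrt_pos.2 (by
      have : 0 < n := by omega
      exact_mod_cast this)
    have := (hP15 (√n) hp).1
    set D : ℝ := 2 * n * ep n r ^ 2 + 1 with hD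
    have hn0 : (0 : ℝ) < n := by
      have : 0 < n := by omega
      exact_mod_cast this
    have hDpos : 0 < D := by positivity
    have hlpos : 0 < l := by linarith
    -- Markov
    have hmk := meas_ge_le_lintegral_div (μ := Measure.pi fun _ : Fin n => mu (√n))
      (f := bad n r K Kc) hm.aemeasurable (ε := ENNReal.ofReal (l * D))
      (by simp only [ne_eq, ENNReal.ofReal_eq_zero, not_le]; positivity) ENNReal.ofReal_ne_top
    have hmk2 : (Measure.pi fun _ : Fin n => mu (√n)) {X | ENNReal.ofReal (l * D) ≤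
        bad n r K Kc X} ≤ ENNReal.ofReal (1 / l) := by
      refine hmk.trans ?_
      refine (ENNReal.div_le_div_right hi _).trans ?_
      rw [← ENNReal.ofReal_div_of_pos (by positivity)]
      refine ENNReal.ofReal_le_ofReal ?_
      apply le_of_eq
      field_simp
    -- inclusion
    have hincl : {X | (Pool.Agent.Helper42.MD.metricDim (Pool.Agent.Helper42.MD.geo r X) : ℝ) ≤
          l ^ 72 * XX n r}ᶜ ⊆ g n ⁻¹' {X | ENNReal.ofReal (l * D) ≤ bad n r K Kc X} := by
      intro X hX
      by_contra hcon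
      apply hX
      have hlt : bad n r K Kc (g n X) < ENNReal.ofReal (l * D) := by
        simpa using hcon
      have hb := bad_le hF2 n r K Kc (g n X) (Pool.Agent.Helper42.MD.geo r X) (by linarith)
        (by
          intro a b
          change (a ≠ b ∧ dist (X a) (X b) ≤ r) ↔ _
          rw [hF5.2.1]
          rfl)
      have hb2 := lt_of_le_of_lt hb hlt
      have hb3 : (({p : Fin n × Fin n | p.1 < p.2 ∧
          (sepl (Pool.Agent.Helper42.MD.geo r X) p.1 p.2).ncard < Kc}.ncard : ℕ) : ℝ) < l * D := by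
        rw [← ENNReal.ofReal_natCast] at hb2
        exact (ENNReal.ofReal_lt_ofReal_iff (by positivity)).1 hb2
      have hf1 := hF1 n (Pool.Agent.Helper42.MD.geo r X) Kc hn4 hKc
      have hx1 : D = 2 * XX n r + 1 := by rw [hD, ← e1]; ring
      have h1 : 2 * n * l / Kc ≤ 2 * l * (l ^ 13 * XX n r) := by
        have : 2 * n * l / Kc = 2 * l * (n / Kc) := by ring
        rw [this]
        exact mul_le_mul_of_nonneg_left hK2 (by positivity)
      change (Pool.Agent.Helper42.MD.metricDim (Pool.Agent.Helper42.MD.geo r X) : ℝ) ≤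
        l ^ 72 * XX n r
      have h2 : l ^ 15 ≤ l ^ 72 := pow_le_pow_right₀ (by linarith) (by norm_num)
      have h3 : (2 : ℝ) ^ 13 ≤ l ^ 13 := pow_le_pow_left₀ (by norm_num) hl2 13
      have hXX : 0 ≤ XX n r := by linarith
      calc (Pool.Agent.Helper42.MD.metricDim (Pool.Agent.Helper42.MD.geo r X) : ℝ)
          ≤ 2 * l * (l ^ 13 * XX n r) + 1 + l * D := by linarith
        _ ≤ 3 * l ^ 14 * XX n r + 1 * XX n r := by
            rw [hx1]
            have : l * (2 * XX n r + 1) ≤ l ^ 14 * XX n r := by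
              have : l * (2 * XX n r + 1) ≤ l * (3 * XX n r) := by
                apply mul_le_mul_of_nonneg_left _ hlpos.le
                linarith
              refine this.trans ?_
              have : l ^ 14 * XX n r = l * (l ^ 13 * XX n r) := by ring
              rw [this]
              apply mul_le_mul_of_nonneg_left _ hlpos.le
              apply mul_le_mul_of_nonneg_right _ hXX
              linarith
            nlinarith
        _ ≤ l ^ 15 * XX n r := by
            rw [← add_mul]
            apply mul_le_mul_of_nonneg_right _ hXX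
            have h4 : l ^ 15 = l * l ^ 14 := by ring
            have h5 : (1 : ℝ) ≤ l ^ 14 := one_le_pow₀ (by linarith)
            have h6 : 4 * l ^ 14 ≤ l * l ^ 14 := mul_le_mul_of_nonneg_right hl4 (by positivity)
            linarith
        _ ≤ l ^ 72 * XX n r := mul_le_mul_of_nonneg_right h2 hXX
    refine (measure_mono hincl).trans ?_
    have hmeas : MeasurableSet {X | ENNReal.ofReal (l * D) ≤ bad n r K Kc X} :=
      measurableSet_le measurable_const hm
    rw [← Measure.map_apply (measurable_g n) hmeas]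
    change Measure.map (fun X i => ((X i 0, X i 1) : E)) (Pool.Agent.Helper42.MD.law n) _ ≤ _
    rw [hF5.1 n (by omega)]
    exact hmk2

end Mainx

open Mainx in
theorem pf_Main (hM5 : M5) (hF1 : F1) (hF2 : F2) (hF4 : F4) (hF5 : F5) (hN5 : N5)
    (hP15 : P15) : Main := by
  intro r hr
  obtain ⟨n0, h⟩ := one hM5 hF1 hF2 hF4 hF5 hN5 hP15
  have hlim : Tendsto (fun n : ℕ => 1 - ENNReal.ofReal (1 / Real.log n)) atTop (𝓝 1) := by
    have h1 : Tendsto (fun n : ℕ => 1 / Real.log n) atTop (𝓝 0) := by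
      simp_rw [one_div]
      exact tendsto_inv_atTop_zero.comp (Real.tendsto_log_atTop.comp tendsto_natCast_atTop_atTop)
    have h2 : Tendsto (fun n : ℕ => ENNReal.ofReal (1 / Real.log n)) atTop (𝓝 0) := by
      have := (ENNReal.continuous_ofReal.tendsto 0).comp h1
      rw [ENNReal.ofReal_zero] at this
      exact this
    have h3 := ENNReal.Tendsto.sub (tendsto_const_nhds (x := (1 : ℝ≥0∞))) h2 (Or.inl ENNReal.one_ne_top)
    simpa using h3
  refine tendsto_of_tendsto_of_tendsto_of_le_of_le' hlim tendsto_const_nhds ?_ ?_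
  · filter_upwards [hr, eventually_ge_atTop (max n0 1)] with n hn hn0
    have hn1 : 1 ≤ n := le_trans (le_max_right _ _) hn0
    have h1 := h n (le_trans (le_max_left _ _) hn0) (r n) hn.1 hn.2
    have hu := law_univ hF5 hP15 n hn1
    rw [tsub_le_iff_right]
    set A := {X | (Pool.Agent.Helper42.MD.metricDim (Pool.Agent.Helper42.MD.geo (r n) X) : ℝ) ≤
      Real.log n ^ 72 * XX n (r n)}
    calc 1 = Pool.Agent.Helper42.MD.law n univ := hu.symm
      _ = Pool.Agent.Helper42.MD.law n (A ∪ Aᶜ) := by rw [union_compl_self]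
      _ ≤ Pool.Agent.Helper42.MD.law n A + Pool.Agent.Helper42.MD.law n Aᶜ := measure_union_le _ _
      _ ≤ _ := by gcongr
  · filter_upwards [eventually_ge_atTop 1] with n hn1
    have hu := law_univ hF5 hP15 n hn1
    exact (measure_mono (subset_univ _)).trans hu.le

end Pool.Agent.Helper59.RG
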