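import Pool.Agent.Helper59.RG.St2

/-!
# Project RG: facts about the parameters (piece N1).
-/

set_option autoImplicit false

namespace Pool.Agent.Helper59.RG

open MeasureTheory Set Filter Topology
open scoped ENNReal

noncomputable section

namespace N1x

theorem ev_big : ∃ n0 : ℕ, 1000 ≤ n0 ∧ ∀ n : ℕ, n0 ≤ n →
    500 ≤ Real.log n ∧ 64 ^ 3 * Real.log n ^ 150 ≤ (n : ℝ) := by
  have h1 : ∀ᶠ x : ℝ in atTop, 500 ≤ Real.log x := Real.tendsto_log_atTop.eventually_ge_atTop 500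
  have h2 : ∀ᶠ x : ℝ in atTop, 64 ^ 3 * Real.log x ^ 150 ≤ x := by
    have := (Real.tendsto_pow_log_div_mul_add_atTop 1 0 150 one_ne_zero).eventually
      (gt_mem_nhds (show (0 : ℝ) < 1 / 64 ^ 3 by norm_num))
    filter_upwards [this, eventually_gt_atTop (0 : ℝ)] with x hx hx0
    rw [div_lt_div_iff₀ (by linarith) (by norm_num)] at hx
    linarith
  have h3 := (tendsto_natCast_atTop_atTop (R := ℝ)).eventually (h1.and h2)
  obtain ⟨N, hN⟩ := eventually_atTop.1 h3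
  exact ⟨max N 1000, le_max_right _ _, fun n hn => hN n (le_trans (le_max_left _ _) hn)⟩

/-- substitution of roots -/
theorem core (n r l s t h : ℝ) (hl : 500 ≤ l) (hn : 64 ^ 3 * l ^ 150 ≤ n) (hr : l ^ 60 ≤ r)
    (hrn : r ≤ √n / 4000) (hs : 0 < s) (hsr : r = s ^ 45) (ht : 0 < t) (htr : t ^ 3 = r / n)
    (hh : 0 < h) (hh3 : h ^ 3 = 40000 * l ^ 2 / r) (ε L : ℝ) (hε : ε = max t (1 / s ^ 27))
    (hL : L = min (√n / (8 * r)) (min (ε * r / l ^ 6) (s ^ 20 / l ^ 4))) :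
    500 ≤ L ∧ 0 < ε ∧ ε ≤ 1 ∧ L ^ 3 * h / r ≤ 35 / l ^ 11 ∧ L ^ 3 * ε ≤ r / l ^ 12 ∧
    l ^ 50 ≤ ε * L ^ 2 * r ∧ 1 ≤ 64 * l ^ 12 * (ε ^ 3 * L ^ 2 * r) ∧ ε * L ^ 2 ≤ r / l ^ 8 ∧
    h ^ 3 * r = 40000 * l ^ 2 := by
  have hl0 : 0 < l := by linarith
  have hl1 : 1 ≤ l := by linarith
  have hr0 : 0 < r := lt_of_lt_of_le (pow_pos hl0 60) hr
  have hr1 : 1 ≤ r := le_trans (one_le_pow₀ hl1) hr
  have hn0 : 0 < n := lt_of_lt_of_le (by positivity) hn
  have hsq : √n * √n = n := Real.mul_self_sqrt hn0.le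
  have hsq0 : 0 < √n := Real.sqrt_pos.2 hn0
  have hr2 : r ^ 2 ≤ n := by
    have : r ≤ √n := by linarith
    calc r ^ 2 = r * r := by ring
      _ ≤ √n * √n := mul_le_mul this this hr0.le hsq0.le
      _ = n := hsq
  -- s
  have hs1 : 1 ≤ s := by
    by_contra hc
    push Not at hc
    have : s ^ 45 < 1 := pow_lt_one₀ hs.le hc (by norm_num)
    linarith
  have hs3 : l ^ 4 ≤ s ^ 3 := by
    refine le_of_pow_le_pow_left₀ (n := 15) (by norm_num) (by positivity) ?_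
    rw [← pow_mul, ← pow_mul]
    norm_num
    linarith
  have hs18 : l ^ 24 ≤ s ^ 18 := by
    have := pow_le_pow_left₀ (by positivity) hs3 6
    rw [← pow_mul, ← pow_mul] at this
    norm_num at this
    exact this
  have hs54 : l ^ 72 ≤ s ^ 54 := by
    have := pow_le_pow_left₀ (by positivity) hs3 18
    rw [← pow_mul, ← pow_mul] at this
    norm_num at this
    exact this
  -- ε
  have hε1 : t ≤ ε := hε ▸ le_max_left _ _
  have hε2 : 1 / s ^ 27 ≤ ε := hε ▸ le_max_right _ _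
  have hε0 : 0 < ε := lt_of_lt_of_le ht hε1
  have hst : s ^ 15 * t ≤ 1 := by
    have h3 : (s ^ 15 * t) ^ 3 ≤ 1 := by
      have : (s ^ 15 * t) ^ 3 = r ^ 2 / n := by
        rw [mul_pow, htr, ← pow_mul]
        norm_num
        rw [← hsr]
        ring
      rw [this, div_le_one hn0]
      exact hr2
    by_contra hc
    push Not at hc
    have : 1 < (s ^ 15 * t) ^ 3 := one_lt_pow₀ hc (by norm_num)
    linarith
  have hsε : s ^ 15 * ε ≤ 1 := by
    rw [hε, mul_max_of_nonneg _ _ (by positivity : (0 : ℝ) ≤ s ^ 15)]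
    refine max_le hst ?_
    rw [mul_one_div, div_le_one (by positivity)]
    exact pow_le_pow_right₀ hs1 (by norm_num)
  have hεle : ε ≤ 1 := by
    have : 1 ≤ s ^ 15 := one_le_pow₀ hs1
    nlinarith
  have hεs : 1 ≤ ε * s ^ 27 := by
    rw [div_le_iff₀ (by positivity)] at hε2
    exact hε2
  have hεr : s ^ 18 ≤ ε * r := by
    calc s ^ 18 = 1 * s ^ 18 := by ring
      _ ≤ (ε * s ^ 27) * s ^ 18 := mul_le_mul_of_nonneg_right hεs (by positivity)
      _ = ε * r := by rw [hsr]; ring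
  -- L
  have hLa : L ≤ √n / (8 * r) := hL ▸ min_le_left _ _
  have hLb : L ≤ ε * r / l ^ 6 := hL ▸ (min_le_right _ _).trans (min_le_left _ _)
  have hLc : L ≤ s ^ 20 / l ^ 4 := hL ▸ (min_le_right _ _).trans (min_le_right _ _)
  have h500 : 500 ≤ L := by
    rw [hL]
    refine le_min ?_ (le_min ?_ ?_)
    · rw [le_div_iff₀ (by positivity)]
      linarith
    · rw [le_div_iff₀ (by positivity)]
      calc 500 * l ^ 6 ≤ l * l ^ 6 := by gcongr
        _ = l ^ 7 := by ring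
        _ ≤ l ^ 24 := pow_le_pow_right₀ hl1 (by norm_num)
        _ ≤ s ^ 18 := hs18
        _ ≤ _ := hεr
    · rw [le_div_iff₀ (by positivity)]
      calc 500 * l ^ 4 ≤ l * l ^ 4 := by gcongr
        _ = l ^ 5 := by ring
        _ ≤ l ^ 24 := pow_le_pow_right₀ hl1 (by norm_num)
        _ ≤ s ^ 18 := hs18
        _ ≤ s ^ 20 := pow_le_pow_right₀ hs1 (by norm_num)
  have hL0 : 0 < L := by linarith
  have hL3 : L ^ 3 ≤ s ^ 60 / l ^ 12 := by
    have := pow_le_pow_left₀ hL0.le hLc 3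
    rw [div_pow, ← pow_mul, ← pow_mul] at this
    norm_num at this
    exact this
  have hL2 : L ^ 2 ≤ s ^ 40 / l ^ 8 := by
    have := pow_le_pow_left₀ hL0.le hLc 2
    rw [div_pow, ← pow_mul, ← pow_mul] at this
    norm_num at this
    exact this
  have hh3r : h ^ 3 * r = 40000 * l ^ 2 := by
    rw [hh3]
    field_simp
  have hhs : h * s ^ 15 ≤ 35 * l := by
    have h3 : (h * s ^ 15) ^ 3 ≤ (35 * l) ^ 3 := by
      have e1 : (h * s ^ 15) ^ 3 = 40000 * l ^ 2 := by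
        rw [mul_pow, ← pow_mul]
        norm_num
        rw [← hsr]
        exact hh3r
      rw [e1]
      have : 0 ≤ l ^ 2 := by positivity
      nlinarith
    exact le_of_pow_le_pow_left₀ (by norm_num) (by positivity) h3
  refine ⟨h500, hε0, hεle, ?_, ?_, ?_, ?_, ?_, hh3r⟩
  · calc L ^ 3 * h / r ≤ (s ^ 60 / l ^ 12) * h / r := by gcongr
      _ = (h * s ^ 15) / l ^ 12 := by
          rw [hsr]
          field_simp
      _ ≤ (35 * l) / l ^ 12 := by gcongr
      _ = 35 / l ^ 11 := by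
          field_simp
  · calc L ^ 3 * ε ≤ (s ^ 60 / l ^ 12) * ε := by gcongr
      _ = (s ^ 15 * ε) * (s ^ 45 / l ^ 12) := by ring
      _ ≤ 1 * (s ^ 45 / l ^ 12) := by gcongr
      _ = r / l ^ 12 := by rw [hsr]; ring
  · -- l ^ 50 ≤ ε L ^ 2 r
    have key : L = √n / (8 * r) ∨ L = ε * r / l ^ 6 ∨ L = s ^ 20 / l ^ 4 := by
      rw [hL]
      rcases min_choice (√n / (8 * r)) (min (ε * r / l ^ 6) (s ^ 20 / l ^ 4)) with h | h
      · exact Or.inl h
      · rw [h]
        rcases min_choice (ε * r / l ^ 6) (s ^ 20 / l ^ 4) with h' | h'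
        · exact Or.inr (Or.inl h')
        · exact Or.inr (Or.inr h')
    rcases key with hk | hk | hk
    · have e1 : ε * L ^ 2 * r = ε * n / (64 * r) := by
        rw [hk, div_pow, mul_pow, sq (√n), hsq]
        field_simp
        norm_num
      have e2 : 64 * l ^ 50 ≤ t * n / r := by
        refine le_of_pow_le_pow_left₀ (n := 3) (by norm_num) (by positivity) ?_
        have e3 : (t * n / r) ^ 3 = n ^ 2 / r ^ 2 := by
          rw [div_pow, mul_pow, htr]
          field_simp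
        rw [e3, mul_pow, ← pow_mul]
        refine le_trans hn ?_
        rw [le_div_iff₀ (by positivity)]
        nlinarith
      rw [e1, le_div_iff₀ (by positivity)]
      rw [le_div_iff₀ hr0] at e2
      have : t * n ≤ ε * n := by gcongr
      linarith
    · have e1 : ε * L ^ 2 * r = (ε * r) ^ 3 / l ^ 12 := by
        rw [hk]
        field_simp
      rw [e1, le_div_iff₀ (by positivity)]
      calc l ^ 50 * l ^ 12 = l ^ 62 := by ring
        _ ≤ l ^ 72 := pow_le_pow_right₀ hl1 (by norm_num)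
        _ ≤ s ^ 54 := hs54
        _ = (s ^ 18) ^ 3 := by ring
        _ ≤ (ε * r) ^ 3 := by gcongr
    · have e1 : ε * L ^ 2 * r = (ε * r) * s ^ 40 / l ^ 8 := by
        rw [hk]
        field_simp
      rw [e1, le_div_iff₀ (by positivity)]
      calc l ^ 50 * l ^ 8 = l ^ 58 := by ring
        _ ≤ l ^ 72 := pow_le_pow_right₀ hl1 (by norm_num)
        _ ≤ s ^ 54 := hs54
        _ ≤ s ^ 58 := pow_le_pow_right₀ hs1 (by norm_num)
        _ = s ^ 18 * s ^ 40 := by ring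
        _ ≤ (ε * r) * s ^ 40 := by gcongr
  · have key : L = √n / (8 * r) ∨ L = ε * r / l ^ 6 ∨ L = s ^ 20 / l ^ 4 := by
      rw [hL]
      rcases min_choice (√n / (8 * r)) (min (ε * r / l ^ 6) (s ^ 20 / l ^ 4)) with h | h
      · exact Or.inl h
      · rw [h]
        rcases min_choice (ε * r / l ^ 6) (s ^ 20 / l ^ 4) with h' | h'
        · exact Or.inr (Or.inl h')
        · exact Or.inr (Or.inr h')
    rcases key with hk | hk | hk
    · have e1 : 64 * l ^ 12 * (ε ^ 3 * L ^ 2 * r) = l ^ 12 * (ε ^ 3 * (n / r)) := by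
        rw [hk, div_pow, mul_pow, sq (√n), hsq]
        field_simp
        norm_num
      rw [e1]
      have e2 : 1 ≤ ε ^ 3 * (n / r) := by
        calc (1 : ℝ) = t ^ 3 * (n / r) := by
              rw [htr]
              field_simp
          _ ≤ ε ^ 3 * (n / r) := by gcongr
      have e3 : 1 ≤ l ^ 12 := one_le_pow₀ hl1
      nlinarith
    · have e1 : 64 * l ^ 12 * (ε ^ 3 * L ^ 2 * r) = 64 * (ε ^ 5 * r ^ 3) := by
        rw [hk]
        field_simp
      rw [e1]
      have e2 : 1 ≤ ε ^ 5 * r ^ 3 := by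
        calc (1 : ℝ) ≤ (ε * s ^ 27) ^ 5 := one_le_pow₀ hεs
          _ = ε ^ 5 * r ^ 3 := by rw [hsr]; ring
      linarith
    · have e1 : 64 * l ^ 12 * (ε ^ 3 * L ^ 2 * r) = 64 * l ^ 4 * (ε ^ 3 * s ^ 40 * r) := by
        rw [hk]
        field_simp
      rw [e1]
      have e2 : 1 ≤ ε ^ 3 * s ^ 40 * r := by
        calc (1 : ℝ) ≤ (ε * s ^ 27) ^ 3 := one_le_pow₀ hεs
          _ = ε ^ 3 * s ^ 81 := by ring
          _ ≤ ε ^ 3 * s ^ 85 := by
              exact mul_le_mul_of_nonneg_left (pow_le_pow_right₀ hs1 (by norm_num)) (by positivity)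
          _ = ε ^ 3 * s ^ 40 * r := by rw [hsr]; ring
      have e3 : 1 ≤ l ^ 4 := one_le_pow₀ hl1
      nlinarith
  · calc ε * L ^ 2 ≤ 1 * (s ^ 40 / l ^ 8) := by gcongr
      _ = s ^ 40 / l ^ 8 := one_mul _
      _ ≤ s ^ 45 / l ^ 8 :=
          div_le_div_of_nonneg_right (pow_le_pow_right₀ hs1 (by norm_num)) (by positivity)
      _ = r / l ^ 8 := by rw [hsr]

end N1x

theorem pf_N1 : N1 := by
  obtain ⟨n0, hn0, H⟩ := N1x.ev_big
  refine ⟨n0, hn0, fun n hn r hr hrn => ?_⟩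
  obtain ⟨hl, hb⟩ := H n hn
  have hl0 : 0 < Real.log n := by linarith
  have hr0 : 0 < r := lt_of_lt_of_le (pow_pos hl0 60) hr
  have hnpos : (0 : ℝ) < n := by
    have : 1000 ≤ n := hn0.trans hn
    exact_mod_cast lt_of_lt_of_le (by norm_num) this
  have hs0 : 0 < r ^ (1 / 45 : ℝ) := Real.rpow_pos_of_pos hr0 _
  have ht0 : 0 < (r / n) ^ (1 / 3 : ℝ) := Real.rpow_pos_of_pos (div_pos hr0 hnpos) _
  have hsr : r = (r ^ (1 / 45 : ℝ)) ^ 45 := by
    rw [← Real.rpow_natCast, ← Real.rpow_mul hr0.le]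
    norm_num
  have htr : ((r / n) ^ (1 / 3 : ℝ)) ^ 3 = r / n := by
    rw [← Real.rpow_natCast, ← Real.rpow_mul (div_pos hr0 hnpos).le]
    norm_num
  have hq0 : 0 < 40000 * Real.log n ^ 2 / r := by positivity
  have hh0 : 0 < Pool.Agent.Helper59.RG.hn n r := Real.rpow_pos_of_pos hq0 _
  have hh3 : Pool.Agent.Helper59.RG.hn n r ^ 3 = 40000 * Real.log n ^ 2 / r := by
    unfold Pool.Agent.Helper59.RG.hn
    rw [← Real.rpow_natCast, ← Real.rpow_mul hq0.le]
    norm_num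
  have hs27 : r ^ (-(3 / 5) : ℝ) = 1 / (r ^ (1 / 45 : ℝ)) ^ 27 := by
    rw [← Real.rpow_natCast, ← Real.rpow_mul hr0.le, one_div, ← Real.rpow_neg hr0.le]
    norm_num
  have hs20 : r ^ (4 / 9 : ℝ) = (r ^ (1 / 45 : ℝ)) ^ 20 := by
    rw [← Real.rpow_natCast, ← Real.rpow_mul hr0.le]
    norm_num
  have hε : ep n r = max ((r / n) ^ (1 / 3 : ℝ)) (1 / (r ^ (1 / 45 : ℝ)) ^ 27) := by
    rw [← hs27]
    rfl
  have hL : Ln n r = min (√n / (8 * r)) (min (ep n r * r / Real.log n ^ 6)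
      ((r ^ (1 / 45 : ℝ)) ^ 20 / Real.log n ^ 4)) := by
    rw [← hs20]
    rfl
  obtain ⟨c1, c2, c3, c4, c5, c6, c7, c8, c9⟩ := N1x.core n r (Real.log n) _ _ _ hl hb hr hrn hs0
    hsr ht0 htr hh0 hh3 (ep n r) (Ln n r) hε hL
  have hK : (2 : ℝ) * (Ln n r * r) / r = 2 * Ln n r := by
    field_simp
  refine ⟨c1, min_le_left _ _, (min_le_right _ _).trans (min_le_left _ _), c2, c3, c4, c5, c6, c7,
    c8, c9, hh0, ?_, ?_⟩
  · have := Nat.ceil_lt_add_one (a := 2 * Ln n r) (by linarith)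
    unfold Kn
    rw [hK]
    linarith
  · unfold Kn
    rw [hK]
    exact Nat.le_ceil _

end

end Pool.Agent.Helper59.RG
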