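import Pool.Agent.Helper59.RG.St2

/-!
# Project RG (MP_4d33fe_pr): piece N2, the case of large distances.
-/

set_option autoImplicit false

namespace Pool.Agent.Helper59.RG

open MeasureTheory Set Filter Topology
open scoped ENNReal

noncomputable section

namespace N2x

/-- the square root term -/
lemma sqrtTerm {l L h r K : ℝ} (hl : 10000 ≤ l) (hL : 500 ≤ L) (hr : 0 < r)
    (h2 : L ^ 3 * h / r ≤ 35 / l ^ 11) (hh : 0 < h)
    (hK : K ≤ 2002 / 1000 * L) (hK0 : 0 ≤ K) :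
    l * L * √(K * h / r) ≤ 1 / 10000000 := by
  have hl0 : 0 < l := by linarith
  have hL0 : 0 < L := by linarith
  have hq : 0 ≤ K * h / r := by positivity
  have h1 : l * L * √(K * h / r) = √((l * L) ^ 2 * (K * h / r)) := by
    rw [Real.sqrt_mul (by positivity), Real.sqrt_sq (by positivity)]
  rw [h1]
  apply Real.sqrt_le_iff.mpr
  refine ⟨by norm_num, ?_⟩
  have h3 : K * h / r ≤ 2002 / 1000 * L * h / r := by
    apply div_le_div_of_nonneg_right _ hr.le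
    exact mul_le_mul_of_nonneg_right hK hh.le
  have h4 : (l * L) ^ 2 * (K * h / r) ≤ (l * L) ^ 2 * (2002 / 1000 * L * h / r) :=
    mul_le_mul_of_nonneg_left h3 (by positivity)
  have h5 : (l * L) ^ 2 * (2002 / 1000 * L * h / r) = 2002 / 1000 * l ^ 2 * (L ^ 3 * h / r) := by
    ring
  have h6 : 2002 / 1000 * l ^ 2 * (L ^ 3 * h / r) ≤ 2002 / 1000 * l ^ 2 * (35 / l ^ 11) :=
    mul_le_mul_of_nonneg_left h2 (by positivity)
  have h7 : 2002 / 1000 * l ^ 2 * (35 / l ^ 11) = (2002 / 1000 * 35) / l ^ 9 := by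
    field_simp
  have h8 : (10000 : ℝ) ^ 9 ≤ l ^ 9 := pow_le_pow_left₀ (by norm_num) hl 9
  have h9 : (2002 / 1000 * 35) / l ^ 9 ≤ (2002 / 1000 * 35) / (10000 : ℝ) ^ 9 :=
    div_le_div_of_nonneg_left (by norm_num) (by norm_num) h8
  have h10 : (2002 / 1000 * 35 : ℝ) / (10000 : ℝ) ^ 9 ≤ (1 / 10000000) ^ 2 := by norm_num
  linarith

/-- the linear term -/
lemma linTerm {l L e r p : ℝ} (hl : 10000 ≤ l) (hL : 500 ≤ L) (hr : l ^ 60 ≤ r)
    (h1 : L ≤ e * r / l ^ 6) (he1 : e ≤ 1)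
    (h3 : L ^ 3 * e ≤ r / l ^ 12)
    (hp : p ≤ e * L ^ 2 / 100 + 1000 * l / r) :
    l * L * (p / r) ≤ 1 / 100000000 := by
  have hl0 : 0 < l := by linarith
  have hL0 : 0 < L := by linarith
  have hr0 : 0 < r := lt_of_lt_of_le (by positivity) hr
  have a1 : l * L * (p / r) ≤ l * L * ((e * L ^ 2 / 100 + 1000 * l / r) / r) := by
    apply mul_le_mul_of_nonneg_left _ (by positivity)
    exact div_le_div_of_nonneg_right hp hr0.le
  have a2 : l * L * ((e * L ^ 2 / 100 + 1000 * l / r) / r) =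
      l / 100 / r * (L ^ 3 * e) + 1000 * l ^ 2 / r ^ 2 * L := by
    field_simp
  have a3 : l / 100 / r * (L ^ 3 * e) ≤ l / 100 / r * (r / l ^ 12) :=
    mul_le_mul_of_nonneg_left h3 (by positivity)
  have a4 : l / 100 / r * (r / l ^ 12) = 1 / 100 / l ^ 11 := by
    field_simp
  have a5 : L ≤ r / l ^ 6 := by
    refine h1.trans ?_
    apply div_le_div_of_nonneg_right _ (by positivity)
    nlinarith
  have a6 : 1000 * l ^ 2 / r ^ 2 * L ≤ 1000 * l ^ 2 / r ^ 2 * (r / l ^ 6) :=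
    mul_le_mul_of_nonneg_left a5 (by positivity)
  have a7 : 1000 * l ^ 2 / r ^ 2 * (r / l ^ 6) = 1000 / (l ^ 4 * r) := by
    field_simp
  have b1 : (10000 : ℝ) ^ 11 ≤ l ^ 11 := pow_le_pow_left₀ (by norm_num) hl 11
  have b2 : 1 / 100 / l ^ 11 ≤ 1 / 100 / (10000 : ℝ) ^ 11 :=
    div_le_div_of_nonneg_left (by norm_num) (by norm_num) b1
  have b3 : (10000 : ℝ) ^ 4 ≤ l ^ 4 := pow_le_pow_left₀ (by norm_num) hl 4
  have b4 : (1 : ℝ) ≤ l ^ 60 := one_le_pow₀ (by linarith)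
  have b5 : (10000 : ℝ) ^ 4 * 1 ≤ l ^ 4 * r :=
    mul_le_mul b3 (b4.trans hr) (by norm_num) (by positivity)
  have b6 : 1000 / (l ^ 4 * r) ≤ 1000 / ((10000 : ℝ) ^ 4 * 1) :=
    div_le_div_of_nonneg_left (by norm_num) (by norm_num) b5
  have b7 : (1 / 100 : ℝ) / 10000 ^ 11 + 1000 / (10000 ^ 4 * 1) ≤ 1 / 100000000 := by norm_num
  linarith

/-- the main estimate -/
lemma key {l L e h r p K : ℝ} (hl : 10000 ≤ l) (hL : 500 ≤ L) (hr : l ^ 60 ≤ r)
    (h1 : L ≤ e * r / l ^ 6) (he0 : 0 < e) (he1 : e ≤ 1)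
    (h2 : L ^ 3 * h / r ≤ 35 / l ^ 11) (h3 : L ^ 3 * e ≤ r / l ^ 12)
    (h4 : l ^ 50 ≤ e * L ^ 2 * r) (hh : 0 < h)
    (hK : K ≤ 2002 / 1000 * L) (hK0 : 0 ≤ K) (hp1 : e ≤ p) (hp2 : h ≤ p)
    (hp : p ≤ e * L ^ 2 / 100 + 1000 * l / r) :
    50 * (2 * (K ^ 2 * r * (K * h + p) * (3 * (2 * √(K * h / r) + 8 * p / r))) + 20 * l + 1) * l ≤
      7 / 5000 * (p * (L * r) ^ 2 / r) := by
  have hl0 : 0 < l := by linarith
  have hL0 : 0 < L := by linarith
  have hr0 : 0 < r := lt_of_lt_of_le (by positivity) hr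
  have hp0 : 0 < p := lt_of_lt_of_le he0 hp1
  have s1 := sqrtTerm hl hL hr0 h2 hh hK hK0
  have s2 := linTerm hl hL hr h1 he1 h3 hp
  set D := 3 * (2 * √(K * h / r) + 8 * p / r) with hD
  have hD0 : 0 ≤ D := by positivity
  have hDL : l * L * D ≤ 1 / 1000000 := by
    have : l * L * D = 6 * (l * L * √(K * h / r)) + 24 * (l * L * (p / r)) := by
      rw [hD]; ring
    rw [this]
    linarith
  have hK2 : K ^ 2 ≤ (2002 / 1000 * L) ^ 2 := pow_le_pow_left₀ hK0 hK 2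
  have hKh : K * h + p ≤ 2004 / 1000 * L * p := by
    have t1 : K * h ≤ 2002 / 1000 * L * p := mul_le_mul hK hp2 hh.le (by positivity)
    have t2 : p ≤ 2 / 1000 * L * p := by nlinarith
    linarith
  have m1 : K ^ 2 * r * (K * h + p) * D ≤
      (2002 / 1000 * L) ^ 2 * r * (2004 / 1000 * L * p) * D := by
    apply mul_le_mul_of_nonneg_right _ hD0
    apply mul_le_mul _ hKh (by positivity) (by positivity)
    exact mul_le_mul_of_nonneg_right hK2 hr0.le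
  have m2 : (2002 / 1000 * L) ^ 2 * r * (2004 / 1000 * L * p) * D * l =
      (2002 / 1000) ^ 2 * (2004 / 1000) * (p * L ^ 2 * r) * (l * L * D) := by ring
  have m3 : (2002 / 1000) ^ 2 * (2004 / 1000) * (p * L ^ 2 * r) * (l * L * D) ≤
      (2002 / 1000) ^ 2 * (2004 / 1000) * (p * L ^ 2 * r) * (1 / 1000000) :=
    mul_le_mul_of_nonneg_left hDL (by positivity)
  have m4 : K ^ 2 * r * (K * h + p) * D * l ≤
      (2002 / 1000) ^ 2 * (2004 / 1000) * (p * L ^ 2 * r) * (1 / 1000000) := by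
    calc K ^ 2 * r * (K * h + p) * D * l ≤
        (2002 / 1000 * L) ^ 2 * r * (2004 / 1000 * L * p) * D * l :=
          mul_le_mul_of_nonneg_right m1 hl0.le
      _ ≤ _ := by rw [m2]; exact m3
  have e1 : e * L ^ 2 * r ≤ p * L ^ 2 * r := by
    apply mul_le_mul_of_nonneg_right _ hr0.le
    exact mul_le_mul_of_nonneg_right hp1 (by positivity)
  have e2 : l ^ 2 * (10000 : ℝ) ^ 48 ≤ l ^ 50 := by
    have : l ^ 50 = l ^ 2 * l ^ 48 := by ring
    rw [this]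
    apply mul_le_mul_of_nonneg_left _ (by positivity)
    exact pow_le_pow_left₀ (by norm_num) hl 48
  have e3 : 50 * (20 * l + 1) * l ≤ 1050 * l ^ 2 := by nlinarith
  have e4 : 1050 * l ^ 2 ≤ 1 / 10000 * (p * L ^ 2 * r) := by
    have t : 1050 * l ^ 2 ≤ 1 / 10000 * (l ^ 2 * (10000 : ℝ) ^ 48) := by
      have : (0 : ℝ) < l ^ 2 := by positivity
      nlinarith
    linarith
  have g : 7 / 5000 * (p * (L * r) ^ 2 / r) = 7 / 5000 * (p * L ^ 2 * r) := by
    field_simp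
  rw [g]
  have hX : 0 < p * L ^ 2 * r := by positivity
  have fin : 50 * (2 * (K ^ 2 * r * (K * h + p) * D) + 20 * l + 1) * l =
      100 * (K ^ 2 * r * (K * h + p) * D * l) + 50 * (20 * l + 1) * l := by ring
  rw [fin]
  nlinarith

end N2x

/-- piece N2 -/
theorem pf_N2 (hN1 : N1) : N2 := by
  obtain ⟨n0, hn0, H⟩ := hN1
  refine ⟨max n0 ⌈Real.exp 10000⌉₊, ?_⟩
  intro n hnn r hr1 hr2 x y c hc hd1 hd2 hd3
  obtain ⟨a1, a2, a3, a4, a5, a6, a7, a8, a9, a10, a11, a12, a13, a14⟩ :=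
    H n (le_trans (le_max_left _ _) hnn) r hr1 hr2
  have hl : (10000 : ℝ) ≤ Real.log n := by
    have h1 : Real.exp 10000 ≤ n := by
      refine (Nat.le_ceil _).trans ?_
      exact_mod_cast le_trans (le_max_right _ _) hnn
    have h2 := Real.log_le_log (Real.exp_pos _) h1
    rwa [Real.log_exp] at h2
  have hl0 : 0 < Real.log n := by linarith
  have hr0 : 0 < r := lt_of_lt_of_le (by positivity) hr1
  have hp : nm (x - y) ≤ ep n r * Ln n r ^ 2 / 100 + 1000 * Real.log n / r := by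
    refine hd3.trans ?_
    have h1 : (Kcn n r : ℝ) ≤ 1 / 10000 * (ep n r * Ln n r ^ 2 * r) := by
      apply Nat.floor_le
      positivity
    have h2 : 100 * ((Kcn n r : ℝ) + 10 * Real.log n) / r ≤
        100 * (1 / 10000 * (ep n r * Ln n r ^ 2 * r) + 10 * Real.log n) / r := by
      apply div_le_div_of_nonneg_right _ hr0.le
      linarith
    refine h2.trans (le_of_eq ?_)
    field_simp
    ring
  have hk := N2x.key hl a1 hr1 a3 a4 a5 a6 a7 a8 a12 a13 (Nat.cast_nonneg _) hd1 hd2 hp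
  have hK : c.K = Kn n r := by rw [hc]; rfl
  have hh : c.h = hn n r := by rw [hc]; rfl
  have hrr : c.r = r := by rw [hc]; rfl
  have hR : c.R = Ln n r * r := by rw [hc]; rfl
  have hrho : c.rho = nm (x - y) := by rw [hc]; rfl
  have hDe : c.De = 3 * (2 * √((Kn n r : ℝ) * hn n r / r) + 8 * nm (x - y) / r) := by
    rw [hc]; rfl
  rw [hK, hh, hrr, hR, hrho, hDe]
  set Q : ℝ := 2 * ((Kn n r : ℝ) ^ 2 * r * ((Kn n r : ℝ) * hn n r + nm (x - y)) *
    (3 * (2 * √((Kn n r : ℝ) * hn n r / r) + 8 * nm (x - y) / r))) + 20 * Real.log n with hQ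
  have hp0 : 0 < nm (x - y) := lt_of_lt_of_le a4 hd1
  have hQ0 : 0 < Q := by positivity
  refine ⟨⌈Q⌉₊, Nat.one_le_iff_ne_zero.mpr (Nat.ceil_pos.mpr hQ0).ne', Nat.le_ceil _, ?_⟩
  have hM : (⌈Q⌉₊ : ℝ) ≤ Q + 1 := (Nat.ceil_lt_add_one hQ0.le).le
  refine le_trans ?_ hk
  apply mul_le_mul_of_nonneg_right _ hl0.le
  linarith

end

end Pool.Agent.Helper59.RG
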