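import Pool.Agent.Helper59.RG.St2

/-!
# Project RG, piece N3: the case of small distances (parameters).
-/

set_option autoImplicit false

namespace Pool.Agent.Helper59.RG

namespace N3x

/-- the product of the angle scale and `r h` -/
lemma trh {h r l : ℝ} (hh : 0 < h) (hr : 0 < r) (hl : 0 < l) (H : h ^ 3 * r = 40000 * l ^ 2) :
    √(3 * h / r) * (r * h) ≤ 3465 / 10 * l := by
  have h1 : (√(3 * h / r) * (r * h)) ^ 2 = 3 * (h ^ 3 * r) := by
    rw [mul_pow, Real.sq_sqrt (by positivity)]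
    field_simp
  rw [← pow_le_pow_iff_left₀ (by positivity) (by positivity) two_ne_zero, h1, H]
  nlinarith [sq_nonneg l]

/-- the second factor -/
lemma fac2 {l L r h rho K cl : ℝ} (hl : 10 ^ 6 ≤ l) (hL : 500 ≤ L) (hr : 0 < r) (hh : 0 < h)
    (hrho : 0 ≤ rho) (hrh : rho ≤ h) (hK0 : 0 ≤ K) (hK : K ≤ 2002 / 1000 * L)
    (hcl : cl ≤ 2 * l) (H : h ^ 3 * r = 40000 * l ^ 2) :
    4 * (cl * (2 * √((2 * h + rho) / r)) * (K ^ 2 * r * (K * h + rho))) + 20 * l + 1 ≤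
      44800 * l ^ 2 * L ^ 3 := by
  have hl0 : 0 < l := by linarith
  have hL0 : 0 < L := by linarith
  have hs : √((2 * h + rho) / r) ≤ √(3 * h / r) := by
    apply Real.sqrt_le_sqrt
    gcongr
    linarith
  have hKK : K ^ 2 ≤ 401 / 100 * L ^ 2 := by
    have : K ^ 2 ≤ (2002 / 1000 * L) ^ 2 := by gcongr
    nlinarith [sq_nonneg L]
  have hKh : K * h + rho ≤ 2004 / 1000 * L * h := by
    have h1 : K * h ≤ 2002 / 1000 * L * h := by gcongr
    have h2 : rho ≤ L / 500 * h := by nlinarith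
    linarith
  have h3 : K ^ 2 * r * (K * h + rho) ≤ 401 / 100 * L ^ 2 * r * (2004 / 1000 * L * h) := by
    gcongr
  have h4 := trh hh hr hl0 H
  have h5 : cl * (2 * √((2 * h + rho) / r)) * (K ^ 2 * r * (K * h + rho)) ≤
      (2 * l) * (2 * √(3 * h / r)) * (401 / 100 * L ^ 2 * r * (2004 / 1000 * L * h)) := by
    gcongr
  have h6 : (2 * l) * (2 * √(3 * h / r)) * (401 / 100 * L ^ 2 * r * (2004 / 1000 * L * h)) =
      (4 * (401 / 100) * (2004 / 1000)) * (l * L ^ 3) * (√(3 * h / r) * (r * h)) := by ring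
  have h7 : (4 * (401 / 100) * (2004 / 1000)) * (l * L ^ 3) * (√(3 * h / r) * (r * h)) ≤
      (4 * (401 / 100) * (2004 / 1000)) * (l * L ^ 3) * (3465 / 10 * l) := by gcongr
  have h8 : 20 * l + 1 ≤ l ^ 2 * L ^ 3 := by
    have e1 : (1 : ℝ) ≤ L ^ 3 := one_le_pow₀ (by linarith)
    have e2 : l ^ 2 * 1 ≤ l ^ 2 * L ^ 3 := by gcongr
    nlinarith
  have h9 : 0 < l ^ 2 * L ^ 3 := by positivity
  nlinarith

/-- the first factor -/
lemma fac1 {l L r h rho K e : ℝ} (hl : 10 ^ 6 ≤ l) (hL : 500 ≤ L) (hr : 0 < r) (hh : 0 < h)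
    (he : 0 < e) (hrho : e ≤ rho) (hrh : rho ≤ h) (hK0 : 0 ≤ K) (hK : K ≤ 2002 / 1000 * L)
    (H1 : L ^ 3 * h / r ≤ 35 / l ^ 11) (H2 : L ≤ e * r / l ^ 6) :
    2240000 * l ^ 3 * L * (4 * (3 * (2 * √(K * h / r) + 8 * rho / r) * rho * r) + 20 * l + 1) ≤
      7 / 5000 * (rho * r) := by
  have hl0 : 0 < l := by linarith
  have hL0 : 0 < L := by linarith
  have hrho0 : 0 < rho := by linarith
  have ha : l ^ 3 * (L * √(K * h / r)) ≤ 5 / 10 ^ 12 := by
    rw [← pow_le_pow_iff_left₀ (by positivity) (by positivity) two_ne_zero]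
    have e1 : (l ^ 3 * (L * √(K * h / r))) ^ 2 = l ^ 6 * (L ^ 2 * (K * h / r)) := by
      rw [mul_pow, mul_pow, Real.sq_sqrt (by positivity)]
      ring
    have e2 : L ^ 2 * (K * h / r) ≤ 2002 / 1000 * (L ^ 3 * h / r) := by
      have : L ^ 2 * (K * h / r) ≤ L ^ 2 * ((2002 / 1000 * L) * h / r) := by gcongr
      calc _ ≤ _ := this
        _ = _ := by ring
    have e3 : L ^ 2 * (K * h / r) ≤ 71 / l ^ 11 := by
      have : 2002 / 1000 * (L ^ 3 * h / r) ≤ 2002 / 1000 * (35 / l ^ 11) := by gcongr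
      have e5 : (2002 : ℝ) / 1000 * (35 / l ^ 11) = (2002 / 1000 * 35) / l ^ 11 := by ring
      have e6 : ((2002 : ℝ) / 1000 * 35) / l ^ 11 ≤ 71 / l ^ 11 := by
        gcongr
        norm_num
      linarith
    rw [e1]
    have e4 : l ^ 6 * (L ^ 2 * (K * h / r)) ≤ l ^ 6 * (71 / l ^ 11) := by gcongr
    have e5 : l ^ 6 * (71 / l ^ 11) = 71 / l ^ 5 := by
      field_simp
    have e6 : 71 / l ^ 5 ≤ 71 / (10 ^ 6) ^ 5 := by gcongr
    have e7 : (71 : ℝ) / (10 ^ 6) ^ 5 ≤ (5 / 10 ^ 12) ^ 2 := by norm_num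
    linarith
  have hb : l ^ 3 * (L * (rho / r)) ≤ 1 / 10 ^ 20 := by
    have e1 : L * (rho / r) ≤ L ^ 3 * h / r := by
      have : L * (rho / r) ≤ L ^ 3 * (h / r) := by
        have : L ≤ L ^ 3 := by
          calc L = L ^ 1 := (pow_one L).symm
            _ ≤ L ^ 3 := pow_le_pow_right₀ (by linarith) (by norm_num)
        gcongr
      calc _ ≤ _ := this
        _ = _ := by ring
    have e2 : l ^ 3 * (L * (rho / r)) ≤ l ^ 3 * (35 / l ^ 11) := by
      gcongr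
      linarith
    have e3 : l ^ 3 * (35 / l ^ 11) = 35 / l ^ 8 := by
      field_simp
    have e6 : 35 / l ^ 8 ≤ 35 / (10 ^ 6) ^ 8 := by gcongr
    have e7 : (35 : ℝ) / (10 ^ 6) ^ 8 ≤ 1 / 10 ^ 20 := by norm_num
    linarith
  have hc : l ^ 4 * L ≤ rho * r / 10 ^ 12 := by
    have e1 : l ^ 4 * L ≤ l ^ 4 * (e * r / l ^ 6) := by gcongr
    have e2 : l ^ 4 * (e * r / l ^ 6) = e * r / l ^ 2 := by
      field_simp
    have e3 : e * r / l ^ 2 ≤ rho * r / (10 ^ 6) ^ 2 := by gcongr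
    have e4 : ((10 : ℝ) ^ 6) ^ 2 = 10 ^ 12 := by norm_num
    rw [e4] at e3
    linarith
  have hd : l ^ 3 * L ≤ l ^ 4 * L := by
    have : l ^ 3 ≤ l ^ 4 := pow_le_pow_right₀ (by linarith) (by norm_num)
    gcongr
  have hid : 2240000 * l ^ 3 * L *
      (4 * (3 * (2 * √(K * h / r) + 8 * rho / r) * rho * r) + 20 * l + 1) =
      2240000 * 24 * (l ^ 3 * (L * √(K * h / r))) * (rho * r) +
      2240000 * 96 * (l ^ 3 * (L * (rho / r))) * (rho * r) +
      2240000 * 20 * (l ^ 4 * L) + 2240000 * (l ^ 3 * L) := by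
    ring
  rw [hid]
  have hrr : 0 < rho * r := by positivity
  have f1 : 2240000 * 24 * (l ^ 3 * (L * √(K * h / r))) * (rho * r) ≤
      2240000 * 24 * (5 / 10 ^ 12) * (rho * r) := by gcongr
  have f2 : 2240000 * 96 * (l ^ 3 * (L * (rho / r))) * (rho * r) ≤
      2240000 * 96 * (1 / 10 ^ 20) * (rho * r) := by gcongr
  nlinarith

/-- the binary logarithm of the number of steps -/
lemma clog_le {n K : ℕ} (hn : 10 ^ 6 ≤ Real.log n) (hK : K + 1 ≤ n) :
    (Nat.clog 2 (K + 1) : ℝ) ≤ 2 * Real.log n := by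
  have h0 : (0 : ℝ) < n := by
    by_contra h
    have : (n : ℝ) = 0 := le_antisymm (not_lt.mp h) (Nat.cast_nonneg n)
    rw [this, Real.log_zero] at hn
    norm_num at hn
  have h1 : Nat.clog 2 (K + 1) ≤ Nat.clog 2 n := Nat.clog_mono_right 2 hK
  have h2 : (Nat.clog 2 n : ℝ) ≤ Real.logb 2 n + 1 := by
    have h3 : Nat.clog 2 n = ⌈Real.logb 2 n⌉₊ := by
      have := Real.natCeil_logb_natCast 2 n
      exact_mod_cast this.symm
    rw [h3]
    exact (Nat.ceil_lt_add_one (Real.logb_nonneg (by norm_num) (by exact_mod_cast h0))).le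
  have h4 : Real.logb 2 n ≤ 3 / 2 * Real.log n := by
    rw [Real.logb, div_le_iff₀ (Real.log_pos (by norm_num))]
    have := Real.log_two_gt_d9
    nlinarith
  have h5 : (Nat.clog 2 (K + 1) : ℝ) ≤ Nat.clog 2 n := by exact_mod_cast h1
  linarith

end N3x

theorem pf_N3 (hN1 : N1) : N3 := by
  obtain ⟨n1, hn1, H⟩ := hN1
  refine ⟨max n1 ⌈Real.exp (10 ^ 6)⌉₊, fun n hnm r hr1 hr2 x y c hc hxy1 hxy2 => ?_⟩
  have hnn1 : n1 ≤ n := le_trans (le_max_left _ _) hnm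
  have hnn2 : ⌈Real.exp (10 ^ 6)⌉₊ ≤ n := le_trans (le_max_right _ _) hnm
  have hexp : Real.exp (10 ^ 6) ≤ n := Nat.ceil_le.mp hnn2
  have hl : (10 : ℝ) ^ 6 ≤ Real.log n := by
    rw [Real.le_log_iff_exp_le (lt_of_lt_of_le (Real.exp_pos _) hexp)]
    exact hexp
  obtain ⟨a1, a2, a3, a4, a5, a6, a7, a8, a9, a10, a11, a12, a13, a14⟩ := H n hnn1 r hr1 hr2
  have hl0 : 0 < Real.log n := by linarith
  have hr0 : 0 < r := lt_of_lt_of_le (by positivity) hr1
  have hr1' : 1 ≤ r := le_trans (one_le_pow₀ (by linarith)) hr1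
  have hnpos : (1 : ℝ) ≤ n := by
    have : (1 : ℝ) ≤ Real.exp (10 ^ 6) := Real.one_le_exp (by norm_num)
    linarith
  have hL0 : 0 < Ln n r := by linarith
  -- the number of steps
  have hKn : Kn n r + 1 ≤ n := by
    have h1 : (Kn n r : ℝ) + 1 ≤ n := by
      have h2 : Ln n r ≤ √n / 8 := by
        refine a2.trans ?_
        gcongr
        linarith
      have h3 : √(n : ℝ) ≤ n := by
        rw [Real.sqrt_le_left (by positivity)]
        nlinarith
      have h4 : (10 : ℝ) ≤ n := by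
        have := Real.log_le_sub_one_of_pos (show (0 : ℝ) < n by linarith)
        linarith
      linarith
    exact_mod_cast h1
  subst hc
  have hrr : (cxn n r x y).rho = nm (x - y) := rfl
  have hrho0 : 0 < nm (x - y) := lt_of_lt_of_le a4 hxy1
  have hK0 : (0 : ℝ) ≤ (Kn n r : ℝ) := Nat.cast_nonneg _
  have hcl := N3x.clog_le hl hKn
  have F1 := N3x.fac1 (l := Real.log n) (L := Ln n r) (r := r) (h := hn n r) (rho := nm (x - y))
    (K := (Kn n r : ℝ)) (e := ep n r) hl a1 hr0 a12 a4 hxy1 hxy2.le hK0 a13 a6 a3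
  have F2 := N3x.fac2 (l := Real.log n) (L := Ln n r) (r := r) (h := hn n r) (rho := nm (x - y))
    (K := (Kn n r : ℝ)) (cl := (Nat.clog 2 (Kn n r + 1) : ℝ)) hl a1 hr0 a12 hrho0.le hxy2.le hK0
    a13 hcl a11
  have eDe : (cxn n r x y).De =
      3 * (2 * √((Kn n r : ℝ) * hn n r / r) + 8 * nm (x - y) / r) := rfl
  have eh : (cxn n r x y).h = hn n r := rfl
  have er : (cxn n r x y).r = r := rfl
  have eK : (cxn n r x y).K = Kn n r := rfl
  have eR : (cxn n r x y).R = Ln n r * r := rfl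
  rw [eDe, eh, er, eK, eR, hrr]
  set u : ℝ := 4 * (3 * (2 * √((Kn n r : ℝ) * hn n r / r) + 8 * nm (x - y) / r) * nm (x - y) * r) +
    20 * Real.log n with hu
  set w : ℝ := 4 * ((Nat.clog 2 (Kn n r + 1) : ℝ) * (2 * √((2 * hn n r + nm (x - y)) / r)) *
      ((Kn n r : ℝ) ^ 2 * r * (Kn n r * hn n r + nm (x - y)))) + 20 * Real.log n with hw
  have hu0 : 0 < u := by
    rw [hu]
    have : 0 ≤ 4 * (3 * (2 * √((Kn n r : ℝ) * hn n r / r) + 8 * nm (x - y) / r) *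
      nm (x - y) * r) := by positivity
    linarith
  have hw0 : 0 < w := by
    rw [hw]
    have : 0 ≤ 4 * ((Nat.clog 2 (Kn n r + 1) : ℝ) * (2 * √((2 * hn n r + nm (x - y)) / r)) *
      ((Kn n r : ℝ) ^ 2 * r * (Kn n r * hn n r + nm (x - y)))) := by positivity
    linarith
  refine ⟨⌈u⌉₊, ⌈w⌉₊, ?_, Nat.le_ceil u, Nat.le_ceil w, ?_⟩
  · exact Nat.one_le_iff_ne_zero.mpr (Nat.mul_ne_zero (Nat.ceil_pos.mpr hu0).ne'
      (Nat.ceil_pos.mpr hw0).ne')
  · push_cast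
    have b1 : (⌈u⌉₊ : ℝ) ≤ u + 1 := (Nat.ceil_lt_add_one hu0.le).le
    have b2 : (⌈w⌉₊ : ℝ) ≤ 44800 * Real.log n ^ 2 * Ln n r ^ 3 :=
      ((Nat.ceil_lt_add_one hw0.le).le).trans F2
    have b3 : 50 * ((⌈u⌉₊ : ℝ) * ⌈w⌉₊) * Real.log n ≤
        50 * ((u + 1) * (44800 * Real.log n ^ 2 * Ln n r ^ 3)) * Real.log n := by
      gcongr
    have b4 : 50 * ((u + 1) * (44800 * Real.log n ^ 2 * Ln n r ^ 3)) * Real.log n =
        (2240000 * Real.log n ^ 3 * Ln n r * (u + 1)) * Ln n r ^ 2 := by ring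
    have b5 : (2240000 * Real.log n ^ 3 * Ln n r * (u + 1)) * Ln n r ^ 2 ≤
        7 / 5000 * (nm (x - y) * r) * Ln n r ^ 2 := by
      gcongr
    have b6 : 7 / 5000 * (nm (x - y) * (Ln n r * r) ^ 2 / r) =
        7 / 5000 * (nm (x - y) * r) * Ln n r ^ 2 := by
      field_simp
    rw [b6]
    linarith

end Pool.Agent.Helper59.RG
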