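import Pool.Agent.Helper59.RG.St2

/-!
# Project RG (MP_4d33fe_pr): piece N4, the context is admissible.
-/

set_option autoImplicit false

namespace Pool.Agent.Helper59.RG

open MeasureTheory Set Filter Topology
open scoped ENNReal

noncomputable section

namespace N4x

theorem snd_le_nm (x : E) : |x.2| ≤ nm x := by
  unfold nm
  rw [← Real.sqrt_sq_eq_abs]
  exact Real.sqrt_le_sqrt (by nlinarith [sq_nonneg x.1])

theorem cube_le {a b : ℝ} (hb : 0 ≤ b) (h : a ^ 3 ≤ b ^ 3) : a ≤ b := by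
  by_contra hc
  push Not at hc
  exact absurd h (not_le.mpr (pow_lt_pow_left₀ hc hb (by norm_num)))

end N4x

open N4x in
theorem pf_N4 (hN1 : N1) : N4 := by
  obtain ⟨n0, hn0, H⟩ := hN1
  obtain ⟨n1, hn1⟩ : ∃ n1 : ℕ, ∀ n : ℕ, n1 ≤ n → 2 ≤ Real.log n := by
    have h1 : Tendsto (fun n : ℕ => Real.log n) atTop atTop :=
      Real.tendsto_log_atTop.comp tendsto_natCast_atTop_atTop
    exact eventually_atTop.1 (h1.eventually_ge_atTop 2)
  refine ⟨max n0 n1, fun n hnn r hr hr' x y hxy hd => ?_⟩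
  have hna : n0 ≤ n := le_trans (le_max_left _ _) hnn
  have hl : 2 ≤ Real.log n := hn1 n (le_trans (le_max_right _ _) hnn)
  have hnR : (1000 : ℝ) ≤ n := by exact_mod_cast hn0.trans hna
  obtain ⟨e1, e2, e3, e4, e5, e6, e7, e8, e9, e10, e11, e12, e13, e14⟩ := H n hna r hr hr'
  have hKc : (Kcn n r : ℝ) ≤ 1 / 10000 * (ep n r * Ln n r ^ 2 * r) := by
    unfold Kcn
    refine Nat.floor_le ?_
    have h2 : (1 : ℝ) ≤ Real.log n ^ 50 := one_le_pow₀ (by linarith)
    nlinarith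
  have hrK : Kn n r = ⌈2 * (Ln n r * r) / r⌉₊ := rfl
  set ℓ : ℝ := Real.log n with hℓ
  set ε : ℝ := ep n r with hε
  set L : ℝ := Ln n r with hL
  set h : ℝ := hn n r with hh
  set K : ℕ := Kn n r with hK
  set Kc : ℕ := Kcn n r with hKcd
  set ρ : ℝ := nm (x - y) with hρ
  have hl60 : (2 : ℝ) ^ 60 ≤ ℓ ^ 60 := pow_le_pow_left₀ (by norm_num) hl 60
  have hr0 : 0 < r := by
    have : (0 : ℝ) < 2 ^ 60 := by norm_num
    linarith
  have hr1 : (1000000000 : ℝ) ≤ r := by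
    have : (1000000000 : ℝ) ≤ 2 ^ 60 := by norm_num
    linarith
  have hlr : ℓ ≤ r := by
    have h1 : ℓ ^ 1 ≤ ℓ ^ 60 := pow_le_pow_right₀ (by linarith) (by norm_num)
    rw [pow_one] at h1
    linarith
  have hρ0 : 0 ≤ ρ := Real.sqrt_nonneg _
  -- bound for rho
  have hl8 : (256 : ℝ) ≤ ℓ ^ 8 := by
    have := pow_le_pow_left₀ (by norm_num : (0 : ℝ) ≤ 2) hl 8
    norm_num at this ⊢
    linarith
  have hl11 : (2048 : ℝ) ≤ ℓ ^ 11 := by
    have := pow_le_pow_left₀ (by norm_num : (0 : ℝ) ≤ 2) hl 11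
    norm_num at this ⊢
    linarith
  have heL : ε * L ^ 2 ≤ r / 256 :=
    e10.trans (div_le_div_of_nonneg_left hr0.le (by norm_num) hl8)
  have hρ1 : ρ ≤ r / 10000 := by
    refine hd.trans ?_
    rw [div_le_iff₀ hr0]
    have h1 : (Kc : ℝ) ≤ 1 / 10000 * (r / 256 * r) :=
      hKc.trans (by
        have := mul_le_mul_of_nonneg_right heL hr0.le
        linarith)
    have h3 : 1 * r ≤ r / 1000000000 * r := mul_le_mul_of_nonneg_right (by linarith) hr0.le
    have h4 : 0 ≤ r * r := mul_nonneg hr0.le hr0.le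
    calc 100 * ((Kc : ℝ) + 10 * ℓ) ≤ 100 * (1 / 10000 * (r / 256 * r) +
          10 * (r / 1000000000 * r)) := by linarith
      _ ≤ r / 10000 * r := by linarith
  have hρr : ρ / r ≤ 1 / 10000 := by
    rw [div_le_iff₀ hr0]
    linarith
  -- the angle
  have hKr : (2 : ℝ) * L ≤ K := e14
  have hLh : L * (h / r) ≤ 1 / 10000000 := by
    have h1 : L ^ 3 * h / r ≤ 35 / 2048 :=
      e6.trans (div_le_div_of_nonneg_left (by norm_num) (by norm_num) hl11)
    have h2 : L ^ 3 * h / r = L ^ 2 * (L * (h / r)) := by ring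
    rw [h2] at h1
    have h3 : (250000 : ℝ) ≤ L ^ 2 := by
      have := pow_le_pow_left₀ (by norm_num : (0 : ℝ) ≤ 500) e1 2
      norm_num at this
      linarith
    have h4 : 0 ≤ L * (h / r) := mul_nonneg (by linarith) (div_nonneg e12.le hr0.le)
    have h5 : 250000 * (L * (h / r)) ≤ L ^ 2 * (L * (h / r)) :=
      mul_le_mul_of_nonneg_right h3 h4
    linarith
  have hKh : (K : ℝ) * h / r ≤ (1 / 1000) ^ 2 := by
    have h1 : (K : ℝ) * h / r = K * (h / r) := by ring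
    have h2 : (K : ℝ) * (h / r) ≤ 2002 / 1000 * L * (h / r) :=
      mul_le_mul_of_nonneg_right e13 (div_nonneg e12.le hr0.le)
    rw [h1]
    linarith
  have hth : √((K : ℝ) * h / r) ≤ 1 / 1000 := by
    rw [Real.sqrt_le_left (by norm_num)]
    exact hKh
  have hLr : L * r ≤ √n / 8 := by
    have h1 := mul_le_mul_of_nonneg_right e2 hr0.le
    have h2 : √(n : ℝ) / (8 * r) * r = √n / 8 := by
      field_simp
    linarith
  have hsq : √(n : ℝ) * √n = n := Real.mul_self_sqrt (Nat.cast_nonneg n)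
  have hs1 : 1 ≤ √(n : ℝ) := by
    rw [Real.one_le_sqrt]
    linarith
  obtain ⟨hx, hy, hc1, hc2, hc3, hc4⟩ := hxy
  have hx1 := hx.1
  have hx2 := hx.2
  have hy1 := hy.1
  have hy2 := hy.2
  rw [mem_Icc] at hx1 hx2 hy1 hy2
  have hyx : y.2 ≤ x.2 + ρ := by
    have h1 := snd_le_nm (x - y)
    have h2 : (x - y).2 = x.2 - y.2 := rfl
    rw [h2] at h1
    have h3 := (abs_le.1 (h1.trans_eq hρ.symm)).1
    linarith
  have hmg : (cxn n r x y).mg = 2 * √((K : ℝ) * h / r) + 8 * ρ / r := rfl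
  refine ⟨⟨hr0, e12, ?_, hrK, ?_, hx1.1, hx2.1, hy1.1, hy2.1, ?_, ?_, ?_, hc1, hc2⟩,
    ?_, ?_, ?_⟩
  · change 500 * r ≤ L * r
    exact mul_le_mul_of_nonneg_right e1 hr0.le
  · rw [hmg]
    have h1 : 8 * ρ / r = 8 * (ρ / r) := by ring
    rw [h1]
    linarith
  · change x.1 + 13 / 10 * (L * r) ≤ √n
    linarith
  · change x.2 + 7 / 10 * (L * r) ≤ √n
    linarith
  · change y.2 + 7 / 10 * (L * r) ≤ √n
    linarith
  · change (K : ℝ) ≤ n
    have hL0 : 0 ≤ L := by linarith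
    have h1 : L ≤ L * r := le_mul_of_one_le_right hL0 (by linarith)
    have h2 : √(n : ℝ) * 1 ≤ √n * √n := mul_le_mul_of_nonneg_left hs1 (Real.sqrt_nonneg _)
    linarith
  · change ((⌈1 / (3 * (cxn n r x y).mg)⌉₊ : ℕ) : ℝ) ≤ n
    rw [hmg]
    have hnpos : (0 : ℝ) < n := by linarith
    -- h / r ≥ 1 / n
    have h1 : 1 / (n : ℝ) ≤ h / r := by
      refine cube_le (div_nonneg e12.le hr0.le) ?_
      have h2 : (h / r) ^ 3 = 40000 * ℓ ^ 2 / r ^ 4 := by
        rw [← e11]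
        field_simp
      rw [h2, div_pow, one_pow, div_le_div_iff₀ (by positivity) (by positivity)]
      have h3 : r ^ 2 ≤ n := by
        have h4 : r ≤ √n := by linarith
        calc r ^ 2 ≤ √(n : ℝ) ^ 2 := pow_le_pow_left₀ hr0.le h4 2
          _ = n := Real.sq_sqrt (Nat.cast_nonneg n)
      have h5 : r ^ 4 ≤ (n : ℝ) ^ 2 := by
        have : r ^ 4 = (r ^ 2) ^ 2 := by ring
        rw [this]
        exact pow_le_pow_left₀ (by positivity) h3 2
      have h6 : (n : ℝ) ^ 2 ≤ n ^ 3 := pow_le_pow_right₀ (by linarith) (by norm_num)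
      have h7 : (1 : ℝ) ≤ 40000 * ℓ ^ 2 := by
        have h8 : (1 : ℝ) ≤ ℓ ^ 2 := one_le_pow₀ (by linarith)
        linarith
      have h8 : (1 : ℝ) * n ^ 3 ≤ 40000 * ℓ ^ 2 * n ^ 3 :=
        mul_le_mul_of_nonneg_right h7 (pow_pos hnpos 3).le
      linarith
    have h2 : 1 / (n : ℝ) ≤ K * h / r := by
      have h3 : (K : ℝ) * h / r = K * (h / r) := by ring
      rw [h3]
      have h4 : (1 : ℝ) ≤ K := by linarith
      have h5 : 0 ≤ h / r := div_nonneg e12.le hr0.le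
      have h6 : 1 * (h / r) ≤ K * (h / r) := mul_le_mul_of_nonneg_right h4 h5
      linarith
    have h3 : 1 / (n : ℝ) ≤ √((K : ℝ) * h / r) := by
      refine Real.le_sqrt_of_sq_le ?_
      refine le_trans ?_ h2
      have h4 : 1 / (n : ℝ) ≤ 1 := by
        rw [div_le_one hnpos]
        linarith
      have h5 : 0 < 1 / (n : ℝ) := by positivity
      rw [sq]
      exact mul_le_of_le_one_left h5.le h4
    have h4 : 1 / (n : ℝ) ≤ 3 * (2 * √((K : ℝ) * h / r) + 8 * ρ / r) := by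
      have h5 : 0 ≤ 8 * ρ / r := by positivity
      have h6 := Real.sqrt_nonneg ((K : ℝ) * h / r)
      linarith
    have h5 : 1 / (3 * (2 * √((K : ℝ) * h / r) + 8 * ρ / r)) ≤ n := by
      have h6 : 0 < 1 / (n : ℝ) := by positivity
      have h7 := one_div_le_one_div_of_le h6 h4
      rwa [one_div_one_div] at h7
    exact_mod_cast Nat.ceil_le.2 h5
  · intro her
    have h1 : ρ * (L * r) ^ 2 / r = ρ * L ^ 2 * r := by
      field_simp
    have h2 : ε * L ^ 2 * r ≤ ρ * L ^ 2 * r := by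
      have h3 : 0 ≤ L ^ 2 * r := by positivity
      have h4 := mul_le_mul_of_nonneg_right her h3
      linarith
    refine ⟨e11.symm.le, ?_, ?_⟩
    · change 1 ≤ ρ * (L * r) ^ 2 / r
      rw [h1]
      have h3 : (1 : ℝ) ≤ ℓ ^ 50 := one_le_pow₀ (by linarith)
      linarith
    · change 10 * (Kc : ℝ) ≤ 7 / 5000 * (ρ * (L * r) ^ 2 / r)
      rw [h1]
      have h3 : 0 ≤ ρ * L ^ 2 * r := by positivity
      linarith

end

end Pool.Agent.Helper59.RG
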