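import Pool.Agent.Helper59.RG.St2

/-! Project RG, piece N5: the minimal distance and the bound. -/

set_option autoImplicit false

namespace Pool.Agent.Helper59.RG

open MeasureTheory Set
open scoped ENNReal

namespace N5x

lemma max_sq {a b : ℝ} (ha : 0 ≤ a) (hb : 0 ≤ b) : (max a b) ^ 2 = max (a ^ 2) (b ^ 2) := by
  rcases le_total a b with h | h
  · rw [max_eq_right h, max_eq_right (pow_le_pow_left₀ ha h 2)]
  · rw [max_eq_left h, max_eq_left (pow_le_pow_left₀ hb h 2)]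

lemma pw {x : ℝ} (hx : 0 ≤ x) (a : ℝ) (k : ℕ) : (x ^ a) ^ k = x ^ (a * k) := by
  rw [← Real.rpow_natCast, ← Real.rpow_mul hx]

end N5x

open N5x in
theorem pf_N5 : N5 := by
  refine ⟨0, fun n _ r hr1 hr2 => ?_⟩
  have hr0 : 0 < r := by linarith
  have hsq : 4 ≤ √(n : ℝ) := by linarith
  have hn16 : (16 : ℝ) ≤ n := by
    have h1 : √(n : ℝ) ^ 2 = n := Real.sq_sqrt (Nat.cast_nonneg n)
    nlinarith
  have hn0 : (0 : ℝ) < n := by linarith
  have hn1 : (1 : ℝ) ≤ n := by linarith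
  have hrn : r ≤ n := by
    have h1 : √(n : ℝ) ^ 2 = n := Real.sq_sqrt (Nat.cast_nonneg n)
    nlinarith
  have hq0 : 0 < r / n := by positivity
  have hq1 : r / n ≤ 1 := (div_le_one hn0).2 hrn
  have ea : 0 < (r / n) ^ (1 / 3 : ℝ) := Real.rpow_pos_of_pos hq0 _
  have eb : 0 < r ^ (-(3 / 5) : ℝ) := Real.rpow_pos_of_pos hr0 _
  have hep : 0 < ep n r := lt_max_of_lt_left ea
  have h1 : n * ep n r ^ 2 = XX n r := by
    unfold ep XX
    rw [max_sq ea.le eb.le, mul_max_of_nonneg _ _ hn0.le]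
    congr 1
    · rw [pw hq0.le, Real.div_rpow hr0.le hn0.le]
      have e1 : (n : ℝ) = (n : ℝ) ^ (1 / 3 : ℝ) * (n : ℝ) ^ (2 / 3 : ℝ) := by
        rw [← Real.rpow_add hn0]; norm_num
      have e2 : (1 / 3 : ℝ) * ((2 : ℕ) : ℝ) = 2 / 3 := by norm_num
      rw [e2]
      have e3 : (n : ℝ) ^ (2 / 3 : ℝ) ≠ 0 := (Real.rpow_pos_of_pos hn0 _).ne'
      calc (n : ℝ) * (r ^ (2 / 3 : ℝ) / (n : ℝ) ^ (2 / 3 : ℝ))
          = ((n : ℝ) ^ (1 / 3 : ℝ) * (n : ℝ) ^ (2 / 3 : ℝ)) *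
              (r ^ (2 / 3 : ℝ) / (n : ℝ) ^ (2 / 3 : ℝ)) := by rw [← e1]
        _ = _ := by field_simp
    · rw [pw hr0.le]
      congr 2
      norm_num
  refine ⟨h1, ?_, hep, ?_, ?_, ?_, ?_⟩
  · unfold XX
    apply le_max_of_le_left
    have e1 : (1 : ℝ) ≤ (n : ℝ) ^ (1 / 3 : ℝ) := Real.one_le_rpow hn1 (by norm_num)
    have e2 : (1 : ℝ) ≤ r ^ (2 / 3 : ℝ) := Real.one_le_rpow hr1 (by norm_num)
    nlinarith
  · unfold ep
    apply max_le
    · exact Real.rpow_le_one hq0.le hq1 (by norm_num)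
    · exact Real.rpow_le_one_of_one_le_of_nonpos hr1 (by norm_num)
  · have e1 : (r / n) ^ (1 / 3 : ℝ) ≤ ep n r := le_max_left _ _
    have e2 : ((r / n) ^ (1 / 3 : ℝ)) ^ 3 = r / n := by
      rw [pw hq0.le]
      norm_num
    rw [← e2]
    exact pow_le_pow_left₀ ea.le e1 3
  · have e1 : r ^ (-(3 / 5) : ℝ) ≤ ep n r := le_max_right _ _
    have e2 : r ^ (2 / 5 : ℝ) = r ^ (-(3 / 5) : ℝ) * r := by
      nth_rewrite 3 [← Real.rpow_one r]
      rw [← Real.rpow_add hr0]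
      norm_num
    rw [e2]
    exact mul_le_mul_of_nonneg_right e1 hr0.le
  · intro hl
    have hlog : 0 ≤ Real.log n := Real.log_nonneg hn1
    have e1 : n * r ^ (-(6 / 5) : ℝ) ≤ XX n r := le_max_right _ _
    have e2 : r ^ (6 / 5 : ℝ) ≤ Real.log n ^ 72 := by
      have e3 : r ^ (6 / 5 : ℝ) ≤ (Real.log n ^ 60) ^ (6 / 5 : ℝ) :=
        Real.rpow_le_rpow hr0.le hl.le (by norm_num)
      have e4 : (Real.log n ^ 60) ^ (6 / 5 : ℝ) = Real.log n ^ 72 := by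
        rw [← Real.rpow_natCast, ← Real.rpow_mul hlog, ← Real.rpow_natCast]
        norm_num
      rw [← e4]
      exact e3
    have e5 : (n : ℝ) = r ^ (6 / 5 : ℝ) * (n * r ^ (-(6 / 5) : ℝ)) := by
      have : r ^ (6 / 5 : ℝ) * r ^ (-(6 / 5) : ℝ) = 1 := by
        rw [← Real.rpow_add hr0]
        norm_num
      calc (n : ℝ) = n * (r ^ (6 / 5 : ℝ) * r ^ (-(6 / 5) : ℝ)) := by rw [this, mul_one]
        _ = _ := by ring
    have e6 : 0 ≤ n * r ^ (-(6 / 5) : ℝ) := by positivity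
    calc (n : ℝ) = r ^ (6 / 5 : ℝ) * (n * r ^ (-(6 / 5) : ℝ)) := e5
      _ ≤ Real.log n ^ 72 * XX n r := mul_le_mul e2 e1 e6 (pow_nonneg hlog 72)

end Pool.Agent.Helper59.RG
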