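import Pool.Agent.Helper59.RG.St

/-!
# Project RG: the iterated integral is an integral with respect to the product measure
-/

set_option autoImplicit false

namespace Pool.Agent.Helper59.RG

open MeasureTheory Set
open scoped ENNReal

namespace P1x

lemma ms_succ {N : ℕ} (X : Fin (N + 1) → E) : ms X = X 0 ::ₘ ms (fun j => X j.succ) := by
  unfold ms
  rw [Fin.univ_succ, Finset.cons_val, Multiset.map_cons, Finset.map_val, Multiset.map_map]
  rfl

lemma ms_zero (X : Fin 0 → E) : ms X = 0 := by
  unfold ms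
  rw [Finset.univ_eq_empty]
  rfl

end P1x

/-- **P1** -/
theorem pf_P1 (hP0 : P0) : P1 := by
  intro μ _ N
  induction N with
  | zero =>
    intro F hF
    rw [Measure.pi_of_empty, lintegral_dirac' _ (hF 0), P1x.ms_zero]
    rfl
  | succ N ih =>
    intro F hF
    have hj : Mj fun (x : E) (C : Multiset E) => F (x ::ₘ C) := hP0.2.1 F hF
    have hm := (hP0.2.2.1 E _ hj).1
    have e1 : II μ (N + 1) F = ∫⁻ x, ∫⁻ X, F (x ::ₘ ms X) ∂(Measure.pi fun _ : Fin N => μ) ∂μ := by
      show ∫⁻ x, II μ N (fun C => F (x ::ₘ C)) ∂μ = _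
      exact lintegral_congr fun x => ih _ (hm x)
    rw [e1]
    have h1 := measurePreserving_piFinSuccAbove (α := fun _ : Fin (N + 1) => E) (fun _ => μ) 0
    have h2 : Measurable fun p : E × (Fin N → E) => F (p.1 ::ₘ ms p.2) := hj N
    have h3 := h1.lintegral_comp (f := fun p : E × (Fin N → E) => F (p.1 ::ₘ ms p.2)) h2
    have h4 := lintegral_prod (μ := μ) (ν := Measure.pi fun _ : Fin N => μ)
      (fun p : E × (Fin N → E) => F (p.1 ::ₘ ms p.2)) h2.aemeasurable
    rw [← h4, ← h3]
    refine lintegral_congr fun X => ?_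
    rw [P1x.ms_succ X]
    rfl

end Pool.Agent.Helper59.RG
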