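import Pool.Agent.Helper59.RG.St

/-!
# Project RG: Campbell formula (piece P10)
-/

set_option autoImplicit false

namespace Pool.Agent.Helper59.RG

open MeasureTheory Set
open scoped ENNReal

namespace P10x

theorem sum_flt (B : Set E) (g : E → ℝ≥0∞) (C : Multiset E) :
    (C.map (B.indicator g)).sum = ((flt B C).map g).sum := by
  refine Multiset.induction_on C ?_ ?_
  · simp [flt]
  · intro a C ih
    rw [Multiset.map_cons, Multiset.sum_cons, ih]
    unfold flt
    let _ : DecidablePred (fun x => x ∈ B) := fun _ => Classical.propDecidable _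
    by_cases ha : a ∈ B
    · have h1 := Multiset.filter_cons_of_pos (p := fun x => x ∈ B) C ha
      rw [Set.indicator_of_mem ha]
      have h2 := congrArg (fun D : Multiset E => (D.map g).sum) h1
      simp only [Multiset.map_cons, Multiset.sum_cons] at h2
      exact h2.symm
    · have h1 := Multiset.filter_cons_of_neg (p := fun x => x ∈ B) C ha
      rw [Set.indicator_of_notMem ha, zero_add]
      exact (congrArg (fun D : Multiset E => (D.map g).sum) h1).symm

theorem II_const (μ : Measure E) [IsProbabilityMeasure μ] (a : ℝ≥0∞) (N : ℕ) :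
    II μ N (fun _ => a) = a := by
  induction N with
  | zero => rfl
  | succ N ih =>
    simp only [II, ih, lintegral_const, measure_univ, mul_one]

theorem PE_const (hP3 : P3) (l : ℝ) (μ : Measure E) [IsProbabilityMeasure μ] (hl : 0 ≤ l)
    (a : ℝ≥0∞) : PE l μ (fun _ => a) = a := by
  have h1 : PE l μ (fun _ => (1 : ℝ≥0∞)) = 1 := (hP3 l μ).2.2.2.2 hl measure_univ
  unfold PE at h1 ⊢
  simp only [II_const, mul_one] at h1 ⊢
  rw [ENNReal.tsum_mul_right, h1, one_mul]

end P10x

theorem pf_P10 (hP0 : P0) (hP3 : P3) (hP9 : P9) : P10 := by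
  clear hP0
  intro l μ hμ B g hl hB hg
  have hm : Mj (fun (s : E) (_ : Multiset E) => B.indicator g s) := by
    intro N
    exact (hg.indicator hB).comp measurable_fst
  have h := hP9 l μ (fun s _ => B.indicator g s) hl hm
  simp only [P10x.PE_const hP3 l μ hl] at h
  rw [lintegral_indicator hB] at h
  rw [← h]
  congr 1
  funext C
  exact (P10x.sum_flt B g C).symm

end Pool.Agent.Helper59.RG
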