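import Pool.Agent.Helper59.RG.St

/-!
# Project RG, piece P11: second moment of the number of points.
-/

set_option autoImplicit false

namespace Pool.Agent.Helper59.RG

open MeasureTheory Set
open scoped ENNReal

namespace P11x

/-- functionals of the number of points -/
lemma II_card (μ : Measure E) [IsProbabilityMeasure μ] (N : ℕ) (g : ℕ → ℝ≥0∞) :
    II μ N (fun C => g C.card) = g N := by
  induction N generalizing g with
  | zero => simp [II]
  | succ N ih =>
    have h : ∀ x : E, II μ N (fun C => g (x ::ₘ C).card) = g (N + 1) := by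
      intro x
      have := ih (fun k => g (k + 1))
      simpa using this
    rw [II]
    simp only [h]
    simp

/-- first factorial moment -/
lemma hs1 (l : ℝ) : HasSum (fun N : ℕ => (N : ℝ) * (l ^ N / N.factorial)) (l * Real.exp l) := by
  have h0 : HasSum (fun N : ℕ => l ^ N / (N.factorial : ℝ)) (Real.exp l) := by
    have := NormedSpace.expSeries_div_hasSum_exp (𝔸 := ℝ) l
    rwa [← Real.exp_eq_exp_ℝ] at this
  have h1 : HasSum (fun N : ℕ => ((N + 1 : ℕ) : ℝ) * (l ^ (N + 1) / (N + 1).factorial))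
      (l * Real.exp l) := by
    have := h0.mul_left l
    refine this.congr_fun ?_ |> id
    intro N
    rw [Nat.factorial_succ]
    push_cast
    field_simp
    ring
  rw [← hasSum_nat_add_iff' 1]
  simpa using h1

/-- second factorial moment -/
lemma hs2 (l : ℝ) : HasSum (fun N : ℕ => (N : ℝ) * ((N : ℝ) - 1) * (l ^ N / N.factorial))
    (l ^ 2 * Real.exp l) := by
  have h1 : HasSum (fun N : ℕ => ((N + 1 : ℕ) : ℝ) * (((N + 1 : ℕ) : ℝ) - 1) *
      (l ^ (N + 1) / (N + 1).factorial)) (l ^ 2 * Real.exp l) := by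
    have := (hs1 l).mul_left l
    have e : l * (l * Real.exp l) = l ^ 2 * Real.exp l := by ring
    rw [e] at this
    refine this.congr_fun ?_ |> id
    intro N
    rw [Nat.factorial_succ]
    push_cast
    field_simp
    ring
  rw [← hasSum_nat_add_iff' 1]
  simpa using h1

/-- second moment -/
lemma hs3 (l : ℝ) : HasSum (fun N : ℕ => Real.exp (-l) * l ^ N / N.factorial * (N : ℝ) ^ 2)
    (l ^ 2 + l) := by
  have h := ((hs2 l).add (hs1 l)).mul_left (Real.exp (-l))
  have e : Real.exp (-l) * (l ^ 2 * Real.exp l + l * Real.exp l) = l ^ 2 + l := by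
    have : Real.exp (-l) * Real.exp l = 1 := by
      rw [← Real.exp_add]
      simp
    calc _ = (Real.exp (-l) * Real.exp l) * (l ^ 2 + l) := by ring
      _ = _ := by rw [this, one_mul]
  rw [e] at h
  refine h.congr_fun ?_ |> id
  intro N
  ring

end P11x

theorem pf_P11 : P11 := by
  intro l μ _ hl
  unfold PE
  have h1 : ∀ N : ℕ, II μ N (fun C => (C.card : ℝ≥0∞) ^ 2) = (N : ℝ≥0∞) ^ 2 := fun N =>
    P11x.II_card μ N (fun k => (k : ℝ≥0∞) ^ 2)
  simp only [h1]
  have h2 : ∀ N : ℕ, ENNReal.ofReal (Real.exp (-l) * l ^ N / N.factorial) * (N : ℝ≥0∞) ^ 2 =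
      ENNReal.ofReal (Real.exp (-l) * l ^ N / N.factorial * (N : ℝ) ^ 2) := by
    intro N
    rw [ENNReal.ofReal_mul (by positivity), ENNReal.ofReal_pow (by positivity),
      ENNReal.ofReal_natCast]
  simp only [h2]
  rw [← ENNReal.ofReal_tsum_of_nonneg (fun N => by positivity) (P11x.hs3 l).summable,
    (P11x.hs3 l).tsum_eq]

end Pool.Agent.Helper59.RG
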