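import Pool.Agent.Helper59.RG.St

/-!
# Project RG: translation of functionals which depend on a part of the configuration (P13).
-/

set_option autoImplicit false

namespace Pool.Agent.Helper59.RG

open MeasureTheory Set
open scoped ENNReal

noncomputable section

namespace P13x

/-- the translation -/
def tre (τ : E) : E ≃ᵐ E := (MeasurableEquiv.subRight τ : E ≃ᵐ E)

theorem tre_apply (τ x : E) : tre τ x = x - τ := rfl

theorem tr_eq (τ : E) (W : Set E) : tr τ W = tre τ ⁻¹' W := rfl

/-- change of variables in iterated integrals -/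
theorem II_map (ν : Measure E) (e : E ≃ᵐ E) (N : ℕ) : ∀ f : Multiset E → ℝ≥0∞,
    II (ν.map e) N f = II ν N (fun C => f (C.map e)) := by
  induction N with
  | zero => intro f; simp [II]
  | succ N ih =>
    intro f
    simp only [II, Multiset.map_cons]
    rw [lintegral_map_equiv]
    refine lintegral_congr fun x => ?_
    exact ih fun C => f (e x ::ₘ C)

theorem restr (Λ : ℝ) (B : Set E) (hB : MeasurableSet B) (h : B ⊆ Sq Λ) :
    (mu Λ).restrict B = ENNReal.ofReal (1 / Λ ^ 2) • volume.restrict B := by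
  rw [mu, Measure.restrict_smul, Measure.restrict_restrict hB, inter_eq_self_of_subset_left h]

theorem vol_map (τ : E) : (volume : Measure E).map (tre τ) = volume :=
  (measurePreserving_sub_right (volume : Measure E) τ).map_eq

theorem restr_map (Λ : ℝ) (W : Set E) (τ : E) (hW : MeasurableSet W) (h1 : W ⊆ Sq Λ)
    (h2 : tr τ W ⊆ Sq Λ) :
    ((mu Λ).restrict (tr τ W)).map (tre τ) = (mu Λ).restrict W := by
  have h3 : MeasurableSet (tr τ W) := by
    rw [tr_eq]
    exact (tre τ).measurable hW
  rw [restr Λ _ h3 h2, restr Λ _ hW h1, Measure.map_smul, tr_eq, ← MeasurableEquiv.restrict_map,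
    vol_map]

theorem mu_tr (hP15 : P15) (Λ : ℝ) (hΛ : 0 < Λ) (W : Set E) (τ : E) (hW : MeasurableSet W)
    (h1 : W ⊆ Sq Λ) (h2 : tr τ W ⊆ Sq Λ) : mu Λ (tr τ W) = mu Λ W := by
  have h3 : MeasurableSet (tr τ W) := by
    rw [tr_eq]
    exact (tre τ).measurable hW
  rw [(hP15 Λ hΛ).2 _ h3, (hP15 Λ hΛ).2 _ hW, inter_eq_self_of_subset_left h1,
    inter_eq_self_of_subset_left h2, tr_eq]
  congr 1
  exact (measurePreserving_sub_right (volume : Measure E) τ).measure_preimage
    hW.nullMeasurableSet

theorem ms_map (N : ℕ) (X : Fin N → E) (τ : E) :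
    (ms X).map (fun x => x - τ) = ms (fun i => X i - τ) := by
  rw [ms, ms, Multiset.map_map]
  rfl

theorem Mf_map (f : Multiset E → ℝ≥0∞) (τ : E) (hf : Mf f) :
    Mf fun C => f (C.map fun x => x - τ) := by
  intro N
  have h : (fun X : Fin N → E => f ((ms X).map fun x => x - τ)) =
      (fun X : Fin N → E => f (ms X)) ∘ fun X i => X i - τ := by
    funext X
    rw [Function.comp_apply, ms_map]
  rw [h]
  refine (hf N).comp ?_
  exact measurable_pi_lambda _ fun i => (tre τ).measurable.comp (measurable_pi_apply i)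

end P13x

open P13x in
theorem pf_P13 (hP0 : P0) (hP5 : P5) (hP15 : P15) : P13 := by
  have _ := hP0
  intro l Λ W τ f hl hΛ hW h1 h2 hf
  have : IsProbabilityMeasure (mu Λ) := (hP15 Λ hΛ).1
  have h3 : MeasurableSet (tr τ W) := by
    rw [tr_eq]
    exact (tre τ).measurable hW
  rw [hP5 l (mu Λ) W f hl hW hf,
    hP5 l (mu Λ) (tr τ W) (fun C => f (C.map fun x => x - τ)) hl h3 (Mf_map f τ hf),
    mu_tr hP15 Λ hΛ W τ hW h1 h2]
  congr 1
  unfold Zf
  congr 1
  funext k
  congr 1
  rw [← restr_map Λ W τ hW h1 h2, II_map]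
  rfl

end

end Pool.Agent.Helper59.RG
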