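import Pool.Agent.Helper59.RG.St

/-! Project RG, piece P15: the uniform distribution on the square. -/

set_option autoImplicit false

namespace Pool.Agent.Helper59.RG

open MeasureTheory Set
open scoped ENNReal

theorem pf_P15 : P15 := by
  intro Λ hΛ
  have hSq : (volume : Measure E) (Sq Λ) = ENNReal.ofReal (Λ ^ 2) := by
    unfold Sq
    rw [Measure.volume_eq_prod, Measure.prod_prod, Real.volume_Icc, sub_zero,
      ← ENNReal.ofReal_mul hΛ.le, pow_two]
  have hB : ∀ B : Set E, MeasurableSet B →
      mu Λ B = ENNReal.ofReal (1 / Λ ^ 2) * volume (B ∩ Sq Λ) := by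
    intro B hB
    unfold mu
    rw [Measure.smul_apply, Measure.restrict_apply hB, smul_eq_mul]
  refine ⟨⟨?_⟩, hB⟩
  rw [hB _ MeasurableSet.univ, univ_inter, hSq, ← ENNReal.ofReal_mul (by positivity),
    one_div_mul_cancel (by positivity), ENNReal.ofReal_one]

end Pool.Agent.Helper59.RG
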