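import Pool.Agent.Helper59.RG.St

/-!
# Project RG: measurable dependence on parameters
-/

set_option autoImplicit false

namespace Pool.Agent.Helper59.RG

open MeasureTheory Set
open scoped ENNReal

noncomputable section

namespace P2x

theorem ms_zero (X : Fin 0 → E) : ms X = 0 := by
  unfold ms
  simp

theorem meas_II (hP0 : P0) (μ : Measure E) [IsFiniteMeasure μ] (N : ℕ) :
    ∀ (β : Type) [MeasurableSpace β] (F : β → Multiset E → ℝ≥0∞), Mj F →
      Measurable fun b => II μ N (F b) := by
  induction N with
  | zero =>
    intro β _ F hF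
    have h := hF 0
    have h2 : Measurable fun b : β => ((b, fun i => Fin.elim0 i) : β × (Fin 0 → E)) :=
      measurable_id.prodMk measurable_const
    have h3 := h.comp h2
    have h4 : (fun b => II μ 0 (F b)) =
        (fun p : β × (Fin 0 → E) => F p.1 (ms p.2)) ∘ fun b : β => (b, fun i => Fin.elim0 i) := by
      funext b
      simp only [Function.comp_apply, ms_zero]
      rfl
    rw [h4]
    exact h3
  | succ N ih =>
    intro β _ F hF
    have h1 := (hP0.2.2.1 β F hF).2
    have h2 := ih (β × E) (fun (p : β × E) (C : Multiset E) => F p.1 (p.2 ::ₘ C)) h1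
    exact Measurable.lintegral_prod_right' (ν := μ)
      (f := fun p : β × E => II μ N (fun C => F p.1 (p.2 ::ₘ C))) h2

end P2x

theorem pf_P2 (hP0 : P0) : P2 := by
  intro β _ μ _ F hF
  have h1 : ∀ N : ℕ, Measurable fun b => II μ N (F b) := fun N => P2x.meas_II hP0 μ N β F hF
  refine ⟨h1, ?_⟩
  intro l
  unfold PE
  exact Measurable.tsum fun N => (h1 N).const_mul _

end

end Pool.Agent.Helper59.RG
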