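import Pool.Agent.Helper59.RG.St

/-! Project RG, piece P3: monotonicity and linearity of Poisson expectations. -/

set_option autoImplicit false

namespace Pool.Agent.Helper59.RG

open MeasureTheory Set
open scoped ENNReal

namespace P3x

lemma II_mono (μ : Measure E) (N : ℕ) : ∀ F G : Multiset E → ℝ≥0∞, (∀ C, F C ≤ G C) →
    II μ N F ≤ II μ N G := by
  induction N with
  | zero => intro F G h; exact h 0
  | succ N ih =>
    intro F G h
    simp only [II]
    exact lintegral_mono fun x => ih _ _ fun C => h _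

lemma Mf_cons (hP0 : P0) {F : Multiset E → ℝ≥0∞} (hF : Mf F) :
    Mj fun (x : E) (C : Multiset E) => F (x ::ₘ C) := hP0.2.1 F hF

lemma Mf_cons' (hP0 : P0) {F : Multiset E → ℝ≥0∞} (hF : Mf F) (x : E) :
    Mf fun C => F (x ::ₘ C) := (hP0.2.2.1 E _ (hP0.2.1 F hF)).1 x

lemma II_add (hP0 : P0) (hP2 : P2) (μ : Measure E) [IsFiniteMeasure μ] (N : ℕ) :
    ∀ F G : Multiset E → ℝ≥0∞, Mf F →
    II μ N (fun C => F C + G C) = II μ N F + II μ N G := by
  induction N with
  | zero => intro F G _; rfl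
  | succ N ih =>
    intro F G hF
    simp only [II]
    have h1 : ∀ x, II μ N (fun C => F (x ::ₘ C) + G (x ::ₘ C)) =
        II μ N (fun C => F (x ::ₘ C)) + II μ N (fun C => G (x ::ₘ C)) :=
      fun x => ih _ _ (Mf_cons' hP0 hF x)
    simp only [h1]
    exact lintegral_add_left ((hP2 E μ _ (Mf_cons hP0 hF)).1 N) _

lemma II_mul (μ : Measure E) {a : ℝ≥0∞} (ha : a ≠ ⊤) (N : ℕ) :
    ∀ F : Multiset E → ℝ≥0∞, II μ N (fun C => a * F C) = a * II μ N F := by
  induction N with
  | zero => intro F; rfl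
  | succ N ih =>
    intro F
    simp only [II]
    have h1 : ∀ x, II μ N (fun C => a * F (x ::ₘ C)) = a * II μ N (fun C => F (x ::ₘ C)) :=
      fun x => ih _
    simp only [h1]
    exact lintegral_const_mul' _ _ ha

lemma II_zero (μ : Measure E) (N : ℕ) : II μ N (fun _ => 0) = 0 := by
  induction N with
  | zero => rfl
  | succ N ih => simp [II, ih]

lemma II_one (μ : Measure E) (hμ : μ univ = 1) (N : ℕ) : II μ N (fun _ => 1) = 1 := by
  induction N with
  | zero => rfl
  | succ N ih => simp [II, ih, hμ]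

lemma PE_zero (l : ℝ) (μ : Measure E) : PE l μ (fun _ => 0) = 0 := by
  simp [PE, II_zero]

lemma PE_add (hP0 : P0) (hP2 : P2) (l : ℝ) (μ : Measure E) [IsFiniteMeasure μ]
    (F G : Multiset E → ℝ≥0∞) (hF : Mf F) :
    PE l μ (fun C => F C + G C) = PE l μ F + PE l μ G := by
  unfold PE
  rw [← ENNReal.tsum_add]
  congr 1
  funext N
  rw [II_add hP0 hP2 μ N F G hF, mul_add]

lemma tot {l : ℝ} (hl : 0 ≤ l) :
    ∑' N : ℕ, ENNReal.ofReal (Real.exp (-l) * l ^ N / N.factorial) = 1 := by
  have hs : Summable fun N : ℕ => l ^ N / (N.factorial : ℝ) := Real.summable_pow_div_factorial l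
  have h2 : ∀ N : ℕ, Real.exp (-l) * l ^ N / N.factorial = Real.exp (-l) * (l ^ N / N.factorial) :=
    fun N => mul_div_assoc _ _ _
  simp only [h2]
  rw [← ENNReal.ofReal_tsum_of_nonneg (fun N => by positivity) (hs.mul_left _), tsum_mul_left]
  have h3 : ∑' N : ℕ, l ^ N / (N.factorial : ℝ) = Real.exp l := by
    rw [Real.exp_eq_exp_ℝ, NormedSpace.exp_eq_tsum_div]
  rw [h3, ← Real.exp_add, neg_add_cancel, Real.exp_zero, ENNReal.ofReal_one]

end P3x

open P3x in
theorem pf_P3 (hP0 : P0) (hP2 : P2) : P3 := by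
  intro l μ hμ
  refine ⟨?_, fun F G hF => PE_add hP0 hP2 l μ F G hF, ?_, ?_, ?_⟩
  · intro F G h
    unfold PE
    exact ENNReal.tsum_le_tsum fun N => mul_le_mul_right (II_mono μ N F G h) _
  · intro a F ha
    unfold PE
    rw [← ENNReal.tsum_mul_left]
    congr 1
    funext N
    rw [II_mul μ ha N F]
    ring
  · intro S F hF
    induction S using Finset.induction_on with
    | empty => simp [PE_zero]
    | insert j S hj ih =>
      simp only [Finset.sum_insert hj]
      rw [PE_add hP0 hP2 l μ _ _ (hF j (Finset.mem_insert_self _ _)),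
        ih fun i hi => hF i (Finset.mem_insert_of_mem hi)]
  · intro hl h1
    unfold PE
    simp only [II_one μ h1, mul_one]
    exact tot hl

end Pool.Agent.Helper59.RG
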