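import Pool.Agent.Helper59.RG.St

/-! Factorisation of Poisson expectations. -/

set_option autoImplicit false

namespace Pool.Agent.Helper59.RG

open MeasureTheory Set
open scoped ENNReal

namespace P4x

theorem flt_zero (W : Set E) : flt W 0 = 0 := by
  unfold flt
  exact @Multiset.filter_zero E (fun x => x ∈ W) (fun _ => Classical.propDecidable _)

theorem flt_cons_mem (W : Set E) (x : E) (C : Multiset E) (h : x ∈ W) :
    flt W (x ::ₘ C) = x ::ₘ flt W C := by
  unfold flt
  exact @Multiset.filter_cons_of_pos E (fun x => x ∈ W) (fun _ => Classical.propDecidable _) x C h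

theorem flt_cons_notMem (W : Set E) (x : E) (C : Multiset E) (h : x ∉ W) :
    flt W (x ::ₘ C) = flt W C := by
  unfold flt
  exact @Multiset.filter_cons_of_neg E (fun x => x ∈ W) (fun _ => Classical.propDecidable _) x C h

theorem key (hP0 : P0) (hP2 : P2) (μ : Measure E) [IsFiniteMeasure μ] (W : Set E)
    (hW : MeasurableSet W) (N : ℕ) : ∀ f g : Multiset E → ℝ≥0∞, Mf f → Mf g →
    II μ N (fun C => f (flt W C) * g (flt Wᶜ C)) =
      ∑ p ∈ Finset.HasAntidiagonal.antidiagonal N, (N.choose p.1 : ℝ≥0∞) *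
        (II (μ.restrict W) p.1 f * II (μ.restrict Wᶜ) p.2 g) := by
  induction N with
  | zero =>
    intro f g _ _
    simp [II, flt_zero]
  | succ N ih =>
    intro f g hf hg
    have hjf := hP0.2.1 f hf
    have hjg := hP0.2.1 g hg
    have hmf : ∀ x : E, Mf (fun C => f (x ::ₘ C)) := (hP0.2.2.1 E _ hjf).1
    have hmg : ∀ x : E, Mf (fun C => g (x ::ₘ C)) := (hP0.2.2.1 E _ hjg).1
    have hIf : ∀ i, Measurable fun x => II (μ.restrict W) i (fun C => f (x ::ₘ C)) :=
      fun i => (hP2 E (μ.restrict W) _ hjf).1 i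
    have hIg : ∀ i, Measurable fun x => II (μ.restrict Wᶜ) i (fun C => g (x ::ₘ C)) :=
      fun i => (hP2 E (μ.restrict Wᶜ) _ hjg).1 i
    have e1 : ∫⁻ x in W, II μ N (fun C => f (flt W (x ::ₘ C)) * g (flt Wᶜ (x ::ₘ C))) ∂μ =
        ∑ p ∈ Finset.HasAntidiagonal.antidiagonal N, (N.choose p.1 : ℝ≥0∞) *
          (II (μ.restrict W) (p.1 + 1) f * II (μ.restrict Wᶜ) p.2 g) := by
      have h1 : ∫⁻ x in W, II μ N (fun C => f (flt W (x ::ₘ C)) * g (flt Wᶜ (x ::ₘ C))) ∂μ =
          ∫⁻ x in W, ∑ p ∈ Finset.HasAntidiagonal.antidiagonal N, (N.choose p.1 : ℝ≥0∞) *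
            (II (μ.restrict W) p.1 (fun C => f (x ::ₘ C)) * II (μ.restrict Wᶜ) p.2 g) ∂μ := by
        refine setLIntegral_congr_fun hW ?_
        intro x hx
        have h2 := ih (fun C => f (x ::ₘ C)) g (hmf x) hg
        simp only
        rw [← h2]
        congr 1
        funext C
        rw [flt_cons_mem W x C hx, flt_cons_notMem Wᶜ x C (fun h => h hx)]
      rw [h1, lintegral_finsetSum]
      · refine Finset.sum_congr rfl fun p _ => ?_
        rw [lintegral_const_mul _ ((hIf p.1).mul_const _), lintegral_mul_const _ (hIf p.1)]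
        rfl
      · intro p _
        exact ((hIf p.1).mul_const _).const_mul _
    have e2 : ∫⁻ x in Wᶜ, II μ N (fun C => f (flt W (x ::ₘ C)) * g (flt Wᶜ (x ::ₘ C))) ∂μ =
        ∑ p ∈ Finset.HasAntidiagonal.antidiagonal N, (N.choose p.1 : ℝ≥0∞) *
          (II (μ.restrict W) p.1 f * II (μ.restrict Wᶜ) (p.2 + 1) g) := by
      have h1 : ∫⁻ x in Wᶜ, II μ N (fun C => f (flt W (x ::ₘ C)) * g (flt Wᶜ (x ::ₘ C))) ∂μ =
          ∫⁻ x in Wᶜ, ∑ p ∈ Finset.HasAntidiagonal.antidiagonal N, (N.choose p.1 : ℝ≥0∞) *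
            (II (μ.restrict W) p.1 f * II (μ.restrict Wᶜ) p.2 (fun C => g (x ::ₘ C))) ∂μ := by
        refine setLIntegral_congr_fun hW.compl ?_
        intro x hx
        have h2 := ih f (fun C => g (x ::ₘ C)) hf (hmg x)
        simp only
        rw [← h2]
        congr 1
        funext C
        rw [flt_cons_mem Wᶜ x C hx, flt_cons_notMem W x C hx]
      rw [h1, lintegral_finsetSum]
      · refine Finset.sum_congr rfl fun p _ => ?_
        rw [lintegral_const_mul _ ((hIg p.2).const_mul _), lintegral_const_mul _ (hIg p.2)]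
        rfl
      · intro p _
        exact ((hIg p.2).const_mul _).const_mul _
    have e3 : II μ (N + 1) (fun C => f (flt W C) * g (flt Wᶜ C)) =
        ∫⁻ x, II μ N (fun C => f (flt W (x ::ₘ C)) * g (flt Wᶜ (x ::ₘ C))) ∂μ := rfl
    rw [e3, ← lintegral_add_compl _ hW, e1, e2]
    have e4 := Finset.sum_antidiagonal_choose_succ_mul
      (fun i j => II (μ.restrict W) i f * II (μ.restrict Wᶜ) j g) N
    rw [e4, add_comm]
    congr 1
    refine Finset.sum_congr rfl fun p hp => ?_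
    have h5 : p.1 + p.2 = N := Finset.HasAntidiagonal.mem_antidiagonal.1 hp
    have h6 : N.choose p.1 = N.choose p.2 := by
      rw [← h5, Nat.choose_symm_add]
    rw [h6]

theorem coef (l : ℝ) (hl : 0 ≤ l) (N : ℕ) (p : ℕ × ℕ) (hp : p.1 + p.2 = N) :
    ENNReal.ofReal (Real.exp (-l) * l ^ N / N.factorial) * (N.choose p.1 : ℝ≥0∞) =
      ENNReal.ofReal (Real.exp (-l)) *
        (ENNReal.ofReal (l ^ p.1 / p.1.factorial) * ENNReal.ofReal (l ^ p.2 / p.2.factorial)) := by
  have h1 : (N.choose p.1 : ℝ≥0∞) = ENNReal.ofReal (N.choose p.1 : ℝ) := by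
    rw [ENNReal.ofReal_natCast]
  rw [h1, ← ENNReal.ofReal_mul (by positivity), ← ENNReal.ofReal_mul (by positivity),
    ← ENNReal.ofReal_mul (by positivity)]
  congr 1
  have h2 : (N.choose p.1 : ℝ) * (p.1.factorial : ℝ) * (p.2.factorial : ℝ) = N.factorial := by
    have h3 : N.choose p.1 * p.1.factorial * p.2.factorial = N.factorial := by
      have h4 := Nat.choose_mul_factorial_mul_factorial (n := N) (k := p.1) (by omega)
      have h5 : N - p.1 = p.2 := by omega
      rw [h5] at h4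
      exact h4
    exact_mod_cast h3
  have h6 : (p.1.factorial : ℝ) ≠ 0 := by positivity
  have h7 : (p.2.factorial : ℝ) ≠ 0 := by positivity
  have h8 : (N.factorial : ℝ) ≠ 0 := by positivity
  rw [← hp, pow_add] at *
  field_simp
  rw [← h2]
  ring

theorem cauchy (a b : ℕ → ℝ≥0∞) :
    ∑' N : ℕ, ∑ p ∈ Finset.HasAntidiagonal.antidiagonal N, a p.1 * b p.2 = (∑' i, a i) * ∑' j, b j := by
  have h1 : (∑' i, a i) * ∑' j, b j = ∑' p : ℕ × ℕ, a p.1 * b p.2 := by
    rw [ENNReal.tsum_prod' ]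
    rw [← ENNReal.tsum_mul_right]
    refine tsum_congr fun i => ?_
    exact ENNReal.tsum_mul_left.symm
  have h2 : ∑' p : ℕ × ℕ, a p.1 * b p.2 =
      ∑' q : (Σ n : ℕ, ↥(Finset.HasAntidiagonal.antidiagonal n)),
        a (q.2 : ℕ × ℕ).1 * b (q.2 : ℕ × ℕ).2 :=
    (Finset.HasAntidiagonal.sigmaAntidiagonalEquivProd.tsum_eq (fun p : ℕ × ℕ => a p.1 * b p.2)).symm
  rw [h1, h2, ENNReal.tsum_sigma']
  refine tsum_congr fun N => ?_
  exact (Finset.tsum_subtype _ (fun p : ℕ × ℕ => a p.1 * b p.2)).symm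

end P4x

theorem pf_P4 (hP0 : P0) (hP2 : P2) (_hP3 : P3) : P4 := by
  intro l μ _ W f g hl hW hf hg
  have h1 : ∀ N : ℕ, ENNReal.ofReal (Real.exp (-l) * l ^ N / N.factorial) *
      II μ N (fun C => f (flt W C) * g (flt Wᶜ C)) =
      ENNReal.ofReal (Real.exp (-l)) * ∑ p ∈ Finset.HasAntidiagonal.antidiagonal N,
        (ENNReal.ofReal (l ^ p.1 / p.1.factorial) * II (μ.restrict W) p.1 f) *
          (ENNReal.ofReal (l ^ p.2 / p.2.factorial) * II (μ.restrict Wᶜ) p.2 g) := by
    intro N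
    rw [P4x.key hP0 hP2 μ W hW N f g hf hg, Finset.mul_sum, Finset.mul_sum]
    refine Finset.sum_congr rfl fun p hp => ?_
    have h2 := P4x.coef l hl N p (Finset.HasAntidiagonal.mem_antidiagonal.1 hp)
    rw [← mul_assoc, h2]
    ring
  unfold PE Zf
  rw [tsum_congr h1, ENNReal.tsum_mul_left,
    P4x.cauchy (fun i => ENNReal.ofReal (l ^ i / i.factorial) * II (μ.restrict W) i f)
      (fun j => ENNReal.ofReal (l ^ j / j.factorial) * II (μ.restrict Wᶜ) j g), mul_assoc]

end Pool.Agent.Helper59.RG
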