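import Pool.Agent.Helper59.RG.St

set_option autoImplicit false

namespace Pool.Agent.Helper59.RG

open MeasureTheory Set
open scoped ENNReal

noncomputable section

theorem P5x.exp_series (l m : ℝ) (hl : 0 ≤ l) (hm : 0 ≤ m) :
    (∑' k : ℕ, ENNReal.ofReal (l ^ k / k.factorial) * (ENNReal.ofReal m) ^ k) =
      ENNReal.ofReal (Real.exp (l * m)) := by
  have h1 : ∀ k : ℕ, ENNReal.ofReal (l ^ k / k.factorial) * (ENNReal.ofReal m) ^ k =
      ENNReal.ofReal ((l * m) ^ k / k.factorial) := by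
    intro k
    rw [← ENNReal.ofReal_pow hm, ← ENNReal.ofReal_mul (by positivity)]
    congr 1
    rw [mul_pow]
    ring
  simp_rw [h1]
  rw [← ENNReal.ofReal_tsum_of_nonneg (fun k => by positivity)
    (Real.summable_pow_div_factorial (l * m))]
  rw [Real.exp_eq_exp_ℝ, NormedSpace.exp_eq_tsum_div]

theorem P5x.II_one (ν : Measure E) (k : ℕ) : II ν k (fun _ => 1) = (ν univ) ^ k := by
  induction k with
  | zero => simp [II]
  | succ k ih =>
    simp only [II]
    rw [ih, lintegral_const, pow_succ]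

theorem P5x.Zf_one (l : ℝ) (hl : 0 ≤ l) (ν : Measure E) [IsFiniteMeasure ν] :
    Zf l ν (fun _ => 1) = ENNReal.ofReal (Real.exp (l * (ν univ).toReal)) := by
  unfold Zf
  simp_rw [P5x.II_one]
  have h : ν univ = ENNReal.ofReal (ν univ).toReal := by
    rw [ENNReal.ofReal_toReal (measure_ne_top ν univ)]
  rw [h]
  rw [P5x.exp_series l _ hl ENNReal.toReal_nonneg]
  rw [← h]

theorem pf_P5 (hP0 : P0) (hP4 : P4) : P5 := by
  intro l μ _ W f hl hW hf
  have hMf1 : Mf (fun _ => (1 : ℝ≥0∞)) := fun N => measurable_const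
  have h := hP4 l μ W f (fun _ => 1) hl hW hf hMf1
  simp only [mul_one] at h
  rw [h, P5x.Zf_one l hl]
  rw [Measure.restrict_apply_univ]
  have hc : (μ Wᶜ).toReal = 1 - (μ W).toReal := by
    have h1 : μ Wᶜ = 1 - μ W := prob_compl_eq_one_sub hW
    rw [h1, ENNReal.toReal_sub_of_le prob_le_one ENNReal.one_ne_top, ENNReal.toReal_one]
  rw [hc, mul_right_comm, ← ENNReal.ofReal_mul (Real.exp_pos _).le, ← Real.exp_add]
  congr 3
  ring

end

end Pool.Agent.Helper59.RG
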