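import Pool.Agent.Helper59.RG.St

set_option autoImplicit false

namespace Pool.Agent.Helper59.RG

open MeasureTheory Set
open scoped ENNReal

noncomputable section

theorem pf_P6 (hP0 : P0) (hP4 : P4) (hP5 : P5) : P6 := by
  intro l μ _ W f g hl hW hf hg
  rw [hP4 l μ W f g hl hW hf hg, hP5 l μ W f hl hW hf, hP5 l μ Wᶜ g hl hW.compl hg]
  have hc : (μ Wᶜ).toReal = 1 - (μ W).toReal := by
    have h1 : μ Wᶜ = 1 - μ W := prob_compl_eq_one_sub hW
    rw [h1, ENNReal.toReal_sub_of_le prob_le_one ENNReal.one_ne_top, ENNReal.toReal_one]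
  have he : ENNReal.ofReal (Real.exp (-l)) =
      ENNReal.ofReal (Real.exp (-(l * (μ W).toReal))) *
        ENNReal.ofReal (Real.exp (-(l * (μ Wᶜ).toReal))) := by
    rw [← ENNReal.ofReal_mul (Real.exp_pos _).le, ← Real.exp_add, hc]
    congr 2
    ring
  rw [he]
  ring

end

end Pool.Agent.Helper59.RG
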