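import Pool.Agent.Helper59.RG.St

set_option autoImplicit false

namespace Pool.Agent.Helper59.RG

open MeasureTheory Set
open scoped ENNReal

noncomputable section

theorem P7x.flt_pos (W : Set E) (x : E) (C : Multiset E) (h : x ∈ W) :
    flt W (x ::ₘ C) = x ::ₘ flt W C :=
  @Multiset.filter_cons_of_pos E (fun x => x ∈ W) (fun _ => Classical.propDecidable _) x C h

theorem P7x.flt_neg (W : Set E) (x : E) (C : Multiset E) (h : x ∉ W) :
    flt W (x ::ₘ C) = flt W C :=
  @Multiset.filter_cons_of_neg E (fun x => x ∈ W) (fun _ => Classical.propDecidable _) x C h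

theorem P7x.flt_flt (A B : Set E) (C : Multiset E) (h : Disjoint A B) :
    flt B (flt Aᶜ C) = flt B C := by
  induction C using Multiset.induction_on with
  | empty => simp [flt]
  | cons x C ih =>
    by_cases hB : x ∈ B
    · have hA : x ∈ Aᶜ := fun hA => Set.disjoint_left.mp h hA hB
      rw [P7x.flt_pos Aᶜ x C hA, P7x.flt_pos B x _ hB, P7x.flt_pos B x _ hB, ih]
    · rw [P7x.flt_neg B x C hB]
      by_cases hA : x ∈ Aᶜ
      · rw [P7x.flt_pos Aᶜ x C hA, P7x.flt_neg B x _ hB, ih]
      · rw [P7x.flt_neg Aᶜ x C hA, ih]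

theorem pf_P7 (hP0 : P0) (hP3 : P3) (hP6 : P6) : P7 := by
  intro l μ _ S W g hl
  induction S using Finset.induction_on with
  | empty =>
    intro _ _ _
    simp only [Finset.prod_empty]
    exact (hP3 l μ).2.2.2.2 hl measure_univ
  | insert i S hi ih =>
    intro hW hd hg
    have hWS : ∀ j ∈ S, MeasurableSet (W j) := fun j hj => hW j (Finset.mem_insert_of_mem hj)
    have hgS : ∀ j ∈ S, Mf (g j) := fun j hj => hg j (Finset.mem_insert_of_mem hj)
    have hdS : ∀ i ∈ S, ∀ j ∈ S, i ≠ j → Disjoint (W i) (W j) := fun a ha b hb =>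
      hd a (Finset.mem_insert_of_mem ha) b (Finset.mem_insert_of_mem hb)
    have ih' := ih hWS hdS hgS
    have hG : Mf (fun C => ∏ j ∈ S, g j (flt (W j) C)) := by
      intro N
      refine Finset.measurable_prod _ ?_
      intro j hj
      exact hP0.1 (W j) (g j) (hWS j hj) (hgS j hj) N
    have h6 := hP6 l μ (W i) (g i) (fun C => ∏ j ∈ S, g j (flt (W j) C)) hl
      (hW i (Finset.mem_insert_self i S)) (hg i (Finset.mem_insert_self i S)) hG
    have hred : ∀ C : Multiset E, (∏ j ∈ S, g j (flt (W j) (flt (W i)ᶜ C))) =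
        ∏ j ∈ S, g j (flt (W j) C) := by
      intro C
      refine Finset.prod_congr rfl ?_
      intro j hj
      rw [P7x.flt_flt (W i) (W j) C (hd i (Finset.mem_insert_self i S) j
        (Finset.mem_insert_of_mem hj) (fun h => hi (h ▸ hj)))]
    simp only [hred] at h6
    rw [Finset.prod_insert hi, ← ih', ← h6]
    congr 1
    funext C
    rw [Finset.prod_insert hi]

end

end Pool.Agent.Helper59.RG
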