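import Pool.Agent.Helper59.RG.St

set_option autoImplicit false

namespace Pool.Agent.Helper59.RG

open MeasureTheory Set
open scoped ENNReal

noncomputable section

theorem P8x.exp_series (l m : ℝ) (hl : 0 ≤ l) (hm : 0 ≤ m) :
    (∑' k : ℕ, ENNReal.ofReal (l ^ k / k.factorial) * (ENNReal.ofReal m) ^ k) =
      ENNReal.ofReal (Real.exp (l * m)) := by
  have h1 : ∀ k : ℕ, ENNReal.ofReal (l ^ k / k.factorial) * (ENNReal.ofReal m) ^ k =
      ENNReal.ofReal ((l * m) ^ k / k.factorial) := by
    intro k
    rw [← ENNReal.ofReal_pow hm, ← ENNReal.ofReal_mul (by positivity)]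
    congr 1
    rw [mul_pow]
    ring
  simp_rw [h1]
  rw [← ENNReal.ofReal_tsum_of_nonneg (fun k => by positivity)
    (Real.summable_pow_div_factorial (l * m))]
  rw [Real.exp_eq_exp_ℝ, NormedSpace.exp_eq_tsum_div]

theorem P8x.II_pow (ν : Measure E) (a : ℝ≥0∞) (k : ℕ) : ∀ b : ℝ≥0∞,
    II ν k (fun C => b * a ^ C.card) = b * (a * ν univ) ^ k := by
  induction k with
  | zero => intro b; simp [II]
  | succ k ih =>
    intro b
    simp only [II]
    have h : ∀ x : E, II ν k (fun C => b * a ^ (x ::ₘ C).card) = (b * a) * (a * ν univ) ^ k := by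
      intro x
      rw [← ih (b * a)]
      congr 1
      funext C
      rw [Multiset.card_cons, pow_succ]
      ring
    simp_rw [h]
    rw [lintegral_const, pow_succ]
    ring

theorem pf_P8 (hP0 : P0) (hP5 : P5) : P8 := by
  intro l μ _ W t hl ht hW
  have hMf : Mf (fun C => ENNReal.ofReal t ^ C.card) := by
    intro N
    have : (fun X : Fin N → E => ENNReal.ofReal t ^ (ms X).card) =
        fun _ => ENNReal.ofReal t ^ N := by
      funext X
      simp [ms]
    rw [this]
    exact measurable_const
  have h := hP5 l μ W (fun C => ENNReal.ofReal t ^ C.card) hl hW hMf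
  rw [h]
  unfold Zf
  have h2 : ∀ k : ℕ, II (μ.restrict W) k (fun C => ENNReal.ofReal t ^ C.card) =
      (ENNReal.ofReal (t * (μ W).toReal)) ^ k := by
    intro k
    have := P8x.II_pow (μ.restrict W) (ENNReal.ofReal t) k 1
    simp only [one_mul] at this
    rw [this, Measure.restrict_apply_univ, ENNReal.ofReal_mul ht,
      ENNReal.ofReal_toReal (measure_ne_top μ W)]
  simp_rw [h2]
  rw [P8x.exp_series l _ hl (by positivity), ← ENNReal.ofReal_mul (Real.exp_pos _).le,
    ← Real.exp_add]
  congr 2
  ring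

end

end Pool.Agent.Helper59.RG
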