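import Pool.Agent.Helper59.RG.St

/-!
# Project RG, piece P9: the Mecke formula.
-/

set_option autoImplicit false

namespace Pool.Agent.Helper59.RG

open MeasureTheory Set
open scoped ENNReal

noncomputable section

namespace P9x

/-- additivity of the iterated integral -/
theorem II_add (hP0 : P0) (hP2 : P2) (μ : Measure E) [IsFiniteMeasure μ] (N : ℕ) :
    ∀ F G : Multiset E → ℝ≥0∞, Mf F →
      II μ N (fun C => F C + G C) = II μ N F + II μ N G := by
  obtain ⟨-, h2, h3, -⟩ := hP0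
  induction N with
  | zero => intro F G hF; rfl
  | succ N ih =>
    intro F G hF
    have hj : Mj fun (x : E) (C : Multiset E) => F (x ::ₘ C) := h2 F hF
    have hm := (hP2 E μ (fun (x : E) (C : Multiset E) => F (x ::ₘ C)) hj).1 N
    have hf := (h3 E (fun (x : E) (C : Multiset E) => F (x ::ₘ C)) hj).1
    show ∫⁻ x, II μ N (fun C => F (x ::ₘ C) + G (x ::ₘ C)) ∂μ =
      ∫⁻ x, II μ N (fun C => F (x ::ₘ C)) ∂μ + ∫⁻ x, II μ N (fun C => G (x ::ₘ C)) ∂μ
    rw [← lintegral_add_left hm]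
    refine lintegral_congr fun x => ?_
    exact ih (fun C => F (x ::ₘ C)) (fun C => G (x ::ₘ C)) (hf x)

theorem ers_sum (φ : E → Multiset E → ℝ≥0∞) (x : E) (C : Multiset E) :
    ((x ::ₘ C).map fun s => φ s (ers (x ::ₘ C) s)).sum =
      φ x C + (C.map fun s => φ s (x ::ₘ ers C s)).sum := by
  rw [Multiset.map_cons, Multiset.sum_cons]
  have h1 : ers (x ::ₘ C) x = C := by
    unfold ers
    exact @Multiset.erase_cons_head E (Classical.decEq E) x C
  rw [h1]
  congr 2
  refine Multiset.map_congr rfl fun s hs => ?_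
  have h2 : ers (x ::ₘ C) s = x ::ₘ ers C s := by
    unfold ers
    exact @Multiset.erase_cons_tail_of_mem E (Classical.decEq E) C s x hs
  rw [h2]

theorem Mj_cons (hP0 : P0) (φ : E → Multiset E → ℝ≥0∞) (hφ : Mj φ) (x : E) :
    Mj fun (s : E) (C : Multiset E) => φ s (x ::ₘ C) := by
  obtain ⟨-, -, h3, -⟩ := hP0
  have h := (h3 E φ hφ).2
  intro N
  have hN := h N
  have hc : Measurable fun p : E × (Fin N → E) => (((p.1, x), p.2) : (E × E) × (Fin N → E)) := by
    fun_prop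
  exact hN.comp hc

theorem step (hP0 : P0) (hP2 : P2) (μ : Measure E) [IsFiniteMeasure μ] (N : ℕ) :
    ∀ φ : E → Multiset E → ℝ≥0∞, Mj φ →
      II μ (N + 1) (fun C => (C.map fun s => φ s (ers C s)).sum) =
        ((N : ℝ≥0∞) + 1) * ∫⁻ s, II μ N (φ s) ∂μ := by
  induction N with
  | zero =>
    intro φ hφ
    show ∫⁻ x, ((x ::ₘ (0 : Multiset E)).map fun s => φ s (ers (x ::ₘ 0) s)).sum ∂μ =
      (((0 : ℕ) : ℝ≥0∞) + 1) * ∫⁻ s, φ s 0 ∂μ
    rw [Nat.cast_zero, zero_add, one_mul]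
    refine lintegral_congr fun x => ?_
    rw [ers_sum]
    simp
  | succ N ih =>
    intro φ hφ
    have h3 := hP0.2.2.1
    have hf := (h3 E φ hφ).1
    have hjj := (h3 E φ hφ).2
    have hm1 := (hP2 E μ φ hφ).1 (N + 1)
    have hm2 := (hP2 (E × E) μ (fun (p : E × E) (C : Multiset E) => φ p.1 (p.2 ::ₘ C)) hjj).1 N
    have e1 : II μ (N + 1 + 1) (fun C => (C.map fun s => φ s (ers C s)).sum) =
        ∫⁻ x, (II μ (N + 1) (φ x) +
          ((N : ℝ≥0∞) + 1) * ∫⁻ s, II μ N (fun C => φ s (x ::ₘ C)) ∂μ) ∂μ := by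
      show ∫⁻ x, II μ (N + 1) (fun C => ((x ::ₘ C).map fun s => φ s (ers (x ::ₘ C) s)).sum) ∂μ = _
      refine lintegral_congr fun x => ?_
      have e2 : (fun C : Multiset E => ((x ::ₘ C).map fun s => φ s (ers (x ::ₘ C) s)).sum) =
          fun C => φ x C + (C.map fun s => (fun (s : E) (C : Multiset E) => φ s (x ::ₘ C)) s
            (ers C s)).sum := by
        funext C
        exact ers_sum φ x C
      rw [e2, II_add hP0 hP2 μ (N + 1) _ _ (hf x),
        ih (fun (s : E) (C : Multiset E) => φ s (x ::ₘ C)) (Mj_cons hP0 φ hφ x)]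
    rw [e1, lintegral_add_left hm1]
    have hfin : ((N : ℝ≥0∞) + 1) ≠ ⊤ := by
      exact ENNReal.add_ne_top.2 ⟨ENNReal.natCast_ne_top N, ENNReal.one_ne_top⟩
    rw [lintegral_const_mul' _ _ hfin]
    have e3 : ∫⁻ x, ∫⁻ s, II μ N (fun C => φ s (x ::ₘ C)) ∂μ ∂μ =
        ∫⁻ s, II μ (N + 1) (φ s) ∂μ := by
      have hsw : Measurable (Function.uncurry fun (x s : E) => II μ N (fun C => φ s (x ::ₘ C))) :=
        hm2.comp measurable_swap
      rw [lintegral_lintegral_swap hsw.aemeasurable]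
      rfl
    rw [e3]
    push_cast
    ring

end P9x

theorem pf_P9 (hP0 : P0) (hP2 : P2) (hP3 : P3) : P9 := by
  intro l μ _ φ hl hφ
  have _ := hP3
  have hm := fun N => (hP2 E μ φ hφ).1 N
  unfold PE
  rw [tsum_eq_zero_add' ENNReal.summable]
  have h0 : II μ 0 (fun C => (C.map fun s => φ s (ers C s)).sum) = 0 := by
    show ((0 : Multiset E).map fun s => φ s (ers 0 s)).sum = 0
    simp
  rw [h0, mul_zero, zero_add]
  have h1 : ∀ N : ℕ, ENNReal.ofReal (Real.exp (-l) * l ^ (N + 1) / (N + 1).factorial) *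
      II μ (N + 1) (fun C => (C.map fun s => φ s (ers C s)).sum) =
      ENNReal.ofReal l * (ENNReal.ofReal (Real.exp (-l) * l ^ N / N.factorial) *
        ∫⁻ s, II μ N (φ s) ∂μ) := by
    intro N
    rw [P9x.step hP0 hP2 μ N φ hφ, ← mul_assoc, ← mul_assoc]
    congr 1
    have hN : ((N : ℝ≥0∞) + 1) = ENNReal.ofReal ((N : ℝ) + 1) := by
      rw [ENNReal.ofReal_add (by positivity) zero_le_one, ENNReal.ofReal_natCast,
        ENNReal.ofReal_one]
    rw [hN, ← ENNReal.ofReal_mul (by positivity), ← ENNReal.ofReal_mul hl]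
    congr 1
    rw [Nat.factorial_succ]
    have : ((N : ℝ) + 1) ≠ 0 := by positivity
    have h2 : (N.factorial : ℝ) ≠ 0 := by positivity
    push_cast
    field_simp
    ring
  simp_rw [h1]
  rw [ENNReal.tsum_mul_left]
  congr 1
  rw [lintegral_tsum]
  · refine tsum_congr fun N => ?_
    rw [lintegral_const_mul _ (hm N)]
  · intro N
    exact ((hm N).const_mul _).aemeasurable

end

end Pool.Agent.Helper59.RG
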