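import Pool.Agent.Helper59.RG.St

set_option autoImplicit false

namespace Pool.Agent.Helper59.RG

open MeasureTheory Set
open scoped ENNReal

namespace R1x

theorem mem_flt {W : Set E} {C : Multiset E} {y : E} : y ∈ flt W C ↔ y ∈ C ∧ y ∈ W := by
  classical
  unfold flt
  rw [Multiset.mem_filter]

theorem mono (r : ℝ) (z : E) (W W' : Set E) (C C' : Multiset E)
    (h : ∀ y ∈ C, y ∈ W → y ∈ C' ∧ y ∈ W') (k : ℕ) :
    ∀ s : E, Rch r z W C k s → Rch r z W' C' k s := by
  induction k with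
  | zero => exact fun s hs => hs
  | succ k ih =>
    rintro s ⟨y, hy, hyW, hr, hn⟩
    obtain ⟨h1, h2⟩ := h y hy hyW
    exact ⟨y, h1, h2, ih y hr, hn⟩

theorem up (r : ℝ) (z s : E) (W : Set E) (C : Multiset E) (k k' : ℕ) (hr : 0 ≤ r) (hs : s ∈ C)
    (hW : s ∈ W) (hk : k ≤ k') (h : Rch r z W C k s) : Rch r z W C k' s := by
  induction hk with
  | refl => exact h
  | step _ ih =>
    refine ⟨s, hs, hW, ih, ?_⟩
    rw [sub_self]
    unfold nm
    simpa using hr

theorem len (hG0 : G0) (r : ℝ) (z : E) (W : Set E) (C : Multiset E) (k : ℕ) :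
    ∀ s : E, Rch r z W C k s → nm (s - z) ≤ (k + 1) * r := by
  induction k with
  | zero =>
    intro s hs
    have : nm (s - z) ≤ r := hs
    simpa using this
  | succ k ih =>
    rintro s ⟨y, hy, hyW, hr, hn⟩
    have h1 := ih y hr
    have h2 := hG0.1 (s - y) (y - z)
    rw [sub_add_sub_cancel] at h2
    push_cast
    linarith

end R1x

theorem pf_R1 (hG0 : G0) : R1 := by
  refine ⟨fun r z s W W' C C' k h hs => R1x.mono r z W W' C C' h k s hs,
    fun r z s W C k => ⟨fun h => ?_, fun h => ?_⟩,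
    fun r z s W C k k' hr hs hW hk h => R1x.up r z s W C k k' hr hs hW hk h,
    fun r z s W C k h => R1x.len hG0 r z W C k s h⟩
  · exact R1x.mono r z W W C _ (fun y hy hyW => ⟨R1x.mem_flt.2 ⟨hy, hyW⟩, hyW⟩) k s h
  · exact R1x.mono r z W W _ C (fun y hy hyW => ⟨(R1x.mem_flt.1 hy).1, hyW⟩) k s h

end Pool.Agent.Helper59.RG
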