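import Pool.Agent.Helper59.RG.St

/-!
# Project RG, piece R2: measurability of the relation `Rch`
-/

set_option autoImplicit false

namespace Pool.Agent.Helper59.RG

open MeasureTheory Set
open scoped ENNReal

namespace R2x

theorem continuous_nm : Continuous nm := by
  unfold nm
  fun_prop

theorem mem_ms {N : ℕ} (X : Fin N → E) (y : E) : y ∈ ms X ↔ ∃ i, X i = y := by
  simp [ms]

theorem meas (r : ℝ) (W : Set E) (N : ℕ) (hW : MeasurableSet W) (k : ℕ) :
    MeasurableSet {p : (E × E) × (Fin N → E) | Rch r p.1.1 W (ms p.2) k p.1.2} := by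
  induction k with
  | zero =>
    have h : Continuous fun p : (E × E) × (Fin N → E) => nm (p.1.2 - p.1.1) :=
      continuous_nm.comp (by fun_prop)
    exact (isClosed_le h continuous_const).measurableSet
  | succ k ih =>
    have h1 : {p : (E × E) × (Fin N → E) | Rch r p.1.1 W (ms p.2) (k + 1) p.1.2} =
        ⋃ i : Fin N, ({p : (E × E) × (Fin N → E) | p.2 i ∈ W} ∩
          ({p : (E × E) × (Fin N → E) | Rch r p.1.1 W (ms p.2) k (p.2 i)} ∩
            {p : (E × E) × (Fin N → E) | nm (p.1.2 - p.2 i) ≤ r})) := by
      ext p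
      simp only [mem_ofPred_eq, mem_iUnion, mem_inter_iff, Rch]
      constructor
      · rintro ⟨y, hy, hW, h, h'⟩
        obtain ⟨i, rfl⟩ := (mem_ms _ _).mp hy
        exact ⟨i, hW, h, h'⟩
      · rintro ⟨i, hW, h, h'⟩
        exact ⟨p.2 i, (mem_ms _ _).mpr ⟨i, rfl⟩, hW, h, h'⟩
    rw [h1]
    refine MeasurableSet.iUnion fun i => MeasurableSet.inter ?_ (MeasurableSet.inter ?_ ?_)
    · have h2 : Measurable fun p : (E × E) × (Fin N → E) => p.2 i :=
        (measurable_pi_apply i).comp measurable_snd
      exact h2 hW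
    · have h2 : Measurable fun p : (E × E) × (Fin N → E) => (((p.1.1, p.2 i), p.2) :
          (E × E) × (Fin N → E)) :=
        ((measurable_fst.comp measurable_fst).prodMk
          ((measurable_pi_apply i).comp measurable_snd)).prodMk measurable_snd
      exact h2 ih
    · have h : Continuous fun p : (E × E) × (Fin N → E) => nm (p.1.2 - p.2 i) :=
        continuous_nm.comp (by fun_prop)
      exact (isClosed_le h continuous_const).measurableSet

end R2x

theorem pf_R2 : R2 := fun r W k N hW => R2x.meas r W N hW k

end Pool.Agent.Helper59.RG
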