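import Pool.Agent.Helper59.RG.St

/-! Project RG: the relation `Rch` is invariant under isometries. -/

set_option autoImplicit false

namespace Pool.Agent.Helper59.RG

theorem pf_R3 : R3 := by
  intro g r z s W W' C k hg hW
  induction k generalizing s with
  | zero =>
    simp only [Rch]
    rw [hg]
  | succ k ih =>
    simp only [Rch]
    constructor
    · rintro ⟨y', hy', hyW, hr, hn⟩
      obtain ⟨y, hy, rfl⟩ := Multiset.mem_map.1 hy'
      exact ⟨y, hy, (hW y hy).1 hyW, (ih y).1 hr, by rw [← hg]; exact hn⟩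
    · rintro ⟨y, hy, hyW, hr, hn⟩
      exact ⟨g y, Multiset.mem_map_of_mem g hy, (hW y hy).2 hyW, (ih y).2 hr,
        by rw [hg]; exact hn⟩

end Pool.Agent.Helper59.RG
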