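import Pool.Agent.Helper59.RG.St

/-!
# Project RG (MP_4d33fe_pr): measurability of the counting functionals.
-/

set_option autoImplicit false

namespace Pool.Agent.Helper59.RG

open MeasureTheory Set
open scoped ENNReal

namespace R4x

theorem flt_ms {N : ℕ} (W : Set E) (X : Fin N → E) :
    flt W (ms X) = Multiset.map X
      (@Finset.filter (Fin N) (fun i => X i ∈ W) (fun _ => Classical.propDecidable _)
        Finset.univ).val := by
  unfold flt ms
  rw [Finset.filter_val, Multiset.filter_map]
  rfl

theorem sum_flt {N : ℕ} (W : Set E) (g : E → ℝ≥0∞) (X : Fin N → E) :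
    ((flt W (ms X)).map g).sum = ∑ i, ind (X i ∈ W) * g (X i) := by
  rw [flt_ms, Multiset.map_map]
  change ∑ i ∈ @Finset.filter (Fin N) (fun i => X i ∈ W) (fun _ => Classical.propDecidable _)
        Finset.univ, g (X i) = _
  rw [Finset.sum_filter]
  refine Finset.sum_congr rfl fun i _ => ?_
  unfold ind
  split_ifs <;> simp

theorem card_flt {N : ℕ} (W : Set E) (X : Fin N → E) :
    (flt W (ms X)).card =
      ∑ i, @ite ℕ (X i ∈ W) (Classical.propDecidable _) 1 0 := by
  rw [flt_ms, Multiset.card_map]
  change Finset.card _ = _
  rw [Finset.card_filter]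

theorem measurable_ind {α : Type} [MeasurableSpace α] {p : α → Prop} (hp : MeasurableSet {x | p x}) :
    Measurable fun x => ind (p x) := by
  unfold ind
  exact Measurable.ite hp measurable_const measurable_const

theorem rch (hR2 : R2) {α : Type} [MeasurableSpace α] {N : ℕ} (r : ℝ) (W : Set E) (k : ℕ)
    (hW : MeasurableSet W) (z s : α → E) (X : α → Fin N → E) (hz : Measurable z)
    (hs : Measurable s) (hX : Measurable X) :
    MeasurableSet {a | Rch r (z a) W (ms (X a)) k (s a)} :=
  (hR2 r W k N hW).preimage ((hz.prodMk hs).prodMk hX)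

theorem measurable_nm : Measurable nm := by
  unfold nm
  fun_prop

theorem measurable_sl : Measurable sl := by
  unfold sl
  fun_prop

theorem measurableSet_W (c : Cx) (j : ℕ) : MeasurableSet (c.W j) := by
  unfold Cx.W
  have h : Measurable fun x : E => sl (x - c.u) :=
    measurable_sl.comp (measurable_id.sub_const c.u)
  have h1 : Measurable fun x : E => (x - c.u).1 :=
    measurable_fst.comp (measurable_id.sub_const c.u)
  exact (measurableSet_lt measurable_const h1).inter
    ((measurableSet_le measurable_const h).inter (measurableSet_lt h measurable_const))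

theorem measurableSet_Aj (c : Cx) (j : ℕ) : MeasurableSet (c.Aj j) := by
  unfold Cx.Aj
  have h : Measurable fun x : E => sl (x - c.u) :=
    measurable_sl.comp (measurable_id.sub_const c.u)
  have hA : MeasurableSet c.A := by
    unfold Cx.A tr Cx.A0
    exact (measurableSet_Icc.prod measurableSet_Icc).preimage (measurable_id.sub_const c.u)
  exact hA.inter
    ((measurableSet_le measurable_const h).inter (measurableSet_lt h measurable_const))

theorem measurable_card {α : Type} [MeasurableSpace α] {N : ℕ} (W : α → Set E)
    (X : α → Fin N → E) (h : ∀ i, MeasurableSet {a | X a i ∈ W a}) :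
    Measurable fun a => (flt (W a) (ms (X a))).card := by
  simp_rw [card_flt]
  refine Finset.measurable_sum _ fun i _ => ?_
  exact Measurable.ite (h i) measurable_const measurable_const

end R4x

open R4x in
theorem pf_R4 (hR2 : R2) : R4 := by
  refine ⟨?_, ?_, ?_⟩
  · intro r z W B K hW hB N
    unfold SN
    simp_rw [sum_flt]
    refine Finset.measurable_sum _ fun i _ => ?_
    refine (measurable_ind (hB.preimage (measurable_pi_apply i))).mul ?_
    unfold NN
    refine Finset.measurable_sum _ fun k _ => ?_
    exact measurable_ind (rch hR2 r W k hW (fun _ => z) (fun X => X i) (fun X => X)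
      measurable_const (measurable_pi_apply i) measurable_id)
  · intro c j M N
    have h : Measurable fun X : Fin N → E => c.T j (ms X) := by
      unfold Cx.T
      refine measurable_card _ _ fun i => ?_
      refine (((measurableSet_Aj c j).preimage (measurable_pi_apply i))).inter ?_
      have he : {X : Fin N → E | ∃ k < c.K, Rch c.r c.u (c.W j) (ms X) k (X i) ∧
          ¬ Rch c.r c.v (c.W j) (ms X) k (X i)} = ⋃ k : ℕ, ⋃ _ : k < c.K,
          {X : Fin N → E | Rch c.r c.u (c.W j) (ms X) k (X i)} \
            {X : Fin N → E | Rch c.r c.v (c.W j) (ms X) k (X i)} := by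
        ext X
        simp only [mem_setOf_eq, mem_iUnion, mem_diff, exists_prop]
      change MeasurableSet {X : Fin N → E | ∃ k < c.K, Rch c.r c.u (c.W j) (ms X) k (X i) ∧
          ¬ Rch c.r c.v (c.W j) (ms X) k (X i)}
      rw [he]
      refine MeasurableSet.iUnion fun k => MeasurableSet.iUnion fun _ => ?_
      exact (rch hR2 c.r (c.W j) k (measurableSet_W c j) (fun _ => c.u) (fun X => X i)
        (fun X => X) measurable_const (measurable_pi_apply i) measurable_id).diff
        (rch hR2 c.r (c.W j) k (measurableSet_W c j) (fun _ => c.v) (fun X => X i)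
        (fun X => X) measurable_const (measurable_pi_apply i) measurable_id)
    exact (measurable_from_nat (f := fun m : ℕ => ((min m M : ℕ) : ℝ≥0∞))).comp h
  · intro r K Kc N
    have h : Measurable fun p : (E × E) × (Fin N → E) => nsep r K p.1.1 p.1.2 (ms p.2) := by
      unfold nsep
      refine measurable_card (fun p : (E × E) × (Fin N → E) =>
        {s | SepC r K p.1.1 p.1.2 (ms p.2) s}) (fun p => p.2) fun i => ?_
      have hi : Measurable fun p : (E × E) × (Fin N → E) => p.2 i :=
        (measurable_pi_apply i).comp measurable_snd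
      have hu : Measurable fun p : (E × E) × (Fin N → E) => p.1.1 :=
        measurable_fst.comp measurable_fst
      have hv : Measurable fun p : (E × E) × (Fin N → E) => p.1.2 :=
        measurable_snd.comp measurable_fst
      have m1 : ∀ k, MeasurableSet {p : (E × E) × (Fin N → E) |
          Rch r p.1.1 univ (ms p.2) k (p.2 i)} := fun k =>
        rch hR2 r univ k MeasurableSet.univ _ _ _ hu hi measurable_snd
      have m2 : ∀ k, MeasurableSet {p : (E × E) × (Fin N → E) |
          Rch r p.1.2 univ (ms p.2) k (p.2 i)} := fun k =>
        rch hR2 r univ k MeasurableSet.univ _ _ _ hv hi measurable_snd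
      have he : {p : (E × E) × (Fin N → E) | p.2 i ∈ {s | SepC r K p.1.1 p.1.2 (ms p.2) s}} =
          ⋃ k : ℕ, ⋃ _ : k < K,
          ({p : (E × E) × (Fin N → E) | Rch r p.1.1 univ (ms p.2) k (p.2 i)} \
            {p : (E × E) × (Fin N → E) | Rch r p.1.2 univ (ms p.2) k (p.2 i)}) ∪
          ({p : (E × E) × (Fin N → E) | Rch r p.1.2 univ (ms p.2) k (p.2 i)} \
            {p : (E × E) × (Fin N → E) | Rch r p.1.1 univ (ms p.2) k (p.2 i)}) := by
        ext p
        simp only [SepC, mem_setOf_eq, mem_iUnion, mem_diff, mem_union, exists_prop]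
      rw [he]
      exact MeasurableSet.iUnion fun k => MeasurableSet.iUnion fun _ =>
        ((m1 k).diff (m2 k)).union ((m2 k).diff (m1 k))
    exact (measurable_from_nat (f := fun m : ℕ => ind (m < Kc))).comp h

end Pool.Agent.Helper59.RG
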