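import Pool.Agent.Helper59.RG.St

/-!
# Project RG, piece R5: the count in a sector depends on the extended sector only
-/

set_option autoImplicit false

namespace Pool.Agent.Helper59.RG

open MeasureTheory Set
open scoped ENNReal

noncomputable section

namespace R5x

theorem flt_pos {W : Set E} {a : E} {C : Multiset E} (h : a ∈ W) :
    flt W (a ::ₘ C) = a ::ₘ flt W C := by
  exact @Multiset.filter_cons_of_pos E (fun x => x ∈ W) (fun _ => Classical.propDecidable _) a C h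

theorem flt_neg {W : Set E} {a : E} {C : Multiset E} (h : a ∉ W) :
    flt W (a ::ₘ C) = flt W C := by
  exact @Multiset.filter_cons_of_neg E (fun x => x ∈ W) (fun _ => Classical.propDecidable _) a C h

theorem flt_flt (P W : Set E) (C : Multiset E) (h : P ⊆ W) : flt P (flt W C) = flt P C := by
  induction C using Multiset.induction_on with
  | empty => rfl
  | cons a C ih =>
    by_cases hP : a ∈ P
    · rw [flt_pos (h hP), flt_pos hP, flt_pos hP, ih]
    · rw [flt_neg (C := C) hP, ← ih]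
      by_cases hW : a ∈ W
      · rw [flt_pos hW, flt_neg hP]
      · rw [flt_neg hW]

theorem mg_nonneg {c : Cx} {Λ : ℝ} (h : c.Ok Λ) : 0 ≤ c.mg := by
  have h1 := h.hr
  have h2 : 0 ≤ c.rho := Real.sqrt_nonneg _
  have h3 : 0 ≤ c.th := by
    unfold Cx.th
    positivity
  unfold Cx.mg
  positivity

theorem Aj_sub {c : Cx} {Λ : ℝ} (h : c.Ok Λ) (j : ℕ) : c.Aj j ⊆ c.W j := by
  rintro s ⟨hA, h1, h2⟩
  have h3 := mg_nonneg h
  have hR : 0 < c.R := by
    have := h.hR
    have := h.hr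
    nlinarith
  have h4 : c.R ≤ (s - c.u).1 := hA.1.1
  refine ⟨by linarith, by linarith, by linarith⟩

end R5x

theorem pf_R5 (hR1 : R1) : R5 := by
  intro c Λ j C hc
  obtain ⟨-, hR, -, -⟩ := hR1
  have h1 : {s | s ∈ c.Aj j ∧ ∃ k < c.K, Rch c.r c.u (c.W j) (flt (c.W j) C) k s ∧
      ¬ Rch c.r c.v (c.W j) (flt (c.W j) C) k s} =
      {s | s ∈ c.Aj j ∧ ∃ k < c.K, Rch c.r c.u (c.W j) C k s ∧
        ¬ Rch c.r c.v (c.W j) C k s} := by
    ext s
    constructor
    · rintro ⟨h1, k, hk, h2, h3⟩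
      exact ⟨h1, k, hk, (hR _ _ _ _ _ _).2 h2, fun h4 => h3 ((hR _ _ _ _ _ _).1 h4)⟩
    · rintro ⟨h1, k, hk, h2, h3⟩
      exact ⟨h1, k, hk, (hR _ _ _ _ _ _).1 h2, fun h4 => h3 ((hR _ _ _ _ _ _).2 h4)⟩
  unfold Cx.T
  rw [h1, R5x.flt_flt]
  rintro s ⟨hs, -⟩
  exact R5x.Aj_sub hc j hs

end

end Pool.Agent.Helper59.RG
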