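import Pool.Agent.Helper59.RG.St2

/-!
# Project RG: symmetries of the square
-/

set_option autoImplicit false

namespace Pool.Agent.Helper59.RG

open MeasureTheory Set
open scoped ENNReal

noncomputable section

namespace S1x

attribute [local instance] Classical.propDecidable

theorem flt_map (g : E → E) (B : Set E) (C : Multiset E) :
    flt B (C.map g) = (flt (g ⁻¹' B) C).map g := by
  unfold flt
  rw [Multiset.filter_map]
  rfl

theorem II_map (μ : Measure E) (g : E ≃ᵐ E) (hg : μ.map g = μ) (N : ℕ) :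
    ∀ F : Multiset E → ℝ≥0∞, II μ N (fun C => F (C.map g)) = II μ N F := by
  induction N with
  | zero =>
    intro F
    simp [II]
  | succ N ih =>
    intro F
    simp only [II, Multiset.map_cons]
    have h1 : ∀ x : E, II μ N (fun C => F (g x ::ₘ C.map g)) =
        II μ N (fun C => F (g x ::ₘ C)) := fun x => ih (fun C => F (g x ::ₘ C))
    simp only [h1]
    have h2 := lintegral_map_equiv (μ := μ) (fun x => II μ N (fun C => F (x ::ₘ C))) g
    rw [← h2, hg]

theorem nsep_map (hR3 : R3) (r : ℝ) (K : ℕ) (g : E → E)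
    (hg : ∀ x y, nm (g x - g y) = nm (x - y)) (x y : E) (C : Multiset E) :
    nsep r K (g x) (g y) (C.map g) = nsep r K x y C := by
  unfold nsep
  rw [flt_map, Multiset.card_map]
  congr 1
  congr 1
  ext s
  simp only [mem_preimage, Set.mem_ofPred_eq, SepC]
  have h1 : ∀ k, (Rch r (g x) univ (C.map g) k (g s) ↔ Rch r x univ C k s) := fun k =>
    hR3 g r x s univ univ C k hg (fun y _ => by simp)
  have h2 : ∀ k, (Rch r (g y) univ (C.map g) k (g s) ↔ Rch r y univ C k s) := fun k =>
    hR3 g r y s univ univ C k hg (fun y _ => by simp)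
  simp only [h1, h2]

theorem nsep_symm (r : ℝ) (K : ℕ) (x y : E) (C : Multiset E) :
    nsep r K y x C = nsep r K x y C := by
  unfold nsep
  congr 2
  ext s
  simp only [Set.mem_ofPred_eq, SepC]
  constructor
  · rintro ⟨k, hk, h | h⟩
    · exact ⟨k, hk, Or.inr h⟩
    · exact ⟨k, hk, Or.inl h⟩
  · rintro ⟨k, hk, h | h⟩
    · exact ⟨k, hk, Or.inr h⟩
    · exact ⟨k, hk, Or.inl h⟩

/-- the equivalence of an involution -/
def inv1 (g : E → E) (h : ∀ x, g (g x) = x) (hm : Measurable g) : E ≃ᵐ E where
  toFun := g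
  invFun := g
  left_inv := h
  right_inv := h
  measurable_toFun := hm
  measurable_invFun := hm

theorem key (hR3 : R3) (Λ r : ℝ) (K Kc N : ℕ) (x y : E) (g : E → E) (h : ∀ x, g (g x) = x)
    (hm : MeasurePreserving g volume volume) (hS : g ⁻¹' (Sq Λ) = Sq Λ)
    (hg : ∀ x y, nm (g x - g y) = nm (x - y)) :
    II (mu Λ) N (fun C => ind (nsep r K (g x) (g y) C < Kc)) =
      II (mu Λ) N (fun C => ind (nsep r K x y C < Kc)) := by
  have hSm : MeasurableSet (Sq Λ) := measurableSet_Icc.prod measurableSet_Icc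
  have h1 : MeasurePreserving g (volume.restrict (Sq Λ)) (volume.restrict (Sq Λ)) := by
    have := hm.restrict_preimage hSm
    rwa [hS] at this
  have h2 : (mu Λ).map (inv1 g h hm.measurable) = mu Λ := by
    have : ((inv1 g h hm.measurable : E ≃ᵐ E) : E → E) = g := rfl
    rw [this]
    unfold mu
    rw [Measure.map_smul, h1.map_eq]
  have h3 := II_map (mu Λ) (inv1 g h hm.measurable) h2 N
    (fun C => ind (nsep r K (g x) (g y) C < Kc))
  rw [← h3]
  congr 1
  funext C
  have : nsep r K (g x) (g y) (C.map g) = nsep r K x y C := nsep_map hR3 r K g hg x y C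
  show ind (nsep r K (g x) (g y) (C.map g) < Kc) = _
  rw [this]

end S1x

theorem pf_S1 (hR3 : R3) : S1 := by
  intro Λ r K Kc N x y hΛ
  have hsub : MeasurePreserving (fun t : ℝ => Λ - t) volume volume :=
    Measure.measurePreserving_sub_left volume Λ
  refine ⟨?_, ?_, ?_, ?_⟩
  · simp only [S1x.nsep_symm r K x y]
  · refine S1x.key hR3 Λ r K Kc N x y (fun p => (Λ - p.1, p.2)) ?_ ?_ ?_ ?_
    · intro p
      ext <;> simp
    · exact hsub.prod (MeasurePreserving.id volume)
    · ext p
      simp only [Sq, mem_preimage, mem_prod, mem_Icc]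
      constructor
      · rintro ⟨⟨h1, h2⟩, h3⟩
        exact ⟨⟨by linarith, by linarith⟩, h3⟩
      · rintro ⟨⟨h1, h2⟩, h3⟩
        exact ⟨⟨by linarith, by linarith⟩, h3⟩
    · intro p q
      simp only [nm, Prod.fst_sub, Prod.snd_sub]
      congr 1
      ring
  · refine S1x.key hR3 Λ r K Kc N x y (fun p => (p.1, Λ - p.2)) ?_ ?_ ?_ ?_
    · intro p
      ext <;> simp
    · exact (MeasurePreserving.id volume).prod hsub
    · ext p
      simp only [Sq, mem_preimage, mem_prod, mem_Icc]
      constructor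
      · rintro ⟨h3, ⟨h1, h2⟩⟩
        exact ⟨h3, ⟨by linarith, by linarith⟩⟩
      · rintro ⟨h3, ⟨h1, h2⟩⟩
        exact ⟨h3, ⟨by linarith, by linarith⟩⟩
    · intro p q
      simp only [nm, Prod.fst_sub, Prod.snd_sub]
      congr 1
      ring
  · refine S1x.key hR3 Λ r K Kc N x y (fun p => (p.2, p.1)) ?_ ?_ ?_ ?_
    · intro p
      rfl
    · exact Measure.measurePreserving_swap
    · ext p
      simp only [Sq, mem_preimage, mem_prod, mem_Icc]
      exact and_comm
    · intro p q
      simp only [nm, Prod.fst_sub, Prod.snd_sub]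
      congr 1
      ring

end

end Pool.Agent.Helper59.RG
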