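import Pool.Agent.Helper59.RG.St2

/-!
# Project RG, piece S2: reduction to pairs in canonical position
-/

set_option autoImplicit false

namespace Pool.Agent.Helper59.RG

open MeasureTheory Set
open scoped ENNReal

theorem pf_S2 (hG0 : G0) : S2 := by
  intro Λ Φ hΛ hsym hr1 hr2 htr hcan hfar
  -- first coordinate at most `3/4 Λ`
  have hD : ∀ x y : E, x ∈ Sq Λ → y ∈ Sq Λ → |x.2 - y.2| ≤ x.1 - y.1 → 0 < x.1 - y.1 →
      x.1 ≤ 3 / 4 * Λ → Φ x y := by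
    intro x y hx hy h1 h2 h3
    obtain ⟨⟨hx1, hx1'⟩, ⟨hx2, hx2'⟩⟩ := hx
    obtain ⟨⟨hy1, hy1'⟩, ⟨hy2, hy2'⟩⟩ := hy
    by_cases h4 : x.2 ≤ 1 / 2 * Λ
    · exact hcan x y ⟨⟨⟨hx1, hx1'⟩, ⟨hx2, hx2'⟩⟩, ⟨⟨hy1, hy1'⟩, ⟨hy2, hy2'⟩⟩, h1, h2, h3, h4⟩
    · push Not at h4
      refine hr2 x y (hcan _ _ ⟨⟨⟨hx1, hx1'⟩, ⟨?_, ?_⟩⟩, ⟨⟨hy1, hy1'⟩, ⟨?_, ?_⟩⟩, ?_, h2, h3, ?_⟩)
      · dsimp only; linarith
      · dsimp only; linarith
      · dsimp only; linarith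
      · dsimp only; linarith
      · dsimp only
        rw [show Λ - x.2 - (Λ - y.2) = -(x.2 - y.2) by ring, abs_neg]
        exact h1
      · dsimp only; linarith
  have hC : ∀ x y : E, x ∈ Sq Λ → y ∈ Sq Λ → |x.2 - y.2| ≤ x.1 - y.1 → 0 < x.1 - y.1 →
      x.1 - y.1 < Λ / 2 → Φ x y := by
    intro x y hx hy h1 h2 h3
    by_cases h4 : x.1 ≤ 3 / 4 * Λ
    · exact hD x y hx hy h1 h2 h4
    · push Not at h4
      obtain ⟨⟨hx1, hx1'⟩, ⟨hx2, hx2'⟩⟩ := hx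
      obtain ⟨⟨hy1, hy1'⟩, ⟨hy2, hy2'⟩⟩ := hy
      refine hr1 x y (hsym _ _ (hD _ _ ⟨⟨?_, ?_⟩, ⟨hy2, hy2'⟩⟩ ⟨⟨?_, ?_⟩, ⟨hx2, hx2'⟩⟩ ?_ ?_ ?_))
      · dsimp only; linarith
      · dsimp only; linarith
      · dsimp only; linarith
      · dsimp only; linarith
      · dsimp only
        rw [abs_sub_comm]
        linarith
      · dsimp only; linarith
      · dsimp only; linarith
  have hB : ∀ x y : E, x ∈ Sq Λ → y ∈ Sq Λ → |x.2 - y.2| ≤ |x.1 - y.1| → x ≠ y →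
      |x.1 - y.1| < Λ / 2 → Φ x y := by
    intro x y hx hy h1 hne h3
    rcases lt_trichotomy x.1 y.1 with h | h | h
    · refine hsym _ _ (hC y x hy hx ?_ ?_ ?_)
      · rw [abs_of_nonpos (by linarith : x.1 - y.1 ≤ 0)] at h1
        rw [abs_sub_comm]
        linarith
      · linarith
      · rw [abs_of_nonpos (by linarith : x.1 - y.1 ≤ 0)] at h3
        linarith
    · exfalso
      apply hne
      rw [h, sub_self, abs_zero] at h1
      have h5 : |x.2 - y.2| = 0 := le_antisymm h1 (abs_nonneg _)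
      rw [abs_eq_zero] at h5
      exact Prod.ext h (by linarith)
    · refine hC x y hx hy ?_ ?_ ?_
      · rwa [abs_of_nonneg (by linarith : 0 ≤ x.1 - y.1)] at h1
      · linarith
      · rwa [abs_of_nonneg (by linarith : 0 ≤ x.1 - y.1)] at h3
  intro x y hx hy hne
  by_cases h0 : Λ / 2 ≤ nm (x - y)
  · exact hfar x y hx hy h0
  · push Not at h0
    obtain ⟨h1, h2, -, -⟩ := hG0.2.2.1 (x - y)
    simp only [Prod.fst_sub, Prod.snd_sub] at h1 h2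
    by_cases h3 : |x.2 - y.2| ≤ |x.1 - y.1|
    · exact hB x y hx hy h3 hne (h1.trans_lt h0)
    · push Not at h3
      refine htr x y (hB _ _ ⟨hx.2, hx.1⟩ ⟨hy.2, hy.1⟩ h3.le ?_ (h2.trans_lt h0))
      intro h4
      apply hne
      have h5 := congrArg Prod.fst h4
      have h6 := congrArg Prod.snd h4
      exact Prod.ext h6 h5

end Pool.Agent.Helper59.RG
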