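import Pool.Agent.Helper59.RG.P.P0
import Pool.Agent.Helper59.RG.P.P2
import Pool.Agent.Helper59.RG.P.P1
import Pool.Agent.Helper59.RG.P.P3
import Pool.Agent.Helper59.RG.P.P4
import Pool.Agent.Helper59.RG.P.P5
import Pool.Agent.Helper59.RG.P.P6
import Pool.Agent.Helper59.RG.P.P7
import Pool.Agent.Helper59.RG.P.P8
import Pool.Agent.Helper59.RG.P.P9
import Pool.Agent.Helper59.RG.P.P10
import Pool.Agent.Helper59.RG.P.P11
import Pool.Agent.Helper59.RG.P.P12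
import Pool.Agent.Helper59.RG.P.P13
import Pool.Agent.Helper59.RG.P.P15
import Pool.Agent.Helper59.RG.P.R1
import Pool.Agent.Helper59.RG.P.R3
import Pool.Agent.Helper59.RG.P.R2
import Pool.Agent.Helper59.RG.P.R4
import Pool.Agent.Helper59.RG.P.R5
import Pool.Agent.Helper59.RG.P.G0
import Pool.Agent.Helper59.RG.P.G1
import Pool.Agent.Helper59.RG.P.G2
import Pool.Agent.Helper59.RG.P.G3
import Pool.Agent.Helper59.RG.P.G4
import Pool.Agent.Helper59.RG.P.G5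
import Pool.Agent.Helper59.RG.P.G6
import Pool.Agent.Helper59.RG.P.G7
import Pool.Agent.Helper59.RG.P.A0
import Pool.Agent.Helper59.RG.P.A01
import Pool.Agent.Helper59.RG.P.A1
import Pool.Agent.Helper59.RG.P.A2
import Pool.Agent.Helper59.RG.P.A3
import Pool.Agent.Helper59.RG.P.A5
import Pool.Agent.Helper59.RG.P.A4
import Pool.Agent.Helper59.RG.P.A6
import Pool.Agent.Helper59.RG.P.B1
import Pool.Agent.Helper59.RG.P.B2
import Pool.Agent.Helper59.RG.P.B3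
import Pool.Agent.Helper59.RG.P.L1
import Pool.Agent.Helper59.RG.P.L2
import Pool.Agent.Helper59.RG.P.L3
import Pool.Agent.Helper59.RG.P.S1
import Pool.Agent.Helper59.RG.P.S2
import Pool.Agent.Helper59.RG.P.N1
import Pool.Agent.Helper59.RG.P.N5
import Pool.Agent.Helper59.RG.P.N4
import Pool.Agent.Helper59.RG.P.N2
import Pool.Agent.Helper59.RG.P.N3
import Pool.Agent.Helper59.RG.P.M1
import Pool.Agent.Helper59.RG.P.M2
import Pool.Agent.Helper59.RG.P.M3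
import Pool.Agent.Helper59.RG.P.M4
import Pool.Agent.Helper59.RG.P.M5
import Pool.Agent.Helper59.RG.P.F1
import Pool.Agent.Helper59.RG.P.F2
import Pool.Agent.Helper59.RG.P.F3
import Pool.Agent.Helper59.RG.P.F4
import Pool.Agent.Helper59.RG.P.F5
import Pool.Agent.Helper59.RG.P.Main

/-!
# Project RG (MP_4d33fe_pr): all pieces together.
-/

set_option autoImplicit false

namespace Pool.Agent.Helper59.RG

/-- the upper bound for the metric dimension -/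
theorem main : Main := by
  have hP0 : P0 := pf_P0
  have hP2 : P2 := pf_P2 hP0
  have hP1 : P1 := pf_P1 hP0
  have hP3 : P3 := pf_P3 hP0 hP2
  have hP4 : P4 := pf_P4 hP0 hP2 hP3
  have hP5 : P5 := pf_P5 hP0 hP4
  have hP6 : P6 := pf_P6 hP0 hP4 hP5
  have hP7 : P7 := pf_P7 hP0 hP3 hP6
  have hP8 : P8 := pf_P8 hP0 hP5
  have hP9 : P9 := pf_P9 hP0 hP2 hP3
  have hP10 : P10 := pf_P10 hP0 hP3 hP9
  have hP11 : P11 := pf_P11
  have hP12 : P12 := pf_P12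
  have hP15 : P15 := pf_P15
  have hR3 : R3 := pf_R3
  have hR2 : R2 := pf_R2
  have hR4 : R4 := pf_R4 hR2
  have hG0 : G0 := pf_G0
  have hG3 : G3 := pf_G3 hG0
  have hG4 : G4 := pf_G4 hG0
  have hG5 : G5 := pf_G5 hG0
  have hG6 : G6 := pf_G6 hG0
  have hL1 : L1 := pf_L1 hG0 hG5
  have hL2 : L2 := pf_L2 hG0
  have hL3 : L3 := pf_L3 hP0 hP3 hP8 hP15
  have hS1 : S1 := pf_S1 hR3
  have hS2 : S2 := pf_S2 hG0
  have hN1 : N1 := pf_N1
  have hN5 : N5 := pf_N5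
  have hN4 : N4 := pf_N4 hN1
  have hN2 : N2 := pf_N2 hN1
  have hN3 : N3 := pf_N3 hN1
  have hM3 : M3 := pf_M3 hP12 hL2 hL3
  have hM4 : M4 := pf_M4 hP12 hL1 hL3 hN5
  have hF1 : F1 := pf_F1
  have hF3 : F3 := pf_F3 hP0 hP1 hP2
  have hF4 : F4 := pf_F4 hP0 hP2 hP15 hG0 hR4 hF3
  have hF5 : F5 := pf_F5
  have hP13 : P13 := pf_P13 hP0 hP5 hP15
  have hR1 : R1 := pf_R1 hG0
  have hR5 : R5 := pf_R5 hR1
  have hG1 : G1 := pf_G1 hG0 hR1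
  have hG2 : G2 := pf_G2 hG0 hR1
  have hG7 : G7 := pf_G7 hG0 hG1 hG4 hR1
  have hA0 : A0 := pf_A0 hG1 hG4 hR1
  have hA01 : A01 := pf_A01 hG0 hG4 hR1
  have hA1 : A1 := pf_A1 hG0 hG4 hR1 hA0
  have hA2 : A2 := pf_A2 hP13 hR1 hR3 hR4 hG4
  have hA3 : A3 := pf_A3 hG0 hG4 hR1
  have hA5 : A5 := pf_A5 hP0 hP3 hP10 hP11 hP15 hG0 hG4 hG6 hR1 hR4 hA1 hA2 hA3
  have hA4 : A4 := pf_A4 hP0 hP3 hP7 hR4 hR5 hG4
  have hA6 : A6 := pf_A6 hG4 hR1 hA0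
  have hB1 : B1 := pf_B1 hP0 hP3 hP8 hP9 hP15 hG0 hG2 hG3 hG4
  have hB2 : B2 := pf_B2 hP0 hP3 hP8 hP15 hG0 hG4 hG5 hR1 hA0 hA01
  have hB3 : B3 := pf_B3 hP0 hP3 hP8 hP9 hP15 hG0 hG4 hG5 hG7 hR1 hA0 hA01
  have hM1 : M1 := pf_M1 hP0 hP3 hP12 hP15 hR4 hA4 hA5 hA6 hB1 hB2 hB3
  have hM2 : M2 := pf_M2 hP12 hL1 hL3 hN1 hN2 hN3 hN4 hM1
  have hM5 : M5 := pf_M5 hG0 hS1 hS2 hN1 hN5 hM2 hM3 hM4
  have hF2 : F2 := pf_F2 hG0 hR1
  exact pf_Main hM5 hF1 hF2 hF4 hF5 hN5 hP15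

end Pool.Agent.Helper59.RG
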