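import Pool.Agent.Helper59.RG.St

/-!
# Project RG (MP_4d33fe_pr): piece B3, refined bound for the number of separated points in a sector.
-/

set_option autoImplicit false

namespace Pool.Agent.Helper59.RG

open MeasureTheory Set
open scoped ENNReal

noncomputable section

namespace B3x

theorem mflt {W : Set E} {C : Multiset E} {x : E} : x ∈ flt W C ↔ x ∈ C ∧ x ∈ W := by
  unfold flt
  exact @Multiset.mem_filter E (fun x => x ∈ W) (fun _ => Classical.propDecidable _) x C

theorem flt_zero (W : Set E) : flt W 0 = 0 := by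
  unfold flt
  simp

theorem flt_cons_of_mem {W : Set E} {x : E} (C : Multiset E) (h : x ∈ W) :
    flt W (x ::ₘ C) = x ::ₘ flt W C := by
  unfold flt
  exact @Multiset.filter_cons_of_pos E (fun x => x ∈ W) (fun _ => Classical.propDecidable _) x C h

theorem flt_cons_of_not_mem {W : Set E} {x : E} (C : Multiset E) (h : x ∉ W) :
    flt W (x ::ₘ C) = flt W C := by
  unfold flt
  exact @Multiset.filter_cons_of_neg E (fun x => x ∈ W) (fun _ => Classical.propDecidable _) x C h

/-- subadditivity of the number of points -/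
theorem card_split (P Z : Set E) (C : Multiset E) :
    (flt P C).card ≤ (flt Z C).card + (flt (P \ Z) C).card := by
  induction C using Multiset.induction_on with
  | empty => simp [flt_zero]
  | cons a C ih =>
    by_cases hZ : a ∈ Z
    · have h2 : a ∉ P \ Z := fun h => h.2 hZ
      rw [flt_cons_of_mem C hZ, flt_cons_of_not_mem C h2, Multiset.card_cons]
      by_cases hP : a ∈ P
      · rw [flt_cons_of_mem C hP, Multiset.card_cons]
        omega
      · rw [flt_cons_of_not_mem C hP]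
        omega
    · rw [flt_cons_of_not_mem C hZ]
      by_cases hP : a ∈ P
      · have h2 : a ∈ P \ Z := ⟨hP, hZ⟩
        rw [flt_cons_of_mem C hP, flt_cons_of_mem C h2, Multiset.card_cons, Multiset.card_cons]
        omega
      · have h2 : a ∉ P \ Z := fun h => hP h.1
        rw [flt_cons_of_not_mem C hP, flt_cons_of_not_mem C h2]
        omega

/-- a covering bounds the number of points -/
theorem card_cover (C : Multiset E) (Z : E → Set E) (D : Multiset E) :
    ∀ P : Set E, (∀ s ∈ C, s ∈ P → ∃ w ∈ D, s ∈ Z w) →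
      (flt P C).card ≤ (D.map fun w => (flt (Z w) C).card).sum := by
  induction D using Multiset.induction_on with
  | empty =>
    intro P hP
    have : flt P C = 0 := by
      refine Multiset.eq_zero_of_forall_notMem fun x hx => ?_
      rw [mflt] at hx
      obtain ⟨w, hw, -⟩ := hP x hx.1 hx.2
      simp at hw
    simp [this]
  | cons a D ih =>
    intro P hP
    have h1 := card_split P (Z a) C
    have h2 := ih (P \ Z a) (by
      intro s hs hsP
      obtain ⟨w, hw, hsw⟩ := hP s hs hsP.1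
      rw [Multiset.mem_cons] at hw
      rcases hw with rfl | hw
      · exact absurd hsw hsP.2
      · exact ⟨w, hw, hsw⟩)
    rw [Multiset.map_cons, Multiset.sum_cons]
    omega

theorem sum_le_mul (D : Multiset E) (f : E → ℕ) (M : ℕ) (h : ∀ w ∈ D, f w ≤ M) :
    (D.map f).sum ≤ D.card * M := by
  have := Multiset.sum_le_card_nsmul (D.map f) M (by
    intro x hx
    rw [Multiset.mem_map] at hx
    obtain ⟨w, hw, rfl⟩ := hx
    exact h w hw)
  simpa using this

/-- powers as products -/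
theorem pow_card (t : ℝ≥0∞) (W : Set E) (C : Multiset E) :
    t ^ (flt W C).card = (C.map fun x => W.indicator (fun _ => t) x + (Wᶜ).indicator (fun _ => 1) x).prod := by
  induction C using Multiset.induction_on with
  | empty => simp [flt_zero]
  | cons a C ih =>
    rw [Multiset.map_cons, Multiset.prod_cons, ← ih]
    by_cases h : a ∈ W
    · rw [flt_cons_of_mem C h, Multiset.card_cons, pow_succ]
      have h2 : a ∉ Wᶜ := fun h' => h' h
      rw [Set.indicator_of_mem h, Set.indicator_of_notMem h2, add_zero, mul_comm]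
    · rw [flt_cons_of_not_mem C h]
      have h2 : a ∈ Wᶜ := h
      rw [Set.indicator_of_notMem h, Set.indicator_of_mem h2, zero_add, one_mul]

theorem pow_card_ms (t : ℝ≥0∞) (W : Set E) {N : ℕ} (X : Fin N → E) :
    t ^ (flt W (ms X)).card =
      ∏ i, (W.indicator (fun _ => t) (X i) + (Wᶜ).indicator (fun _ => 1) (X i)) := by
  rw [pow_card]
  unfold ms
  rw [Multiset.map_map]
  rfl

/-- joint measurability -/
theorem Mj_pow (t : ℝ≥0∞) (Z : E → Set E) (hZ : MeasurableSet {p : E × E | p.2 ∈ Z p.1}) :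
    Mj fun (w : E) (C : Multiset E) => t ^ (flt (Z w) C).card := by
  intro N
  simp only [pow_card_ms]
  refine Finset.measurable_prod _ fun i _ => ?_
  have h1 : Measurable fun p : E × (Fin N → E) => (p.1, p.2 i) :=
    measurable_fst.prodMk ((measurable_pi_apply i).comp measurable_snd)
  refine Measurable.add ?_ ?_
  · have h2 : Measurable (({p : E × E | p.2 ∈ Z p.1}).indicator (fun _ => t)) :=
      measurable_const.indicator hZ
    exact h2.comp h1
  · have h2 : Measurable ((({p : E × E | p.2 ∈ Z p.1})ᶜ).indicator (fun _ => (1 : ℝ≥0∞))) :=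
      measurable_const.indicator hZ.compl
    exact h2.comp h1

theorem Mf_pow (t : ℝ≥0∞) (W : Set E) (hW : MeasurableSet W) :
    Mf fun C => t ^ (flt W C).card := by
  intro N
  simp only [pow_card_ms]
  refine Finset.measurable_prod _ fun i _ => ?_
  refine Measurable.add ?_ ?_
  · exact (measurable_const.indicator hW).comp (measurable_pi_apply i)
  · exact (measurable_const.indicator hW.compl).comp (measurable_pi_apply i)

theorem measurable_sl : Measurable sl := measurable_snd.div measurable_fst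

theorem measurable_nm : Measurable nm := by
  unfold nm
  fun_prop

/-- measure of a set -/
theorem mu_bound (hP15 : P15) {Λ l B : ℝ} (hΛ : 0 < Λ) (hl2 : l ≤ Λ ^ 2)
    (hB : 0 ≤ B) (W : Set E) (hW : MeasurableSet W) (hv : volume W ≤ ENNReal.ofReal B) :
    l * (mu Λ W).toReal ≤ B := by
  have h1 : mu Λ W ≤ ENNReal.ofReal (1 / Λ ^ 2 * B) := by
    rw [(hP15 Λ hΛ).2 W hW, ENNReal.ofReal_mul (by positivity)]
    gcongr
    exact (measure_mono inter_subset_left).trans hv
  have h2 : (mu Λ W).toReal ≤ 1 / Λ ^ 2 * B := by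
    have h3 : 0 ≤ 1 / Λ ^ 2 * B := by positivity
    exact ENNReal.toReal_le_of_le_ofReal h3 h1
  calc l * (mu Λ W).toReal ≤ Λ ^ 2 * (1 / Λ ^ 2 * B) := by gcongr
    _ = B := by field_simp

/-- exponential moments -/
theorem PE_bound (hP3 : P3) (hP8 : P8) (hP15 : P15) {Λ l B e : ℝ} {M : ℕ} (hΛ : 0 < Λ)
    (hl : 0 ≤ l) (hl2 : l ≤ Λ ^ 2)
    (hB : 0 ≤ B) (W : Set E) (hW : MeasurableSet W) (hv : volume W ≤ ENNReal.ofReal B)
    (hM : 2 * B + 20 * e ≤ M) :
    PE l (mu Λ) (fun C => ENNReal.ofReal (Real.exp (-M)) *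
      ENNReal.ofReal (Real.exp 1) ^ (flt W C).card) ≤ ENNReal.ofReal (Real.exp (-(20 * e))) := by
  have := (hP15 Λ hΛ).1
  rw [(hP3 l (mu Λ)).2.2.1 _ _ ENNReal.ofReal_ne_top,
    hP8 l (mu Λ) W (Real.exp 1) hl (Real.exp_pos 1).le hW,
    ← ENNReal.ofReal_mul (Real.exp_pos _).le, ← Real.exp_add]
  apply ENNReal.ofReal_le_ofReal
  apply Real.exp_le_exp.mpr
  have h1 := mu_bound hP15 hΛ hl2 hB W hW hv
  have h0 : 0 ≤ l * (mu Λ W).toReal := mul_nonneg hl ENNReal.toReal_nonneg
  have h2 : Real.exp 1 < 2.7182818286 := Real.exp_one_lt_d9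
  have h3 : (Real.exp 1 - 1) * (l * (mu Λ W).toReal) ≤ 2 * (l * (mu Λ W).toReal) := by
    gcongr
    linarith
  linarith

/-- the part of the lune in a sector -/
def V (c : Cx) (j : ℕ) : Set E :=
  {w | w ∈ c.Lu ∧ 0 < (w - c.u).1 ∧ 1 / 4 + j * c.De - c.th ≤ sl (w - c.u) ∧
    sl (w - c.u) < 1 / 4 + (j + 1) * c.De + c.th}

/-- the angle of the chaining -/
def om (c : Cx) : ℝ := Nat.clog 2 (c.K + 1) * (2 * √((2 * c.h + c.rho) / c.r))

/-- the points near a boundary in nearly the same direction as a given point -/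
def Z (c : Cx) (w : E) : Set E := {s | s ∈ c.Fr ∧ |sl (s - c.u) - sl (w - c.u)| ≤ om c}

theorem om_nonneg (c : Cx) : 0 ≤ om c := by
  unfold om
  positivity

theorem th_nonneg (c : Cx) : 0 ≤ c.th := by
  unfold Cx.th
  positivity

theorem meas_V (c : Cx) (j : ℕ) (hLu : MeasurableSet c.Lu) : MeasurableSet (V c j) := by
  have h1 : Measurable fun w : E => w - c.u := measurable_id.sub_const c.u
  have h2 : Measurable fun w : E => sl (w - c.u) := measurable_sl.comp h1
  have h3 : Measurable fun w : E => (w - c.u).1 := measurable_fst.comp h1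
  exact hLu.inter ((measurableSet_lt measurable_const h3).inter
    ((measurableSet_le measurable_const h2).inter (measurableSet_lt h2 measurable_const)))

theorem meas_Z (c : Cx) (hFr : MeasurableSet c.Fr) :
    MeasurableSet {p : E × E | p.2 ∈ Z c p.1} := by
  have h1 : Measurable fun w : E => w - c.u := measurable_id.sub_const c.u
  have h2 : Measurable fun w : E => sl (w - c.u) := measurable_sl.comp h1
  have h3 : Measurable fun p : E × E => |sl (p.2 - c.u) - sl (p.1 - c.u)| :=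
    ((h2.comp measurable_snd).sub (h2.comp measurable_fst)).abs
  exact (measurable_snd hFr).inter (measurableSet_le h3 measurable_const)

/-- translation -/
theorem vol_tr (u : E) (S : Set E) : volume ((fun w : E => w - u) ⁻¹' S) = volume S := by
  simp [sub_eq_add_neg]

theorem vol_V (hG0 : G0) (hG4 : G4) (hG5 : G5) (c : Cx) (Λ : ℝ) (hc : c.Ok Λ) (j : ℕ) :
    volume (V c j) ≤ ENNReal.ofReal (2 * (c.De * c.rho * c.r)) := by
  obtain ⟨-, -, -, -, -, -, -, -, -, -, -, -, -, -, -, -, -, -, hρ0, hρ, -, -⟩ := hG4 c Λ hc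
  have hth := th_nonneg c
  have hr := hc.hr
  have hmg : c.th ≤ c.mg := by
    unfold Cx.mg
    have : 0 ≤ 8 * c.rho / c.r := by positivity
    linarith
  have hmg0 : 0 ≤ c.mg := hth.trans hmg
  have hmg1 := hc.hmg
  have hDe : c.De = 3 * c.mg := rfl
  have hDe0 : 0 ≤ c.De := by rw [hDe]; linarith
  have hj : 0 ≤ (j : ℝ) * c.De := by positivity
  have hsub : V c j ⊆ (fun w : E => w - c.u) ⁻¹' {x : E | 0 < x.1 ∧
      1 / 4 + j * c.De - c.th ≤ sl x ∧ sl x ≤ 1 / 4 + (j + 1) * c.De + c.th ∧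
      c.r - c.rho < nm x ∧ nm x ≤ c.r} := by
    rintro w ⟨⟨hw1, hw2⟩, hw3, hw4, hw5⟩
    refine ⟨hw3, hw4, hw5.le, ?_, hw1⟩
    have h1 : nm (w - c.v) ≤ nm (w - c.u) + nm (c.u - c.v) := by
      have := hG0.1 (w - c.u) (c.u - c.v)
      simpa using this
    have h2 : nm (c.u - c.v) = c.rho := rfl
    linarith
  refine (measure_mono hsub).trans ?_
  rw [vol_tr]
  refine ((hG5 _ _ _ _ (by linarith) (by nlinarith) (by linarith) (by linarith)).1).trans ?_
  apply ENNReal.ofReal_le_ofReal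
  have h3 : 1 / 4 + (j + 1) * c.De + c.th - (1 / 4 + j * c.De - c.th) = c.De + 2 * c.th := by ring
  rw [h3]
  have h4 : c.r ^ 2 - (c.r - c.rho) ^ 2 ≤ 2 * (c.rho * c.r) := by nlinarith
  have h5 : 0 ≤ c.r ^ 2 - (c.r - c.rho) ^ 2 := by nlinarith
  have h6 : c.De + 2 * c.th ≤ 2 * c.De := by linarith
  have h7 : 0 ≤ c.rho * c.r := by positivity
  calc (c.De + 2 * c.th) * (c.r ^ 2 - (c.r - c.rho) ^ 2) / 2
      ≤ (2 * c.De) * (2 * (c.rho * c.r)) / 2 := by gcongr
    _ = 2 * (c.De * c.rho * c.r) := by ring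

theorem vol_Z (hG4 : G4) (hG5 : G5) (c : Cx) (Λ : ℝ) (hc : c.Ok Λ) (w : E) :
    volume (Z c w) ≤
      ENNReal.ofReal (2 * (om c * (c.K ^ 2 * c.r * (c.K * c.h + c.rho)))) := by
  obtain ⟨hACn, -, -, -, -, -, -, -, -, -, -, -, -, -, -, -, -, -, hρ0, hρ, hKh, -⟩ := hG4 c Λ hc
  have hr := hc.hr
  have hh := hc.hh
  have hω := om_nonneg c
  set σ := sl (w - c.u) with hσ
  let S : ℕ → Set E := fun k => {x : E | 0 < x.1 ∧
      max (σ - om c) 0 ≤ sl x ∧ sl x ≤ max (σ + om c) 0 ∧
      (k + 1) * (c.r - c.h) - c.rho < nm x ∧ nm x ≤ (k + 1) * c.r}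
  have hsub : Z c w ⊆ ⋃ k ∈ Finset.range c.K, (fun w : E => w - c.u) ⁻¹' (S k) := by
    rintro s ⟨⟨hs1, k, hk, hs2, hs3⟩, hs4⟩
    have h1 := hACn hs1
    obtain ⟨h2, h3, -, -⟩ := h1
    rw [abs_le] at hs4
    simp only [mem_iUnion]
    refine ⟨k, Finset.mem_range.mpr hk, ?_, ?_, ?_, hs2, hs3⟩
    · exact lt_of_lt_of_le (by positivity) h2
    · exact max_le (by linarith [hs4.1]) (by linarith)
    · exact le_max_of_le_left (by linarith [hs4.2])
  have hk : ∀ k ∈ Finset.range c.K, volume ((fun w : E => w - c.u) ⁻¹' (S k)) ≤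
      ENNReal.ofReal (2 * (om c * (c.K * c.r * (c.K * c.h + c.rho)))) := by
    intro k hk
    rw [Finset.mem_range] at hk
    rw [vol_tr]
    have hk1 : (k : ℝ) + 1 ≤ c.K := by exact_mod_cast hk
    have hk0 : (0 : ℝ) ≤ k := by positivity
    have h1 : ((k : ℝ) + 1) * c.h ≤ c.K * c.h := by gcongr
    have h2 : c.r ≤ ((k : ℝ) + 1) * c.r := by nlinarith
    have h2' : 0 ≤ ((k : ℝ) + 1) * c.h := by positivity
    have ha : max (σ - om c) 0 ≤ max (σ + om c) 0 := max_le_max (by linarith) le_rfl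
    have hd1 : 0 ≤ ((k : ℝ) + 1) * (c.r - c.h) - c.rho := by
      rw [mul_sub]
      linarith
    have hd12 : ((k : ℝ) + 1) * (c.r - c.h) - c.rho ≤ (k + 1) * c.r := by
      rw [mul_sub]
      linarith
    refine ((hG5 _ _ _ _ (le_max_right _ _) ha hd1 hd12).1).trans ?_
    apply ENNReal.ofReal_le_ofReal
    have hba : max (σ + om c) 0 - max (σ - om c) 0 ≤ 2 * om c := by
      rcases le_total (σ + om c) 0 with h | h
      · rw [max_eq_right h]
        have := le_max_right (σ - om c) 0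
        linarith
      · rw [max_eq_left h]
        have := le_max_left (σ - om c) 0
        linarith
    have hdd : ((k + 1) * c.r) ^ 2 - (((k : ℝ) + 1) * (c.r - c.h) - c.rho) ^ 2 ≤
        2 * (c.K * c.r * (c.K * c.h + c.rho)) := by
      have e1 : ((k + 1) * c.r) ^ 2 - (((k : ℝ) + 1) * (c.r - c.h) - c.rho) ^ 2 =
        ((k + 1) * c.h + c.rho) * ((k + 1) * c.r + (((k : ℝ) + 1) * (c.r - c.h) - c.rho)) := by
        ring
      rw [e1]
      have e2 : (k + 1) * c.r + (((k : ℝ) + 1) * (c.r - c.h) - c.rho) ≤ 2 * (c.K * c.r) := by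
        have : ((k : ℝ) + 1) * c.r ≤ c.K * c.r := by gcongr
        linarith
      have e3 : ((k : ℝ) + 1) * c.h + c.rho ≤ c.K * c.h + c.rho := by linarith
      have e4 : 0 ≤ c.K * c.h + c.rho := by linarith
      have e5 : 0 ≤ (k + 1) * c.r + (((k : ℝ) + 1) * (c.r - c.h) - c.rho) := by
        linarith
      calc ((k + 1) * c.h + c.rho) * ((k + 1) * c.r + (((k : ℝ) + 1) * (c.r - c.h) - c.rho))
          ≤ (c.K * c.h + c.rho) * (2 * (c.K * c.r)) := by gcongr
        _ = 2 * (c.K * c.r * (c.K * c.h + c.rho)) := by ring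
    have hdd0 : 0 ≤ ((k + 1) * c.r) ^ 2 - (((k : ℝ) + 1) * (c.r - c.h) - c.rho) ^ 2 := by
      have := pow_le_pow_left₀ hd1 hd12 2
      linarith
    have hba0 : 0 ≤ max (σ + om c) 0 - max (σ - om c) 0 := by linarith
    calc (max (σ + om c) 0 - max (σ - om c) 0) *
          (((k + 1) * c.r) ^ 2 - (((k : ℝ) + 1) * (c.r - c.h) - c.rho) ^ 2) / 2
        ≤ (2 * om c) * (2 * (c.K * c.r * (c.K * c.h + c.rho))) / 2 := by gcongr
      _ = 2 * (om c * (c.K * c.r * (c.K * c.h + c.rho))) := by ring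
  calc volume (Z c w) ≤ volume (⋃ k ∈ Finset.range c.K, (fun w : E => w - c.u) ⁻¹' (S k)) :=
        measure_mono hsub
    _ ≤ ∑ k ∈ Finset.range c.K, volume ((fun w : E => w - c.u) ⁻¹' (S k)) :=
        measure_biUnion_finset_le _ _
    _ ≤ ∑ k ∈ Finset.range c.K,
        ENNReal.ofReal (2 * (om c * (c.K * c.r * (c.K * c.h + c.rho)))) := Finset.sum_le_sum hk
    _ = c.K * ENNReal.ofReal (2 * (om c * (c.K * c.r * (c.K * c.h + c.rho)))) := by
        rw [Finset.sum_const, Finset.card_range, nsmul_eq_mul]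
    _ = ENNReal.ofReal (2 * (om c * (c.K ^ 2 * c.r * (c.K * c.h + c.rho)))) := by
        rw [← ENNReal.ofReal_natCast, ← ENNReal.ofReal_mul (by positivity)]
        congr 1
        ring

/-- pointwise estimate -/
theorem T_le (hG7 : G7) (hA0 : A0) (hA01 : A01) (c : Cx) (Λ : ℝ) (hc : c.Ok Λ)
    (C : Multiset E) (hTP : c.TP C) (j M1 M2 : ℕ) (h1 : (flt (V c j) C).card ≤ M1)
    (h2 : ∀ w ∈ C, w ∈ c.Lu → (flt (Z c w) C).card ≤ M2) : c.T j C ≤ M1 * M2 := by
  unfold Cx.T
  have hcov := card_cover C (Z c) (flt (V c j) C)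
    {s | s ∈ c.Aj j ∧ ∃ k < c.K, Rch c.r c.u (c.W j) C k s ∧ ¬ Rch c.r c.v (c.W j) C k s}
    (by
      rintro s hs ⟨hsA, k, hk, hsu, hsv⟩
      have hu := (hA0 c Λ C s c.u k j hc hTP hs hsA (Or.inl rfl) hk).1
      have hv := (hA0 c Λ C s c.v k j hc hTP hs hsA (Or.inr rfl) hk).1
      have hsu' := hu.mpr hsu
      have hsv' : ¬ Rch c.r c.v univ C k s := fun h => hsv (hv.mp h)
      obtain ⟨hsA1, hsA2, hsA3⟩ := hsA
      obtain ⟨w, hwC, hwL, ⟨hw1, hw2, hw3⟩, hw4⟩ := hG7 c Λ C k s hc hTP hs hsA1 hk hsu' hsv'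
      have hF := hA01 c Λ C s k hc hTP hs hsA1 hk hsu' hsv'
      have hr := hc.hr
      rw [abs_le] at hw3
      refine ⟨w, mflt.mpr ⟨hwC, hwL, lt_of_lt_of_le (by positivity) hw1, by linarith [hw3.1],
        by linarith [hw3.2]⟩, hF, hw4⟩)
  refine hcov.trans ((sum_le_mul _ _ M2 ?_).trans (Nat.mul_le_mul_right M2 h1))
  intro w hw
  rw [mflt] at hw
  exact h2 w hw.1 hw.2.1

theorem one_le_pow {M n : ℕ} (h : M ≤ n) :
    (1 : ℝ≥0∞) ≤ ENNReal.ofReal (Real.exp (-M)) * ENNReal.ofReal (Real.exp 1) ^ n := by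
  rw [← ENNReal.ofReal_pow (Real.exp_pos 1).le, ← ENNReal.ofReal_mul (Real.exp_pos _).le,
    ← Real.exp_nat_mul, ← Real.exp_add, ← ENNReal.ofReal_one]
  apply ENNReal.ofReal_le_ofReal
  apply Real.one_le_exp
  have : (M : ℝ) ≤ n := by exact_mod_cast h
  linarith

/-- points of the lune are not near a boundary in the target square -/
theorem not_mem_Z (hG0 : G0) (c : Cx) (Λ : ℝ) (hc : c.Ok Λ) (w : E) (hw : w ∈ c.Lu) :
    w ∉ Z c w := by
  rintro ⟨⟨hA, -⟩, -⟩
  obtain ⟨hw1, -⟩ := hw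
  have h1 : c.R ≤ (w - c.u).1 := hA.1.1
  have h2 := (hG0.2.2.1 (w - c.u)).1
  have h3 := le_abs_self (w - c.u).1
  have := hc.hR
  have := hc.hr
  linarith

theorem ers_card {W : Set E} {w : E} {C : Multiset E} (hC : w ∈ C) (hw : w ∉ W) :
    (flt W (ers C w)).card = (flt W C).card := by
  have h1 : w ::ₘ ers C w = C := by
    unfold ers
    exact @Multiset.cons_erase E (Classical.decEq E) C w hC
  conv_rhs => rw [← h1, flt_cons_of_not_mem _ hw]

/-- the functional for the Mecke formula -/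
def phi (c : Cx) (M2 : ℕ) (w : E) (C : Multiset E) : ℝ≥0∞ :=
  (c.Lu).indicator (fun _ => (1 : ℝ≥0∞)) w *
    (ENNReal.ofReal (Real.exp (-M2)) * ENNReal.ofReal (Real.exp 1) ^ (flt (Z c w) C).card)

theorem Mj_phi (c : Cx) (M2 : ℕ) (hLu : MeasurableSet c.Lu) (hFr : MeasurableSet c.Fr) :
    Mj (phi c M2) := by
  intro N
  refine Measurable.mul ((measurable_const.indicator hLu).comp measurable_fst) ?_
  exact (Mj_pow (ENNReal.ofReal (Real.exp 1)) (Z c) (meas_Z c hFr) N).const_mul _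

theorem Mf_phi (c : Cx) (M2 : ℕ) (hLu : MeasurableSet c.Lu) (hFr : MeasurableSet c.Fr) :
    Mf fun C => (C.map fun w => phi c M2 w C).sum := by
  intro N
  have h1 : (fun X : Fin N → E => ((ms X).map fun w => phi c M2 w (ms X)).sum) =
      fun X => ∑ i, phi c M2 (X i) (ms X) := by
    funext X
    unfold ms
    rw [Multiset.map_map]
    rfl
  show Measurable (fun X : Fin N → E => ((ms X).map fun w => phi c M2 w (ms X)).sum)
  rw [h1]
  refine Finset.measurable_sum _ fun i _ => ?_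
  have h2 : Measurable fun X : Fin N → E => ((X i, X) : E × (Fin N → E)) :=
    (measurable_pi_apply i).prodMk measurable_id
  have h3 := (Mj_phi c M2 hLu hFr N).comp h2
  exact h3

theorem phi_ers (hG0 : G0) (c : Cx) (Λ : ℝ) (hc : c.Ok Λ) (M2 : ℕ) (C : Multiset E) :
    (C.map fun w => phi c M2 w C).sum = (C.map fun w => phi c M2 w (ers C w)).sum := by
  congr 1
  refine Multiset.map_congr rfl fun w hw => ?_
  unfold phi
  by_cases h : w ∈ c.Lu
  · rw [ers_card hw (not_mem_Z hG0 c Λ hc w h)]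
  · rw [Set.indicator_of_notMem h, zero_mul, zero_mul]

theorem PE_phi (hP3 : P3) (hP8 : P8) (hP9 : P9) (hP15 : P15) (hG0 : G0) (hG4 : G4) (hG5 : G5)
    (c : Cx) (Λ l e : ℝ) (M2 : ℕ) (hc : c.Ok Λ) (hΛ : 0 < Λ) (hl : 0 ≤ l) (hl2 : l ≤ Λ ^ 2)
    (hM2 : 4 * (om c * (c.K ^ 2 * c.r * (c.K * c.h + c.rho))) + 20 * e ≤ M2) :
    PE l (mu Λ) (fun C => (C.map fun w => phi c M2 w C).sum) ≤
      ENNReal.ofReal (Λ ^ 2 * Real.exp (-(20 * e))) := by
  have hG := hG4 c Λ hc
  obtain ⟨-, -, -, -, -, -, -, -, -, -, -, -, -, hFr, hLu, -, -, -, hρ0, -, -, -⟩ := hG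
  have hr := hc.hr
  have hh := hc.hh
  have hω := om_nonneg c
  have := (hP15 Λ hΛ).1
  have h1 : (fun C : Multiset E => (C.map fun w => phi c M2 w C).sum) =
      fun C => (C.map fun w => phi c M2 w (ers C w)).sum := by
    funext C
    exact phi_ers hG0 c Λ hc M2 C
  rw [h1, hP9 l (mu Λ) (phi c M2) hl (Mj_phi c M2 hLu hFr)]
  have h2 : ∀ w : E, PE l (mu Λ) (phi c M2 w) ≤ ENNReal.ofReal (Real.exp (-(20 * e))) := by
    intro w
    refine le_trans ?_ (PE_bound hP3 hP8 hP15 (M := M2) (e := e)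
      (B := 2 * (om c * (c.K ^ 2 * c.r * (c.K * c.h + c.rho)))) hΛ hl hl2 (by positivity)
      (Z c w) ?_ (vol_Z hG4 hG5 c Λ hc w) (by linarith))
    · refine (hP3 l (mu Λ)).1 _ _ fun C => ?_
      unfold phi
      refine (mul_le_mul_left (Set.indicator_le_self' (fun _ _ => zero_le) w) _).trans ?_
      rw [one_mul]
    · exact measurable_prodMk_left (meas_Z c hFr)
  calc ENNReal.ofReal l * ∫⁻ s, PE l (mu Λ) (phi c M2 s) ∂mu Λ
      ≤ ENNReal.ofReal (Λ ^ 2) * ∫⁻ _, ENNReal.ofReal (Real.exp (-(20 * e))) ∂mu Λ := by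
        gcongr with w
        exact h2 w
    _ = ENNReal.ofReal (Λ ^ 2 * Real.exp (-(20 * e))) := by
        rw [lintegral_const, measure_univ, mul_one, ENNReal.ofReal_mul (by positivity)]

end B3x

open B3x in
theorem pf_B3 (_hP0 : P0) (hP3 : P3) (hP8 : P8) (hP9 : P9) (hP15 : P15) (hG0 : G0) (hG4 : G4)
    (hG5 : G5) (hG7 : G7) (_hR1 : R1) (hA0 : A0) (hA01 : A01) : B3 := by
  intro c Λ l e M1 M2 hc hl hl2 he hM1 hM2
  have hG := hG4 c Λ hc
  obtain ⟨-, -, -, -, -, -, -, -, -, -, -, -, -, hFr, hLu, -, -, -, hρ0, -, -, -⟩ := hG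
  have hr := hc.hr
  have hΛ : 0 < Λ := by
    have h1 := hc.u1
    have h2 := hc.u1'
    have h3 := hc.hR
    linarith
  have := (hP15 Λ hΛ).1
  have hDe0 : 0 ≤ c.De := by
    have h1 := th_nonneg c
    unfold Cx.De Cx.mg
    have : 0 ≤ 8 * c.rho / c.r := by positivity
    linarith
  let F1 : ℕ → Multiset E → ℝ≥0∞ := fun j C =>
    ENNReal.ofReal (Real.exp (-M1)) * ENNReal.ofReal (Real.exp 1) ^ (flt (V c j) C).card
  have hF1m : ∀ j ∈ Finset.range c.J, Mf (F1 j) := fun j _ N =>
    (Mf_pow (ENNReal.ofReal (Real.exp 1)) (V c j) (meas_V c j hLu) N).const_mul _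
  have hF1m' : Mf fun C => ∑ j ∈ Finset.range c.J, F1 j C := fun N =>
    Finset.measurable_sum _ fun j hj => hF1m j hj N
  let F2 : Multiset E → ℝ≥0∞ := fun C => (C.map fun w => phi c M2 w C).sum
  have hF2m : Mf F2 := Mf_phi c M2 hLu hFr
  have hpt : ∀ C : Multiset E, ind (¬ c.Good (M1 * M2) C) ≤
      (∑ j ∈ Finset.range c.J, F1 j C) + (F2 C + ind (¬ c.TP C)) := by
    intro C
    by_cases hTP : c.TP C
    · by_cases hG : c.Good (M1 * M2) C
      · have : ind (¬ c.Good (M1 * M2) C) = 0 := by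
          unfold ind
          exact if_neg (fun h => h hG)
        rw [this]
        exact zero_le
      · have h1 : ind (¬ c.Good (M1 * M2) C) = 1 := by
          unfold ind
          exact if_pos hG
        rw [h1]
        by_cases hbig : ∃ w ∈ C, w ∈ c.Lu ∧ M2 < (flt (Z c w) C).card
        · obtain ⟨w, hwC, hwL, hw⟩ := hbig
          have h2 : (1 : ℝ≥0∞) ≤ phi c M2 w C := by
            unfold phi
            rw [Set.indicator_of_mem hwL, one_mul]
            exact one_le_pow hw.le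
          have h3 : phi c M2 w C ≤ F2 C := by
            refine Multiset.single_le_sum (fun _ _ => zero_le) _ ?_
            exact Multiset.mem_map.mpr ⟨w, hwC, rfl⟩
          exact (h2.trans h3).trans (le_self_add.trans le_add_self)
        · push Not at hbig
          have h2 : ∃ j < c.J, M1 < (flt (V c j) C).card := by
            by_contra hcon
            push Not at hcon
            apply hG
            refine ⟨hTP, fun j hj => ?_⟩
            exact T_le hG7 hA0 hA01 c Λ hc C hTP j M1 M2 (hcon j hj) hbig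
          obtain ⟨j, hj, hjM⟩ := h2
          have h3 : (1 : ℝ≥0∞) ≤ F1 j C := one_le_pow hjM.le
          have h4 : F1 j C ≤ ∑ j ∈ Finset.range c.J, F1 j C :=
            Finset.single_le_sum (f := fun j => F1 j C) (fun _ _ => zero_le)
              (Finset.mem_range.mpr hj)
          exact (h3.trans h4).trans le_self_add
    · have h1 : ind (¬ c.TP C) = 1 := by
        unfold ind
        exact if_pos hTP
      rw [h1]
      have h2 : ind (¬ c.Good (M1 * M2) C) ≤ 1 := by
        by_cases hG : c.Good (M1 * M2) C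
        · have h3 : ind (¬ c.Good (M1 * M2) C) = 0 := by
            unfold ind
            exact if_neg (fun h => h hG)
          rw [h3]
          exact zero_le
        · have h3 : ind (¬ c.Good (M1 * M2) C) = 1 := by
            unfold ind
            exact if_pos hG
          rw [h3]
      exact h2.trans (le_add_self.trans le_add_self)
  have hPE3 := hP3 l (mu Λ)
  calc PE l (mu Λ) (fun C => ind (¬ c.Good (M1 * M2) C))
      ≤ PE l (mu Λ) (fun C => (∑ j ∈ Finset.range c.J, F1 j C) + (F2 C + ind (¬ c.TP C))) :=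
        hPE3.1 _ _ hpt
    _ = (∑ j ∈ Finset.range c.J, PE l (mu Λ) (F1 j)) +
        (PE l (mu Λ) F2 + PE l (mu Λ) (fun C => ind (¬ c.TP C))) := by
        rw [hPE3.2.1 _ _ hF1m', hPE3.2.1 _ _ hF2m, hPE3.2.2.2.1 _ _ hF1m]
    _ ≤ (∑ j ∈ Finset.range c.J, ENNReal.ofReal (Real.exp (-(20 * e)))) +
        (ENNReal.ofReal (Λ ^ 2 * Real.exp (-(20 * e))) +
          PE l (mu Λ) (fun C => ind (¬ c.TP C))) := by
        refine add_le_add (Finset.sum_le_sum fun j _ => ?_) (add_le_add ?_ le_rfl)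
        · exact PE_bound hP3 hP8 hP15 (M := M1) (e := e) (B := 2 * (c.De * c.rho * c.r)) hΛ hl hl2
            (by positivity) (V c j) (meas_V c j hLu) (vol_V hG0 hG4 hG5 c Λ hc j) (by linarith)
        · exact PE_phi hP3 hP8 hP9 hP15 hG0 hG4 hG5 c Λ l e M2 hc hΛ hl hl2 hM2
    _ = PE l (mu Λ) (fun C => ind (¬ c.TP C)) +
        ENNReal.ofReal ((c.J + Λ ^ 2) * Real.exp (-(20 * e))) := by
        rw [Finset.sum_const, Finset.card_range, nsmul_eq_mul, ← ENNReal.ofReal_natCast,
          ← ENNReal.ofReal_mul (by positivity), add_mul, ENNReal.ofReal_add (by positivity)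
          (by positivity)]
        ring

end

end Pool.Agent.Helper59.RG
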