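import Pool.Agent.Helper59.RG.St

set_option autoImplicit false

namespace Pool.Agent.Helper59.RG

open MeasureTheory Set
open scoped ENNReal

namespace G5x

theorem nm_polar {ρ θ : ℝ} (hρ : 0 ≤ ρ) : nm (ρ * Real.cos θ, ρ * Real.sin θ) = ρ := by
  unfold nm
  have : (ρ * Real.cos θ) ^ 2 + (ρ * Real.sin θ) ^ 2 = ρ ^ 2 := by
    have := Real.sin_sq_add_cos_sq θ
    nlinarith
  simp only [this]
  exact Real.sqrt_sq hρ

theorem meas (a b d1 d2 : ℝ) :
    MeasurableSet {x : E | 0 < x.1 ∧ a ≤ sl x ∧ sl x ≤ b ∧ d1 < nm x ∧ nm x ≤ d2} := by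
  have h1 : Measurable (sl : E → ℝ) := by unfold sl; fun_prop
  have h2 : Measurable (nm : E → ℝ) := by unfold nm; fun_prop
  refine MeasurableSet.inter (measurableSet_lt measurable_const measurable_fst) ?_
  refine MeasurableSet.inter (measurableSet_le measurable_const h1) ?_
  refine MeasurableSet.inter (measurableSet_le h1 measurable_const) ?_
  exact MeasurableSet.inter (measurableSet_lt measurable_const h2)
    (measurableSet_le h2 measurable_const)

theorem polar_mem (a b d1 d2 : ℝ) (ρ θ : ℝ) (hρ : 0 < ρ) (hθ : θ ∈ Ioo (-Real.pi) Real.pi) :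
    ((ρ * Real.cos θ, ρ * Real.sin θ) : E) ∈
      {x : E | 0 < x.1 ∧ a ≤ sl x ∧ sl x ≤ b ∧ d1 < nm x ∧ nm x ≤ d2} ↔
    ((ρ, θ) : ℝ × ℝ) ∈ Ioc d1 d2 ×ˢ Icc (Real.arctan a) (Real.arctan b) := by
  simp only [mem_setOf_eq, mem_prod, mem_Ioc, mem_Icc, nm_polar hρ.le]
  constructor
  · rintro ⟨h1, h2, h3, h4, h5⟩
    have hcos : 0 < Real.cos θ := by
      by_contra hcon
      push Not at hcon
      nlinarith
    have hsl : sl (ρ * Real.cos θ, ρ * Real.sin θ) = Real.tan θ := by
      unfold sl
      simp only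
      rw [Real.tan_eq_sin_div_cos]
      field_simp
    rw [hsl] at h2 h3
    have hlt : θ ∈ Ioo (-(Real.pi / 2)) (Real.pi / 2) := by
      constructor
      · by_contra hcon
        push Not at hcon
        have : Real.cos θ ≤ 0 := by
          rw [← Real.cos_neg]
          apply Real.cos_nonpos_of_pi_div_two_le_of_le (by linarith)
          linarith [hθ.1, Real.pi_pos]
        linarith
      · by_contra hcon
        push Not at hcon
        have : Real.cos θ ≤ 0 := by
          apply Real.cos_nonpos_of_pi_div_two_le_of_le hcon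
          linarith [hθ.2, Real.pi_pos]
        linarith
    have hat : Real.arctan (Real.tan θ) = θ := Real.arctan_tan hlt.1 hlt.2
    refine ⟨⟨h4, h5⟩, ?_, ?_⟩
    · rw [← hat]; exact Real.arctan_mono h2
    · rw [← hat]; exact Real.arctan_mono h3
  · rintro ⟨⟨h4, h5⟩, h2, h3⟩
    have hlt : θ ∈ Ioo (-(Real.pi / 2)) (Real.pi / 2) :=
      ⟨(Real.neg_pi_div_two_lt_arctan a).trans_le h2, h3.trans_lt (Real.arctan_lt_pi_div_two b)⟩
    have hcos : 0 < Real.cos θ := Real.cos_pos_of_mem_Ioo hlt
    have hsl : sl (ρ * Real.cos θ, ρ * Real.sin θ) = Real.tan θ := by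
      unfold sl
      simp only
      rw [Real.tan_eq_sin_div_cos]
      field_simp
    have hat : Real.arctan (Real.tan θ) = θ := Real.arctan_tan hlt.1 hlt.2
    rw [← hat] at h2 h3
    rw [hsl]
    exact ⟨by positivity, Real.arctan_strictMono.le_iff_le.1 h2,
      Real.arctan_strictMono.le_iff_le.1 h3, h4, h5⟩

theorem vol (a b d1 d2 : ℝ) (hab : a ≤ b) (h1 : 0 ≤ d1) (h12 : d1 ≤ d2) :
    volume {x : E | 0 < x.1 ∧ a ≤ sl x ∧ sl x ≤ b ∧ d1 < nm x ∧ nm x ≤ d2} =
      ENNReal.ofReal ((Real.arctan b - Real.arctan a) * (d2 ^ 2 - d1 ^ 2) / 2) := by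
  set S := {x : E | 0 < x.1 ∧ a ≤ sl x ∧ sl x ≤ b ∧ d1 < nm x ∧ nm x ≤ d2} with hS
  set R : Set (ℝ × ℝ) := Ioc d1 d2 ×ˢ Icc (Real.arctan a) (Real.arctan b) with hR
  have hSm : MeasurableSet S := meas a b d1 d2
  have hRm : MeasurableSet R := measurableSet_Ioc.prod measurableSet_Icc
  have hRt : R ⊆ polarCoord.target := by
    rintro ⟨ρ, θ⟩ ⟨h3, h4⟩
    rw [polarCoord_target]
    have h5 := Real.neg_pi_div_two_lt_arctan a
    have h6 := Real.arctan_lt_pi_div_two b
    simp only [mem_Ioc, mem_Icc] at h3 h4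
    refine ⟨?_, ?_, ?_⟩
    · simp only [mem_Ioi]; linarith [h3.1]
    · simp only; linarith [Real.pi_pos, h4.1]
    · simp only; linarith [Real.pi_pos, h4.2]
  rw [← lintegral_indicator_one hSm, ← lintegral_comp_polarCoord_symm]
  have e1 : ∫⁻ p in polarCoord.target, ENNReal.ofReal p.1 • S.indicator (1 : E → ℝ≥0∞) (polarCoord.symm p) =
      ∫⁻ p in polarCoord.target, R.indicator (fun p => ENNReal.ofReal p.1) p := by
    refine setLIntegral_congr_fun polarCoord.open_target.measurableSet ?_
    rintro ⟨ρ, θ⟩ hp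
    rw [polarCoord_target] at hp
    have hmem := polar_mem a b d1 d2 ρ θ hp.1 hp.2
    simp only [polarCoord_symm_apply]
    by_cases h : ((ρ, θ) : ℝ × ℝ) ∈ R
    · rw [indicator_of_mem h, indicator_of_mem (hmem.2 h)]
      simp
    · rw [indicator_of_notMem h, indicator_of_notMem (fun hh => h (hmem.1 hh))]
      simp
  rw [e1, lintegral_indicator hRm, Measure.restrict_restrict hRm, inter_eq_self_of_subset_left hRt]
  have e2 : ∫⁻ p in R, ENNReal.ofReal p.1 =
      (∫⁻ x in Ioc d1 d2, ENNReal.ofReal x) * ∫⁻ _y in Icc (Real.arctan a) (Real.arctan b), 1 := by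
    rw [hR, Measure.volume_eq_prod, ← Measure.prod_restrict, ← lintegral_prod_mul]
    · simp
    · exact (measurable_id.ennreal_ofReal).aemeasurable
    · exact aemeasurable_const
  rw [e2]
  have e3 : ∫⁻ x in Ioc d1 d2, ENNReal.ofReal x = ENNReal.ofReal ((d2 ^ 2 - d1 ^ 2) / 2) := by
    rw [← integral_id, intervalIntegral.integral_of_le h12,
      ofReal_integral_eq_lintegral_ofReal]
    · exact (continuous_id.integrableOn_Icc).mono_set Ioc_subset_Icc_self
    · rw [Filter.EventuallyLE, ae_restrict_iff' measurableSet_Ioc]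
      refine Filter.Eventually.of_forall fun x hx => ?_
      exact h1.trans hx.1.le
  rw [e3, lintegral_one, Measure.restrict_apply_univ, Real.volume_Icc, ← ENNReal.ofReal_mul]
  · congr 1; ring
  · nlinarith

end G5x

theorem pf_G5 (_hG0 : G0) : G5 := by
  intro a b d1 d2 ha hab h1 h12
  have hsq : 0 ≤ d2 ^ 2 - d1 ^ 2 := by nlinarith
  constructor
  · rw [G5x.vol a b d1 d2 hab h1 h12]
    apply ENNReal.ofReal_le_ofReal
    have hlip : Real.arctan b - Real.arctan a ≤ b - a := by
      have hd : ∀ x ∈ interior (Icc a b), deriv Real.arctan x ≤ 1 := by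
        intro x _
        rw [Real.deriv_arctan]
        rw [div_le_one (by positivity)]
        nlinarith [sq_nonneg x]
      have := (convex_Icc a b).image_sub_le_mul_sub_of_deriv_le Real.continuous_arctan.continuousOn
        (Real.differentiable_arctan.differentiableOn) hd a (left_mem_Icc.2 hab) b
        (right_mem_Icc.2 hab) hab
      linarith
    have := mul_le_mul_of_nonneg_right hlip hsq
    linarith
  · rw [G5x.vol _ _ d1 d2 (by norm_num) h1 h12]
    apply ENNReal.ofReal_le_ofReal
    have hkey : 198 / 1000 ≤ Real.arctan (1 / 2) - Real.arctan (1 / 4) := by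
      have hd : ∀ x ∈ interior (Icc (1 / 4 : ℝ) (1 / 2)), (4 / 5 : ℝ) ≤ deriv Real.arctan x := by
        intro x hx
        rw [interior_Icc] at hx
        rw [Real.deriv_arctan, le_div_iff₀ (by positivity)]
        nlinarith [hx.1, hx.2]
      have h3 := (convex_Icc (1 / 4 : ℝ) (1 / 2)).mul_sub_le_image_sub_of_le_deriv
        Real.continuous_arctan.continuousOn
        (Real.differentiable_arctan.differentiableOn) hd (1 / 4) (left_mem_Icc.2 (by norm_num)) (1 / 2)
        (right_mem_Icc.2 (by norm_num)) (by norm_num)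
      linarith
    have := mul_le_mul_of_nonneg_right hkey hsq
    linarith

end Pool.Agent.Helper59.RG
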