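import Pool.Agent.Helper59.RG.St2

set_option autoImplicit false

namespace Pool.Agent.Helper59.RG

open MeasureTheory Set Filter Topology
open scoped ENNReal

noncomputable section

namespace M3x

theorem numeric (n r k m : ℝ) (hn : 4 ≤ n) (hm : m ≤ n) (hr : 100 * Real.log n ≤ r ^ 2)
    (hk : k ≤ r ^ 2 / 100) :
    3 * m * Real.exp (k - 3 / 10 * (49 / 100 * r ^ 2)) ≤ 1 / n ^ 3 := by
  have hn0 : 0 < n := by linarith
  have hlog : 0 ≤ Real.log n := Real.log_nonneg (by linarith)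
  have h1 : k - 3 / 10 * (49 / 100 * r ^ 2) ≤ - (10 * Real.log n) := by nlinarith
  have h2 : Real.exp (-(10 * Real.log n)) = 1 / n ^ 10 := by
    rw [Real.exp_neg, one_div]
    congr 1
    have : (10 : ℝ) * Real.log n = Real.log (n ^ 10) := by
      rw [Real.log_pow]; norm_num
    rw [this, Real.exp_log (by positivity)]
  calc 3 * m * Real.exp (k - 3 / 10 * (49 / 100 * r ^ 2))
      ≤ 3 * n * Real.exp (k - 3 / 10 * (49 / 100 * r ^ 2)) := by
        apply mul_le_mul_of_nonneg_right _ (Real.exp_pos _).le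
        linarith
    _ ≤ 3 * n * Real.exp (-(10 * Real.log n)) := by
        apply mul_le_mul_of_nonneg_left _ (by positivity)
        exact Real.exp_le_exp.2 h1
    _ = 3 * n * (1 / n ^ 10) := by rw [h2]
    _ ≤ 1 / n ^ 3 := by
        rw [mul_one_div, div_le_div_iff₀ (by positivity) (by positivity)]
        have h3 : (4 : ℝ) ^ 6 ≤ n ^ 6 := pow_le_pow_left₀ (by norm_num) hn 6
        have h4 : 0 < n ^ 4 := by positivity
        nlinarith [mul_le_mul_of_nonneg_left h3 h4.le]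

end M3x

theorem pf_M3 (hP12 : P12) (hL2 : L2) (hL3 : L3) : M3 := by
  obtain ⟨n0, hn0⟩ := eventually_atTop.1
    ((Real.tendsto_log_atTop.comp tendsto_natCast_atTop_atTop).eventually_ge_atTop (2 : ℝ))
  refine ⟨max n0 4, ?_⟩
  intro n hn r hr1 hr2 K Kc x y hK hKc hx hy hxy
  have hn1 : 4 ≤ n := le_trans (le_max_right _ _) hn
  have hlog : 2 ≤ Real.log n := hn0 n (le_trans (le_max_left _ _) hn)
  have hnR : (4 : ℝ) ≤ n := by exact_mod_cast hn1
  have hsq : 0 < √(n : ℝ) := Real.sqrt_pos.2 (by linarith)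
  have h60 : 100 * Real.log n ≤ Real.log n ^ 60 := by
    have h59 : (2 : ℝ) ^ 59 ≤ Real.log n ^ 59 := pow_le_pow_left₀ (by norm_num) hlog 59
    have h100 : (100 : ℝ) ≤ Real.log n ^ 59 := le_trans (by norm_num) h59
    calc 100 * Real.log n ≤ Real.log n ^ 59 * Real.log n :=
          mul_le_mul_of_nonneg_right h100 (by linarith)
      _ = Real.log n ^ 60 := by ring
  have hr : 1 ≤ r := by linarith
  have hr100 : 100 * Real.log n ≤ r ^ 2 := by nlinarith
  have hcast : ((n - 2 : ℕ) : ℝ) = n - 2 := by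
    rw [Nat.cast_sub (by omega)]; norm_num
  have h1 := hP12 (n - 2) (mu √(n : ℝ)) (fun C => ind (nsep r K x y C < Kc)) (by omega)
  have h2 := hL3 (√(n : ℝ)) r ((n - 2 : ℕ) : ℝ) (49 / 100 * r ^ 2) x y K Kc hsq
    (by rw [Real.sq_sqrt (by linarith), hcast]; linarith) hK
    (hL2 (√(n : ℝ)) r x y (by linarith) (by linarith) hx (by linarith))
  calc II (mu √(n : ℝ)) (n - 2) (fun C => ind (nsep r K x y C < Kc))
      ≤ ENNReal.ofReal (3 * ((n - 2 : ℕ) : ℝ)) *
          PE ((n - 2 : ℕ) : ℝ) (mu √(n : ℝ)) (fun C => ind (nsep r K x y C < Kc)) := h1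
    _ ≤ ENNReal.ofReal (3 * ((n - 2 : ℕ) : ℝ)) *
          ENNReal.ofReal (Real.exp (Kc - 3 / 10 * (49 / 100 * r ^ 2))) := by gcongr
    _ = ENNReal.ofReal (3 * ((n - 2 : ℕ) : ℝ) *
          Real.exp (Kc - 3 / 10 * (49 / 100 * r ^ 2))) :=
        (ENNReal.ofReal_mul (by positivity)).symm
    _ ≤ ENNReal.ofReal (1 / (n : ℝ) ^ 3) := by
        apply ENNReal.ofReal_le_ofReal
        exact M3x.numeric n r Kc _ hnR (by rw [hcast]; linarith) hr100 hKc

end

end Pool.Agent.Helper59.RG
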