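import Pool.Agent.Helper59.RG.St

/-!
# Project RG, piece P0: closure properties of measurable functionals of configurations.
-/

set_option autoImplicit false

namespace Pool.Agent.Helper59.RG

open MeasureTheory Set
open scoped ENNReal

namespace P0x

theorem ms_cons {N : ℕ} (x : E) (X : Fin N → E) :
    ms (Fin.cons x X : Fin (N + 1) → E) = x ::ₘ ms X := by
  unfold ms
  rw [Fin.univ_succ]
  simp [Function.comp_def]

theorem meas_cons {β : Type} [MeasurableSpace β] {N : ℕ} {f : β → E} {g : β → (Fin N → E)}
    (hf : Measurable f) (hg : Measurable g) :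
    Measurable fun b => (Fin.cons (f b) (g b) : Fin (N + 1) → E) := by
  refine measurable_pi_iff.2 fun i => ?_
  refine Fin.cases ?_ (fun j => ?_) i
  · simpa using hf
  · simpa using (measurable_pi_iff.1 hg j)

theorem flt_ms {N : ℕ} (W : Set E) (X : Fin N → E) (S : Finset (Fin N))
    (h : ∀ i, X i ∈ W ↔ i ∈ S) :
    flt W (ms X) = ms (X ∘ S.orderEmbOfFin rfl) := by
  classical
  unfold flt ms
  rw [Multiset.filter_map]
  have h1 : (Finset.univ.map (S.orderEmbOfFin rfl).toEmbedding) = S :=
    Finset.map_orderEmbOfFin_univ S rfl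
  have h2 : Multiset.map (S.orderEmbOfFin rfl) Finset.univ.val = S.val := by
    have h3 := congrArg Finset.val h1
    rw [Finset.map_val] at h3
    exact h3
  rw [← Multiset.map_map, h2]
  congr 1
  have h3 : S = Finset.univ.filter fun i => X i ∈ W := by
    ext i; simp [h]
  conv_rhs => rw [h3]
  rw [Finset.filter_val]
  refine Multiset.filter_congr fun i _ => ?_
  simp

theorem sum_flt {N : ℕ} (W : Set E) (g : E → ℝ≥0∞) (X : Fin N → E) :
    ((flt W (ms X)).map g).sum = ∑ i, W.indicator g (X i) := by
  classical
  unfold flt ms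
  rw [Multiset.filter_map, Multiset.map_map]
  have h : ∑ i, W.indicator g (X i) = ∑ i ∈ Finset.univ.filter (fun i => X i ∈ W), g (X i) := by
    rw [Finset.sum_filter]
    refine Finset.sum_congr rfl fun i _ => ?_
    simp [Set.indicator]
  rw [h, Finset.sum, Finset.filter_val]
  congr 1

theorem part1 (W : Set E) (f : Multiset E → ℝ≥0∞) (hW : MeasurableSet W) (hf : Mf f) :
    Mf fun C => f (flt W C) := by
  classical
  intro N
  have key : (fun X : Fin N → E => f (flt W (ms X))) = fun X => ∑ S : Finset (Fin N),
      ({X : Fin N → E | ∀ i, X i ∈ W ↔ i ∈ S}).indicator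
        (fun X => f (ms (X ∘ S.orderEmbOfFin rfl))) X := by
    funext X
    rw [Finset.sum_eq_single (Finset.univ.filter fun i => X i ∈ W)]
    · have hm : ∀ i, X i ∈ W ↔ i ∈ Finset.univ.filter fun i => X i ∈ W := fun i => by simp
      have hm2 : X ∈ {X' : Fin N → E | ∀ i, X' i ∈ W ↔
          i ∈ Finset.univ.filter fun i => X i ∈ W} := hm
      rw [Set.indicator_of_mem hm2, flt_ms W X _ hm]
    · intro S _ hS
      rw [Set.indicator_of_notMem]
      intro hX
      apply hS
      ext i
      simp only [Finset.mem_filter, Finset.mem_univ, true_and]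
      exact (hX i).symm
    · intro h
      exact absurd (Finset.mem_univ _) h
  show Measurable fun X : Fin N → E => f (flt W (ms X))
  rw [key]
  refine Finset.measurable_sum _ fun S _ => ?_
  refine Measurable.indicator ?_ ?_
  · have h1 : Measurable fun X : Fin N → E => X ∘ (S.orderEmbOfFin rfl) := by
      refine measurable_pi_iff.2 fun i => ?_
      exact measurable_pi_apply _
    exact (hf _).comp h1
  · have : {X : Fin N → E | ∀ i, X i ∈ W ↔ i ∈ S} = ⋂ i, {X : Fin N → E | X i ∈ W ↔ i ∈ S} := by
      ext X; simp
    rw [this]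
    refine MeasurableSet.iInter fun i => ?_
    by_cases hi : i ∈ S
    · have : {X : Fin N → E | X i ∈ W ↔ i ∈ S} = (fun X : Fin N → E => X i) ⁻¹' W := by
        ext X; simp [hi]
      rw [this]
      exact measurable_pi_apply i hW
    · have : {X : Fin N → E | X i ∈ W ↔ i ∈ S} = (fun X : Fin N → E => X i) ⁻¹' Wᶜ := by
        ext X; simp [hi]
      rw [this]
      exact measurable_pi_apply i hW.compl

theorem part5 (W : Set E) (g : E → ℝ≥0∞) (hW : MeasurableSet W) (hg : Measurable g) :
    Mf fun C => ((flt W C).map g).sum := by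
  intro N
  show Measurable fun X : Fin N → E => ((flt W (ms X)).map g).sum
  simp only [sum_flt]
  refine Finset.measurable_sum _ fun i _ => ?_
  exact (hg.indicator hW).comp (measurable_pi_apply i)

theorem part4 (W : Set E) (hW : MeasurableSet W) :
    Mf fun C => ((flt W C).card : ℝ≥0∞) := by
  have h := part5 W (fun _ => 1) hW measurable_const
  have e : (fun C => ((flt W C).card : ℝ≥0∞)) = fun C => ((flt W C).map fun _ => (1 : ℝ≥0∞)).sum := by
    funext C
    simp
  rw [e]
  exact h

end P0x

theorem pf_P0 : P0 := by
  refine ⟨P0x.part1, ?_, ?_, P0x.part4, P0x.part5⟩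
  · intro f hf N
    have h := (hf (N + 1)).comp (P0x.meas_cons (measurable_fst (α := E) (β := Fin N → E))
      measurable_snd)
    simpa [Function.comp_def, P0x.ms_cons] using h
  · intro β _ F hF
    refine ⟨fun b N => ?_, fun N => ?_⟩
    · exact (hF N).comp (measurable_prodMk_left (x := b))
    · have h := (hF (N + 1)).comp
        (Measurable.prodMk (measurable_fst.comp (measurable_fst (α := β × E) (β := Fin N → E)))
          (P0x.meas_cons (measurable_snd.comp (measurable_fst (α := β × E) (β := Fin N → E)))
            measurable_snd))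
      simpa [Function.comp_def, P0x.ms_cons] using h

end Pool.Agent.Helper59.RG
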