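import Pool.Agent.Helper59.RG.St

/-!
# Project RG, piece P12: from the Poisson process to a fixed number of points.
-/

set_option autoImplicit false

namespace Pool.Agent.Helper59.RG

open MeasureTheory Set
open scoped ENNReal

noncomputable section

namespace P12x

theorem exp_step (n : ℕ) (hn : 1 ≤ n) :
    Real.exp 1 * (n : ℝ) ^ (n + 1) ≤ ((n : ℝ) + 1) ^ (n + 1) := by
  have hn0 : (0 : ℝ) < n := by exact_mod_cast hn
  have h1 : (n : ℝ) / (n + 1) ≤ Real.exp (-(1 / ((n : ℝ) + 1))) := by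
    have := Real.add_one_le_exp (-(1 / ((n : ℝ) + 1)))
    have e : (n : ℝ) / (n + 1) = -(1 / ((n : ℝ) + 1)) + 1 := by
      field_simp
      ring
    rw [e]
    exact this
  have h2 : ((n : ℝ) / (n + 1)) ^ (n + 1) ≤ Real.exp (-1) := by
    calc ((n : ℝ) / (n + 1)) ^ (n + 1) ≤ (Real.exp (-(1 / ((n : ℝ) + 1)))) ^ (n + 1) :=
          pow_le_pow_left₀ (by positivity) h1 _
      _ = Real.exp (-1) := by
          rw [← Real.exp_nat_mul]
          congr 1
          push_cast
          field_simp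
  rw [div_pow, div_le_iff₀ (by positivity)] at h2
  calc Real.exp 1 * (n : ℝ) ^ (n + 1)
      ≤ Real.exp 1 * (Real.exp (-1) * ((n : ℝ) + 1) ^ (n + 1)) :=
        mul_le_mul_of_nonneg_left h2 (Real.exp_pos _).le
    _ = ((n : ℝ) + 1) ^ (n + 1) := by
        rw [← mul_assoc, ← Real.exp_add]
        simp

theorem fact_le (n : ℕ) (hn : 1 ≤ n) :
    (n.factorial : ℝ) * Real.exp n ≤ 3 * (n : ℝ) ^ (n + 1) := by
  induction n, hn using Nat.le_induction with
  | base =>
    have := Real.exp_one_lt_d9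
    norm_num
    linarith
  | succ n hn ih =>
    have hs := exp_step n hn
    have e1 : Real.exp ((n + 1 : ℕ) : ℝ) = Real.exp n * Real.exp 1 := by
      rw [← Real.exp_add]
      push_cast
      rfl
    rw [e1, Nat.factorial_succ]
    push_cast
    calc ((n : ℝ) + 1) * (n.factorial : ℝ) * (Real.exp n * Real.exp 1)
        = ((n : ℝ) + 1) * Real.exp 1 * ((n.factorial : ℝ) * Real.exp n) := by ring
      _ ≤ ((n : ℝ) + 1) * Real.exp 1 * (3 * (n : ℝ) ^ (n + 1)) := by
          apply mul_le_mul_of_nonneg_left ih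
          positivity
      _ = 3 * ((n : ℝ) + 1) * (Real.exp 1 * (n : ℝ) ^ (n + 1)) := by ring
      _ ≤ 3 * ((n : ℝ) + 1) * ((n : ℝ) + 1) ^ (n + 1) := by
          apply mul_le_mul_of_nonneg_left hs
          positivity
      _ = 3 * ((n : ℝ) + 1) ^ (n + 1 + 1) := by ring

theorem weight (n : ℕ) (hn : 1 ≤ n) :
    1 ≤ (3 * (n : ℝ)) * (Real.exp (-(n : ℝ)) * (n : ℝ) ^ n / n.factorial) := by
  have h := fact_le n hn
  have hf : (0 : ℝ) < n.factorial := by exact_mod_cast n.factorial_pos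
  have e : (3 * (n : ℝ)) * (Real.exp (-(n : ℝ)) * (n : ℝ) ^ n / n.factorial) =
      (3 * (n : ℝ) ^ (n + 1)) / (n.factorial * Real.exp n) := by
    rw [Real.exp_neg]
    field_simp
    ring
  rw [e, one_le_div (by positivity)]
  exact h

end P12x

theorem pf_P12 : P12 := by
  intro N μ F hN
  have hw := P12x.weight N hN
  have h1 : ENNReal.ofReal (Real.exp (-(N : ℝ)) * (N : ℝ) ^ N / N.factorial) * II μ N F ≤
      PE N μ F := by
    unfold PE
    exact ENNReal.le_tsum (f := fun n : ℕ =>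
      ENNReal.ofReal (Real.exp (-(N : ℝ)) * (N : ℝ) ^ n / n.factorial) * II μ n F) N
  calc II μ N F = 1 * II μ N F := (one_mul _).symm
    _ ≤ ENNReal.ofReal ((3 * (N : ℝ)) * (Real.exp (-(N : ℝ)) * (N : ℝ) ^ N / N.factorial)) *
        II μ N F := by
        gcongr
        rw [← ENNReal.ofReal_one]
        exact ENNReal.ofReal_le_ofReal hw
    _ = ENNReal.ofReal (3 * (N : ℝ)) *
        (ENNReal.ofReal (Real.exp (-(N : ℝ)) * (N : ℝ) ^ N / N.factorial) * II μ N F) := by
        rw [ENNReal.ofReal_mul (by positivity), mul_assoc]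
    _ ≤ ENNReal.ofReal (3 * (N : ℝ)) * PE N μ F := by
        gcongr

end

end Pool.Agent.Helper59.RG
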